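import Mathlib

open MeasureTheory Real Finset

namespace Pool.Agent.Helper42.Ent

theorem term_le {p r : ℝ} (hp : 0 ≤ p) (hr : 0 ≤ r) (h : r = 0 → p = 0) :
    p * Real.log r - p * Real.log p ≤ r - p := by
  rcases hp.eq_or_lt with h0 | hp0
  · rw [← h0]; simpa using hr
  · have hr0 : 0 < r := lt_of_le_of_ne hr (fun e => hp0.ne' (h e.symm))
    have h1 : Real.log (r / p) ≤ r / p - 1 := Real.log_le_sub_one_of_pos (by positivity)
    rw [Real.log_div hr0.ne' hp0.ne'] at h1
    have h2 : p * (Real.log r - Real.log p) ≤ p * (r / p - 1) := by gcongr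
    have h3 : p * (r / p - 1) = r - p := by field_simp
    linarith

theorem term_lt {p r : ℝ} (hp : 0 ≤ p) (hr : 0 ≤ r) (h : r = 0 → p = 0) (hne : p ≠ r) :
    p * Real.log r - p * Real.log p < r - p := by
  rcases hp.eq_or_lt with h0 | hp0
  · rw [← h0] at hne ⊢
    have : 0 < r := lt_of_le_of_ne hr hne
    simpa using this
  · have hr0 : 0 < r := lt_of_le_of_ne hr (fun e => hp0.ne' (h e.symm))
    have hne2 : r / p ≠ 1 := by
      intro e
      rw [div_eq_one_iff_eq hp0.ne'] at e
      exact hne e.symm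
    have h1 : Real.log (r / p) < r / p - 1 := Real.log_lt_sub_one_of_pos (by positivity) hne2
    rw [Real.log_div hr0.ne' hp0.ne'] at h1
    have h2 : p * (Real.log r - Real.log p) < p * (r / p - 1) := by gcongr
    have h3 : p * (r / p - 1) = r - p := by field_simp
    linarith

variable {ι : Type*} [Fintype ι]

theorem gibbs {p r : ι → ℝ} (hp : ∀ i, 0 ≤ p i) (hr : ∀ i, 0 ≤ r i) (h : ∀ i, r i = 0 → p i = 0)
    (hs : ∑ i, r i ≤ ∑ i, p i) : ∑ i, negMulLog (p i) ≤ - ∑ i, p i * Real.log (r i) := by
  have h1 : ∑ i, (p i * Real.log (r i) - p i * Real.log (p i)) ≤ ∑ i, (r i - p i) :=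
    sum_le_sum (fun i _ => term_le (hp i) (hr i) (h i))
  rw [sum_sub_distrib, sum_sub_distrib] at h1
  have h2 : ∑ i, negMulLog (p i) = - ∑ i, p i * Real.log (p i) := by
    rw [← sum_neg_distrib]
    apply sum_congr rfl
    intro i _
    unfold negMulLog; ring
  rw [h2]
  linarith

theorem gibbs_eq {p r : ι → ℝ} (hp : ∀ i, 0 ≤ p i) (hr : ∀ i, 0 ≤ r i) (h : ∀ i, r i = 0 → p i = 0)
    (hs : ∑ i, r i ≤ ∑ i, p i) (he : - ∑ i, p i * Real.log (r i) ≤ ∑ i, negMulLog (p i)) :
    ∀ i, p i = r i := by
  by_contra hcon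
  push Not at hcon
  obtain ⟨j, hj⟩ := hcon
  have h1 : ∑ i, (p i * Real.log (r i) - p i * Real.log (p i)) < ∑ i, (r i - p i) :=
    sum_lt_sum (fun i _ => term_le (hp i) (hr i) (h i))
      ⟨j, mem_univ j, term_lt (hp j) (hr j) (h j) hj⟩
  rw [sum_sub_distrib, sum_sub_distrib] at h1
  have h2 : ∑ i, negMulLog (p i) = - ∑ i, p i * Real.log (p i) := by
    rw [← sum_neg_distrib]
    apply sum_congr rfl
    intro i _
    unfold negMulLog; ring
  rw [h2] at he
  linarith

variable {E : Type*} [MeasurableSpace E]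
variable {α β γ δ : Type*}
  [Fintype α] [MeasurableSpace α] [MeasurableSingletonClass α]
  [Fintype β] [MeasurableSpace β] [MeasurableSingletonClass β]
  [Fintype γ] [MeasurableSpace γ] [MeasurableSingletonClass γ]
  [Fintype δ] [MeasurableSpace δ] [MeasurableSingletonClass δ]

/-- probability that `X = s` -/
noncomputable def pr (P : Measure E) (X : E → α) (s : α) : ℝ := P.real (X ⁻¹' {s})

/-- Shannon entropy of a finitely valued random variable -/
noncomputable def ent (P : Measure E) (X : E → α) : ℝ := ∑ s, negMulLog (pr P X s)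

theorem pr_nonneg (P : Measure E) (X : E → α) (s : α) : 0 ≤ pr P X s := measureReal_nonneg

theorem pr_le_one (P : Measure E) [IsProbabilityMeasure P] (X : E → α) (s : α) : pr P X s ≤ 1 :=
  measureReal_le_one

theorem integral_comp (P : Measure E) [IsProbabilityMeasure P] {X : E → α} (hX : Measurable X)
    (g : α → ℝ) : ∫ x, g (X x) ∂P = ∑ s, pr P X s * g s := by
  have hg : Measurable g := measurable_of_countable g
  rw [← integral_map hX.aemeasurable hg.aestronglyMeasurable]
  have : IsProbabilityMeasure (P.map X) := Measure.isProbabilityMeasure_map hX.aemeasurable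
  rw [integral_fintype (hf := Integrable.of_finite)]
  apply sum_congr rfl
  intro s _
  rw [smul_eq_mul, measureReal_def, Measure.map_apply hX (measurableSet_singleton s)]
  rfl

theorem sum_pr (P : Measure E) [IsProbabilityMeasure P] {X : E → α} (hX : Measurable X) :
    ∑ s, pr P X s = 1 := by
  have := integral_comp P hX (fun _ => 1)
  simp only [integral_const, smul_eq_mul, mul_one, measureReal_def, measure_univ,
    ENNReal.toReal_one] at this
  exact this.symm

theorem sum_pr_comp (P : Measure E) [IsProbabilityMeasure P] {X : E → α} (hX : Measurable X)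
    (f : α → β) (g : β → ℝ) : ∑ s, pr P X s * g (f s) = ∑ t, pr P (f ∘ X) t * g t := by
  have hf : Measurable f := measurable_of_countable f
  rw [← integral_comp P hX (fun s => g (f s)), ← integral_comp P (hf.comp hX) g]
  rfl

theorem pr_le_pr_comp (P : Measure E) [IsProbabilityMeasure P] (X : E → α) (f : α → β) (s : α) :
    pr P X s ≤ pr P (f ∘ X) (f s) := by
  unfold pr
  apply measureReal_mono _ (measure_ne_top _ _)
  intro x hx
  simp only [Set.mem_preimage, Set.mem_singleton_iff, Function.comp_apply] at hx ⊢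
  rw [hx]

theorem ent_eq (P : Measure E) [IsProbabilityMeasure P] (X : E → α) :
    ent P X = - ∑ s, pr P X s * Real.log (pr P X s) := by
  unfold ent negMulLog
  rw [← sum_neg_distrib]
  apply sum_congr rfl
  intro s _
  ring

theorem ent_comp_eq (P : Measure E) [IsProbabilityMeasure P] {X : E → α} (hX : Measurable X)
    (f : α → β) : ent P (f ∘ X) = - ∑ s, pr P X s * Real.log (pr P (f ∘ X) (f s)) := by
  rw [ent_eq, sum_pr_comp P hX f (fun t => Real.log (pr P (f ∘ X) t))]

/-- entropy of a function is at most the entropy -/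
theorem ent_comp_le (P : Measure E) [IsProbabilityMeasure P] {X : E → α} (hX : Measurable X)
    (f : α → β) : ent P (f ∘ X) ≤ ent P X := by
  rw [ent_comp_eq P hX f, ent_eq]
  apply neg_le_neg
  apply sum_le_sum
  intro s _
  rcases (pr_nonneg P X s).eq_or_lt with h | h
  · rw [← h]; simp
  · gcongr
    exact pr_le_pr_comp P X f s

/-- data processing for mutual information; with `f`, `g` constant it is subadditivity -/
theorem data_processing (P : Measure E) [IsProbabilityMeasure P] {X : E → α} {Z : E → β}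
    (hX : Measurable X) (hZ : Measurable Z) (f : α → γ) (g : β → δ) :
    ent P (fun x => (X x, Z x)) + ent P (f ∘ X) + ent P (g ∘ Z) ≤
      ent P X + ent P Z + ent P (fun x => (f (X x), g (Z x))) := by
  classical
  set W : E → α × β := fun x => (X x, Z x) with hW
  have hWm : Measurable W := hX.prodMk hZ
  set W' : E → γ × δ := fun x => (f (X x), g (Z x)) with hW'
  have hfst : (Prod.fst : α × β → α) ∘ W = X := rfl
  have hsnd : (Prod.snd : α × β → β) ∘ W = Z := rfl
  have hW'eq : (Prod.map f g) ∘ W = W' := rfl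
  let r : α × β → ℝ := fun s => pr P X s.1 * pr P Z s.2 * pr P W' (f s.1, g s.2) /
    (pr P (f ∘ X) (f s.1) * pr P (g ∘ Z) (g s.2))
  have hr0 : ∀ s, 0 ≤ r s := by
    intro s
    have := pr_nonneg P X s.1
    have := pr_nonneg P Z s.2
    have := pr_nonneg P W' (f s.1, g s.2)
    have := pr_nonneg P (f ∘ X) (f s.1)
    have := pr_nonneg P (g ∘ Z) (g s.2)
    positivity
  -- positivity of all factors where `pr P W s > 0`
  have hpos : ∀ s, 0 < pr P W s → 0 < pr P X s.1 ∧ 0 < pr P Z s.2 ∧ 0 < pr P W' (f s.1, g s.2) ∧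
      0 < pr P (f ∘ X) (f s.1) ∧ 0 < pr P (g ∘ Z) (g s.2) := by
    intro s hs
    have h1 : pr P W s ≤ pr P X s.1 := by
      have := pr_le_pr_comp P W Prod.fst s
      rwa [hfst] at this
    have h2 : pr P W s ≤ pr P Z s.2 := by
      have := pr_le_pr_comp P W Prod.snd s
      rwa [hsnd] at this
    have h3 : pr P W s ≤ pr P W' (f s.1, g s.2) := by
      have := pr_le_pr_comp P W (Prod.map f g) s
      rwa [hW'eq] at this
    have h4 := pr_le_pr_comp P X f s.1
    have h5 := pr_le_pr_comp P Z g s.2
    exact ⟨by linarith, by linarith, by linarith, by linarith, by linarith⟩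
  have hrz : ∀ s, r s = 0 → pr P W s = 0 := by
    intro s hs
    by_contra hne
    have hp : 0 < pr P W s := lt_of_le_of_ne (pr_nonneg P W s) (Ne.symm hne)
    obtain ⟨h1, h2, h3, h4, h5⟩ := hpos s hp
    have : 0 < r s := by simp only [r]; positivity
    linarith
  have hsum : ∑ s, r s ≤ ∑ s, pr P W s := by
    rw [sum_pr P hWm, Fintype.sum_prod_type]
    -- first sum over s.2
    have e1 : ∀ s : α, ∑ t : β, r (s, t) = ∑ d : δ, pr P (g ∘ Z) d *
        (pr P X s * pr P W' (f s, d) / (pr P (f ∘ X) (f s) * pr P (g ∘ Z) d)) := by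
      intro s
      rw [← sum_pr_comp P hZ g (fun d => pr P X s * pr P W' (f s, d) /
        (pr P (f ∘ X) (f s) * pr P (g ∘ Z) d))]
      apply sum_congr rfl
      intro t _
      simp only [r]
      ring
    simp_rw [e1]
    rw [sum_comm]
    have e2 : ∀ d : δ, ∑ s : α, pr P (g ∘ Z) d *
        (pr P X s * pr P W' (f s, d) / (pr P (f ∘ X) (f s) * pr P (g ∘ Z) d)) =
        ∑ c : γ, pr P (f ∘ X) c * (pr P (g ∘ Z) d *
          (pr P W' (c, d) / (pr P (f ∘ X) c * pr P (g ∘ Z) d))) := by
      intro d
      rw [← sum_pr_comp P hX f (fun c => pr P (g ∘ Z) d *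
          (pr P W' (c, d) / (pr P (f ∘ X) c * pr P (g ∘ Z) d)))]
      apply sum_congr rfl
      intro s _
      ring
    simp_rw [e2]
    have hgm : Measurable g := measurable_of_countable g
    have hfm : Measurable f := measurable_of_countable f
    have hW'm : Measurable W' := (hfm.comp hX).prodMk (hgm.comp hZ)
    have e3 : ∀ d : δ, ∀ c : γ, pr P (f ∘ X) c * (pr P (g ∘ Z) d *
          (pr P W' (c, d) / (pr P (f ∘ X) c * pr P (g ∘ Z) d))) ≤ pr P W' (c, d) := by
      intro d c
      have h0 := pr_nonneg P W' (c, d)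
      rcases (pr_nonneg P (f ∘ X) c).eq_or_lt with h1 | h1
      · rw [← h1]; simpa using h0
      rcases (pr_nonneg P (g ∘ Z) d).eq_or_lt with h2 | h2
      · rw [← h2]; simpa using h0
      apply le_of_eq
      field_simp
    calc ∑ d : δ, ∑ c : γ, pr P (f ∘ X) c * (pr P (g ∘ Z) d *
          (pr P W' (c, d) / (pr P (f ∘ X) c * pr P (g ∘ Z) d)))
        ≤ ∑ d : δ, ∑ c : γ, pr P W' (c, d) := sum_le_sum (fun d _ => sum_le_sum (fun c _ => e3 d c))
      _ = ∑ c : γ, ∑ d : δ, pr P W' (c, d) := sum_comm
      _ = ∑ s : γ × δ, pr P W' s := (Fintype.sum_prod_type _).symm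
      _ = 1 := sum_pr P hW'm
  have hG := gibbs (p := pr P W) (r := r) (pr_nonneg P W) hr0 hrz hsum
  have hlog : ∑ s, pr P W s * Real.log (r s) =
      ∑ s, pr P W s * Real.log (pr P X s.1) + ∑ s, pr P W s * Real.log (pr P Z s.2) +
      ∑ s, pr P W s * Real.log (pr P W' (f s.1, g s.2)) -
      ∑ s, pr P W s * Real.log (pr P (f ∘ X) (f s.1)) -
      ∑ s, pr P W s * Real.log (pr P (g ∘ Z) (g s.2)) := by
    rw [← sum_add_distrib, ← sum_add_distrib, ← sum_sub_distrib, ← sum_sub_distrib]
    apply sum_congr rfl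
    intro s _
    rcases (pr_nonneg P W s).eq_or_lt with h | h
    · rw [← h]; ring
    · obtain ⟨h1, h2, h3, h4, h5⟩ := hpos s h
      simp only [r]
      rw [Real.log_div (by positivity) (by positivity), Real.log_mul (by positivity) (by positivity),
        Real.log_mul (by positivity) (by positivity), Real.log_mul (by positivity) (by positivity)]
      ring
  have k1 : ent P X = - ∑ s, pr P W s * Real.log (pr P X s.1) := by
    have := ent_comp_eq P hWm (Prod.fst : α × β → α)
    rwa [hfst] at this
  have k2 : ent P Z = - ∑ s, pr P W s * Real.log (pr P Z s.2) := by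
    have := ent_comp_eq P hWm (Prod.snd : α × β → β)
    rwa [hsnd] at this
  have k3 : ent P W' = - ∑ s, pr P W s * Real.log (pr P W' (f s.1, g s.2)) := by
    have := ent_comp_eq P hWm (Prod.map f g)
    rwa [hW'eq] at this
  have k4 : ent P (f ∘ X) = - ∑ s, pr P W s * Real.log (pr P (f ∘ X) (f s.1)) :=
    ent_comp_eq P hWm (f ∘ (Prod.fst : α × β → α))
  have k5 : ent P (g ∘ Z) = - ∑ s, pr P W s * Real.log (pr P (g ∘ Z) (g s.2)) :=
    ent_comp_eq P hWm (g ∘ (Prod.snd : α × β → β))
  have k0 : ent P W = ∑ s, negMulLog (pr P W s) := rfl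
  rw [← k0, hlog] at hG
  rw [k1, k2, k3, k4, k5]
  linarith

theorem ent_const (P : Measure E) [IsProbabilityMeasure P] (t : α) : ent P (fun _ => t) = 0 := by
  classical
  unfold ent
  apply sum_eq_zero
  intro s _
  unfold pr
  by_cases h : t = s
  · subst h
    simp
  · have : (fun _ : E => t) ⁻¹' {s} = ∅ := by
      ext x
      simp [h]
    rw [this]
    simp

/-- subadditivity -/
theorem ent_pair_le (P : Measure E) [IsProbabilityMeasure P] {X : E → α} {Z : E → β}
    (hX : Measurable X) (hZ : Measurable Z) :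
    ent P (fun x => (X x, Z x)) ≤ ent P X + ent P Z := by
  have h := data_processing P hX hZ (fun _ => ()) (fun _ => ())
  have h1 : ent P ((fun _ : α => ()) ∘ X) = 0 := ent_const P ()
  have h2 : ent P ((fun _ : β => ()) ∘ Z) = 0 := ent_const P ()
  have h3 : ent P (fun _ : E => ((), ())) = 0 := ent_const P _
  rw [h1, h2, h3] at h
  linarith

theorem ent_nonneg (P : Measure E) [IsProbabilityMeasure P] (X : E → α) : 0 ≤ ent P X :=
  sum_nonneg (fun s _ => negMulLog_nonneg (pr_nonneg P X s) (pr_le_one P X s))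

theorem ent_le_log_card (P : Measure E) [IsProbabilityMeasure P] {X : E → α} (hX : Measurable X) :
    ent P X ≤ Real.log (Fintype.card α) := by
  have hne : Nonempty E := by
    by_contra h
    rw [not_nonempty_iff] at h
    have : (P Set.univ) = 0 := by rw [Set.univ_eq_empty_iff.mpr h]; simp
    rw [measure_univ] at this
    exact one_ne_zero this
  have hcard : 0 < Fintype.card α := Fintype.card_pos_iff.mpr ⟨X hne.some⟩
  have hc : (0 : ℝ) < Fintype.card α := by exact_mod_cast hcard
  have h := gibbs (p := pr P X) (r := fun _ => (Fintype.card α : ℝ)⁻¹) (pr_nonneg P X)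
    (fun _ => by positivity) (fun i hi => absurd hi (by positivity)) (by
      rw [sum_pr P hX, sum_const, card_univ, nsmul_eq_mul, mul_inv_cancel₀ hc.ne'])
  rw [← sum_mul, sum_pr P hX, Real.log_inv] at h
  unfold ent
  linarith

/-- entropy of a mixture, upper bound -/
theorem ent_mix_le {P P₀ P₁ : Measure E} [IsProbabilityMeasure P] [IsProbabilityMeasure P₀]
    [IsProbabilityMeasure P₁] {X : E → α} (hX : Measurable X)
    (h : ∀ s, 2 * pr P X s = pr P₀ X s + pr P₁ X s) :
    ent P X ≤ (ent P₀ X + ent P₁ X) / 2 + Real.log 2 := by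
  have hterm : ∀ s, negMulLog (pr P X s) ≤
      (negMulLog (pr P₀ X s) + negMulLog (pr P₁ X s)) / 2 + pr P X s * Real.log 2 := by
    intro s
    set p := pr P₀ X s with hp
    set q := pr P₁ X s with hq
    have hp0 : 0 ≤ p := pr_nonneg _ _ _
    have hq0 : 0 ≤ q := pr_nonneg _ _ _
    have hs : pr P X s = (p + q) / 2 := by have := h s; linarith
    rw [hs]
    unfold negMulLog
    have key : ∀ u v : ℝ, 0 ≤ u → 0 ≤ v → -(u / 2) * Real.log ((u + v) / 2) ≤
        -(u * Real.log u) / 2 + u / 2 * Real.log 2 := by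
      intro u v hu hv
      rcases hu.eq_or_lt with h0 | hu0
      · rw [← h0]; simp
      · have h1 : Real.log (u / 2) ≤ Real.log ((u + v) / 2) :=
          Real.log_le_log (by positivity) (by linarith)
        rw [Real.log_div hu0.ne' (by norm_num)] at h1
        nlinarith
    have k1 := key p q hp0 hq0
    have k2 := key q p hq0 hp0
    rw [add_comm q p] at k2
    have e : -((p + q) / 2) * Real.log ((p + q) / 2) =
      -(p / 2) * Real.log ((p + q) / 2) + -(q / 2) * Real.log ((p + q) / 2) := by ring
    rw [e]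
    linarith
  calc ent P X ≤ ∑ s, ((negMulLog (pr P₀ X s) + negMulLog (pr P₁ X s)) / 2 + pr P X s * Real.log 2) :=
        sum_le_sum (fun s _ => hterm s)
    _ = (ent P₀ X + ent P₁ X) / 2 + Real.log 2 := by
      rw [sum_add_distrib, ← sum_mul, sum_pr P hX, ← sum_div, sum_add_distrib, one_mul]
      rfl

end Pool.Agent.Helper42.Ent
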