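import Mathlib

/-!
Abstract part of the spectral multiplicity theorem: a unitary operator `U` commuting with a
representation `V` of an abelian group containing finite cyclic groups `E a`.
-/

open scoped ComplexConjugate

namespace Pool.Agent.Helper42.AB

/-- the characters of `ZMod N` -/
noncomputable def chi {N : ℕ} [NeZero N] (r x : ZMod N) : ℂ := ZMod.stdAddChar (r * x)

section chi

variable {N : ℕ} [NeZero N]

theorem chi_zero (r : ZMod N) : chi r 0 = 1 := by simp [chi]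

theorem chi_zero_left (x : ZMod N) : chi 0 x = 1 := by simp [chi]

theorem chi_add (r x y : ZMod N) : chi r (x + y) = chi r x * chi r y := by
  unfold chi; rw [mul_add, AddChar.map_add_eq_mul]

theorem chi_norm (r x : ZMod N) : ‖chi r x‖ = 1 := by
  unfold chi; rw [ZMod.stdAddChar_apply]; exact Circle.norm_coe _

theorem chi_neg (r x : ZMod N) : chi r (-x) = conj (chi r x) := by
  have h1 : chi r (-x) * chi r x = 1 := by rw [← chi_add, neg_add_cancel, chi_zero]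
  have h2 : conj (chi r x) * chi r x = 1 := by
    rw [mul_comm, Complex.mul_conj, Complex.normSq_eq_norm_sq, chi_norm]; norm_num
  have h3 : chi r x ≠ 0 := by
    intro h; rw [h, mul_zero] at h1; exact zero_ne_one h1
  exact mul_right_cancel₀ h3 (h1.trans h2.symm)

theorem chi_mul (r s x : ZMod N) : chi r (s * x) = chi (s * r) x := by
  unfold chi; congr 1; ring

theorem chi_ne_one {r : ZMod N} (hr : r ≠ 0) : chi r 1 ≠ 1 := by
  unfold chi
  rw [mul_one]
  intro h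
  apply hr
  apply ZMod.injective_stdAddChar
  rw [h]; simp

theorem chi_inj {r s : ZMod N} (h : r ≠ s) : chi r 1 ≠ chi s 1 := by
  unfold chi
  rw [mul_one, mul_one]
  exact fun h' => h (ZMod.injective_stdAddChar h')

theorem sum_chi (t : ZMod N) : ∑ i : ZMod N, chi t i = if t = 0 then (N : ℂ) else 0 := by
  unfold chi
  split_ifs with h
  · rw [h]
    simp
  · exact AddChar.sum_eq_zero_of_ne_one (ZMod.isPrimitive_stdAddChar N h)

theorem sum_chi' (t : ZMod N) : ∑ i : ZMod N, chi i t = if t = 0 then (N : ℂ) else 0 := by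
  rw [← sum_chi]
  apply Finset.sum_congr rfl
  intro i _
  unfold chi; rw [mul_comm]

end chi

variable {H : Type*} [NormedAddCommGroup H] [InnerProductSpace ℂ H] [CompleteSpace H]
variable {G : Type*} [AddCommGroup G]

/-- a closed subspace stable under `U` -/
def Stable (U : H ≃ₗᵢ[ℂ] H) (Z : Submodule ℂ H) : Prop := IsClosed (Z : Set H) ∧ ∀ z ∈ Z, U z ∈ Z

/-- The abstract data. -/
structure Sys (H : Type*) [NormedAddCommGroup H] [InnerProductSpace ℂ H] [CompleteSpace H]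
    (G : Type*) [AddCommGroup G] where
  V : G → H ≃ₗᵢ[ℂ] H
  V_zero : ∀ f, V 0 f = f
  V_add : ∀ g g' f, V (g + g') f = V g (V g' f)
  U : H ≃ₗᵢ[ℂ] H
  U_V : ∀ g f, U (V g f) = V g (U f)
  k : ℕ → ℕ
  q : ℕ → ℕ
  hk : ∀ a, 0 < k a
  hq : ∀ a, (q a).Prime
  u : ∀ a, ZMod (q a)
  hu : ∀ a, orderOf (u a) = k a
  E : ∀ a, ZMod (q a) →+ G
  C : Set G
  gen : AddSubmonoid.closure (C ∪ ⋃ a, Set.range (E a)) = ⊤
  w1 : ∀ Z, Stable U Z → ∀ g ∈ C, ∀ z ∈ Z, V g z ∈ Z
  w2 : ∀ Z, Stable U Z → ∀ a x, ∀ z ∈ Z, ∑ l ∈ Finset.range (k a), V (E a (u a ^ l * x)) z ∈ Z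
  w3 : ∀ Z, Stable U Z → ∀ a b, b < a → ∀ x, ∀ z ∈ Z,
    ∑ l ∈ Finset.range (k a), ∑ l' ∈ Finset.range (k b),
      V ((if l = 0 then E b (u b ^ l') else 0) + E a (u a ^ l * x)) z ∈ Z
  R : ℕ → H ≃ₗᵢ[ℂ] H
  ν : ℕ → G → G
  r1 : ∀ a g f, (∀ b < a, ∀ x, V (E b x) f = f) → R a (V (ν a g) f) = V g (R a f)
  r2 : ∀ a f, (∀ b < a, ∀ x, V (E b x) f = f) → R a (U f) = U (R a f)
  r3 : ∀ a f, (R a)^[k a] f = f
  r4 : ∀ a x, ν a (E a x) = E a (u a * x)
  r5 : ∀ a b x, b < a → ν a (E b x) = E b x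
  r6 : ∀ a, Function.Surjective (ν a)
  one : H
  one_ne : one ≠ 0
  V_one : ∀ g, V g one = one
  U_one : U one = one
  erg : ∀ f, (∀ a x, V (E a x) f = f) → inner ℂ one f = 0 → f = 0
  cyc : ∃ h, (Submodule.span ℂ (Set.range fun g => V g h)).topologicalClosure = ⊤
  nz : ∀ a (r : ZMod (q a)), r ≠ 0 → ∃ f, f ≠ 0 ∧ (∀ b < a, ∀ x, V (E b x) f = f) ∧
    ∀ x, V (E a x) f = @chi (q a) ⟨(hq a).ne_zero⟩ r x • f

namespace Sys

variable (Y : Sys H G)

instance (a : ℕ) : NeZero (Y.q a) := ⟨(Y.hq a).ne_zero⟩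
instance (a : ℕ) : Fact (Y.q a).Prime := ⟨Y.hq a⟩

theorem V_comm (g g' : G) (f : H) : Y.V g (Y.V g' f) = Y.V g' (Y.V g f) := by
  rw [← Y.V_add, ← Y.V_add, add_comm]

theorem V_neg (g : G) (f : H) : Y.V (-g) (Y.V g f) = f := by
  rw [← Y.V_add, neg_add_cancel, Y.V_zero]

theorem V_neg' (g : G) (f : H) : Y.V g (Y.V (-g) f) = f := by
  rw [← Y.V_add, add_neg_cancel, Y.V_zero]

theorem V_inner (g : G) (f f' : H) : inner ℂ (Y.V g f) f' = inner ℂ f (Y.V (-g) f') := by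
  conv_lhs => rw [← Y.V_neg' g f']
  exact (Y.V g).inner_map_map _ _

theorem u_pow (a : ℕ) : Y.u a ^ Y.k a = 1 := by
  rw [← Y.hu a]; exact pow_orderOf_eq_one _

theorem u_ne_zero (a : ℕ) : Y.u a ≠ 0 := by
  intro h
  have h1 := Y.u_pow a
  rw [h, zero_pow (Y.hk a).ne'] at h1
  exact zero_ne_one h1

/-- character projections of `E a` -/
noncomputable def P1 (a : ℕ) (r : ZMod (Y.q a)) : H →L[ℂ] H :=
  (Y.q a : ℂ)⁻¹ • ∑ x : ZMod (Y.q a), chi r (-x) • (Y.V (Y.E a x)).toContinuousLinearEquiv.toContinuousLinearMap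

theorem P1_apply (a : ℕ) (r : ZMod (Y.q a)) (f : H) :
    Y.P1 a r f = (Y.q a : ℂ)⁻¹ • ∑ x : ZMod (Y.q a), chi r (-x) • Y.V (Y.E a x) f := by
  unfold P1
  simp

theorem V_P1 (a : ℕ) (r y : ZMod (Y.q a)) (f : H) :
    Y.V (Y.E a y) (Y.P1 a r f) = chi r y • Y.P1 a r f := by
  rw [P1_apply, map_smul, map_sum, smul_comm (chi r y)]
  congr 1
  rw [Finset.smul_sum]
  symm
  rw [← Equiv.sum_comp (Equiv.addRight y)]
  apply Finset.sum_congr rfl
  intro x _
  rw [map_smul, ← Y.V_add, ← map_add, smul_smul, Equiv.coe_addRight, ← chi_add]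
  congr 2
  · ring
  · rw [add_comm]

theorem sum_P1 (a : ℕ) (f : H) : ∑ r, Y.P1 a r f = f := by
  simp_rw [P1_apply]
  rw [← Finset.smul_sum, Finset.sum_comm]
  have : ∀ x : ZMod (Y.q a), ∑ r, chi r (-x) • Y.V (Y.E a x) f =
      if x = 0 then (Y.q a : ℂ) • f else 0 := by
    intro x
    rw [← Finset.sum_smul, sum_chi']
    by_cases h : x = 0
    · rw [if_pos (by rw [h, neg_zero]), if_pos h, h, map_zero, Y.V_zero]
    · rw [if_neg (by rwa [neg_eq_zero]), if_neg h, zero_smul]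
  rw [Finset.sum_congr rfl (fun x _ => this x), Finset.sum_ite_eq' Finset.univ 0, if_pos (Finset.mem_univ _),
    smul_smul, inv_mul_cancel₀, one_smul]
  exact_mod_cast (Y.hq a).ne_zero

theorem P1_of_eigen (a : ℕ) (r s : ZMod (Y.q a)) (f : H)
    (h : ∀ x, Y.V (Y.E a x) f = chi s x • f) : Y.P1 a r f = if r = s then f else 0 := by
  rw [P1_apply]
  have : ∑ x : ZMod (Y.q a), chi r (-x) • Y.V (Y.E a x) f = (∑ x, chi (s - r) x) • f := by
    rw [Finset.sum_smul]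
    apply Finset.sum_congr rfl
    intro x _
    rw [h, smul_smul]
    congr 1
    unfold chi
    rw [← AddChar.map_add_eq_mul]
    congr 1
    ring
  rw [this, sum_chi]
  by_cases hrs : r = s
  · rw [if_pos (by rw [hrs, sub_self]), if_pos hrs, smul_smul, inv_mul_cancel₀, one_smul]
    exact_mod_cast (Y.hq a).ne_zero
  · rw [if_neg (by rw [sub_eq_zero]; exact fun h => hrs h.symm), if_neg hrs, zero_smul, smul_zero]

theorem P1_V (a : ℕ) (r : ZMod (Y.q a)) (g : G) (f : H) :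
    Y.P1 a r (Y.V g f) = Y.V g (Y.P1 a r f) := by
  rw [P1_apply, P1_apply, map_smul, map_sum]
  congr 1
  apply Finset.sum_congr rfl
  intro x _
  rw [map_smul, Y.V_comm]

theorem P1_U (a : ℕ) (r : ZMod (Y.q a)) (f : H) :
    Y.P1 a r (Y.U f) = Y.U (Y.P1 a r f) := by
  rw [P1_apply, P1_apply, map_smul, map_sum]
  congr 1
  apply Finset.sum_congr rfl
  intro x _
  rw [map_smul, Y.U_V]

theorem P1_P1 (a b : ℕ) (r : ZMod (Y.q a)) (s : ZMod (Y.q b)) (f : H) :
    Y.P1 a r (Y.P1 b s f) = Y.P1 b s (Y.P1 a r f) := by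
  rw [P1_apply Y b s, map_smul, map_sum, P1_apply Y b s (Y.P1 a r f)]
  congr 1
  apply Finset.sum_congr rfl
  intro x _
  rw [map_smul, P1_V]

theorem P1_inner (a : ℕ) (r : ZMod (Y.q a)) (f f' : H) :
    inner ℂ (Y.P1 a r f) f' = inner ℂ f (Y.P1 a r f') := by
  rw [P1_apply, P1_apply, inner_smul_left, inner_smul_right, sum_inner, inner_sum, map_inv₀,
    Complex.conj_natCast]
  congr 1
  rw [← Equiv.sum_comp (Equiv.neg _)]
  apply Finset.sum_congr rfl
  intro x _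
  rw [Equiv.neg_apply, inner_smul_left, inner_smul_right, V_inner, neg_neg, chi_neg, map_neg, neg_neg]

/-- projection to the vectors invariant under `E b`, `b < a` -/
noncomputable def Pinv : ℕ → (H →L[ℂ] H)
  | 0 => ContinuousLinearMap.id ℂ H
  | a + 1 => (Y.P1 a 0).comp (Pinv a)

theorem Pinv_zero (f : H) : Y.Pinv 0 f = f := rfl

theorem Pinv_succ (a : ℕ) (f : H) : Y.Pinv (a + 1) f = Y.P1 a 0 (Y.Pinv a f) := rfl

theorem Pinv_V (a : ℕ) (g : G) (f : H) : Y.Pinv a (Y.V g f) = Y.V g (Y.Pinv a f) := by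
  induction a with
  | zero => rfl
  | succ a ih => rw [Pinv_succ, ih, P1_V, Pinv_succ]

theorem Pinv_U (a : ℕ) (f : H) : Y.Pinv a (Y.U f) = Y.U (Y.Pinv a f) := by
  induction a with
  | zero => rfl
  | succ a ih => rw [Pinv_succ, ih, P1_U, Pinv_succ]

theorem Pinv_P1 (a b : ℕ) (s : ZMod (Y.q b)) (f : H) :
    Y.Pinv a (Y.P1 b s f) = Y.P1 b s (Y.Pinv a f) := by
  induction a with
  | zero => rfl
  | succ a ih => rw [Pinv_succ, ih, P1_P1, Pinv_succ]

theorem Pinv_inner (a : ℕ) (f f' : H) :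
    inner ℂ (Y.Pinv a f) f' = inner ℂ f (Y.Pinv a f') := by
  induction a generalizing f f' with
  | zero => rfl
  | succ a ih => rw [Pinv_succ, P1_inner, ih, Pinv_P1, Pinv_succ]

theorem V_Pinv {a b : ℕ} (h : b < a) (x : ZMod (Y.q b)) (f : H) :
    Y.V (Y.E b x) (Y.Pinv a f) = Y.Pinv a f := by
  induction a with
  | zero => omega
  | succ a ih =>
    rw [Pinv_succ]
    rcases Nat.lt_succ_iff_lt_or_eq.mp h with h1 | h1
    · rw [← P1_V, ih h1]
    · subst h1
      rw [V_P1, chi_zero_left, one_smul]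

theorem Pinv_of_inv {a : ℕ} {f : H} (h : ∀ b < a, ∀ x, Y.V (Y.E b x) f = f) : Y.Pinv a f = f := by
  induction a with
  | zero => rfl
  | succ a ih =>
    rw [Pinv_succ, ih (fun b hb => h b (by omega)), P1_of_eigen Y a 0 0 f
      (fun x => by rw [h a (by omega), chi_zero_left, one_smul]), if_pos rfl]

/-- the pieces of the decomposition -/
def InH (a : ℕ) (r : ZMod (Y.q a)) (f : H) : Prop :=
  (∀ b < a, ∀ x, Y.V (Y.E b x) f = f) ∧ ∀ x, Y.V (Y.E a x) f = chi r x • f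

/-- projection to a piece -/
noncomputable def P (a : ℕ) (r : ZMod (Y.q a)) : H →L[ℂ] H := (Y.P1 a r).comp (Y.Pinv a)

theorem P_apply (a : ℕ) (r : ZMod (Y.q a)) (f : H) : Y.P a r f = Y.P1 a r (Y.Pinv a f) := rfl

theorem P_mem (a : ℕ) (r : ZMod (Y.q a)) (f : H) : Y.InH a r (Y.P a r f) := by
  constructor
  · intro b hb x
    rw [P_apply, ← P1_V, V_Pinv Y hb]
  · intro x
    rw [P_apply, V_P1]

theorem P_of_mem {a : ℕ} {r : ZMod (Y.q a)} {f : H} (h : Y.InH a r f) : Y.P a r f = f := by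
  rw [P_apply, Pinv_of_inv Y h.1, P1_of_eigen Y a r r f h.2, if_pos rfl]

theorem P_V (a : ℕ) (r : ZMod (Y.q a)) (g : G) (f : H) :
    Y.P a r (Y.V g f) = Y.V g (Y.P a r f) := by
  rw [P_apply, Pinv_V, P1_V, P_apply]

theorem P_U (a : ℕ) (r : ZMod (Y.q a)) (f : H) :
    Y.P a r (Y.U f) = Y.U (Y.P a r f) := by
  rw [P_apply, Pinv_U, P1_U, P_apply]

theorem P_inner (a : ℕ) (r : ZMod (Y.q a)) (f f' : H) :
    inner ℂ (Y.P a r f) f' = inner ℂ f (Y.P a r f') := by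
  rw [P_apply, P1_inner, Pinv_inner, Pinv_P1, P_apply]

theorem InH.V {a : ℕ} {r : ZMod (Y.q a)} {f : H} (h : Y.InH a r f) (g : G) :
    Y.InH a r (Y.V g f) := by
  constructor
  · intro b hb x
    rw [Y.V_comm, h.1 b hb x]
  · intro x
    rw [Y.V_comm, h.2 x, map_smul]

theorem InH.U {a : ℕ} {r : ZMod (Y.q a)} {f : H} (h : Y.InH a r f) :
    Y.InH a r (Y.U f) := by
  constructor
  · intro b hb x
    rw [← Y.U_V, h.1 b hb x]
  · intro x
    rw [← Y.U_V, h.2 x, map_smul]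

theorem InH.smul {a : ℕ} {r : ZMod (Y.q a)} {f : H} (h : Y.InH a r f) (c : ℂ) :
    Y.InH a r (c • f) := by
  constructor
  · intro b hb x
    rw [map_smul, h.1 b hb x]
  · intro x
    rw [map_smul, h.2 x, smul_comm]

/-- orthogonality of pieces via eigenvalues -/
theorem inner_eq_zero_of_eigen {W : H ≃ₗᵢ[ℂ] H} {f f' : H} {c c' : ℂ} (h : W f = c • f)
    (h' : W f' = c' • f') (hc : ‖c‖ = 1) (hne : c ≠ c') : inner ℂ f f' = 0 := by
  have h1 : inner ℂ f f' = conj c * c' * inner ℂ f f' := by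
    calc inner ℂ f f' = inner ℂ (W f) (W f') := (W.inner_map_map _ _).symm
      _ = _ := by rw [h, h', inner_smul_left, inner_smul_right, mul_assoc]
  by_contra hn
  have h2 : conj c * c' = 1 := by
    have h3 : (conj c * c' - 1) * inner ℂ f f' = 0 := by rw [sub_mul, one_mul, ← h1, sub_self]
    rcases mul_eq_zero.mp h3 with h4 | h4
    · exact sub_eq_zero.mp h4
    · exact absurd h4 hn
  apply hne
  have h5 : c * conj c = 1 := by
    rw [Complex.mul_conj, Complex.normSq_eq_norm_sq, hc]; norm_num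
  calc c = c * (conj c * c') := by rw [h2, mul_one]
    _ = c' := by rw [← mul_assoc, h5, one_mul]

theorem InH.orth {a b : ℕ} {r : ZMod (Y.q a)} {s : ZMod (Y.q b)} {f f' : H} (h : Y.InH a r f)
    (h' : Y.InH b s f') (hr : r ≠ 0) (hs : s ≠ 0)
    (hne : (⟨a, r⟩ : (a : ℕ) × ZMod (Y.q a)) ≠ ⟨b, s⟩) : inner ℂ f f' = 0 := by
  rcases lt_trichotomy a b with hab | hab | hab
  · exact inner_eq_zero_of_eigen (W := Y.V (Y.E a 1)) (h.2 1)
      (by rw [h'.1 a hab 1, one_smul] : Y.V (Y.E a 1) f' = (1 : ℂ) • f') (chi_norm _ _) (chi_ne_one hr)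
  · subst hab
    have hrs : r ≠ s := fun h => hne (by rw [h])
    exact inner_eq_zero_of_eigen (W := Y.V (Y.E a 1)) (h.2 1) (h'.2 1) (chi_norm _ _) (chi_inj hrs)
  · exact inner_eq_zero_of_eigen (W := Y.V (Y.E b 1))
      (by rw [h.1 b hab 1, one_smul] : Y.V (Y.E b 1) f = (1 : ℂ) • f) (h'.2 1) norm_one
      (chi_ne_one hs).symm

end Sys

end Pool.Agent.Helper42.AB
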