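import Pool.Agent.Helper42.AB1

/-!
Abstract part, 2: `U`-stable closed subspaces, representatives, the partial symmetries `R a`.
-/

open scoped ComplexConjugate

namespace Pool.Agent.Helper42.AB

variable {H : Type*} [NormedAddCommGroup H] [InnerProductSpace ℂ H] [CompleteSpace H]
variable {G : Type*} [AddCommGroup G]

namespace Sys

variable (Y : Sys H G)

section stable

variable {Y} {Z : Submodule ℂ H} (hZ : Stable Y.U Z)

theorem sum_orbit (Y : Sys H G) (a l : ℕ) (F : ZMod (Y.q a) → H) :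
    ∑ x, F (Y.u a ^ l * x) = ∑ x, F x :=
  Equiv.sum_comp (Equiv.mulLeft₀ (Y.u a ^ l) (pow_ne_zero _ (Y.u_ne_zero a))) F

include hZ

theorem stable_P1_zero (a : ℕ) {z : H} (hz : z ∈ Z) : Y.P1 a 0 z ∈ Z := by
  have h1 : ∑ x : ZMod (Y.q a), ∑ l ∈ Finset.range (Y.k a), Y.V (Y.E a (Y.u a ^ l * x)) z ∈ Z :=
    Z.sum_mem (fun x _ => Y.w2 Z hZ a x z hz)
  rw [Finset.sum_comm] at h1
  have h2 : ∀ l ∈ Finset.range (Y.k a), ∑ x : ZMod (Y.q a), Y.V (Y.E a (Y.u a ^ l * x)) z =
      ∑ x : ZMod (Y.q a), Y.V (Y.E a x) z := fun l _ =>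
    sum_orbit Y a l (fun x => Y.V (Y.E a x) z)
  rw [Finset.sum_congr rfl h2, Finset.sum_const, Finset.card_range] at h1
  have h3 : ∑ x : ZMod (Y.q a), Y.V (Y.E a x) z ∈ Z := by
    have h4 := Z.smul_mem ((Y.k a : ℂ)⁻¹) h1
    rw [← Nat.cast_smul_eq_nsmul ℂ, smul_smul, inv_mul_cancel₀, one_smul] at h4
    · exact h4
    · exact_mod_cast (Y.hk a).ne'
  rw [P1_apply]
  apply Z.smul_mem
  simpa [chi_zero_left] using h3

theorem stable_Pinv (a : ℕ) {z : H} (hz : z ∈ Z) : Y.Pinv a z ∈ Z := by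
  induction a with
  | zero => exact hz
  | succ a ih => rw [Pinv_succ]; exact stable_P1_zero hZ a ih

theorem stable_P1 (a : ℕ) (r : ZMod (Y.q a)) {z : H} (hz : z ∈ Z)
    (h : ∀ l, 0 < l → l < Y.k a → Y.P1 a ((Y.u a ^ l)⁻¹ * r) z = 0) : Y.P1 a r z ∈ Z := by
  have h1 : (Y.q a : ℂ)⁻¹ • ∑ x : ZMod (Y.q a), chi r (-x) •
      ∑ l ∈ Finset.range (Y.k a), Y.V (Y.E a (Y.u a ^ l * x)) z ∈ Z := by
    apply Z.smul_mem
    apply Z.sum_mem
    intro x _
    apply Z.smul_mem
    exact Y.w2 Z hZ a x z hz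
  have h2 : (Y.q a : ℂ)⁻¹ • ∑ x : ZMod (Y.q a), chi r (-x) •
      ∑ l ∈ Finset.range (Y.k a), Y.V (Y.E a (Y.u a ^ l * x)) z =
      ∑ l ∈ Finset.range (Y.k a), Y.P1 a ((Y.u a ^ l)⁻¹ * r) z := by
    simp_rw [Finset.smul_sum]
    rw [Finset.sum_comm]
    apply Finset.sum_congr rfl
    intro l _
    rw [P1_apply, Finset.smul_sum]
    rw [← sum_orbit Y a l (fun x => (Y.q a : ℂ)⁻¹ • chi ((Y.u a ^ l)⁻¹ * r) (-x) • Y.V (Y.E a x) z)]
    apply Finset.sum_congr rfl
    intro x _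
    rw [← chi_mul]
    have : (Y.u a ^ l)⁻¹ * -(Y.u a ^ l * x) = -x := by
      have hu : Y.u a ^ l ≠ 0 := pow_ne_zero _ (Y.u_ne_zero a)
      field_simp
    rw [this]
  rw [h2] at h1
  rw [Finset.sum_eq_single 0] at h1
  · rw [pow_zero, inv_one, one_mul] at h1
    exact h1
  · intro l hl hl0
    exact h l (Nat.pos_of_ne_zero hl0) (Finset.mem_range.mp hl)
  · intro h0
    exact absurd (Finset.mem_range.mpr (Y.hk a)) h0

theorem stable_V {a : ℕ} {r : ZMod (Y.q a)} (hr : r ≠ 0) (g : G) :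
    ∀ y ∈ Z, Y.InH a r y → Y.V g y ∈ Z := by
  have hg : g ∈ AddSubmonoid.closure (Y.C ∪ ⋃ a, Set.range (Y.E a)) := by rw [Y.gen]; trivial
  induction hg using AddSubmonoid.closure_induction with
  | zero => intro y hy _; rw [Y.V_zero]; exact hy
  | add g g' _ _ ih ih' =>
    intro y hy hH
    rw [Y.V_add]
    exact ih _ (ih' y hy hH) (hH.V Y g')
  | mem g hg =>
    intro y hy hH
    rcases hg with hg | hg
    · exact Y.w1 Z hZ g hg y hy
    · rw [Set.mem_iUnion] at hg
      obtain ⟨i, x, rfl⟩ := hg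
      rcases lt_trichotomy i a with hia | hia | hia
      · rw [hH.1 i hia x]; exact hy
      · subst hia
        rw [hH.2 x]
        exact Z.smul_mem _ hy
      · -- the main case
        have h3 := Y.w3 Z hZ i a hia x y hy
        have h2 := Z.smul_mem (Y.k a : ℂ) (Y.w2 Z hZ i x y hy)
        have h4 := Z.sub_mem h2 h3
        have key : (Y.k a : ℂ) • ∑ l ∈ Finset.range (Y.k i), Y.V (Y.E i (Y.u i ^ l * x)) y -
            ∑ l ∈ Finset.range (Y.k i), ∑ l' ∈ Finset.range (Y.k a),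
              Y.V ((if l = 0 then Y.E a (Y.u a ^ l') else 0) + Y.E i (Y.u i ^ l * x)) y =
            (∑ l' ∈ Finset.range (Y.k a), (1 - chi r (Y.u a ^ l'))) • Y.V (Y.E i x) y := by
          rw [Finset.smul_sum, ← Finset.sum_sub_distrib, Finset.sum_eq_single 0]
          · rw [pow_zero, one_mul, Finset.sum_smul]
            have : (Y.k a : ℂ) • Y.V (Y.E i x) y = ∑ l' ∈ Finset.range (Y.k a), Y.V (Y.E i x) y := by
              rw [Finset.sum_const, Finset.card_range, Nat.cast_smul_eq_nsmul]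
            rw [this, ← Finset.sum_sub_distrib]
            apply Finset.sum_congr rfl
            intro l' _
            rw [if_pos rfl, add_comm (Y.E a _), Y.V_add, hH.2, map_smul, sub_smul, one_smul]
          · intro l _ hl
            rw [sub_eq_zero]
            have : (Y.k a : ℂ) • Y.V (Y.E i (Y.u i ^ l * x)) y =
                ∑ l' ∈ Finset.range (Y.k a), Y.V (Y.E i (Y.u i ^ l * x)) y := by
              rw [Finset.sum_const, Finset.card_range, Nat.cast_smul_eq_nsmul]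
            rw [this]
            apply Finset.sum_congr rfl
            intro l' _
            rw [if_neg hl, zero_add]
          · intro h0
            exact absurd (Finset.mem_range.mpr (Y.hk i)) h0
        rw [key] at h4
        have hc : (∑ l' ∈ Finset.range (Y.k a), (1 - chi r (Y.u a ^ l'))) ≠ 0 := by
          intro h0
          have h5 : ∑ l' ∈ Finset.range (Y.k a), (1 - chi r (Y.u a ^ l')).re = 0 := by
            rw [← Complex.re_sum, h0, Complex.zero_re]
          have h6 : ∀ l' ∈ Finset.range (Y.k a), 0 ≤ (1 - chi r (Y.u a ^ l')).re := by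
            intro l' _
            rw [Complex.sub_re, Complex.one_re]
            have := Complex.re_le_norm (chi r (Y.u a ^ l'))
            rw [chi_norm] at this
            linarith
          have h7 := (Finset.sum_eq_zero_iff_of_nonneg h6).mp h5 0 (Finset.mem_range.mpr (Y.hk a))
          rw [pow_zero, Complex.sub_re, Complex.one_re] at h7
          apply chi_ne_one hr
          have h8 : (chi r 1).re = 1 := by linarith
          have h9 := chi_norm r 1
          apply Complex.ext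
          · rw [h8, Complex.one_re]
          · have h10 : (chi r 1).re ^ 2 + (chi r 1).im ^ 2 = 1 := by
              have := Complex.sq_norm (chi r 1)
              rw [h9, Complex.normSq_apply] at this
              nlinarith
            rw [h8] at h10
            have : (chi r 1).im ^ 2 = 0 := by linarith
            rw [pow_eq_zero_iff two_ne_zero] at this
            rw [this, Complex.one_im]
        have h5 := Z.smul_mem (∑ l' ∈ Finset.range (Y.k a), (1 - chi r (Y.u a ^ l')))⁻¹ h4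
        rwa [smul_smul, inv_mul_cancel₀ hc, one_smul] at h5

omit hZ in
/-- at most one component per orbit -/
def OneRep (Y : Sys H G) (h : H) : Prop :=
  ∀ a (s : ZMod (Y.q a)), s ≠ 0 → ∀ l, 0 < l → l < Y.k a → Y.P a s h ≠ 0 →
    Y.P a ((Y.u a ^ l)⁻¹ * s) h = 0

theorem stable_P {h : H} (hh : h ∈ Z) (ho : OneRep Y h) (a : ℕ) {s : ZMod (Y.q a)} (hs : s ≠ 0) :
    Y.P a s h ∈ Z := by
  by_cases h0 : Y.P a s h = 0
  · rw [h0]; exact Z.zero_mem
  · rw [P_apply]
    apply stable_P1 hZ a s (stable_Pinv hZ a hh)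
    intro l hl hl'
    exact ho a s hs l hl hl' h0

end stable

/-! representatives of the orbits of `u a` -/

/-- representatives -/
def IsRep (a : ℕ) (r : ZMod (Y.q a)) : Prop := r ≠ 0 ∧ ∀ l, r.val ≤ (Y.u a ^ l * r).val

theorem exists_rep (a : ℕ) {s : ZMod (Y.q a)} (hs : s ≠ 0) :
    ∃ l < Y.k a, ∃ r, Y.IsRep a r ∧ s = Y.u a ^ l * r := by
  classical
  obtain ⟨l₀, hl₀⟩ : ∃ l₀, ∀ l, (Y.u a ^ l₀ * s).val ≤ (Y.u a ^ l * s).val := by
    have hne : (Set.range fun l : ℕ => (Y.u a ^ l * s).val).Nonempty := ⟨_, 0, rfl⟩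
    obtain ⟨l₀, h⟩ := Nat.sInf_mem hne
    exact ⟨l₀, fun l => by rw [show (Y.u a ^ l₀ * s).val = _ from h]; exact Nat.sInf_le ⟨l, rfl⟩⟩
  -- the exponent is `l` with `l + l₀ ≡ 0`
  set l := (Y.k a - l₀ % Y.k a) % Y.k a with hl
  have hk := Y.hk a
  have hmod : (l + l₀) % Y.k a = 0 := by
    rw [hl, Nat.add_mod, Nat.mod_mod, ← Nat.add_mod]
    have h1 : l₀ % Y.k a < Y.k a := Nat.mod_lt _ hk
    have h2 : Y.k a - l₀ % Y.k a + l₀ = Y.k a + Y.k a * (l₀ / Y.k a) := by
      have := Nat.div_add_mod l₀ (Y.k a)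
      omega
    rw [h2, Nat.add_mul_mod_self_left, Nat.mod_self]
  have hpow : Y.u a ^ (l + l₀) = 1 := by
    obtain ⟨c, hc⟩ := Nat.dvd_of_mod_eq_zero hmod
    rw [hc, pow_mul, Y.u_pow, one_pow]
  refine ⟨l, Nat.mod_lt _ hk, Y.u a ^ l₀ * s, ⟨?_, ?_⟩, ?_⟩
  · exact mul_ne_zero (pow_ne_zero _ (Y.u_ne_zero a)) hs
  · intro l'
    rw [← mul_assoc, ← pow_add]
    exact hl₀ _
  · rw [← mul_assoc, ← pow_add, hpow, one_mul]

theorem rep_unique {a : ℕ} {r r' : ZMod (Y.q a)} (hr : Y.IsRep a r) (hr' : Y.IsRep a r') {l l' : ℕ}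
    (h : Y.u a ^ l * r = Y.u a ^ l' * r') : r = r' ∧ Y.u a ^ l = Y.u a ^ l' := by
  have key : ∀ {r r' : ZMod (Y.q a)} {l l' : ℕ}, Y.IsRep a r → Y.u a ^ l * r = Y.u a ^ l' * r' →
      r.val ≤ r'.val := by
    intro r r' l l' hr h
    have hk := Y.hk a
    -- r' = u^(l + k*l' - l') r
    have h1 : r' = Y.u a ^ ((Y.k a - 1) * l' + l) * r := by
      rw [pow_add, mul_assoc, h, ← mul_assoc, ← pow_add]
      have : (Y.k a - 1) * l' + l' = Y.k a * l' := by
        obtain ⟨m, hm⟩ : ∃ m, Y.k a = m + 1 := ⟨Y.k a - 1, by omega⟩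
        rw [hm, Nat.add_sub_cancel]; ring
      rw [this, pow_mul, Y.u_pow, one_pow, one_mul]
    rw [h1]
    exact hr.2 _
  have h1 := key hr h
  have h2 := key hr' h.symm
  have h3 : r = r' := ZMod.val_injective _ (le_antisymm h1 h2)
  refine ⟨h3, ?_⟩
  subst h3
  exact mul_right_cancel₀ hr.1 h

theorem pow_inj {a : ℕ} {l l' : ℕ} (hl : l < Y.k a) (hl' : l' < Y.k a)
    (h : Y.u a ^ l = Y.u a ^ l') : l = l' := by
  rw [← Y.hu a] at hl hl'
  exact pow_injOn_Iio_orderOf hl hl' h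

/-! the partial symmetries -/

theorem R_mem {a : ℕ} {r : ZMod (Y.q a)} {f : H} (h : Y.InH a r f) : Y.InH a (Y.u a * r) (Y.R a f) := by
  constructor
  · intro b hb x
    rw [← Y.r1 a (Y.E b x) f h.1, Y.r5 a b x hb, h.1 b hb x]
  · intro x
    rw [← Y.r1 a (Y.E a x) f h.1, Y.r4, h.2, map_smul, chi_mul]

theorem Ri_mem {a : ℕ} {r : ZMod (Y.q a)} {f : H} (h : Y.InH a r f) (l : ℕ) :
    Y.InH a (Y.u a ^ l * r) ((Y.R a)^[l] f) := by
  induction l with
  | zero => simpa using h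
  | succ l ih =>
    rw [Function.iterate_succ_apply', pow_succ', mul_assoc]
    exact Y.R_mem ih

/-- invariance under `E b`, `b < a` -/
def Ha (a : ℕ) (f : H) : Prop := ∀ b < a, ∀ x, Y.V (Y.E b x) f = f

theorem R_Ha {a : ℕ} {f : H} (h : Y.Ha a f) : Y.Ha a (Y.R a f) := by
  intro b hb x
  rw [← Y.r1 a (Y.E b x) f h, Y.r5 a b x hb, h b hb x]

theorem Ri_Ha {a : ℕ} {f : H} (h : Y.Ha a f) (l : ℕ) : Y.Ha a ((Y.R a)^[l] f) := by
  induction l with
  | zero => exact h
  | succ l ih => rw [Function.iterate_succ_apply']; exact Y.R_Ha ih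

theorem V_Ha {a : ℕ} {f : H} (h : Y.Ha a f) (g : G) : Y.Ha a (Y.V g f) := by
  intro b hb x
  rw [Y.V_comm, h b hb x]

theorem Ri_V {a : ℕ} (l : ℕ) : ∀ {f : H}, Y.Ha a f → ∀ g : G,
    (Y.R a)^[l] (Y.V ((Y.ν a)^[l] g) f) = Y.V g ((Y.R a)^[l] f) := by
  induction l with
  | zero => intro f _ g; rfl
  | succ l ih =>
    intro f hf g
    rw [Function.iterate_succ_apply', Function.iterate_succ_apply (Y.ν a), ih hf (Y.ν a g),
      Function.iterate_succ_apply', Y.r1 a g _ (Y.Ri_Ha hf l)]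

theorem U_Ha {a : ℕ} {f : H} (h : Y.Ha a f) : Y.Ha a (Y.U f) := by
  intro b hb x
  rw [← Y.U_V, h b hb x]

theorem Ri_U {a : ℕ} (l : ℕ) : ∀ {f : H}, Y.Ha a f → (Y.R a)^[l] (Y.U f) = Y.U ((Y.R a)^[l] f) := by
  induction l with
  | zero => intro f _; rfl
  | succ l ih =>
    intro f hf
    rw [Function.iterate_succ_apply', ih hf, Function.iterate_succ_apply', Y.r2 a _ (Y.Ri_Ha hf l)]

theorem Ri_inner (a l : ℕ) (f f' : H) :
    inner ℂ ((Y.R a)^[l] f) ((Y.R a)^[l] f') = inner ℂ f f' := by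
  induction l with
  | zero => rfl
  | succ l ih =>
    rw [Function.iterate_succ_apply', Function.iterate_succ_apply', LinearIsometryEquiv.inner_map_map, ih]

theorem Ri_norm (a l : ℕ) (f : H) : ‖(Y.R a)^[l] f‖ = ‖f‖ := by
  induction l with
  | zero => rfl
  | succ l ih => rw [Function.iterate_succ_apply', LinearIsometryEquiv.norm_map, ih]

/-- the iterate of `R a` as a continuous linear map -/
noncomputable def Ri (a l : ℕ) : H →L[ℂ] H :=
  (((Y.R a) ^ l : H ≃ₗᵢ[ℂ] H)).toContinuousLinearEquiv.toContinuousLinearMap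

theorem Ri_apply (a l : ℕ) (f : H) : Y.Ri a l f = (Y.R a)^[l] f := by
  unfold Ri
  show ((Y.R a) ^ l) f = _
  induction l with
  | zero => rfl
  | succ l ih => rw [pow_succ', Function.iterate_succ_apply', LinearIsometryEquiv.coe_mul,
      Function.comp_apply, ih]

/-! powers of `U` -/

theorem symm_V (g : G) (f : H) : Y.U.symm (Y.V g f) = Y.V g (Y.U.symm f) := by
  apply Y.U.injective
  rw [LinearIsometryEquiv.apply_symm_apply, Y.U_V, LinearIsometryEquiv.apply_symm_apply]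

theorem Upow_V (N : ℤ) (g : G) (f : H) : (Y.U ^ N) (Y.V g f) = Y.V g ((Y.U ^ N) f) := by
  induction N using Int.induction_on generalizing f with
  | zero => rfl
  | succ n ih =>
    rw [zpow_add, zpow_one, LinearIsometryEquiv.coe_mul, Function.comp_apply, Function.comp_apply,
      Y.U_V, ih]
  | pred n ih =>
    rw [zpow_sub, zpow_one, LinearIsometryEquiv.coe_mul, Function.comp_apply, Function.comp_apply]
    have : ∀ f, (Y.U⁻¹) f = Y.U.symm f := fun f => rfl
    rw [this, this, Y.symm_V, ih]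

theorem Upow_mem {a : ℕ} {r : ZMod (Y.q a)} {f : H} (h : Y.InH a r f) (N : ℤ) :
    Y.InH a r ((Y.U ^ N) f) := by
  constructor
  · intro b hb x
    rw [← Y.Upow_V, h.1 b hb x]
  · intro x
    rw [← Y.Upow_V, h.2 x, map_smul]

theorem Ri_Upow {a : ℕ} (l : ℕ) {f : H} (h : Y.Ha a f) (N : ℤ) :
    (Y.R a)^[l] ((Y.U ^ N) f) = (Y.U ^ N) ((Y.R a)^[l] f) := by
  have hs : ∀ f, (Y.U⁻¹) f = Y.U.symm f := fun f => rfl
  have hHa : ∀ {f : H}, Y.Ha a f → Y.Ha a (Y.U.symm f) := by
    intro f hf b hb x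
    rw [← Y.symm_V, hf b hb x]
  have hsymm : ∀ {f : H}, Y.Ha a f → (Y.R a)^[l] (Y.U.symm f) = Y.U.symm ((Y.R a)^[l] f) := by
    intro f hf
    apply Y.U.injective
    rw [LinearIsometryEquiv.apply_symm_apply, ← Y.Ri_U l (hHa hf), LinearIsometryEquiv.apply_symm_apply]
  induction N using Int.induction_on generalizing f with
  | zero => rfl
  | succ n ih =>
    rw [zpow_add, zpow_one, LinearIsometryEquiv.coe_mul, Function.comp_apply, Function.comp_apply,
      ih (Y.U_Ha h), Y.Ri_U l h]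
  | pred n ih =>
    rw [zpow_sub, zpow_one, LinearIsometryEquiv.coe_mul, Function.comp_apply, Function.comp_apply,
      hs, hs, ih (hHa h), hsymm h]

end Sys

end Pool.Agent.Helper42.AB
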