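import Pool.Agent.Helper42.AB2

/-!
Abstract part, 3: the cyclic vectors.
-/

open scoped ComplexConjugate

namespace Pool.Agent.Helper42.AB

variable {H : Type*} [NormedAddCommGroup H] [InnerProductSpace ℂ H] [CompleteSpace H]
variable {G : Type*} [AddCommGroup G]

namespace Sys

variable (Y : Sys H G)

theorem P_of_ne {a b : ℕ} {r : ZMod (Y.q a)} {s : ZMod (Y.q b)} {f : H} (h : Y.InH a r f)
    (hr : r ≠ 0) (hs : s ≠ 0) (hne : (⟨a, r⟩ : (a : ℕ) × ZMod (Y.q a)) ≠ ⟨b, s⟩) : Y.P b s f = 0 := by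
  have h1 : inner ℂ (Y.P b s f) (Y.P b s f) = 0 := by
    rw [P_inner, Y.P_of_mem (Y.P_mem b s f)]
    exact InH.orth Y h (Y.P_mem b s f) hr hs hne
  exact inner_self_eq_zero.mp h1

/-- closed `U`-cyclic subspace -/
def ZU (f : H) : Submodule ℂ H := (Submodule.span ℂ {z | ∃ N : ℤ, z = (Y.U ^ N) f}).topologicalClosure

theorem mem_ZU (f : H) (N : ℤ) : (Y.U ^ N) f ∈ Y.ZU f :=
  Submodule.le_topologicalClosure _ (Submodule.subset_span ⟨N, rfl⟩)

theorem self_mem_ZU (f : H) : f ∈ Y.ZU f := Y.mem_ZU f 0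

theorem stable_ZU (f : H) : Stable Y.U (Y.ZU f) := by
  refine ⟨Submodule.isClosed_topologicalClosure _, ?_⟩
  intro z hz
  have h1 : (Submodule.span ℂ {z | ∃ N : ℤ, z = (Y.U ^ N) f}) ≤
      (Submodule.span ℂ {z | ∃ N : ℤ, z = (Y.U ^ N) f}).comap
        (Y.U.toContinuousLinearEquiv.toContinuousLinearMap : H →ₗ[ℂ] H) := by
    rw [Submodule.span_le]
    rintro _ ⟨N, rfl⟩
    apply Submodule.subset_span
    refine ⟨1 + N, ?_⟩
    rw [zpow_add, zpow_one]
    rfl
  have h2 : Set.MapsTo (Y.U : H → H) (Submodule.span ℂ {z | ∃ N : ℤ, z = (Y.U ^ N) f} : Set H)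
      (Submodule.span ℂ {z | ∃ N : ℤ, z = (Y.U ^ N) f} : Set H) := fun x hx => h1 hx
  exact h2.closure Y.U.continuous hz

variable (h : H)

open Classical in
/-- the part of `h` in the pieces of index `a` with representative character -/
noncomputable def yy (a : ℕ) : H := ∑ r ∈ Finset.univ.filter (fun r => Y.IsRep a r), Y.P a r h

theorem P_Ri_yy {a b l : ℕ} {s : ZMod (Y.q b)} (hs : s ≠ 0) (hab : a ≠ b) :
    Y.P b s ((Y.R a)^[l] (Y.yy h a)) = 0 := by
  classical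
  rw [← Ri_apply]
  unfold yy
  rw [map_sum, map_sum]
  apply Finset.sum_eq_zero
  intro r hr
  rw [Finset.mem_filter] at hr
  rw [Ri_apply]
  refine Y.P_of_ne (Y.Ri_mem (Y.P_mem a r h) l) (mul_ne_zero (pow_ne_zero _ (Y.u_ne_zero a)) hr.2.1) hs ?_
  intro h1
  exact hab (congrArg Sigma.fst h1)

theorem P_Ri_yy_same {a l : ℕ} {r : ZMod (Y.q a)} (hr : Y.IsRep a r) :
    Y.P a (Y.u a ^ l * r) ((Y.R a)^[l] (Y.yy h a)) = (Y.R a)^[l] (Y.P a r h) := by
  classical
  have hs : Y.u a ^ l * r ≠ 0 := mul_ne_zero (pow_ne_zero _ (Y.u_ne_zero a)) hr.1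
  rw [← Ri_apply]
  unfold yy
  rw [map_sum, map_sum, Finset.sum_eq_single r]
  · rw [Ri_apply, Y.P_of_mem (Y.Ri_mem (Y.P_mem a r h) l)]
  · intro r' hr' hne
    rw [Finset.mem_filter] at hr'
    rw [Ri_apply]
    refine Y.P_of_ne (Y.Ri_mem (Y.P_mem a r' h) l)
      (mul_ne_zero (pow_ne_zero _ (Y.u_ne_zero a)) hr'.2.1) hs ?_
    intro h1
    have h2 : Y.u a ^ l * r' = Y.u a ^ l * r := by simpa using h1
    exact hne (Y.rep_unique hr'.2 hr h2).1
  · intro h1
    exact absurd (Finset.mem_filter.mpr ⟨Finset.mem_univ _, hr⟩) h1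

theorem P_Ri_yy_ne {a l : ℕ} {s : ZMod (Y.q a)} (hs : s ≠ 0)
    (hne : ∀ r, Y.IsRep a r → s ≠ Y.u a ^ l * r) : Y.P a s ((Y.R a)^[l] (Y.yy h a)) = 0 := by
  classical
  rw [← Ri_apply]
  unfold yy
  rw [map_sum, map_sum]
  apply Finset.sum_eq_zero
  intro r hr
  rw [Finset.mem_filter] at hr
  rw [Ri_apply]
  refine Y.P_of_ne (Y.Ri_mem (Y.P_mem a r h) l)
      (mul_ne_zero (pow_ne_zero _ (Y.u_ne_zero a)) hr.2.1) hs ?_
  intro h1
  have h2 : Y.u a ^ l * r = s := by simpa using h1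
  exact hne r hr.2 h2.symm

theorem yy_Ha (a : ℕ) : Y.Ha a (Y.yy h a) := by
  classical
  intro b hb x
  unfold yy
  rw [map_sum]
  exact Finset.sum_congr rfl (fun r _ => (Y.P_mem a r h).1 b hb x)

/-- weights -/
noncomputable def ww (a : ℕ) : ℂ := (((1 / 2 : ℝ) ^ a / (1 + ‖Y.yy h a‖) : ℝ) : ℂ)

theorem ww_ne (a : ℕ) : Y.ww h a ≠ 0 := by
  unfold ww
  rw [Complex.ofReal_ne_zero]
  positivity

/-- the term of index `a` -/
noncomputable def term (c : ℕ → Prop) (m : ℕ → ℕ) (a : ℕ) : H :=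
  open Classical in if c a then Y.ww h a • (Y.R a)^[m a] (Y.yy h a) else 0

theorem term_norm_le (c : ℕ → Prop) (m : ℕ → ℕ) (a : ℕ) : ‖Y.term h c m a‖ ≤ (1 / 2 : ℝ) ^ a := by
  unfold term
  split_ifs with hc
  · rw [norm_smul, Ri_norm]
    unfold ww
    rw [Complex.norm_real, Real.norm_of_nonneg (by positivity), div_mul_eq_mul_div]
    rw [div_le_iff₀ (by positivity)]
    gcongr
    linarith [norm_nonneg (Y.yy h a)]
  · rw [norm_zero]; positivity

theorem summable_term (c : ℕ → Prop) (m : ℕ → ℕ) : Summable (Y.term h c m) :=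
  Summable.of_norm_bounded (summable_geometric_of_lt_one (by norm_num) (by norm_num))
    (Y.term_norm_le h c m)

/-- the vectors of the construction -/
noncomputable def vec (c : ℕ → Prop) (m : ℕ → ℕ) : H := ∑' a, Y.term h c m a

theorem map_vec (c : ℕ → Prop) (m : ℕ → ℕ) (L : H →L[ℂ] H) :
    L (Y.vec h c m) = ∑' a, L (Y.term h c m a) := L.map_tsum (Y.summable_term h c m)

theorem P_vec (c : ℕ → Prop) (m : ℕ → ℕ) (b : ℕ) {s : ZMod (Y.q b)} (hs : s ≠ 0) :
    Y.P b s (Y.vec h c m) = Y.P b s (Y.term h c m b) := by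
  rw [map_vec, tsum_eq_single b]
  intro a hab
  unfold term
  split_ifs with hc
  · rw [map_smul, Y.P_Ri_yy h hs hab, smul_zero]
  · rw [map_zero]

theorem oneRep_vec (c : ℕ → Prop) (m : ℕ → ℕ) : OneRep Y (Y.vec h c m) := by
  intro a s hs l hl hl' hne
  have hs' : (Y.u a ^ l)⁻¹ * s ≠ 0 :=
    mul_ne_zero (inv_ne_zero (pow_ne_zero _ (Y.u_ne_zero a))) hs
  rw [P_vec Y h c m a hs] at hne
  rw [P_vec Y h c m a hs']
  unfold term at hne ⊢
  split_ifs at hne ⊢ with hc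
  · rw [map_smul] at hne ⊢
    have h1 : ∃ r, Y.IsRep a r ∧ s = Y.u a ^ m a * r := by
      by_contra hcon
      push Not at hcon
      rw [Y.P_Ri_yy_ne h hs hcon, smul_zero] at hne
      exact hne rfl
    obtain ⟨r, hr, rfl⟩ := h1
    rw [Y.P_Ri_yy_ne h hs', smul_zero]
    intro r' hr' heq
    have hu : Y.u a ^ l ≠ 0 := pow_ne_zero _ (Y.u_ne_zero a)
    have h2 : Y.u a ^ m a * r = Y.u a ^ (l + m a) * r' := by
      rw [pow_add, mul_assoc, ← heq, ← mul_assoc, mul_inv_cancel₀ hu, one_mul]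
    obtain ⟨rfl, h3⟩ := Y.rep_unique hr hr' h2
    rw [pow_add] at h3
    have h4 : Y.u a ^ l = 1 := by
      have hm : Y.u a ^ m a ≠ 0 := pow_ne_zero _ (Y.u_ne_zero a)
      have : 1 * Y.u a ^ m a = Y.u a ^ l * Y.u a ^ m a := by rw [one_mul]; exact h3
      exact (mul_right_cancel₀ hm this).symm
    have := Y.pow_inj hl' (Y.hk a) (h4.trans (pow_zero _).symm)
    omega
  · rw [map_zero]

theorem term_Ha (c : ℕ → Prop) (m : ℕ → ℕ) (a : ℕ) : Y.Ha a (Y.term h c m a) := by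
  unfold term
  split_ifs with hc
  · intro b hb x
    rw [map_smul, Y.Ri_Ha (Y.yy_Ha h a) (m a) b hb x]
  · intro b hb x
    rw [map_zero]

/-- the inner product of two vectors built from different data -/
theorem inner_term_of_ne {c c' : ℕ → Prop} {m m' : ℕ → ℕ} {a b : ℕ} (N : ℤ)
    (hne : a = b → c a → c' a → m a < Y.k a ∧ m' a < Y.k a ∧ m a ≠ m' a) :
    inner ℂ (Y.term h c m a) ((Y.U ^ N) (Y.term h c' m' b)) = 0 := by
  classical
  unfold term
  split_ifs with hc hc'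
  · rw [map_smul, inner_smul_left, inner_smul_right]
    have : inner ℂ ((Y.R a)^[m a] (Y.yy h a)) ((Y.U ^ N) ((Y.R b)^[m' b] (Y.yy h b))) = 0 := by
      rw [← Ri_apply, ← Ri_apply]
      unfold yy
      rw [map_sum, map_sum, map_sum, sum_inner]
      apply Finset.sum_eq_zero
      intro r hr
      rw [inner_sum]
      apply Finset.sum_eq_zero
      intro s hs
      rw [Finset.mem_filter] at hr hs
      rw [Ri_apply, Ri_apply]
      refine InH.orth Y (Y.Ri_mem (Y.P_mem a r h) (m a))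
        (Y.Upow_mem (Y.Ri_mem (Y.P_mem b s h) (m' b)) N)
        (mul_ne_zero (pow_ne_zero _ (Y.u_ne_zero a)) hr.2.1)
        (mul_ne_zero (pow_ne_zero _ (Y.u_ne_zero b)) hs.2.1) ?_
      intro h1
      have hab : a = b := congrArg Sigma.fst h1
      subst hab
      obtain ⟨h2, h3, h4⟩ := hne rfl hc hc'
      have h5 : Y.u a ^ m a * r = Y.u a ^ m' a * s := by simpa using h1
      exact h4 (Y.pow_inj h2 h3 (Y.rep_unique hr.2 hs.2 h5).2)
    rw [this, mul_zero, mul_zero]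
  · rw [map_zero, inner_zero_right]
  · rw [inner_zero_left]
  · rw [inner_zero_left]

theorem inner_vec_left (c : ℕ → Prop) (m : ℕ → ℕ) (z : H) :
    inner ℂ (Y.vec h c m) z = ∑' a, inner ℂ (Y.term h c m a) z := by
  have h1 : inner ℂ z (Y.vec h c m) = ∑' a, inner ℂ z (Y.term h c m a) :=
    (innerSL ℂ z).map_tsum (Y.summable_term h c m)
  rw [← inner_conj_symm, h1, Complex.conj_tsum]
  congr 1
  funext a
  rw [inner_conj_symm]

theorem inner_vec_right (c : ℕ → Prop) (m : ℕ → ℕ) (z : H) (N : ℤ) :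
    inner ℂ z ((Y.U ^ N) (Y.vec h c m)) = ∑' a, inner ℂ z ((Y.U ^ N) (Y.term h c m a)) := by
  have h1 := (innerSL ℂ z).map_tsum (((Y.U ^ N : H ≃ₗᵢ[ℂ] H).toContinuousLinearEquiv.toContinuousLinearMap.summable
    (Y.summable_term h c m)))
  have h2 := ((Y.U ^ N : H ≃ₗᵢ[ℂ] H).toContinuousLinearEquiv.toContinuousLinearMap).map_tsum
    (Y.summable_term h c m)
  have h3 : (Y.U ^ N) (Y.vec h c m) = ∑' a, (Y.U ^ N) (Y.term h c m a) := h2
  rw [h3]
  exact h1

theorem inner_vec_vec_zero {c c' : ℕ → Prop} {m m' : ℕ → ℕ} (N : ℤ)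
    (hne : ∀ a, c a → c' a → m a < Y.k a ∧ m' a < Y.k a ∧ m a ≠ m' a) :
    inner ℂ (Y.vec h c m) ((Y.U ^ N) (Y.vec h c' m')) = 0 := by
  rw [inner_vec_left]
  rw [tsum_congr (fun a => ?_), tsum_zero]
  rw [inner_vec_right]
  rw [tsum_congr (fun b => ?_), tsum_zero]
  exact Y.inner_term_of_ne h N (fun _ hc hc' => hne a hc hc')

theorem inner_vec_diag {c : ℕ → Prop} {m : ℕ → ℕ} (N : ℤ) :
    inner ℂ (Y.vec h c m) ((Y.U ^ N) (Y.vec h c m)) =
      ∑' a, inner ℂ (Y.term h c (fun _ => 0) a) ((Y.U ^ N) (Y.term h c (fun _ => 0) a)) := by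
  rw [inner_vec_left]
  apply tsum_congr
  intro a
  rw [inner_vec_right, tsum_eq_single a]
  · unfold term
    split_ifs with hc
    · rw [map_smul, map_smul, inner_smul_left, inner_smul_left, inner_smul_right, inner_smul_right,
        ← Y.Ri_Upow (m a) (Y.yy_Ha h a) N, Ri_inner]
      rfl
    · rfl
  · intro b hb
    exact Y.inner_term_of_ne h N (fun e => absurd e.symm hb)

variable (hcyc : (Submodule.span ℂ (Set.range fun g => Y.V g h)).topologicalClosure = ⊤)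

include hcyc

omit hcyc in
theorem eq_zero_of_span {K : Set H} {f : H} (hK : (Submodule.span ℂ K).topologicalClosure = ⊤)
    (hf : ∀ z ∈ K, inner ℂ z f = 0) : f = 0 := by
  have h1 : f ∈ (Submodule.span ℂ K)ᗮ := by
    rw [Submodule.mem_orthogonal]
    intro z hz
    induction hz using Submodule.span_induction with
    | mem z hz => exact hf z hz
    | zero => exact inner_zero_left _
    | add x y _ _ hx hy => rw [inner_add_left, hx, hy, add_zero]
    | smul c x _ hx => rw [inner_smul_left, hx, mul_zero]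
  rw [Submodule.topologicalClosure_eq_top_iff] at hK
  rw [hK] at h1
  exact (Submodule.mem_bot ℂ).mp h1

theorem cyc_piece {a : ℕ} {r : ZMod (Y.q a)} {f : H} (hf : Y.InH a r f)
    (h0 : ∀ g, inner ℂ (Y.V g (Y.P a r h)) f = 0) : f = 0 := by
  apply eq_zero_of_span hcyc
  rintro _ ⟨g, rfl⟩
  show inner ℂ (Y.V g h) f = 0
  rw [← Y.P_of_mem hf, ← P_inner, P_V]
  exact h0 g

theorem P_h_ne {a : ℕ} {r : ZMod (Y.q a)} (hr : r ≠ 0) : Y.P a r h ≠ 0 := by
  intro h0
  obtain ⟨f, hf, h1, h2⟩ := Y.nz a r hr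
  apply hf
  apply Y.cyc_piece h hcyc (a := a) (r := r) ⟨h1, h2⟩
  intro g
  rw [h0, map_zero, inner_zero_left]

theorem stable_P_vec {Z : Submodule ℂ H} (hZ : Stable Y.U Z) {c : ℕ → Prop} {m : ℕ → ℕ}
    (hv : Y.vec h c m ∈ Z) {a : ℕ} (hc : c a) {r : ZMod (Y.q a)} (hr : Y.IsRep a r) :
    (Y.R a)^[m a] (Y.P a r h) ∈ Z := by
  have hs : Y.u a ^ m a * r ≠ 0 := mul_ne_zero (pow_ne_zero _ (Y.u_ne_zero a)) hr.1
  have h1 := stable_P hZ hv (Y.oneRep_vec h c m) a hs
  rw [P_vec Y h c m a hs] at h1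
  unfold term at h1
  rw [if_pos hc, map_smul, Y.P_Ri_yy_same h hr] at h1
  have h2 := Z.smul_mem (Y.ww h a)⁻¹ h1
  rwa [smul_smul, inv_mul_cancel₀ (Y.ww_ne h a), one_smul] at h2

theorem vec_mem {Z : Submodule ℂ H} (hZ : Stable Y.U Z) {c c' : ℕ → Prop} {m m' : ℕ → ℕ}
    (hv : Y.vec h c m ∈ Z) (hcc : ∀ a, c' a → c a) (hm : ∀ a, c' a → m' a = m a) :
    Y.vec h c' m' ∈ Z := by
  classical
  have h1 : ∀ a, Y.term h c' m' a ∈ Z := by
    intro a
    unfold term
    split_ifs with hc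
    · apply Z.smul_mem
      rw [hm a hc, ← Ri_apply]
      unfold yy
      rw [map_sum]
      apply Z.sum_mem
      intro r hr
      rw [Finset.mem_filter] at hr
      rw [Ri_apply]
      exact Y.stable_P_vec h hcyc hZ hv (hcc a hc) hr.2
    · exact Z.zero_mem
  have h2 := (Y.summable_term h c' m').hasSum
  exact hZ.1.mem_of_tendsto h2 (Filter.Eventually.of_forall (fun s => Z.sum_mem (fun a _ => h1 a)))

/-- completeness of the cyclic vectors -/
theorem complete {f : H} (hone : inner ℂ Y.one f = 0)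
    (hf : ∀ K l : ℕ, l < K → (∃ a, Y.k a = K) → ∀ N : ℤ,
      inner ℂ ((Y.U ^ N) (Y.vec h (fun a => Y.k a = K) (fun _ => l))) f = 0) : f = 0 := by
  -- orthogonality to closed cyclic spaces
  have hf' : ∀ K l : ℕ, l < K → (∃ a, Y.k a = K) →
      ∀ z ∈ Y.ZU (Y.vec h (fun a => Y.k a = K) (fun _ => l)), inner ℂ z f = 0 := by
    intro K l hl hK z hz
    have h1 : ∀ z ∈ (Submodule.span ℂ {z | ∃ N : ℤ, z = (Y.U ^ N) (Y.vec h (fun a => Y.k a = K) (fun _ => l))} : Set H),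
        inner ℂ z f = 0 := by
      intro z hz
      induction hz using Submodule.span_induction with
      | mem z hz =>
        obtain ⟨N, rfl⟩ := hz
        exact hf K l hl hK N
      | zero => exact inner_zero_left _
      | add x y _ _ hx hy => rw [inner_add_left, hx, hy, add_zero]
      | smul c x _ hx => rw [inner_smul_left, hx, mul_zero]
    have hcl : IsClosed {z : H | inner ℂ z f = 0} :=
      isClosed_eq (Continuous.inner continuous_id continuous_const) continuous_const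
    exact closure_minimal h1 hcl hz
  have claim : ∀ a (s : ZMod (Y.q a)), s ≠ 0 → Y.P a s f = 0 := by
    intro a s hs
    obtain ⟨l, hl, r, hr, hsr⟩ := Y.exists_rep a hs
    set Z := Y.ZU (Y.vec h (fun b => Y.k b = Y.k a) (fun _ => l)) with hZdef
    have hZ : Stable Y.U Z := Y.stable_ZU _
    have hy : (Y.R a)^[l] (Y.P a r h) ∈ Z :=
      Y.stable_P_vec h hcyc hZ (m := fun _ => l) (Y.self_mem_ZU _) (a := a) rfl hr
    have hyH : Y.InH a s ((Y.R a)^[l] (Y.P a r h)) := by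
      rw [hsr]; exact Y.Ri_mem (Y.P_mem a r h) l
    have hVy : ∀ g, Y.V g ((Y.R a)^[l] (Y.P a r h)) ∈ Z := fun g => stable_V hZ hs g _ hy hyH
    set f₁ := Y.P a s f with hf₁
    have hf₁H : Y.InH a s f₁ := Y.P_mem a s f
    have h1 : ∀ g, inner ℂ (Y.V g ((Y.R a)^[l] (Y.P a r h))) f₁ = 0 := by
      intro g
      rw [hf₁, ← P_inner, P_V, Y.P_of_mem hyH]
      exact hf' (Y.k a) l hl ⟨a, rfl⟩ _ (hVy g)
    set f₂ := (Y.R a)^[Y.k a - l] f₁ with hf₂
    have hf₂H : Y.InH a r f₂ := by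
      have := Y.Ri_mem hf₁H (Y.k a - l)
      rw [hsr, ← mul_assoc, ← pow_add, Nat.sub_add_cancel hl.le, Y.u_pow, one_mul] at this
      exact this
    have h2 : (Y.R a)^[l] f₂ = f₁ := by
      rw [hf₂, ← Function.iterate_add_apply, Nat.add_sub_cancel' hl.le, Y.r3]
    have hsurj : Function.Surjective ((Y.ν a)^[l]) := (Y.r6 a).iterate l
    have h3 : f₂ = 0 := by
      apply Y.cyc_piece h hcyc hf₂H
      intro g'
      obtain ⟨g, rfl⟩ := hsurj g'
      rw [← Y.Ri_inner a l, h2, Y.Ri_V l (Y.P_mem a r h).1]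
      exact h1 g
    rw [← h2, h3, ← Ri_apply, map_zero]
  -- invariance under all `E a`
  apply Y.erg f _ hone
  intro a
  induction a using Nat.strong_induction_on with
  | _ a ih =>
    have h1 : Y.Pinv a f = f := Y.Pinv_of_inv ih
    have h2 : Y.P1 a 0 f = f := by
      have h3 := Y.sum_P1 a f
      rw [Finset.sum_eq_single 0] at h3
      · exact h3
      · intro s _ hs
        have := claim a s hs
        rwa [P_apply, h1] at this
      · intro h0
        exact absurd (Finset.mem_univ _) h0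
    intro x
    rw [← h2, V_P1, chi_zero_left, one_smul]

theorem vec_ne_zero {c : ℕ → Prop} {m : ℕ → ℕ} {a : ℕ} (hc : c a) : Y.vec h c m ≠ 0 := by
  intro h0
  obtain ⟨l, hl, r, hr, hsr⟩ := Y.exists_rep a (one_ne_zero : (1 : ZMod (Y.q a)) ≠ 0)
  have h1 := Y.stable_P_vec h hcyc (Z := Y.ZU (Y.vec h c m)) (Y.stable_ZU _) (c := c) (m := m)
    (Y.self_mem_ZU _) hc hr
  have hs : Y.u a ^ m a * r ≠ 0 := mul_ne_zero (pow_ne_zero _ (Y.u_ne_zero a)) hr.1
  have h2 := P_vec Y h c m a hs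
  rw [h0, map_zero] at h2
  unfold term at h2
  rw [if_pos hc, map_smul, Y.P_Ri_yy_same h hr] at h2
  have h3 := (smul_eq_zero.mp h2.symm).resolve_left (Y.ww_ne h a)
  have h4 : ‖(Y.R a)^[m a] (Y.P a r h)‖ = 0 := by rw [h3, norm_zero]
  rw [Ri_norm, norm_eq_zero] at h4
  exact Y.P_h_ne h hcyc hr.1 h4

omit hcyc in
theorem one_orth_vec (c : ℕ → Prop) (m : ℕ → ℕ) : inner ℂ Y.one (Y.vec h c m) = 0 := by
  classical
  have h1 := inner_vec_right Y h c m Y.one 0
  simp only [zpow_zero] at h1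
  have h1' : inner ℂ Y.one (Y.vec h c m) = ∑' a, inner ℂ Y.one (Y.term h c m a) := h1
  rw [h1', tsum_congr (fun a => ?_), tsum_zero]
  unfold term
  split_ifs with hc
  · rw [inner_smul_right, ← Ri_apply]
    unfold yy
    rw [map_sum, inner_sum, Finset.sum_eq_zero, mul_zero]
    intro r hr
    rw [Finset.mem_filter] at hr
    rw [Ri_apply]
    refine inner_eq_zero_of_eigen (W := Y.V (Y.E a 1)) (c := 1) ?_
      ((Y.Ri_mem (Y.P_mem a r h) (m a)).2 1) norm_one
      (chi_ne_one (mul_ne_zero (pow_ne_zero _ (Y.u_ne_zero a)) hr.2.1)).symm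
    rw [Y.V_one, one_smul]
  · rw [inner_zero_right]

end Sys

end Pool.Agent.Helper42.AB
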