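import Pool.Agent.Helper42.AB3
import Pool.Agent.Helper65.Assemble

/-!
Abstract part, 4: the spectral model of `U` on the orthogonal complement of the constants.
-/

open MeasureTheory
open scoped ComplexConjugate ENNReal

namespace Pool.Agent.Helper42.AB

/-! ### a measurable choice of the index -/

theorem exists_index {Ω : Type*} [MeasurableSpace Ω] (σ : ℕ → Measure Ω)
    (hσ : ∀ a b, a ≠ b → σ a ⟂ₘ σ b) :
    ∃ ix : Ω → ℕ, Measurable ix ∧ ∀ a, ∀ᵐ z ∂(σ a), ix z = a := by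
  classical
  have h1 : ∀ a, σ a ⟂ₘ Measure.sum (fun b : {b // b ≠ a} => σ b.1) := fun a =>
    Measure.MutuallySingular.sum_right.mpr (fun b => hσ a b.1 b.2.symm)
  choose s hs1 hs2 hs3 using h1
  have hs4 : ∀ a b, b ≠ a → σ b (s a)ᶜ = 0 := by
    intro a b hb
    have := hs3 a
    rw [Measure.sum_apply _ (hs1 a).compl, ENNReal.tsum_eq_zero] at this
    exact this ⟨b, hb⟩
  let p : Ω → ℕ → Prop := fun z n => z ∈ (s n)ᶜ ∨ ∀ a, z ∉ (s a)ᶜ
  have hp : ∀ z, ∃ N, p z N := by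
    intro z
    by_cases h : ∃ a, z ∈ (s a)ᶜ
    · obtain ⟨a, ha⟩ := h
      exact ⟨a, Or.inl ha⟩
    · push Not at h
      exact ⟨0, Or.inr h⟩
  refine ⟨fun z => Nat.find (hp z), measurable_find hp ?_, ?_⟩
  · intro k
    have : {z | p z k} = (s k)ᶜ ∪ ⋂ a, ((s a)ᶜ)ᶜ := by
      ext z
      simp [p]
    rw [this]
    exact (hs1 k).compl.union (MeasurableSet.iInter (fun a => (hs1 a).compl.compl))
  · intro a
    have h2 : ∀ᵐ z ∂(σ a), z ∈ (s a)ᶜ := by
      rw [ae_iff]
      simpa using hs2 a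
    have h3 : ∀ᵐ z ∂(σ a), ∀ b, b ≠ a → z ∉ (s b)ᶜ := by
      rw [ae_all_iff]
      intro b
      by_cases hb : b = a
      · exact Filter.Eventually.of_forall (fun _ h => absurd hb h)
      · have := hs4 b a (Ne.symm hb)
        filter_upwards [compl_mem_ae_iff.mpr this] with z hz _
        exact hz
    filter_upwards [h2, h3] with z h2 h3
    show Nat.find (hp z) = a
    have h4 : ∀ n, p z n ↔ n = a := by
      intro n
      constructor
      · rintro (h | h)
        · by_contra hn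
          exact h3 n hn h
        · exact absurd h2 (h a)
      · rintro rfl
        exact Or.inl h2
    exact (h4 _).mp (Nat.find_spec (hp z))

variable {H : Type*} [NormedAddCommGroup H] [InnerProductSpace ℂ H] [CompleteSpace H]
variable {G : Type*} [AddCommGroup G]

namespace Sys

variable (Y : Sys H G)

/-! ### the orthogonal complement of the constants -/

/-- orthogonal complement of `one` -/
noncomputable abbrev H0 : Submodule ℂ H := (Submodule.span ℂ {Y.one})ᗮ

theorem mem_H0 {f : H} : f ∈ Y.H0 ↔ inner ℂ Y.one f = 0 :=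
  Submodule.mem_orthogonal_singleton_iff_inner_right

theorem U_mem_H0 {f : H} (hf : f ∈ Y.H0) : Y.U f ∈ Y.H0 := by
  rw [mem_H0] at hf ⊢
  have h1 : inner ℂ (Y.U Y.one) (Y.U f) = inner ℂ Y.one f := Y.U.inner_map_map _ _
  rw [Y.U_one] at h1
  rw [h1, hf]

theorem U_symm_mem_H0 {f : H} (hf : f ∈ Y.H0) : Y.U.symm f ∈ Y.H0 := by
  rw [mem_H0] at hf ⊢
  have h1 : inner ℂ (Y.U Y.one) (Y.U (Y.U.symm f)) = inner ℂ Y.one (Y.U.symm f) := Y.U.inner_map_map _ _
  rw [Y.U_one, LinearIsometryEquiv.apply_symm_apply] at h1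
  rw [← h1, hf]

/-- the restriction of `U` -/
noncomputable def U0 : Y.H0 ≃ₗᵢ[ℂ] Y.H0 where
  toFun f := ⟨Y.U f.1, Y.U_mem_H0 f.2⟩
  invFun f := ⟨Y.U.symm f.1, Y.U_symm_mem_H0 f.2⟩
  left_inv f := Subtype.ext (Y.U.symm_apply_apply f.1)
  right_inv f := Subtype.ext (Y.U.apply_symm_apply f.1)
  map_add' f g := Subtype.ext (map_add Y.U f.1 g.1)
  map_smul' c f := Subtype.ext (map_smul Y.U c f.1)
  norm_map' f := Y.U.norm_map f.1

@[simp] theorem U0_coe (f : Y.H0) : (Y.U0 f : H) = Y.U f := rfl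

theorem U0_zpow (N : ℤ) : ∀ f : Y.H0, (((Y.U0 ^ N) f : Y.H0) : H) = (Y.U ^ N) (f : H) := by
  induction N using Int.induction_on with
  | zero => intro f; rfl
  | succ n ih =>
    intro f
    rw [zpow_add, zpow_one, LinearIsometryEquiv.coe_mul, Function.comp_apply, ih,
      zpow_add, zpow_one, LinearIsometryEquiv.coe_mul, Function.comp_apply]
    rfl
  | pred n ih =>
    intro f
    rw [zpow_sub, zpow_one, LinearIsometryEquiv.coe_mul, Function.comp_apply, ih,
      zpow_sub, zpow_one, LinearIsometryEquiv.coe_mul, Function.comp_apply]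
    rfl

variable (h : H)

/-- the vectors `vec` as elements of `H0` -/
noncomputable def w0 (c : ℕ → Prop) (m : ℕ → ℕ) : Y.H0 :=
  ⟨Y.vec h c m, (Y.mem_H0).mpr (Y.one_orth_vec h c m)⟩

@[simp] theorem w0_coe (c : ℕ → Prop) (m : ℕ → ℕ) : (Y.w0 h c m : H) = Y.vec h c m := rfl

theorem inner_w0 (c c' : ℕ → Prop) (m m' : ℕ → ℕ) (N : ℤ) :
    inner ℂ (Y.w0 h c m) ((Y.U0 ^ N) (Y.w0 h c' m')) = inner ℂ (Y.vec h c m) ((Y.U ^ N) (Y.vec h c' m')) := by
  rw [Submodule.coe_inner, U0_zpow]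
  rfl

theorem vec_single {c : ℕ → Prop} {a : ℕ} (hc : c a) (m : ℕ → ℕ) :
    Y.vec h (fun b => b = a) m = Y.term h c m a := by
  unfold vec
  rw [tsum_eq_single a]
  · unfold term
    rw [if_pos rfl, if_pos hc]
  · intro b hb
    unfold term
    rw [if_neg hb]

theorem term_of_not {c : ℕ → Prop} {a : ℕ} (hc : ¬ c a) (m : ℕ → ℕ) : Y.term h c m a = 0 := by
  unfold term
  rw [if_neg hc]

theorem vec_pair {a b : ℕ} (hab : a ≠ b) (m : ℕ → ℕ) :
    Y.vec h (fun x => x = a ∨ x = b) m = Y.vec h (fun x => x = a) m + Y.vec h (fun x => x = b) m := by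
  unfold vec
  rw [← (Y.summable_term h _ m).tsum_add (Y.summable_term h _ m)]
  congr 1
  funext x
  unfold term
  by_cases h1 : x = a
  · have h2 : ¬ x = b := fun h => hab (h1.symm.trans h)
    rw [if_pos (Or.inl h1), if_pos h1, if_neg h2, add_zero]
  · by_cases h2 : x = b
    · rw [if_pos (Or.inr h2), if_neg h1, if_pos h2, zero_add]
    · rw [if_neg (fun h => h.elim h1 h2), if_neg h1, if_neg h2, add_zero]

/-- the spans in `H0` -/
theorem mem_closure_of_mem_ZU {x w : Y.H0} (hx : (x : H) ∈ Y.ZU (w : H)) :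
    x ∈ (Submodule.span ℂ {z | ∃ N : ℤ, z = (Y.U0 ^ N) w}).topologicalClosure := by
  rw [← SetLike.mem_coe, Submodule.topologicalClosure_coe, closure_subtype]
  have h1 : (x : H) ∈ closure ((Submodule.span ℂ {z | ∃ N : ℤ, z = (Y.U ^ N) (w : H)} : Submodule ℂ H) : Set H) := hx
  refine closure_mono ?_ h1
  have h2 : {z | ∃ N : ℤ, z = (Y.U ^ N) (w : H)} = Y.H0.subtype '' {z | ∃ N : ℤ, z = (Y.U0 ^ N) w} := by
    ext z
    constructor
    · rintro ⟨N, rfl⟩
      exact ⟨_, ⟨N, rfl⟩, Y.U0_zpow N w⟩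
    · rintro ⟨_, ⟨N, rfl⟩, rfl⟩
      exact ⟨N, Y.U0_zpow N w⟩
  rw [h2, ← Submodule.map_span]
  rintro _ ⟨z, hz, rfl⟩
  exact ⟨z, hz, rfl⟩

theorem ZU_pow {w z : H} (hz : z ∈ Y.ZU w) (N : ℤ) : (Y.U ^ N) z ∈ Y.ZU w := by
  have h1 : ∀ z ∈ (Submodule.span ℂ {z | ∃ N : ℤ, z = (Y.U ^ N) w} : Set H), (Y.U ^ N) z ∈ Y.ZU w := by
    intro z hz
    induction hz using Submodule.span_induction with
    | mem z hz =>
      obtain ⟨j, rfl⟩ := hz
      have : (Y.U ^ N) ((Y.U ^ j) w) = (Y.U ^ (N + j)) w := by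
        rw [zpow_add, LinearIsometryEquiv.coe_mul, Function.comp_apply]
      rw [this]
      exact Y.mem_ZU w _
    | zero => rw [map_zero]; exact Submodule.zero_mem _
    | add x y _ _ hx hy => rw [map_add]; exact Submodule.add_mem _ hx hy
    | smul c x _ hx => rw [map_smul]; exact Submodule.smul_mem _ _ hx
  have hcl : IsClosed {z : H | (Y.U ^ N) z ∈ Y.ZU w} :=
    (Submodule.isClosed_topologicalClosure _).preimage (Y.U ^ N).continuous
  exact closure_minimal h1 hcl hz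

theorem orth_ZU {w f : H} (hf : ∀ N : ℤ, inner ℂ ((Y.U ^ N) w) f = 0) {z : H} (hz : z ∈ Y.ZU w) :
    inner ℂ z f = 0 := by
  have h1 : ∀ z ∈ (Submodule.span ℂ {z | ∃ N : ℤ, z = (Y.U ^ N) w} : Set H), inner ℂ z f = 0 := by
    intro z hz
    induction hz using Submodule.span_induction with
    | mem z hz =>
      obtain ⟨N, rfl⟩ := hz
      exact hf N
    | zero => exact inner_zero_left _
    | add x y _ _ hx hy => rw [inner_add_left, hx, hy, add_zero]
    | smul c x _ hx => rw [inner_smul_left, hx, mul_zero]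
  have hcl : IsClosed {z : H | inner ℂ z f = 0} :=
    isClosed_eq (Continuous.inner continuous_id continuous_const) continuous_const
  exact closure_minimal h1 hcl hz

/-- density criterion in `H0` -/
theorem dense_H0 {ι : Type*} (hv : ι → Y.H0)
    (hf : ∀ f : Y.H0, (∀ i (N : ℤ), inner ℂ ((Y.U ^ N) (hv i : H)) (f : H) = 0) → f = 0) :
    (Submodule.span ℂ {z | ∃ i, ∃ N : ℤ, z = (Y.U0 ^ N) (hv i)}).topologicalClosure = ⊤ := by
  rw [Submodule.topologicalClosure_eq_top_iff, Submodule.eq_bot_iff]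
  intro f hf'
  apply hf
  intro i N
  have h1 := (Submodule.mem_orthogonal _ f).mp hf' _ (Submodule.subset_span ⟨i, N, rfl⟩)
  rw [Submodule.coe_inner, U0_zpow] at h1
  exact h1

end Sys

end Pool.Agent.Helper42.AB
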