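import Pool.Agent.Helper42.AB4

/-!
Abstract part, 5: the spectral model.
-/

open MeasureTheory
open scoped ComplexConjugate ENNReal

namespace Pool.Agent.Helper42.AB

variable {H : Type*} [NormedAddCommGroup H] [InnerProductSpace ℂ H] [CompleteSpace H]
variable {G : Type*} [AddCommGroup G]

namespace Sys

variable (Y : Sys H G) (h : H)
variable (hcyc : (Submodule.span ℂ (Set.range fun g => Y.V g h)).topologicalClosure = ⊤)

/-- cyclic vectors of the pieces -/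
noncomputable def v1 (i : Σ a : ℕ, Fin (Y.k a)) : Y.H0 := Y.w0 h (fun b => b = i.1) (fun _ => i.2)

theorem v1_orth (i i' : Σ a : ℕ, Fin (Y.k a)) (hne : i ≠ i') (N : ℤ) :
    inner ℂ (Y.v1 h i) ((Y.U0 ^ N) (Y.v1 h i')) = 0 := by
  unfold v1
  rw [inner_w0]
  apply Y.inner_vec_vec_zero h N
  rintro a rfl h2
  obtain ⟨a, l⟩ := i
  obtain ⟨a', l'⟩ := i'
  simp only at h2
  subst h2
  refine ⟨l.2, l'.2, fun h3 => hne ?_⟩
  have : l = l' := Fin.ext h3
  rw [this]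

/-- the spectral coefficients -/
noncomputable def cf (a : ℕ) (N : ℤ) : ℂ :=
  inner ℂ (Y.vec h (fun b => b = a) (fun _ => 0)) ((Y.U ^ N) (Y.vec h (fun b => b = a) (fun _ => 0)))

theorem v1_diag (i : Σ a : ℕ, Fin (Y.k a)) (N : ℤ) :
    inner ℂ (Y.v1 h i) ((Y.U0 ^ N) (Y.v1 h i)) = Y.cf h i.1 N := by
  unfold v1 cf
  rw [inner_w0, inner_vec_diag, inner_vec_diag]

theorem diag_cf (c : ℕ → Prop) [DecidablePred c] (m : ℕ → ℕ) (N : ℤ) :
    inner ℂ (Y.w0 h c m) ((Y.U0 ^ N) (Y.w0 h c m)) = ∑' a, if c a then Y.cf h a N else 0 := by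
  rw [inner_w0, inner_vec_diag]
  apply tsum_congr
  intro a
  split_ifs with hc
  · unfold cf
    rw [Y.vec_single h hc]
  · rw [Y.term_of_not h hc, inner_zero_left]

include hcyc

theorem v1_dense : (Submodule.span ℂ {z | ∃ i, ∃ N : ℤ, z = (Y.U0 ^ N) (Y.v1 h i)}).topologicalClosure = ⊤ := by
  apply Y.dense_H0
  intro f hf
  apply Subtype.ext
  apply Y.complete h hcyc ((Y.mem_H0).mp f.2)
  intro K l hl _ N
  have h1 : inner ℂ (f : H) ((Y.U ^ N) (Y.vec h (fun a => Y.k a = K) (fun _ => l))) = 0 := by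
    rw [Y.inner_vec_right, tsum_congr (fun a => ?_), tsum_zero]
    by_cases hc : Y.k a = K
    · subst hc
      have h2 := hf ⟨a, ⟨l, hl⟩⟩ N
      rw [← inner_conj_symm]
      rw [← Y.vec_single h (c := fun b => Y.k b = Y.k a) rfl]
      have h3 : inner ℂ ((Y.U ^ N) (Y.vec h (fun b => b = a) fun _ => l)) (f : H) = 0 := h2
      rw [h3, map_zero]
    · rw [Y.term_of_not h (c := fun b => Y.k b = K) hc, map_zero, inner_zero_right]
  rw [← inner_conj_symm, h1, map_zero]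

theorem pair_mem {a b : ℕ} (hab : a ≠ b) (ha : Fin (Y.k a)) (hb : Fin (Y.k b)) (e1 : (ha : ℕ) = 0) (e2 : (hb : ℕ) = 0) :
    Y.v1 h ⟨a, ha⟩ ∈ (Submodule.span ℂ {z | ∃ N : ℤ, z = (Y.U0 ^ N)
      (Y.v1 h ⟨a, ha⟩ + Y.v1 h ⟨b, hb⟩)}).topologicalClosure := by
  apply Y.mem_closure_of_mem_ZU
  have h1 : ((Y.v1 h ⟨a, ha⟩ + Y.v1 h ⟨b, hb⟩ : Y.H0) : H) = Y.vec h (fun x => x = a ∨ x = b) (fun _ => 0) := by
    rw [Y.vec_pair h hab]
    show Y.vec h _ _ + Y.vec h _ _ = _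
    simp only [e1, e2]
  have h2 : ((Y.v1 h ⟨a, ha⟩ : Y.H0) : H) = Y.vec h (fun x => x = a) (fun _ => 0) := by
    show Y.vec h _ _ = _
    simp only [e1]
  rw [h1, h2]
  exact Y.vec_mem h hcyc (Y.stable_ZU _) (Y.self_mem_ZU _) (fun x hx => Or.inl hx) (fun _ _ => rfl)

theorem exists_sigma : ∃ σ : ℕ → Measure Circle, (∀ a, IsFiniteMeasure (σ a)) ∧
    (∀ a (N : ℤ), ∫ z, ((z ^ N : Circle) : ℂ) ∂(σ a) = Y.cf h a N) ∧ ∀ a b, a ≠ b → σ a ⟂ₘ σ b := by
  have h1 : ∀ a, ∃ σ : Measure Circle, IsFiniteMeasure σ ∧ ∀ N : ℤ,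
      ∫ z, ((z ^ N : Circle) : ℂ) ∂σ = Y.cf h a N := fun a =>
    Pool.Agent.Helper65.SpecMeas.exists_spectral_measure Y.U (Y.vec h (fun b => b = a) (fun _ => 0))
  choose σ hσ1 hσ2 using h1
  obtain ⟨Φ, hΦ1, hΦ2, _⟩ := Pool.Agent.Helper65.Assemble.core Y.U0
    (fun i : (Σ a : ℕ, Fin (Y.k a)) => σ i.1) (Y.v1 h) (Y.v1_orth h)
    (fun i N => by rw [hσ2, Y.v1_diag]) (Y.v1_dense h hcyc)
  refine ⟨σ, hσ1, hσ2, fun a b hab => ?_⟩
  have hne : (⟨a, ⟨0, Y.hk a⟩⟩ : Σ a : ℕ, Fin (Y.k a)) ≠ ⟨b, ⟨0, Y.hk b⟩⟩ := fun h => hab (congrArg Sigma.fst h)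
  exact Pool.Agent.Helper65.Assemble.singular Y.U0 (fun i : (Σ a : ℕ, Fin (Y.k a)) => σ i.1) (Y.v1 h) Φ
    hΦ1 hΦ2 hne (Y.pair_mem h hcyc hab _ _ rfl rfl)

omit hcyc in
/-- cyclic vectors of the model -/
noncomputable def v2 (l : ℕ) : Y.H0 := Y.w0 h (fun a => l < Y.k a) (fun _ => l)

omit hcyc in
theorem v2_orth (l l' : ℕ) (hne : l ≠ l') (N : ℤ) :
    inner ℂ (Y.v2 h l) ((Y.U0 ^ N) (Y.v2 h l')) = 0 := by
  unfold v2
  rw [inner_w0]
  apply Y.inner_vec_vec_zero h N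
  intro a h1 h2
  exact ⟨h1, h2, hne⟩

theorem v2_dense : (Submodule.span ℂ {z | ∃ i, ∃ N : ℤ, z = (Y.U0 ^ N) (Y.v2 h i)}).topologicalClosure = ⊤ := by
  apply Y.dense_H0
  intro f hf
  apply Subtype.ext
  apply Y.complete h hcyc ((Y.mem_H0).mp f.2)
  rintro K l hl ⟨a, ha⟩ N
  apply Y.orth_ZU (hf l)
  apply Y.ZU_pow
  refine Y.vec_mem h hcyc (Y.stable_ZU _) (Y.self_mem_ZU _) ?_ (fun _ _ => rfl)
  intro x hx
  show l < Y.k x
  rw [hx]; exact hl

/-- the spectral model -/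
theorem model_aux : ∃ (σ : Measure Circle) (ix : Circle → ℕ), IsFiniteMeasure σ ∧ Measurable ix ∧
    (∀ a, σ {z | ix z = a} ≠ 0) ∧
    ∃ Φ : Y.H0 ≃ₗᵢ[ℂ] lp (fun l : ℕ => Lp ℂ 2 (σ.restrict {z | l < Y.k (ix z)})) 2,
      ∀ (f : Y.H0) (l : ℕ), (Φ (Y.U0 f) l : Circle → ℂ) =ᵐ[σ.restrict {z | l < Y.k (ix z)}]
        fun z => (z : ℂ) * (Φ f l : Circle → ℂ) z := by
  classical
  obtain ⟨σ, hσ1, hσ2, hσ3⟩ := Y.exists_sigma h hcyc
  obtain ⟨ix, hix, hix2⟩ := exists_index σ hσ3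
  -- masses
  have hmass : ∀ a, σ a Set.univ = ENNReal.ofReal (‖Y.vec h (fun b => b = a) (fun _ => 0)‖ ^ 2) := by
    intro a
    have := hσ1 a
    have h1 := hσ2 a 0
    simp only [zpow_zero, Circle.coe_one, integral_const] at h1
    have h2 : Y.cf h a 0 = ((‖Y.vec h (fun b => b = a) (fun _ => 0)‖ ^ 2 : ℝ) : ℂ) := by
      unfold cf
      rw [zpow_zero]
      show inner ℂ _ (Y.vec h _ _) = _
      rw [inner_self_eq_norm_sq_to_K]
      push_cast
      rfl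
    rw [h2] at h1
    have h3 : (σ a).real Set.univ = ‖Y.vec h (fun b => b = a) (fun _ => 0)‖ ^ 2 := by
      have h4 : (((σ a).real Set.univ : ℝ) : ℂ) = ((‖Y.vec h (fun b => b = a) (fun _ => 0)‖ ^ 2 : ℝ) : ℂ) := by
        rw [← h1]; simp
      exact_mod_cast h4
    rw [← h3, measureReal_def, ENNReal.ofReal_toReal (measure_ne_top _ _)]
  have hmass_le : ∀ a, σ a Set.univ ≤ (2⁻¹ : ℝ≥0∞) ^ a := by
    intro a
    rw [hmass, Y.vec_single h (c := fun b => b = a) rfl]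
    have h1 := Y.term_norm_le h (fun b => b = a) (fun _ => 0) a
    have h2 : ‖Y.term h (fun b => b = a) (fun _ => 0) a‖ ^ 2 ≤ (1 / 2 : ℝ) ^ a := by
      have h3 : (1 / 2 : ℝ) ^ a ≤ 1 := pow_le_one₀ (by norm_num) (by norm_num)
      have h4 := norm_nonneg (Y.term h (fun b => b = a) (fun _ => 0) a)
      nlinarith
    refine (ENNReal.ofReal_le_ofReal h2).trans (le_of_eq ?_)
    rw [ENNReal.ofReal_pow (by norm_num)]
    congr 1
    rw [one_div, ENNReal.ofReal_inv_of_pos (by norm_num)]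
    norm_num
  have hfin : IsFiniteMeasure (Measure.sum σ) := by
    refine ⟨?_⟩
    rw [Measure.sum_apply _ MeasurableSet.univ]
    refine lt_of_le_of_lt (ENNReal.tsum_le_tsum hmass_le) ?_
    rw [ENNReal.tsum_geometric, ENNReal.one_sub_inv_two, inv_inv]
    exact ENNReal.ofNat_lt_top
  have hset : ∀ l : ℕ, MeasurableSet {z : Circle | l < Y.k (ix z)} := by
    intro l
    exact hix (Set.to_countable {a | l < Y.k a}).measurableSet
  -- restriction
  have hres : ∀ l a, (σ a).restrict {z : Circle | l < Y.k (ix z)} = if l < Y.k a then σ a else 0 := by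
    intro l a
    split_ifs with hl
    · have : ({z : Circle | l < Y.k (ix z)} : Set Circle) =ᵐ[σ a] Set.univ := by
        filter_upwards [hix2 a] with z hz
        show (l < Y.k (ix z)) = True
        rw [hz]; simp [hl]
      rw [Measure.restrict_congr_set this, Measure.restrict_univ]
    · have : ({z : Circle | l < Y.k (ix z)} : Set Circle) =ᵐ[σ a] (∅ : Set Circle) := by
        filter_upwards [hix2 a] with z hz
        show (l < Y.k (ix z)) = False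
        rw [hz]; simp [hl]
      rw [Measure.restrict_congr_set this, Measure.restrict_empty]
  have hτ : ∀ (l : ℕ) (N : ℤ), ∫ z, ((z ^ N : Circle) : ℂ) ∂((Measure.sum σ).restrict {z | l < Y.k (ix z)}) =
      inner ℂ (Y.v2 h l) ((Y.U0 ^ N) (Y.v2 h l)) := by
    intro l N
    unfold v2
    rw [Y.diag_cf, Measure.restrict_sum _ (hset l), integral_sum_measure]
    · apply tsum_congr
      intro a
      rw [hres]
      split_ifs with hl
      · exact hσ2 a N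
      · rw [integral_zero_measure]
    · rw [← Measure.restrict_sum _ (hset l)]
      apply Integrable.of_bound (C := 1)
      · exact (Pool.Agent.Helper65.Gram.mon N).continuous.aestronglyMeasurable
      · exact Filter.Eventually.of_forall (fun z => (Circle.norm_coe _).le)
  obtain ⟨Φ, _, _, hΦ3⟩ := Pool.Agent.Helper65.Assemble.core Y.U0
    (fun l : ℕ => (Measure.sum σ).restrict {z | l < Y.k (ix z)}) (Y.v2 h) (Y.v2_orth h)
    hτ (Y.v2_dense h hcyc)
  refine ⟨Measure.sum σ, ix, hfin, hix, ?_, Φ, ?_⟩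
  · intro a h0
    have hm : MeasurableSet {z | ix z = a} := hix (measurableSet_singleton a)
    have h1 : σ a {z | ix z = a} = 0 := by
      rw [Measure.sum_apply _ hm, ENNReal.tsum_eq_zero] at h0
      exact h0 a
    have h2 : σ a {z | ix z = a}ᶜ = 0 := by
      have := hix2 a
      rwa [ae_iff] at this
    have h3 : σ a Set.univ = 0 := by
      rw [← Set.union_compl_self {z | ix z = a}]
      exact measure_union_null h1 h2
    rw [hmass, ENNReal.ofReal_eq_zero] at h3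
    have h4 := Y.vec_ne_zero h hcyc (c := fun b => b = a) (m := fun _ => 0) (a := a) rfl
    have h5 : 0 < ‖Y.vec h (fun b => b = a) (fun _ => 0)‖ := norm_pos_iff.mpr h4
    nlinarith
  · intro f l
    rw [hΦ3]
    exact Pool.Agent.Helper65.Assemble.coeFn_zmul _ _

omit hcyc in
theorem model : ∃ (σ : Measure Circle) (ix : Circle → ℕ), IsFiniteMeasure σ ∧ Measurable ix ∧
    (∀ a, σ {z | ix z = a} ≠ 0) ∧
    ∃ Φ : Y.H0 ≃ₗᵢ[ℂ] lp (fun l : ℕ => Lp ℂ 2 (σ.restrict {z | l < Y.k (ix z)})) 2,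
      ∀ (f : Y.H0) (l : ℕ), (Φ (Y.U0 f) l : Circle → ℂ) =ᵐ[σ.restrict {z | l < Y.k (ix z)}]
        fun z => (z : ℂ) * (Φ f l : Circle → ℂ) z := by
  obtain ⟨h, hcyc⟩ := Y.cyc
  exact Y.model_aux h hcyc

end Sys

end Pool.Agent.Helper42.AB
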