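import Mathlib

open MeasureTheory Complex Filter Topology FourierTransform SchwartzMap Set
open scoped Real ContDiff

namespace Pool.Agent.Helper42.Krein

/-- Fourier transform of a scaled and modulated function. -/
theorem fourier_scaled (φ : ℝ → ℂ) {h : ℝ} (hh : 0 < h) (t : ℝ) (m : ℝ) :
    𝓕 (fun x : ℝ => (h : ℂ) * (φ (h * x) * Complex.exp (2 * π * Complex.I * ((h * x : ℝ) * t)))) m
      = 𝓕 φ (m / h - t) := by
  rw [Real.fourier_real_eq_integral_exp_smul, Real.fourier_real_eq_integral_exp_smul]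
  have h1 := Measure.integral_comp_mul_left
    (fun y : ℝ => Complex.exp (↑(-2 * π * y * (m / h - t)) * Complex.I) • φ y) h
  have h2 : ∀ x : ℝ, Complex.exp (↑(-2 * π * x * m) * Complex.I) •
      ((h : ℂ) * (φ (h * x) * Complex.exp (2 * π * Complex.I * ((h * x : ℝ) * t))))
      = (h : ℂ) * ((fun y : ℝ => Complex.exp (↑(-2 * π * y * (m / h - t)) * Complex.I) • φ y) (h * x)) := by
    intro x
    simp only [smul_eq_mul]
    have : Complex.exp (↑(-2 * π * (h * x) * (m / h - t)) * Complex.I)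
        = Complex.exp (↑(-2 * π * x * m) * Complex.I) *
          Complex.exp (2 * π * Complex.I * ((h * x : ℝ) * t)) := by
      rw [← Complex.exp_add]
      congr 1
      have hne : (h : ℂ) ≠ 0 := by exact_mod_cast hh.ne'
      push_cast
      field_simp
      ring
    rw [this]
    ring
  simp_rw [h2]
  rw [integral_const_mul, h1, abs_of_pos (inv_pos.mpr hh)]
  simp only [Complex.real_smul, smul_eq_mul]
  have hne : (h : ℂ) ≠ 0 := by exact_mod_cast hh.ne'
  push_cast
  rw [← mul_assoc, mul_inv_cancel₀ hne, one_mul]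

/-- Poisson summation: lattice sums of a test function against characters are bounded by the
supremum of the Fourier transform, up to `O(h^2)`, uniformly in the shift and in `t`. -/
theorem poisson_bound (φ : ℝ → ℂ) (hφ : ContDiff ℝ ∞ φ) (hc : HasCompactSupport φ) {M : ℝ}
    (hM : ∀ ξ, ‖𝓕 φ ξ‖ ≤ M) :
    ∃ D : ℝ, 0 ≤ D ∧ ∀ h : ℝ, 0 < h → ∀ u t : ℝ,
      ‖∑' n : ℤ, (h : ℂ) * (φ (u + h * n) * Complex.exp (2 * π * Complex.I * ((u + h * n : ℝ) * t)))‖
        ≤ M + D * h ^ 2 := by
  -- decay of the Fourier transform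
  let Φ : 𝓢(ℝ, ℂ) := hc.toSchwartzMap hφ
  obtain ⟨D, hD0, hD⟩ := (𝓕 Φ).decay 2 0
  have hD' : ∀ ξ : ℝ, |ξ| ^ 2 * ‖𝓕 φ ξ‖ ≤ D := by
    intro ξ
    have := hD ξ
    simp only [norm_iteratedFDeriv_zero, Real.norm_eq_abs] at this
    have h3 : (𝓕 Φ : 𝓢(ℝ, ℂ)) ξ = 𝓕 φ ξ := by
      rw [SchwartzMap.fourier_coe]
      rfl
    rw [h3] at this
    exact this
  have hM0 : 0 ≤ M := (norm_nonneg _).trans (hM 0)
  have hsum : Summable (fun n : ℤ => 1 / ((n : ℝ) ^ 2)) := by
    have := Real.summable_one_div_int_pow (p := 2)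
    exact this.mpr (by norm_num)
  set S : ℝ := ∑' n : ℤ, 1 / ((n : ℝ) ^ 2) with hS
  have hS0 : 0 ≤ S := tsum_nonneg (fun n => by positivity)
  refine ⟨4 * D * S, by positivity, ?_⟩
  intro h hh u t
  -- the scaled function as Schwartz function
  let g : ℝ → ℂ := fun x => (h : ℂ) * (φ (h * x) * Complex.exp (2 * π * Complex.I * ((h * x : ℝ) * t)))
  have hg : ContDiff ℝ ∞ g := by
    refine contDiff_const.mul ((hφ.comp (contDiff_const.mul contDiff_id)).mul ?_)
    refine ContDiff.cexp ?_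
    refine contDiff_const.mul (ContDiff.mul ?_ contDiff_const)
    exact Complex.ofRealCLM.contDiff.comp (contDiff_const.mul contDiff_id)
  have hgc : HasCompactSupport g := by
    have h1 : HasCompactSupport (fun x => φ (h * x)) := by
      have := hc.comp_homeomorph (Homeomorph.mulLeft₀ h hh.ne')
      exact this
    exact (h1.mul_right).mul_left
  let G : 𝓢(ℝ, ℂ) := hgc.toSchwartzMap hg
  have hP := SchwartzMap.tsum_eq_tsum_fourier G (u / h)
  have hGx : ∀ n : ℤ, G (u / h + n) =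
      (h : ℂ) * (φ (u + h * n) * Complex.exp (2 * π * Complex.I * ((u + h * n : ℝ) * t))) := by
    intro n
    change g (u / h + n) = _
    have : h * (u / h + n) = u + h * n := by field_simp
    simp only [g, this]
  have hGf : ∀ n : ℤ, (𝓕 G : 𝓢(ℝ, ℂ)) (n : ℝ) = 𝓕 φ (n / h - t) := by
    intro n
    rw [SchwartzMap.fourier_coe]
    exact fourier_scaled φ hh t n
  simp_rw [hGx] at hP
  rw [hP]
  -- nearest integer
  set m0 : ℤ := round (h * t) with hm0
  have hround : |h * t - m0| ≤ 1 / 2 := abs_sub_round (h * t)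
  have hbd : ∀ n : ℤ, ‖(𝓕 (G : ℝ → ℂ)) (n : ℝ) * fourier n ((u / h : ℝ) : UnitAddCircle)‖ ≤
      (if n = m0 then M else 0) + 4 * D * h ^ 2 * (1 / (((n - m0 : ℤ) : ℝ) ^ 2)) := by
    intro n
    have h1 : ‖(𝓕 (G : ℝ → ℂ)) (n : ℝ) * fourier n ((u / h : ℝ) : UnitAddCircle)‖ = ‖𝓕 φ (n / h - t)‖ := by
      rw [norm_mul]
      have : ‖fourier n ((u / h : ℝ) : UnitAddCircle)‖ = 1 := by
        rw [fourier_apply]; exact Circle.norm_coe _
      rw [this, mul_one]
      congr 1
      exact fourier_scaled φ hh t n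
    rw [h1]
    by_cases hn : n = m0
    · rw [if_pos hn, hn]
      simp only [sub_self, Int.cast_zero]
      norm_num
      exact hM _
    · rw [if_neg hn, zero_add]
      have h2 : (1 : ℝ) ≤ |((n - m0 : ℤ) : ℝ)| := by
        rw [← Int.cast_abs]
        exact_mod_cast Int.one_le_abs (sub_ne_zero.mpr hn)
      have h3 : |((n - m0 : ℤ) : ℝ)| / 2 ≤ |(n : ℝ) - h * t| := by
        have h4 : |((n - m0 : ℤ) : ℝ)| ≤ |(n : ℝ) - h * t| + |h * t - m0| := by
          have : ((n - m0 : ℤ) : ℝ) = ((n : ℝ) - h * t) + (h * t - m0) := by push_cast; ring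
          rw [this]
          exact abs_add_le _ _
        linarith
      have h5 := hD' (n / h - t)
      have h6 : (n : ℝ) / h - t = ((n : ℝ) - h * t) / h := by field_simp
      rw [h6] at h5 ⊢
      rw [abs_div, abs_of_pos hh, div_pow] at h5
      set X := |((n - m0 : ℤ) : ℝ)| with hX
      have hX2 : ((n - m0 : ℤ) : ℝ) ^ 2 = X ^ 2 := by rw [hX, sq_abs]
      rw [hX2]
      set Y := |(n : ℝ) - h * t| with hY
      set Z := ‖𝓕 φ (((n : ℝ) - h * t) / h)‖ with hZ
      have hXpos : 0 < X := by linarith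
      have hZ0 : 0 ≤ Z := norm_nonneg _
      have h7 : X ^ 2 / 4 ≤ Y ^ 2 := by nlinarith
      have h8 : X ^ 2 / 4 / h ^ 2 * Z ≤ D := le_trans (by gcongr) h5
      rw [mul_one_div, le_div_iff₀ (by positivity)]
      have h9 : X ^ 2 / 4 / h ^ 2 * Z = Z * X ^ 2 / (4 * h ^ 2) := by field_simp
      rw [h9, div_le_iff₀ (by positivity)] at h8
      linarith
  have hsum2 : Summable (fun n : ℤ => 4 * D * h ^ 2 * (1 / (((n - m0 : ℤ) : ℝ) ^ 2))) := by
    apply Summable.mul_left
    have h0 := ((Equiv.subRight m0).summable_iff (f := fun n : ℤ => 1 / ((n : ℝ) ^ 2))).mpr hsum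
    simpa only [Function.comp_def, Equiv.subRight_apply] using h0
  have hsum1 : Summable (fun n : ℤ => if n = m0 then M else 0) :=
    (hasSum_ite_eq m0 M).summable
  have htot := tsum_of_norm_bounded (hsum1.add hsum2).hasSum hbd
  refine htot.trans (le_of_eq ?_)
  rw [hsum1.tsum_add hsum2, tsum_ite_eq, tsum_mul_left]
  have : ∑' n : ℤ, 1 / (((n - m0 : ℤ) : ℝ) ^ 2) = S := by
    have h0 := (Equiv.subRight m0).tsum_eq (fun n : ℤ => 1 / ((n : ℝ) ^ 2))
    simpa only [Equiv.subRight_apply] using h0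
  rw [this]
  ring


/-- An integral is an average of lattice sums. -/
theorem norm_integral_le_of_lattice {G : ℝ → ℂ} (hG : Integrable G) {h : ℝ} (hh : 0 < h) {B : ℝ}
    (hB : ∀ u : ℝ, ‖∑' n : ℤ, (h : ℂ) * G (u + h * n)‖ ≤ B) : ‖∫ x, G x‖ ≤ B := by
  have hne : (h : ℂ) ≠ 0 := by exact_mod_cast hh.ne'
  let G1 : ℝ → ℂ := fun x => (h : ℂ) * G (h * x)
  have hG1 : Integrable G1 := (hG.comp_mul_left' hh.ne').const_mul _
  have h1 : ∫ x, G1 x = ∫ x, G x := by
    simp only [G1]
    rw [integral_const_mul, Measure.integral_comp_mul_left, abs_of_pos (inv_pos.mpr hh)]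
    simp only [Complex.real_smul]
    push_cast
    rw [← mul_assoc, mul_inv_cancel₀ hne, one_mul]
  rw [← h1]
  have h2 := hG1.hasSum_intervalIntegral_comp_add_int
  have h3 := hG1.norm.hasSum_intervalIntegral_comp_add_int
  have h4 : ∀ n : ℤ, Integrable (fun x : ℝ => G1 (x + n)) (volume.restrict (Ioc 0 1)) :=
    fun n => (hG1.comp_add_right (n : ℝ)).restrict
  have h5 : ∑' n : ℤ, ∫ x in Ioc (0:ℝ) 1, G1 (x + n) = ∫ x in Ioc (0:ℝ) 1, ∑' n : ℤ, G1 (x + n) := by
    apply integral_tsum_of_summable_integral_norm h4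
    have := h3.summable
    simpa only [intervalIntegral.integral_of_le zero_le_one] using this
  have h6 : ∫ x, G1 x = ∫ x in Ioc (0:ℝ) 1, ∑' n : ℤ, G1 (x + n) := by
    rw [← h5, ← h2.tsum_eq]
    simp only [intervalIntegral.integral_of_le zero_le_one]
  rw [h6]
  have h7 : ∀ x : ℝ, ‖∑' n : ℤ, G1 (x + n)‖ ≤ B := by
    intro x
    have := hB (h * x)
    simpa only [G1, mul_add] using this
  have h8 := norm_setIntegral_le_of_norm_le_const (μ := volume) (s := Ioc (0:ℝ) 1)
    (f := fun x => ∑' n : ℤ, G1 (x + n)) (C := B) (by simp) (fun x _ => h7 x)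
  simpa using h8

/-- The hypothesis that `F` is a bounded functional on almost periodic polynomials with
exponents in `I` (normalised characters). -/
def Bdd (I : Set ℝ) (F : ℝ → ℂ) (C : ℝ) : Prop :=
  ∀ (s : Finset ℝ) (c : ℝ → ℂ) (M : ℝ), (∀ x ∈ s, x ∈ I) →
    (∀ t : ℝ, ‖∑ x ∈ s, c x * Complex.exp (2 * π * Complex.I * (x * t))‖ ≤ M) →
    ‖∑ x ∈ s, c x * F x‖ ≤ C * M

/-- The key inequality. -/
theorem key {I : Set ℝ} {F : ℝ → ℂ} {C : ℝ} (hC : 0 ≤ C) (hF : Bdd I F C)
    (hFm : LocallyIntegrable F) (φ : ℝ → ℂ) (hφ : ContDiff ℝ ∞ φ) (hc : HasCompactSupport φ)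
    (hI : ∀ x, φ x ≠ 0 → x ∈ I) {M : ℝ} (hM : ∀ ξ, ‖𝓕 φ ξ‖ ≤ M) :
    ‖∫ x, F x * φ x‖ ≤ C * M := by
  obtain ⟨D, hD0, hD⟩ := poisson_bound φ hφ hc hM
  have hint : Integrable (fun x => F x * φ x) := by
    have := hFm.integrable_smul_right_of_hasCompactSupport hφ.continuous hc
    simpa only [smul_eq_mul] using this
  have step : ∀ h : ℝ, 0 < h → ‖∫ x, F x * φ x‖ ≤ C * (M + D * h ^ 2) := by
    intro h hh
    apply norm_integral_le_of_lattice hint hh
    intro u
    -- finitely many lattice points in the support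
    have hinj : Function.Injective (fun n : ℤ => u + h * (n : ℝ)) := by
      intro a b hab
      simp only at hab
      have : h * (a : ℝ) = h * b := by linarith
      exact_mod_cast mul_left_cancel₀ hh.ne' this
    have hfin : Set.Finite {n : ℤ | φ (u + h * n) ≠ 0} := by
      obtain ⟨R, hR⟩ := hc.isBounded.subset_closedBall 0
      have hsub : {n : ℤ | φ (u + h * n) ≠ 0} ⊆ Set.Icc (⌊(-R - u) / h⌋) (⌈(R - u) / h⌉) := by
        intro n hn
        have h1 : u + h * n ∈ Metric.closedBall (0:ℝ) R := hR (subset_tsupport _ hn)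
        rw [mem_closedBall_zero_iff, Real.norm_eq_abs, abs_le] at h1
        constructor
        · rw [← Int.cast_le (R := ℝ)]
          refine (Int.floor_le _).trans ?_
          rw [div_le_iff₀ hh]; linarith
        · rw [← Int.cast_le (R := ℝ)]
          refine le_trans ?_ (Int.le_ceil _)
          rw [le_div_iff₀ hh]; linarith
      exact (Set.finite_Icc _ _).subset hsub
    set S : Finset ℤ := hfin.toFinset with hS
    have hS' : ∀ n : ℤ, n ∉ S → φ (u + h * n) = 0 := by
      intro n hn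
      by_contra hne
      exact hn (hfin.mem_toFinset.mpr hne)
    let s : Finset ℝ := S.map ⟨fun n : ℤ => u + h * (n : ℝ), hinj⟩
    have hs : ∀ x ∈ s, x ∈ I := by
      intro x hx
      obtain ⟨n, hn, rfl⟩ := Finset.mem_map.mp hx
      exact hI _ (hfin.mem_toFinset.mp hn)
    have h1 : ∑' n : ℤ, (h : ℂ) * (F (u + h * n) * φ (u + h * n)) =
        ∑ x ∈ s, ((h : ℂ) * φ x) * F x := by
      rw [tsum_eq_sum (s := S) (fun n hn => by rw [hS' n hn]; simp), Finset.sum_map]
      apply Finset.sum_congr rfl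
      intro n _
      simp only [Function.Embedding.coeFn_mk]
      ring
    rw [h1]
    apply hF s (fun x => (h : ℂ) * φ x) (M + D * h ^ 2) hs
    intro t
    have h2 := hD h hh u t
    have h3 : ∑' n : ℤ, (h : ℂ) * (φ (u + h * n) * Complex.exp (2 * π * Complex.I * ((u + h * n : ℝ) * t))) =
        ∑ x ∈ s, ((h : ℂ) * φ x) * Complex.exp (2 * π * Complex.I * (x * t)) := by
      rw [tsum_eq_sum (s := S) (fun n hn => by rw [hS' n hn]; simp), Finset.sum_map]
      apply Finset.sum_congr rfl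
      intro n _
      simp only [Function.Embedding.coeFn_mk]
      ring
    rw [h3] at h2
    exact h2
  -- let h → 0
  have hlim : Tendsto (fun h : ℝ => C * (M + D * h ^ 2)) (𝓝[>] 0) (𝓝 (C * (M + D * 0 ^ 2))) := by
    apply Tendsto.mono_left _ nhdsWithin_le_nhds
    exact (Continuous.tendsto (by fun_prop) 0)
  have hfinal := ge_of_tendsto hlim (by
    filter_upwards [self_mem_nhdsWithin] with h hh
    exact step h hh)
  simpa using hfinal


end Pool.Agent.Helper42.Krein
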