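import Pool.Agent.Helper42.Krein1

open MeasureTheory Complex Filter Topology FourierTransform SchwartzMap Set
open scoped Real ContDiff

namespace Pool.Agent.Helper42.Krein

theorem four_lin {f g : ℝ → ℂ} (hf : Integrable f) (hg : Integrable g) (a b : ℂ) (ξ : ℝ) :
    𝓕 (fun x => a * f x + b * g x) ξ = a * 𝓕 f ξ + b * 𝓕 g ξ := by
  have h1 := (Real.fourierIntegral_convergent_iff ξ).2 hf
  have h2 := (Real.fourierIntegral_convergent_iff ξ).2 hg
  rw [Real.fourier_eq, Real.fourier_eq, Real.fourier_eq, ← integral_const_mul, ← integral_const_mul,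
    ← integral_add (h1.const_mul a) (h2.const_mul b)]
  congr 1
  ext v
  simp only [Circle.smul_def, smul_eq_mul]
  ring

/-- the bump functions -/
noncomputable def bump (n : ℕ) : ContDiffBump (0 : ℝ) where
  rIn := 1 / (2 * (n + 1))
  rOut := 1 / (n + 1)
  rIn_pos := by positivity
  rIn_lt_rOut := by
    apply one_div_lt_one_div_of_lt (by positivity)
    have : (0:ℝ) ≤ n := Nat.cast_nonneg n
    linarith

noncomputable def rad (n : ℕ) : ℝ := 1 / (n + 1)

theorem rad_pos (n : ℕ) : 0 < rad n := by unfold rad; positivity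

theorem rad_tendsto : Tendsto rad atTop (𝓝 0) := tendsto_one_div_add_atTop_nhds_zero_nat

/-- the normalised bump function centred at `l` -/
noncomputable def w (n : ℕ) (l : ℝ) (x : ℝ) : ℂ := (((bump n).normed volume (x - l) : ℝ) : ℂ)

theorem w_contDiff (n : ℕ) (l : ℝ) : ContDiff ℝ ∞ (w n l) := by
  unfold w
  refine Complex.ofRealCLM.contDiff.comp ?_
  exact ((bump n).contDiff_normed).comp (contDiff_id.sub contDiff_const)

theorem w_supp (n : ℕ) (l x : ℝ) (h : w n l x ≠ 0) : |x - l| < rad n := by
  unfold w at h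
  have h1 : (x - l) ∈ Function.support ((bump n).normed (volume : Measure ℝ)) := by
    intro h0
    exact h (by rw [h0]; simp)
  rw [(bump n).support_normed_eq, mem_ball_zero_iff, Real.norm_eq_abs] at h1
  exact h1

theorem w_compact (n : ℕ) (l : ℝ) : HasCompactSupport (w n l) := by
  apply HasCompactSupport.of_support_subset_isCompact (isCompact_closedBall l (rad n))
  intro x hx
  have := w_supp n l x hx
  rw [Metric.mem_closedBall, Real.dist_eq]
  exact this.le

theorem w_integrable (n : ℕ) (l : ℝ) : Integrable (w n l) :=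
  (w_contDiff n l).continuous.integrable_of_hasCompactSupport (w_compact n l)

theorem w_integral (n : ℕ) (l : ℝ) : ∫ x, ‖w n l x‖ = 1 := by
  have h1 : ∀ x, ‖w n l x‖ = (bump n).normed volume (x - l) := by
    intro x
    unfold w
    rw [Complex.norm_real, Real.norm_of_nonneg ((bump n).nonneg_normed _)]
  simp_rw [h1]
  rw [integral_sub_right_eq_self (fun x => (bump n).normed volume x) l]
  exact (bump n).integral_normed

theorem w_integral' (n : ℕ) (l : ℝ) : ∫ x, w n l x = 1 := by
  unfold w
  rw [integral_complex_ofReal, integral_sub_right_eq_self (fun x => (bump n).normed volume x) l,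
    (bump n).integral_normed]
  simp

theorem w_four_le (n : ℕ) (l ξ : ℝ) : ‖𝓕 (w n l) ξ‖ ≤ 1 := by
  rw [Real.fourier_real_eq]
  refine (norm_integral_le_integral_norm _).trans ?_
  simp only [Circle.norm_smul]
  exact (w_integral n l).le

theorem w_four_near (n : ℕ) (l ξ : ℝ) :
    ‖𝓕 (w n l) ξ - Complex.exp (↑(-2 * π * l * ξ) * Complex.I)‖ ≤ 2 * π * |ξ| * rad n := by
  rw [Real.fourier_real_eq_integral_exp_smul]
  have h0 : Complex.exp (↑(-2 * π * l * ξ) * Complex.I) =
      ∫ x, Complex.exp (↑(-2 * π * l * ξ) * Complex.I) * w n l x := by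
    rw [integral_const_mul, w_integral', mul_one]
  have hint1 : Integrable (fun v : ℝ => Complex.exp (↑(-2 * π * v * ξ) * Complex.I) • w n l v) := by
    simp only [smul_eq_mul]
    have hce : Continuous (fun v : ℝ => Complex.exp (↑(-2 * π * v * ξ) * Complex.I)) := by fun_prop
    exact (hce.mul (w_contDiff n l).continuous).integrable_of_hasCompactSupport
      (w_compact n l).mul_left
  have hint2 : Integrable (fun v : ℝ => Complex.exp (↑(-2 * π * l * ξ) * Complex.I) * w n l v) :=
    (w_integrable n l).const_mul _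
  rw [h0]
  rw [← integral_sub hint1 hint2]
  have hb : ∀ x : ℝ, ‖Complex.exp (↑(-2 * π * x * ξ) * Complex.I) • w n l x -
      Complex.exp (↑(-2 * π * l * ξ) * Complex.I) * w n l x‖ ≤ 2 * π * |ξ| * rad n * ‖w n l x‖ := by
    intro x
    by_cases hx : w n l x = 0
    · simp [hx]
    · have h1 := w_supp n l x hx
      have h2 : Complex.exp (↑(-2 * π * x * ξ) * Complex.I) =
          Complex.exp (↑(-2 * π * l * ξ) * Complex.I) *
            Complex.exp (Complex.I * ↑(-2 * π * (x - l) * ξ)) := by
        rw [← Complex.exp_add]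
        congr 1
        push_cast
        ring
      have h3 : ‖Complex.exp (Complex.I * ↑(-2 * π * (x - l) * ξ)) - 1‖ ≤ ‖-2 * π * (x - l) * ξ‖ :=
        Real.norm_exp_I_mul_ofReal_sub_one_le
      have h4 : ‖Complex.exp (↑(-2 * π * l * ξ) * Complex.I)‖ = 1 := Complex.norm_exp_ofReal_mul_I _
      rw [smul_eq_mul, ← sub_mul, h2, norm_mul]
      have h5 : Complex.exp (↑(-2 * π * l * ξ) * Complex.I) *
            Complex.exp (Complex.I * ↑(-2 * π * (x - l) * ξ)) - Complex.exp (↑(-2 * π * l * ξ) * Complex.I)
          = Complex.exp (↑(-2 * π * l * ξ) * Complex.I) *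
            (Complex.exp (Complex.I * ↑(-2 * π * (x - l) * ξ)) - 1) := by ring
      rw [h5, norm_mul, h4, one_mul]
      gcongr
      refine h3.trans ?_
      rw [norm_mul, norm_mul, norm_mul, Real.norm_eq_abs, Real.norm_eq_abs, Real.norm_eq_abs,
        Real.norm_eq_abs, abs_of_pos Real.pi_pos]
      have : |(-2 : ℝ)| = 2 := by norm_num
      rw [this]
      have h6 := abs_nonneg ξ
      have h7 : |x - l| * |ξ| ≤ rad n * |ξ| := by gcongr
      nlinarith [Real.pi_pos]
  refine (norm_integral_le_of_norm_le ((w_integrable n l).norm.const_mul _)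
    (Eventually.of_forall hb)).trans ?_
  rw [integral_const_mul, w_integral, mul_one]

end Pool.Agent.Helper42.Krein
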