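import Pool.Agent.Helper42.Krein2

open MeasureTheory Complex Filter Topology FourierTransform SchwartzMap Set
open scoped Real ContDiff

namespace Pool.Agent.Helper42.Krein

/-- test functions -/
def Test (I : Set ℝ) (φ : ℝ → ℂ) : Prop :=
  ContDiff ℝ ∞ φ ∧ HasCompactSupport φ ∧ ∀ x, φ x ≠ 0 → x ∈ I

theorem Test.comb {I : Set ℝ} {f g : ℝ → ℂ} (hf : Test I f) (hg : Test I g) (a b : ℂ) :
    Test I (fun x => a * f x + b * g x) := by
  refine ⟨(contDiff_const.mul hf.1).add (contDiff_const.mul hg.1),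
    (hf.2.1.mul_left).add (hg.2.1.mul_left), ?_⟩
  intro x hx
  by_contra hI
  have h1 : f x = 0 := by
    by_contra h; exact hI (hf.2.2 x h)
  have h2 : g x = 0 := by
    by_contra h; exact hI (hg.2.2 x h)
  exact hx (by simp [h1, h2])

theorem Test.integrable {I : Set ℝ} {f : ℝ → ℂ} (hf : Test I f) : Integrable f :=
  hf.1.continuous.integrable_of_hasCompactSupport hf.2.1

theorem Test.integrable_mul {I : Set ℝ} {f F : ℝ → ℂ} (hf : Test I f) (hFm : LocallyIntegrable F) :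
    Integrable (fun x => F x * f x) := by
  have := hFm.integrable_smul_right_of_hasCompactSupport hf.1.continuous hf.2.1
  simpa only [smul_eq_mul] using this

theorem Test.tendsto_zero {I : Set ℝ} {f : ℝ → ℂ} (hf : Test I f) {ε : ℝ} (hε : 0 < ε) :
    ∃ R : ℝ, 0 < R ∧ ∀ ξ : ℝ, R < |ξ| → ‖𝓕 f ξ‖ ≤ ε := by
  let Φ : 𝓢(ℝ, ℂ) := hf.2.1.toSchwartzMap hf.1
  have h1 := (𝓕 Φ).tendsto_cocompact
  have h2 : ∀ᶠ ξ in cocompact ℝ, ‖(𝓕 Φ : 𝓢(ℝ, ℂ)) ξ‖ < ε := by
    have := (tendsto_zero_iff_norm_tendsto_zero.mp h1)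
    exact this.eventually (gt_mem_nhds hε)
  rw [Filter.hasBasis_cocompact.eventually_iff] at h2
  obtain ⟨K, hK, hK2⟩ := h2
  obtain ⟨R, hR⟩ := hK.isBounded.subset_closedBall 0
  refine ⟨max R 1, by positivity, ?_⟩
  intro ξ hξ
  have h3 : ξ ∈ Kᶜ := by
    intro h4
    have := hR h4
    rw [mem_closedBall_zero_iff, Real.norm_eq_abs] at this
    have := le_max_left R 1
    linarith
  have h5 := hK2 h3
  have h6 : (𝓕 Φ : 𝓢(ℝ, ℂ)) ξ = 𝓕 f ξ := by
    rw [SchwartzMap.fourier_coe]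
    rfl
  rw [h6] at h5
  exact h5.le

theorem w_test {I : Set ℝ} {n : ℕ} {l : ℝ} (h : ∀ x, |x - l| < rad n → x ∈ I) : Test I (w n l) :=
  ⟨w_contDiff n l, w_compact n l, fun x hx => h x (w_supp n l x hx)⟩

/-- mollification -/
noncomputable def mol (F : ℝ → ℂ) (n : ℕ) (l : ℝ) : ℂ := ∫ x, F x * w n l x

theorem cauchy_local {I : Set ℝ} {F : ℝ → ℂ} {C : ℝ} (hC : 0 ≤ C) (hF : Bdd I F C)
    (hFm : LocallyIntegrable F) {ε : ℝ} (hε : 0 < ε) :
    ∃ n0 : ℕ, ∀ n m : ℕ, n0 ≤ n → n0 ≤ m → ∀ l : ℝ, (∀ x, |x - l| < rad n → x ∈ I) →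
      (∀ x, |x - l| < rad m → x ∈ I) → ‖mol F n l - mol F m l‖ ≤ ε := by
  classical
  let S : Set ℝ := {r | ∃ φ : ℝ → ℂ, Test I φ ∧ (∀ ξ, ‖𝓕 φ ξ‖ ≤ 1) ∧ r = ‖∫ x, F x * φ x‖}
  have hSb : BddAbove S := by
    refine ⟨C * 1, ?_⟩
    rintro r ⟨φ, hφ, h1, rfl⟩
    exact key hC hF hFm φ hφ.1 hφ.2.1 hφ.2.2 h1
  have hS0 : (0 : ℝ) ∈ S := by
    refine ⟨fun _ => 0, ⟨contDiff_const, HasCompactSupport.zero, by simp⟩, ?_, by simp⟩
    intro ξ
    rw [Real.fourier_real_eq]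
    simp
  set N := sSup S with hN
  have hN0 : 0 ≤ N := le_csSup hSb hS0
  have hscale : ∀ φ : ℝ → ℂ, Test I φ → ∀ M : ℝ, 0 < M → (∀ ξ, ‖𝓕 φ ξ‖ ≤ M) →
      ‖∫ x, F x * φ x‖ ≤ N * M := by
    intro φ hφ M hM hb
    have hMc : (M : ℂ) ≠ 0 := by exact_mod_cast hM.ne'
    have h1 : Test I (fun x => (M : ℂ)⁻¹ * φ x + 0 * φ x) := hφ.comb hφ _ _
    have h2 : ∀ ξ, ‖𝓕 (fun x => (M : ℂ)⁻¹ * φ x + 0 * φ x) ξ‖ ≤ 1 := by
      intro ξ
      rw [four_lin hφ.integrable hφ.integrable, zero_mul, add_zero, norm_mul, norm_inv,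
        Complex.norm_real, Real.norm_of_nonneg hM.le]
      have := hb ξ
      rw [inv_mul_le_iff₀ hM]
      linarith
    have h3 : ‖∫ x, F x * ((M : ℂ)⁻¹ * φ x + 0 * φ x)‖ ≤ N := le_csSup hSb ⟨_, h1, h2, rfl⟩
    have h4 : ∫ x, F x * ((M : ℂ)⁻¹ * φ x + 0 * φ x) = (M : ℂ)⁻¹ * ∫ x, F x * φ x := by
      rw [← integral_const_mul]
      congr 1
      ext x
      ring
    rw [h4, norm_mul, norm_inv, Complex.norm_real, Real.norm_of_nonneg hM.le,
      inv_mul_le_iff₀ hM] at h3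
    linarith
  -- choose ε'
  set e : ℝ := ε / (2 * (N + 1)) with he
  have hepos : 0 < e := by positivity
  obtain ⟨r, ⟨u, hu, hu1, rfl⟩, hr⟩ := exists_lt_of_lt_csSup ⟨0, hS0⟩ (show N - e < sSup S by linarith)
  obtain ⟨R, hR0, hR⟩ := hu.tendsto_zero hepos
  have hev : ∀ᶠ n in atTop, rad n < e / (2 * π * R) :=
    rad_tendsto.eventually (gt_mem_nhds (by positivity))
  obtain ⟨n0, hn0⟩ := eventually_atTop.mp hev
  refine ⟨n0, ?_⟩
  intro n m hn hm l hln hlm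
  have hwn : Test I (w n l) := w_test hln
  have hwm : Test I (w m l) := w_test hlm
  obtain ⟨θ1, hθ1, hθ1'⟩ := Complex.exists_norm_eq_mul_self (∫ x, F x * u x)
  obtain ⟨θ2, hθ2, hθ2'⟩ := Complex.exists_norm_eq_mul_self (mol F n l - mol F m l)
  -- difference of the bumps
  have hd : Test I (fun x => 1 * w n l x + (-1) * w m l x) := hwn.comb hwm 1 (-1)
  have hdF : ∀ ξ, 𝓕 (fun x => 1 * w n l x + (-1) * w m l x) ξ = 𝓕 (w n l) ξ - 𝓕 (w m l) ξ := by
    intro ξ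
    rw [four_lin hwn.integrable hwm.integrable]
    ring
  have hdL : ∫ x, F x * (1 * w n l x + (-1) * w m l x) = mol F n l - mol F m l := by
    unfold mol
    rw [← integral_sub (hwn.integrable_mul hFm) (hwm.integrable_mul hFm)]
    congr 1
    ext x
    ring
  set d : ℝ → ℂ := fun x => 1 * w n l x + (-1) * w m l x with hdd
  have hcomb : Test I (fun x => θ1 * u x + (θ2 / 2) * d x) := hu.comb hd _ _
  have hcombL : ∫ x, F x * (θ1 * u x + (θ2 / 2) * d x) =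
      θ1 * (∫ x, F x * u x) + (θ2 / 2) * (mol F n l - mol F m l) := by
    rw [← hdL, ← integral_const_mul, ← integral_const_mul,
      ← integral_add ((hu.integrable_mul hFm).const_mul _) ((hd.integrable_mul hFm).const_mul _)]
    congr 1
    ext x
    ring
  have hcombF : ∀ ξ, ‖𝓕 (fun x => θ1 * u x + (θ2 / 2) * d x) ξ‖ ≤ 1 + e := by
    intro ξ
    rw [four_lin hu.integrable hd.integrable, hdF]
    refine (norm_add_le _ _).trans ?_
    rw [norm_mul, norm_mul, hθ1, norm_div, hθ2]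
    have h2 : ‖(2 : ℂ)‖ = 2 := by simp
    rw [h2, one_mul]
    by_cases hξ : R < |ξ|
    · have h3 := hR ξ hξ
      have h4 : ‖𝓕 (w n l) ξ - 𝓕 (w m l) ξ‖ ≤ 1 + 1 :=
        (norm_sub_le _ _).trans (add_le_add (w_four_le n l ξ) (w_four_le m l ξ))
      linarith
    · push Not at hξ
      have h3 := hu1 ξ
      have h4 : ‖𝓕 (w n l) ξ - 𝓕 (w m l) ξ‖ ≤ 2 * π * |ξ| * rad n + 2 * π * |ξ| * rad m := by
        have h5 : 𝓕 (w n l) ξ - 𝓕 (w m l) ξ =
            (𝓕 (w n l) ξ - Complex.exp (↑(-2 * π * l * ξ) * Complex.I)) -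
            (𝓕 (w m l) ξ - Complex.exp (↑(-2 * π * l * ξ) * Complex.I)) := by ring
        rw [h5]
        exact (norm_sub_le _ _).trans (add_le_add (w_four_near n l ξ) (w_four_near m l ξ))
      have h6 : ∀ k, n0 ≤ k → 2 * π * |ξ| * rad k ≤ e := by
        intro k hk
        have h7 := hn0 k hk
        have h8 : 2 * π * |ξ| * rad k ≤ 2 * π * R * rad k := by
          have := (rad_pos k).le
          gcongr
        rw [lt_div_iff₀ (by positivity)] at h7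
        linarith
      have := h6 n hn
      have := h6 m hm
      linarith
  have hfin := hscale _ hcomb (1 + e) (by positivity) hcombF
  rw [hcombL, ← hθ1'] at hfin
  have h9 : (‖∫ x, F x * u x‖ : ℂ) + θ2 / 2 * (mol F n l - mol F m l) =
      ((‖∫ x, F x * u x‖ + ‖mol F n l - mol F m l‖ / 2 : ℝ) : ℂ) := by
    push_cast
    rw [hθ2']
    ring
  rw [h9, Complex.norm_real, Real.norm_of_nonneg (by positivity)] at hfin
  have h10 : e * (2 * (N + 1)) = ε := by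
    rw [he]; field_simp
  nlinarith

end Pool.Agent.Helper42.Krein
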