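import Pool.Agent.Helper42.Krein3

open MeasureTheory Complex Filter Topology FourierTransform SchwartzMap Set
open scoped Real ContDiff

namespace Pool.Agent.Helper42.Krein

theorem mol_eq_conv (F : ℝ → ℂ) (n : ℕ) (l : ℝ) :
    mol F n l = (MeasureTheory.convolution ((bump n).normed volume) F
      (ContinuousLinearMap.lsmul ℝ ℝ) volume) l := by
  rw [convolution_eq_swap]
  unfold mol w
  congr 1
  ext t
  have : (bump n).normed volume (l - t) = (bump n).normed volume (t - l) := by
    rw [← (bump n).normed_neg (t - l)]; congr 1; ring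
  rw [this]
  simp only [ContinuousLinearMap.lsmul_apply, Complex.real_smul]
  ring

theorem mol_continuous {F : ℝ → ℂ} (hFm : LocallyIntegrable F) (n : ℕ) : Continuous (mol F n) := by
  have h1 : Continuous (MeasureTheory.convolution ((bump n).normed volume) F
      (ContinuousLinearMap.lsmul ℝ ℝ) volume) :=
    (bump n).hasCompactSupport_normed.continuous_convolution_left _ (bump n).continuous_normed hFm
  have h2 : mol F n = (MeasureTheory.convolution ((bump n).normed volume) F
      (ContinuousLinearMap.lsmul ℝ ℝ) volume) := by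
    ext l
    exact mol_eq_conv F n l
  rw [h2]
  exact h1

theorem mol_ae {F : ℝ → ℂ} (hFm : LocallyIntegrable F) :
    ∀ᵐ x, Tendsto (fun n => mol F n x) atTop (𝓝 (F x)) := by
  have h := ContDiffBump.ae_convolution_tendsto_right_of_locallyIntegrable (μ := (volume : Measure ℝ))
    (φ := bump) (l := atTop) (K := 2) (g := F) rad_tendsto (Eventually.of_forall (fun n => by
      change 1 / ((n:ℝ) + 1) ≤ 2 * (1 / (2 * ((n:ℝ) + 1)))
      apply le_of_eq
      field_simp)) hFm
  filter_upwards [h] with x hx
  simp_rw [mol_eq_conv]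
  exact hx

theorem mol_shift (F : ℝ → ℂ) (n : ℕ) (l : ℝ) : mol F n l = ∫ y, F (l + y) * w n 0 y := by
  unfold mol
  rw [← integral_add_left_eq_self _ l]
  congr 1
  ext y
  unfold w
  congr 3
  ring_nf

theorem mol_bdd {I : Set ℝ} {F : ℝ → ℂ} {C : ℝ} (hF : Bdd I F C) (hFm : LocallyIntegrable F)
    (n : ℕ) (s : Finset ℝ) (c : ℝ → ℂ) (M : ℝ) (hs : ∀ x ∈ s, ∀ y, |y| < rad n → x + y ∈ I)
    (hM : ∀ t : ℝ, ‖∑ x ∈ s, c x * Complex.exp (2 * π * Complex.I * (x * t))‖ ≤ M) :
    ‖∑ x ∈ s, c x * mol F n x‖ ≤ C * M := by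
  have h0 : ∀ x ∈ s, Integrable (fun y => c x * (F (x + y) * w n 0 y)) := by
    intro x _
    apply Integrable.const_mul
    have h1 : LocallyIntegrable (fun y => F (x + y)) := by
      intro z
      obtain ⟨U, hU, hU2⟩ := hFm (x + z)
      refine ⟨(fun y => x + y) ⁻¹' U, (continuous_const.add continuous_id).continuousAt hU, ?_⟩
      exact ((measurePreserving_add_left volume x).integrableOn_comp_preimage
        (measurableEmbedding_addLeft x)).mpr hU2
    have := h1.integrable_smul_right_of_hasCompactSupport (w_contDiff n 0).continuous (w_compact n 0)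
    simpa only [smul_eq_mul] using this
  have h1 : ∑ x ∈ s, c x * mol F n x = ∫ y, (∑ x ∈ s, c x * F (x + y)) * w n 0 y := by
    simp_rw [mol_shift, ← integral_const_mul]
    rw [← integral_finsetSum s h0]
    congr 1
    ext y
    rw [Finset.sum_mul]
    apply Finset.sum_congr rfl
    intro x _
    ring
  rw [h1]
  have hb : ∀ y : ℝ, ‖(∑ x ∈ s, c x * F (x + y)) * w n 0 y‖ ≤ C * M * ‖w n 0 y‖ := by
    intro y
    by_cases hy : w n 0 y = 0
    · simp [hy]
    · have hy2 := w_supp n 0 y hy
      rw [sub_zero] at hy2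
      rw [norm_mul]
      gcongr
      have hinj : Function.Injective (fun x : ℝ => x + y) := add_left_injective y
      have h2 : ∑ x ∈ s, c x * F (x + y) =
          ∑ x ∈ s.map ⟨fun x : ℝ => x + y, hinj⟩, c (x - y) * F x := by
        rw [Finset.sum_map]
        simp
      rw [h2]
      apply hF
      · intro x hx
        obtain ⟨z, hz, rfl⟩ := Finset.mem_map.mp hx
        exact hs z hz y hy2
      · intro t
        rw [Finset.sum_map]
        simp only [Function.Embedding.coeFn_mk, add_sub_cancel_right]
        have h3 : ∑ x ∈ s, c x * Complex.exp (2 * π * Complex.I * (((x + y : ℝ) : ℂ) * t)) =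
            Complex.exp (((2 * π * y * t : ℝ) : ℂ) * Complex.I) *
              ∑ x ∈ s, c x * Complex.exp (2 * π * Complex.I * (x * t)) := by
          rw [Finset.mul_sum]
          apply Finset.sum_congr rfl
          intro x _
          have : Complex.exp (2 * π * Complex.I * (((x + y : ℝ) : ℂ) * t)) =
            Complex.exp (((2 * π * y * t : ℝ) : ℂ) * Complex.I) *
              Complex.exp (2 * π * Complex.I * (x * t)) := by
            rw [← Complex.exp_add]
            congr 1
            push_cast
            ring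
          rw [this]
          ring
        rw [h3, norm_mul, Complex.norm_exp_ofReal_mul_I, one_mul]
        exact hM t
  refine (norm_integral_le_of_norm_le ((w_integrable n 0).norm.const_mul _)
    (Eventually.of_forall hb)).trans ?_
  rw [integral_const_mul, w_integral, mul_one]

/-- The main analytic statement. -/
theorem main {I : Set ℝ} (hI : IsOpen I) {F : ℝ → ℂ} {C : ℝ} (hC : 0 ≤ C) (hF : Bdd I F C)
    (hFm : LocallyIntegrable F) :
    ∃ G : ℝ → ℂ, ContinuousOn G I ∧ Bdd I G C ∧ (∀ᵐ x, x ∈ I → F x = G x) := by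
  -- radius around points
  have hrad : ∀ l ∈ I, ∃ δ > 0, ∀ x, |x - l| < δ → x ∈ I := by
    intro l hl
    obtain ⟨δ, hδ, hδ2⟩ := Metric.isOpen_iff.mp hI l hl
    exact ⟨δ, hδ, fun x hx => hδ2 (by rwa [Metric.mem_ball, Real.dist_eq])⟩
  have hev : ∀ l ∈ I, ∀ᶠ n in atTop, ∀ x, |x - l| < rad n → x ∈ I := by
    intro l hl
    obtain ⟨δ, hδ, hδ2⟩ := hrad l hl
    filter_upwards [rad_tendsto.eventually (gt_mem_nhds hδ)] with n hn x hx
    exact hδ2 x (hx.trans hn)
  have hcauchy : ∀ l ∈ I, CauchySeq (fun n => mol F n l) := by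
    intro l hl
    obtain ⟨n1, hn1⟩ := eventually_atTop.mp (hev l hl)
    rw [Metric.cauchySeq_iff]
    intro ε hε
    obtain ⟨n0, hn0⟩ := cauchy_local hC hF hFm (half_pos hε)
    refine ⟨max n0 n1, ?_⟩
    intro n hn m hm
    rw [dist_eq_norm]
    have := hn0 n m ((le_max_left _ _).trans hn) ((le_max_left _ _).trans hm) l
      (hn1 n ((le_max_right _ _).trans hn)) (hn1 m ((le_max_right _ _).trans hm))
    linarith
  let G : ℝ → ℂ := fun l => limUnder atTop (fun n => mol F n l)
  have hG : ∀ l ∈ I, Tendsto (fun n => mol F n l) atTop (𝓝 (G l)) :=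
    fun l hl => CauchySeq.tendsto_limUnder (hcauchy l hl)
  refine ⟨G, ?_, ?_, ?_⟩
  · -- continuity
    have hloc : TendstoLocallyUniformlyOn (mol F) G atTop I := by
      rw [Metric.tendstoLocallyUniformlyOn_iff]
      intro ε hε l hl
      obtain ⟨δ, hδ, hδ2⟩ := hrad l hl
      refine ⟨Metric.ball l (δ / 2), mem_nhdsWithin_of_mem_nhds (Metric.ball_mem_nhds l (half_pos hδ)), ?_⟩
      obtain ⟨n0, hn0⟩ := cauchy_local hC hF hFm (half_pos hε)
      obtain ⟨n1, hn1⟩ := eventually_atTop.mp (rad_tendsto.eventually (gt_mem_nhds (half_pos hδ)))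
      filter_upwards [eventually_ge_atTop (max n0 n1)] with n hn y hy
      have hy' : |y - l| < δ / 2 := by rwa [Metric.mem_ball, Real.dist_eq] at hy
      have hball : ∀ m, n1 ≤ m → ∀ x, |x - y| < rad m → x ∈ I := by
        intro m hm x hx
        apply hδ2
        have h1 := hn1 m hm
        have h2 : |x - l| ≤ |x - y| + |y - l| := abs_sub_le x y l
        linarith
      have hyI : y ∈ I := hδ2 y (by linarith)
      have hb : ∀ m, max n0 n1 ≤ m → ‖mol F m y - mol F n y‖ ≤ ε / 2 := by
        intro m hm
        exact hn0 m n ((le_max_left _ _).trans hm) ((le_max_left _ _).trans hn) y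
          (hball m ((le_max_right _ _).trans hm)) (hball n ((le_max_right _ _).trans hn))
      have hlim : Tendsto (fun m => ‖mol F m y - mol F n y‖) atTop (𝓝 ‖G y - mol F n y‖) :=
        ((hG y hyI).sub_const _).norm
      have := le_of_tendsto hlim (by
        filter_upwards [eventually_ge_atTop (max n0 n1)] with m hm
        exact hb m hm)
      rw [dist_eq_norm]
      linarith
    exact hloc.continuousOn (Frequently.of_forall (fun n => (mol_continuous hFm n).continuousOn))
  · -- boundedness
    intro s c M hs hM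
    have hlim : Tendsto (fun n => ‖∑ x ∈ s, c x * mol F n x‖) atTop (𝓝 ‖∑ x ∈ s, c x * G x‖) := by
      apply Tendsto.norm
      apply tendsto_finsetSum
      intro x hx
      exact (hG x (hs x hx)).const_mul _
    have hev2 : ∀ᶠ n in atTop, ∀ x ∈ s, ∀ y, |y| < rad n → x + y ∈ I := by
      have : ∀ x ∈ s, ∀ᶠ n in atTop, ∀ y, |y| < rad n → x + y ∈ I := by
        intro x hx
        filter_upwards [hev x (hs x hx)] with n hn y hy
        exact hn (x + y) (by simpa using hy)
      exact (Finset.eventually_all s).mpr this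
    apply le_of_tendsto hlim
    filter_upwards [hev2] with n hn
    exact mol_bdd hF hFm n s c M hn hM
  · filter_upwards [mol_ae hFm] with x hx hxI
    exact tendsto_nhds_unique hx (hG x hxI)

end Pool.Agent.Helper42.Krein
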