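import Mathlib

/-!
Random period doubling, part 1: words. Letters: `false` is `a`, `true` is `b`.
-/

namespace Pool.Agent.Helper42.RPD

/-- The set-valued rule: `a ↦ {ab, ba}`, `b ↦ {aa}` (`a = false`, `b = true`). -/
def theta : Bool → Set (List Bool)
  | false => {[false, true], [true, false]}
  | true => {[false, false]}

/-- All realisations of the substitution on a word, letter by letter. -/
def thetaWord : List Bool → Set (List Bool)
  | [] => {[]}
  | c :: w => {v | ∃ x ∈ theta c, ∃ y ∈ thetaWord w, v = x ++ y}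

/-- All words obtained by `n` iterations from `w`. -/
def thetaIter : ℕ → List Bool → Set (List Bool)
  | 0, w => {w}
  | n + 1, w => {v | ∃ u ∈ thetaIter n w, v ∈ thetaWord u}

/-- A legal word is a subword of an element of `ϑ^n(c)`, `n ≥ 1`. -/
def Legal (w : List Bool) : Prop :=
  ∃ n : ℕ, 1 ≤ n ∧ ∃ c : Bool, ∃ v ∈ thetaIter n [c], w <:+: v

/-- decoding of a block: `aa ↦ b`, otherwise `a`. -/
def dec (c d : Bool) : Bool := !c && !d

def decL : List Bool → List Bool
  | c :: d :: w => dec c d :: decL w
  | _ => []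

def OK : List Bool → Prop
  | c :: d :: w => ¬ (c = true ∧ d = true) ∧ OK w
  | _ => True

theorem mem_theta_iff (c : Bool) (x : List Bool) :
    x ∈ theta c ↔ ∃ p q, x = [p, q] ∧ ¬ (p = true ∧ q = true) ∧ dec p q = c := by
  cases c
  · constructor
    · rintro (h | h)
      · exact ⟨false, true, h, by simp, rfl⟩
      · exact ⟨true, false, h, by simp, rfl⟩
    · rintro ⟨p, q, rfl, h, h2⟩
      cases p <;> cases q <;> simp_all [dec, theta]
  · constructor
    · intro h
      exact ⟨false, false, h, by simp, rfl⟩
    · rintro ⟨p, q, rfl, h, h2⟩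
      cases p <;> cases q <;> simp_all [dec, theta]

theorem mem_thetaWord_iff (u v : List Bool) :
    v ∈ thetaWord u ↔ v.length = 2 * u.length ∧ OK v ∧ decL v = u := by
  induction u generalizing v with
  | nil =>
    constructor
    · intro h
      have h' : v = [] := h
      subst h'
      simp [OK, decL]
    · rintro ⟨h, _, _⟩
      have : v = [] := by simpa using h
      subst this
      exact rfl
  | cons c u ih =>
    constructor
    · rintro ⟨x, hx, y, hy, rfl⟩
      obtain ⟨p, q, rfl, h1, h2⟩ := (mem_theta_iff c x).mp hx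
      obtain ⟨h3, h4, h5⟩ := (ih y).mp hy
      refine ⟨?_, ⟨h1, h4⟩, ?_⟩
      · simp only [List.cons_append, List.nil_append, List.length_cons, h3]
        ring
      · simp only [List.cons_append, List.nil_append, decL, h2, h5]
    · rintro ⟨h1, h2, h3⟩
      match v, h1, h2, h3 with
      | p :: q :: y, h1, h2, h3 =>
        simp only [decL, List.cons.injEq] at h3
        refine ⟨[p, q], (mem_theta_iff c _).mpr ⟨p, q, rfl, h2.1, h3.1⟩, y, (ih y).mpr ⟨?_, h2.2, h3.2⟩, rfl⟩
        simp only [List.length_cons] at h1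
        omega

theorem OK_append_even : ∀ (s w : List Bool), Even s.length → OK (s ++ w) → OK w
  | [], w, _, h => h
  | [c], w, hs, h => absurd hs (by simp)
  | c :: d :: s, w, hs, h => by
    refine OK_append_even s w ?_ h.2
    simp only [List.length_cons] at hs
    rw [add_assoc, Nat.even_add] at hs
    exact hs.mpr (by decide)

theorem decL_append_even : ∀ (s w : List Bool), Even s.length → decL (s ++ w) = decL s ++ decL w
  | [], w, _ => by simp [decL]
  | [c], w, hs => absurd hs (by simp)
  | c :: d :: s, w, hs => by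
    have h2 : Even s.length := by
      simp only [List.length_cons] at hs
      rw [add_assoc, Nat.even_add] at hs
      exact hs.mpr (by decide)
    simp only [List.cons_append, decL, decL_append_even s w h2]

theorem OK_prefix : ∀ (w t : List Bool), OK (w ++ t) → OK w
  | [], t, _ => trivial
  | [c], t, _ => trivial
  | c :: d :: w, t, h => ⟨h.1, OK_prefix w t h.2⟩

theorem decL_prefix : ∀ (w t : List Bool), decL w <+: decL (w ++ t)
  | [], t => by simp [decL]
  | [c], t => by simp [decL]
  | c :: d :: w, t => by
    simp only [List.cons_append, decL]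
    exact (List.prefix_cons_inj _).mpr (decL_prefix w t)

theorem sub_even (s w t : List Bool) (hs : Even s.length) (h : OK (s ++ w ++ t)) :
    OK w ∧ decL w <:+: decL (s ++ w ++ t) := by
  rw [List.append_assoc] at h ⊢
  refine ⟨OK_prefix w t (OK_append_even s _ hs h), ?_⟩
  rw [decL_append_even s _ hs]
  exact (decL_prefix w t).isInfix.trans (List.suffix_append _ _).isInfix

theorem Legal.subw {w w' : List Bool} (h : Legal w) (h' : w' <:+: w) : Legal w' := by
  obtain ⟨n, hn, c, v, hv, hw⟩ := h
  exact ⟨n, hn, c, v, hv, h'.trans hw⟩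

theorem thetaIter_length : ∀ (n : ℕ) (w v : List Bool), v ∈ thetaIter n w → v.length = 2 ^ n * w.length
  | 0, w, v, h => by
    have : v = w := h
    simp [this]
  | n + 1, w, v, ⟨u, hu, hv⟩ => by
    have h1 := thetaIter_length n w u hu
    have h2 := ((mem_thetaWord_iff u v).mp hv).1
    rw [h2, h1]
    ring

theorem legal_decode {w : List Bool} (hw : Legal w) (hl : 3 ≤ w.length) :
    (OK w ∧ Legal (decL w)) ∨ (OK w.tail ∧ Legal (decL w.tail)) := by
  obtain ⟨n, hn, c, v, hv, s, t, hst⟩ := hw
  have hvl := thetaIter_length n [c] v hv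
  have hn2 : 2 ≤ n := by
    by_contra hcon
    have h1 : n = 1 := by omega
    subst h1
    have : w.length ≤ v.length := by
      rw [← hst]; simp; omega
    simp at hvl
    omega
  obtain ⟨k, rfl⟩ : ∃ k, n = k + 1 := ⟨n - 1, by omega⟩
  obtain ⟨u, hu, hvu⟩ := hv
  have hlu : Legal u := ⟨k, by omega, c, u, hu, List.infix_rfl⟩
  obtain ⟨_, hok, hdec⟩ := (mem_thetaWord_iff u v).mp hvu
  rcases Nat.even_or_odd s.length with hs | hs
  · left
    have h := sub_even s w t hs (by rw [hst]; exact hok)
    rw [hst, hdec] at h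
    exact ⟨h.1, hlu.subw h.2⟩
  · right
    match w, hl with
    | d :: w', _ =>
      have e : s ++ (d :: w') ++ t = (s ++ [d]) ++ w' ++ t := by simp
      have hs2 : Even (s ++ [d]).length := by
        rw [List.length_append]
        exact hs.add_odd (by simp)
      have h := sub_even (s ++ [d]) w' t hs2 (by rw [← e, hst]; exact hok)
      rw [← e, hst, hdec] at h
      exact ⟨h.1, hlu.subw h.2⟩

/-- bi-infinite sequences -/
abbrev Seq := ℤ → Bool

/-- The word `x_i ... x_{i+n-1}`. -/
def word (x : Seq) (i : ℤ) (n : ℕ) : List Bool := List.ofFn fun k : Fin n => x (i + k)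

/-- The random substitution subshift. -/
def X : Set Seq := {x | ∀ (i : ℤ) (n : ℕ), Legal (word x i n)}

/-- The left shift. -/
def shift (x : Seq) : Seq := fun i => x (i + 1)

theorem word_zero (x : Seq) (i : ℤ) : word x i 0 = [] := by simp [word]

theorem word_succ (x : Seq) (i : ℤ) (n : ℕ) : word x i (n + 1) = x i :: word x (i + 1) n := by
  unfold word
  rw [List.ofFn_succ]
  simp only [Fin.val_zero, Nat.cast_zero, add_zero, Fin.val_succ, Nat.cast_add, Nat.cast_one]
  congr 2
  ext k
  congr 1
  ring

theorem word_length (x : Seq) (i : ℤ) (n : ℕ) : (word x i n).length = n := by simp [word]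

theorem word_add (x : Seq) (i : ℤ) (n m : ℕ) : word x i (n + m) = word x i n ++ word x (i + n) m := by
  induction n generalizing i with
  | zero => simp [word_zero]
  | succ n ih =>
    rw [show n + 1 + m = (n + m) + 1 by ring, word_succ, ih, word_succ, List.cons_append]
    congr 3
    push_cast
    ring

theorem word_shift (x : Seq) (i : ℤ) (n : ℕ) : word (shift x) i n = word x (i + 1) n := by
  unfold word shift
  congr 1
  ext k
  congr 1
  ring

/-- block decoding at even positions -/
def D (x : Seq) : Seq := fun i => dec (x (2 * i)) (x (2 * i + 1))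

theorem decL_word (x : Seq) (i : ℤ) (n : ℕ) : decL (word x (2 * i) (2 * n)) = word (D x) i n := by
  induction n generalizing i with
  | zero => simp [word_zero, decL]
  | succ n ih =>
    rw [show 2 * (n + 1) = 2 * n + 1 + 1 by ring, word_succ, word_succ, decL, word_succ]
    congr 1
    rw [← ih (i + 1)]
    congr 2
    ring

theorem OK_word (x : Seq) (i : ℤ) (n : ℕ) : OK (word x (2 * i) (2 * n)) ↔
    ∀ k : ℕ, k < n → ¬ (x (2 * (i + k)) = true ∧ x (2 * (i + k) + 1) = true) := by
  induction n generalizing i with
  | zero => simp [word_zero, OK]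
  | succ n ih =>
    rw [show 2 * (n + 1) = 2 * n + 1 + 1 by ring, word_succ, word_succ, OK]
    rw [show 2 * i + 1 + 1 = 2 * (i + 1) by ring, ih (i + 1)]
    constructor
    · rintro ⟨h1, h2⟩ k hk
      rcases k with _ | k
      · simpa using h1
      · have := h2 k (by omega)
        have e : i + ((k + 1 : ℕ) : ℤ) = i + 1 + k := by push_cast; ring
        rw [e]
        exact this
    · intro h
      refine ⟨by simpa using h 0 (by omega), fun k hk => ?_⟩
      have := h (k + 1) (by omega)
      have e : i + ((k + 1 : ℕ) : ℤ) = i + 1 + k := by push_cast; ring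
      rw [e] at this
      exact this

/-- sequences parsed at even positions with decoded sequence in `X` -/
def Y : Set Seq := {x | (∀ j : ℤ, ¬ (x (2 * j) = true ∧ x (2 * j + 1) = true)) ∧ D x ∈ X}

theorem mem_Y_iff (x : Seq) : x ∈ Y ↔
    ∀ (i : ℤ) (n : ℕ), OK (word x (2 * i) (2 * n)) ∧ Legal (decL (word x (2 * i) (2 * n))) := by
  constructor
  · rintro ⟨h1, h2⟩ i n
    refine ⟨(OK_word x i n).mpr (fun k _ => h1 _), ?_⟩
    rw [decL_word]
    exact h2 i n
  · intro h
    refine ⟨fun j => ?_, fun i n => ?_⟩
    · have := (OK_word x j 1).mp (h j 1).1 0 (by omega)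
      simpa using this
    · rw [← decL_word]
      exact (h i n).2

theorem D_shift_shift (x : Seq) : D (shift (shift x)) = shift (D x) := by
  ext i
  unfold D shift
  congr 2 <;> ring

theorem shift_mem_X {x : Seq} (hx : x ∈ X) : shift x ∈ X := by
  intro i n
  rw [word_shift]
  exact hx _ _

theorem shift_mem_X_iff (x : Seq) : shift x ∈ X ↔ x ∈ X := by
  refine ⟨fun h i n => ?_, shift_mem_X⟩
  have := h (i - 1) n
  rw [word_shift] at this
  simpa using this

theorem shift_shift_mem_Y_iff (x : Seq) : shift (shift x) ∈ Y ↔ x ∈ Y := by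
  constructor
  · rintro ⟨h1, h2⟩
    refine ⟨fun j => ?_, ?_⟩
    · have := h1 (j - 1)
      unfold shift at this
      have e1 : 2 * (j - 1) + 1 + 1 = 2 * j := by ring
      rwa [e1] at this
    · rw [D_shift_shift] at h2
      exact (shift_mem_X_iff _).mp h2
  · rintro ⟨h1, h2⟩
    refine ⟨fun j => ?_, ?_⟩
    · have := h1 (j + 1)
      unfold shift
      have e1 : 2 * j + 1 + 1 = 2 * (j + 1) := by ring
      rwa [e1]
    · rw [D_shift_shift]
      exact (shift_mem_X_iff _).mpr h2

/-- Every point of `X` can be parsed at even or at odd positions. -/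
theorem X_subset (x : Seq) (hx : x ∈ X) : x ∈ Y ∨ shift x ∈ Y := by
  by_contra hcon
  push Not at hcon
  obtain ⟨h0, h1⟩ := hcon
  rw [mem_Y_iff] at h0 h1
  push Not at h0 h1
  obtain ⟨i, n, hin⟩ := h0
  obtain ⟨i', n', hin'⟩ := h1
  -- big window
  set I : ℤ := min i i' with hI
  obtain ⟨p, hp⟩ : ∃ p : ℕ, i = I + p := ⟨(i - I).toNat, by
    have : 0 ≤ i - I := by rw [hI]; linarith [min_le_left i i']
    rw [Int.toNat_of_nonneg this]; ring⟩
  obtain ⟨p', hp'⟩ : ∃ p' : ℕ, i' = I + p' := ⟨(i' - I).toNat, by
    have : 0 ≤ i' - I := by rw [hI]; linarith [min_le_right i i']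
    rw [Int.toNat_of_nonneg this]; ring⟩
  set L : ℕ := p + n + (p' + n') + 2 with hL
  have hleg := hx (2 * I) (2 * L)
  rcases legal_decode hleg (by rw [word_length]; omega) with ⟨hok, hdec⟩ | ⟨hok, hdec⟩
  · have e : word x (2 * I) (2 * L) = word x (2 * I) (2 * p) ++ word x (2 * i) (2 * n) ++
        word x (2 * i + (2 * n : ℕ)) (2 * (L - p - n)) := by
      have e1 : 2 * L = (2 * p + 2 * n) + 2 * (L - p - n) := by omega
      rw [e1, word_add, word_add]
      congr 2
      · congr 1
        rw [hp]; push_cast; ring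
      · rw [hp]; push_cast; ring
    rw [e] at hok hdec
    have h := sub_even _ _ _ (by rw [word_length]; exact even_two_mul p) hok
    exact hin h.1 (hdec.subw h.2)
  · have e : (word x (2 * I) (2 * L)).tail = word x (2 * I + 1) (2 * p') ++
        word x (2 * i' + 1) (2 * n') ++ word x (2 * i' + 1 + (2 * n' : ℕ)) (2 * L - 1 - 2 * p' - 2 * n') := by
      have e1 : 2 * L = ((2 * p' + 2 * n') + (2 * L - 1 - 2 * p' - 2 * n')) + 1 := by omega
      nth_rewrite 1 [e1]
      rw [word_succ, List.tail_cons, word_add, word_add]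
      congr 2
      · congr 1
        rw [hp']; push_cast; ring
      · rw [hp']; push_cast; ring
    rw [e] at hok hdec
    have h := sub_even _ _ _ (by rw [word_length]; exact even_two_mul p') hok
    rw [word_shift] at hin'
    exact hin' h.1 (hdec.subw h.2)

end Pool.Agent.Helper42.RPD
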