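import Pool.Agent.Helper42.RPD1

open MeasureTheory Set
open scoped ENNReal

namespace Pool.Agent.Helper42.RPD

theorem measurable_shift : Measurable shift := by
  unfold shift
  exact measurable_pi_lambda _ (fun i => measurable_pi_apply (i + 1))

theorem measurable_D : Measurable D := by
  unfold D
  refine measurable_pi_lambda _ (fun i => ?_)
  have h : Measurable (fun p : Bool × Bool => dec p.1 p.2) := measurable_of_countable _
  have h2 : Measurable (fun x : Seq => (x (2 * i), x (2 * i + 1))) :=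
    (measurable_pi_apply (2 * i)).prodMk (measurable_pi_apply (2 * i + 1))
  exact h.comp h2

/-- window map -/
def win (i : ℤ) (n : ℕ) (x : Seq) : Fin n → Bool := fun k => x (i + k)

theorem measurable_win (i : ℤ) (n : ℕ) : Measurable (win i n) :=
  measurable_pi_lambda _ (fun k => measurable_pi_apply (i + k))

theorem measurableSet_word (i : ℤ) (n : ℕ) (p : List Bool → Prop) :
    MeasurableSet {x : Seq | p (word x i n)} := by
  have : {x : Seq | p (word x i n)} = win i n ⁻¹' {f | p (List.ofFn f)} := rfl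
  rw [this]
  exact measurable_win i n (MeasurableSet.of_discrete)

theorem measurableSet_X : MeasurableSet X := by
  have : X = ⋂ (i : ℤ), ⋂ (n : ℕ), {x : Seq | Legal (word x i n)} := by
    ext x; simp [X]
  rw [this]
  exact MeasurableSet.iInter (fun i => MeasurableSet.iInter (fun n => measurableSet_word i n _))

theorem measurableSet_Y : MeasurableSet Y := by
  have : Y = (⋂ (j : ℤ), {x : Seq | ¬ (x (2 * j) = true ∧ x (2 * j + 1) = true)}) ∩ D ⁻¹' X := by
    ext x; simp [Y]
  rw [this]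
  refine MeasurableSet.inter (MeasurableSet.iInter (fun j => ?_)) (measurable_D measurableSet_X)
  have h : Measurable (fun x : Seq => (x (2 * j), x (2 * j + 1))) :=
    (measurable_pi_apply (2 * j)).prodMk (measurable_pi_apply (2 * j + 1))
  have e : {x : Seq | ¬ (x (2 * j) = true ∧ x (2 * j + 1) = true)} =
      (fun x : Seq => (x (2 * j), x (2 * j + 1))) ⁻¹' {p : Bool × Bool | ¬ (p.1 = true ∧ p.2 = true)} := rfl
  rw [e]
  exact h MeasurableSet.of_discrete

/-- A shift-invariant Borel probability measure on `X`. -/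
structure IsInv (ν : Measure Seq) : Prop where
  prob : IsProbabilityMeasure ν
  inv : MeasurePreserving shift ν ν
  supp : ν Xᶜ = 0

/-- The desubstituted measure on sequences parsed at even positions. -/
noncomputable def Pm (ν : Measure Seq) : Measure Seq :=
  (2 : ℝ≥0∞) • ν.restrict (Y \ shift ⁻¹' Y) + ν.restrict (Y ∩ shift ⁻¹' Y)

theorem shift_preimage_Z : shift ⁻¹' (shift ⁻¹' Y) = Y := by
  ext x
  exact shift_shift_mem_Y_iff x

theorem measurableSet_Z : MeasurableSet (shift ⁻¹' Y) := measurable_shift measurableSet_Y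

theorem Pm_apply (ν : Measure Seq) {E : Set Seq} (hE : MeasurableSet E) :
    Pm ν E = 2 * ν (E ∩ (Y \ shift ⁻¹' Y)) + ν (E ∩ (Y ∩ shift ⁻¹' Y)) := by
  unfold Pm
  rw [Measure.add_apply, Measure.smul_apply, Measure.restrict_apply hE, Measure.restrict_apply hE,
    smul_eq_mul]

theorem Pm_shift_apply {ν : Measure Seq} (h : IsInv ν) {E : Set Seq} (hE : MeasurableSet E) :
    Pm ν (shift ⁻¹' E) = 2 * ν (E ∩ (shift ⁻¹' Y \ Y)) + ν (E ∩ (Y ∩ shift ⁻¹' Y)) := by
  rw [Pm_apply ν (measurable_shift hE)]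
  have e1 : shift ⁻¹' E ∩ (Y \ shift ⁻¹' Y) = shift ⁻¹' (E ∩ (shift ⁻¹' Y \ Y)) := by
    rw [preimage_inter, preimage_sdiff, shift_preimage_Z]
  have e2 : shift ⁻¹' E ∩ (Y ∩ shift ⁻¹' Y) = shift ⁻¹' (E ∩ (Y ∩ shift ⁻¹' Y)) := by
    rw [preimage_inter, preimage_inter, shift_preimage_Z, inter_comm Y]
  rw [e1, e2, h.inv.measure_preimage (hE.inter (measurableSet_Z.diff measurableSet_Y)).nullMeasurableSet,
    h.inv.measure_preimage (hE.inter (measurableSet_Y.inter measurableSet_Z)).nullMeasurableSet]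

theorem Pm_shift2_apply {ν : Measure Seq} (h : IsInv ν) {E : Set Seq} (hE : MeasurableSet E) :
    Pm ν (shift ⁻¹' (shift ⁻¹' E)) = Pm ν E := by
  rw [Pm_shift_apply h (measurable_shift hE), Pm_apply ν hE]
  have e1 : shift ⁻¹' E ∩ (shift ⁻¹' Y \ Y) = shift ⁻¹' (E ∩ (Y \ shift ⁻¹' Y)) := by
    rw [preimage_inter, preimage_sdiff, shift_preimage_Z]
  have e2 : shift ⁻¹' E ∩ (Y ∩ shift ⁻¹' Y) = shift ⁻¹' (E ∩ (Y ∩ shift ⁻¹' Y)) := by
    rw [preimage_inter, preimage_inter, shift_preimage_Z, inter_comm Y]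
  rw [e1, e2, h.inv.measure_preimage (hE.inter (measurableSet_Y.diff measurableSet_Z)).nullMeasurableSet,
    h.inv.measure_preimage (hE.inter (measurableSet_Y.inter measurableSet_Z)).nullMeasurableSet]

theorem two_mul_measure {ν : Measure Seq} (h : IsInv ν) {E : Set Seq} (hE : MeasurableSet E) :
    Pm ν E + Pm ν (shift ⁻¹' E) = 2 * ν E := by
  rw [Pm_apply ν hE, Pm_shift_apply h hE]
  have hcov : ν E = ν (E ∩ (Y \ shift ⁻¹' Y)) + ν (E ∩ (shift ⁻¹' Y \ Y)) +
      ν (E ∩ (Y ∩ shift ⁻¹' Y)) := by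
    have h0 : ν (E ∩ (Y ∪ shift ⁻¹' Y)ᶜ) = 0 := by
      refine measure_mono_null ?_ h.supp
      intro x hx hxX
      exact hx.2 (X_subset x hxX)
    have h1 : ν E = ν (E ∩ (Y ∪ shift ⁻¹' Y)) + ν (E ∩ (Y ∪ shift ⁻¹' Y)ᶜ) := by
      rw [← measure_inter_add_sdiff E (measurableSet_Y.union measurableSet_Z), sdiff_eq]
    rw [h1, h0, add_zero]
    have e : E ∩ (Y ∪ shift ⁻¹' Y) = (E ∩ (Y \ shift ⁻¹' Y)) ∪ (E ∩ (shift ⁻¹' Y \ Y)) ∪
        (E ∩ (Y ∩ shift ⁻¹' Y)) := by
      ext x
      simp only [mem_inter_iff, mem_union, mem_sdiff]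
      tauto
    rw [e, measure_union _ (hE.inter (measurableSet_Y.inter measurableSet_Z)),
      measure_union _ (hE.inter (measurableSet_Z.diff measurableSet_Y))]
    · rw [disjoint_iff_inter_eq_empty]
      ext x
      simp only [mem_inter_iff, mem_sdiff, mem_empty_iff_false]
      tauto
    · rw [disjoint_iff_inter_eq_empty]
      ext x
      simp only [mem_inter_iff, mem_union, mem_sdiff, mem_empty_iff_false]
      tauto
  rw [hcov]
  ring

theorem Pm_prob {ν : Measure Seq} (h : IsInv ν) : IsProbabilityMeasure (Pm ν) := by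
  constructor
  have := h.prob
  have h1 := two_mul_measure h MeasurableSet.univ
  rw [preimage_univ, measure_univ (μ := ν), mul_one, ← two_mul] at h1
  have h2 : (2 : ℝ≥0∞) * Pm ν univ = 2 * 1 := by rw [h1, mul_one]
  exact (ENNReal.mul_right_inj (by norm_num) (by norm_num)).mp h2

theorem Pm_Y {ν : Measure Seq} : Pm ν Yᶜ = 0 := by
  rw [Pm_apply ν measurableSet_Y.compl]
  have e1 : Yᶜ ∩ (Y \ shift ⁻¹' Y) = ∅ := by
    ext x; simp only [mem_inter_iff, mem_compl_iff, mem_sdiff, mem_empty_iff_false]; tauto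
  have e2 : Yᶜ ∩ (Y ∩ shift ⁻¹' Y) = ∅ := by
    ext x; simp only [mem_inter_iff, mem_compl_iff, mem_empty_iff_false]; tauto
  rw [e1, e2]
  simp

/-- The desubstituted invariant measure. -/
noncomputable def N1 (ν : Measure Seq) : Measure Seq := (Pm ν).map D

theorem N1_inv {ν : Measure Seq} (h : IsInv ν) : IsInv (N1 ν) := by
  have hP := Pm_prob h
  refine ⟨Measure.isProbabilityMeasure_map measurable_D.aemeasurable, ⟨measurable_shift, ?_⟩, ?_⟩
  · ext E hE
    unfold N1
    rw [Measure.map_apply measurable_shift hE, Measure.map_apply measurable_D (measurable_shift hE),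
      Measure.map_apply measurable_D hE]
    have e : D ⁻¹' (shift ⁻¹' E) = shift ⁻¹' (shift ⁻¹' (D ⁻¹' E)) := by
      ext x
      simp only [mem_preimage, D_shift_shift]
    rw [e, Pm_shift2_apply h (measurable_D hE)]
  · unfold N1
    rw [Measure.map_apply measurable_D measurableSet_X.compl]
    refine measure_mono_null ?_ Pm_Y
    intro x hx hxY
    exact hx hxY.2

end Pool.Agent.Helper42.RPD
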