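import Pool.Agent.Helper42.RPD2
import Pool.Agent.Helper42.Ent1

open MeasureTheory Set Filter Topology
open scoped ENNReal

namespace Pool.Agent.Helper42.RPD

open Pool.Agent.Helper42.Ent

section general
variable {E : Type*} [MeasurableSpace E]
variable {α β : Type*}
  [Fintype α] [MeasurableSpace α] [MeasurableSingletonClass α]
  [Fintype β] [MeasurableSpace β] [MeasurableSingletonClass β]

theorem pr_comp (P : Measure E) [IsProbabilityMeasure P] [DecidableEq β] {X : E → α} (hX : Measurable X)
    (f : α → β) (t : β) : pr P (f ∘ X) t = ∑ s, pr P X s * (if f s = t then 1 else 0) := by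
  classical
  rw [sum_pr_comp P hX f (fun t' => if t' = t then (1 : ℝ) else 0)]
  simp

theorem pr_mp {P : Measure E} {T : E → E} (hT : MeasurePreserving T P P) {X : E → α}
    (hX : Measurable X) (s : α) : pr P (X ∘ T) s = pr P X s := by
  unfold pr
  rw [preimage_comp, measureReal_def, measureReal_def,
    hT.measure_preimage (hX (measurableSet_singleton s)).nullMeasurableSet]

theorem ent_mp {P : Measure E} {T : E → E} (hT : MeasurePreserving T P P) {X : E → α}
    (hX : Measurable X) : ent P (X ∘ T) = ent P X := by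
  unfold ent
  simp_rw [pr_mp hT hX]

theorem pr_map {P : Measure E} {F : Type*} [MeasurableSpace F] {T : E → F} (hT : Measurable T)
    {X : F → α} (hX : Measurable X) (s : α) : pr (P.map T) X s = pr P (X ∘ T) s := by
  unfold pr
  rw [measureReal_def, measureReal_def, Measure.map_apply hT (hX (measurableSet_singleton s))]
  rfl

theorem ent_map {P : Measure E} {F : Type*} [MeasurableSpace F] {T : E → F} (hT : Measurable T)
    {X : F → α} (hX : Measurable X) : ent (P.map T) X = ent P (X ∘ T) := by
  unfold ent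
  simp_rw [pr_map hT hX]

end general

/-- block windows -/
def Zw (i : ℤ) (n : ℕ) (x : Seq) : Fin n → Bool × Bool :=
  fun k => (x (2 * (i + k)), x (2 * (i + k) + 1))

theorem measurable_Zw (i : ℤ) (n : ℕ) : Measurable (Zw i n) := by
  refine measurable_pi_lambda _ (fun k => ?_)
  have h2 : Measurable (fun x : Seq => (x (2 * (i + k)), x (2 * (i + k) + 1))) :=
    (measurable_pi_apply (2 * (i + (k : ℤ)))).prodMk (measurable_pi_apply (2 * (i + (k : ℤ)) + 1))
  exact h2

def decP (z : Bool × Bool) : Bool := dec z.1 z.2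

/-- decoding of block windows -/
def decW (n : ℕ) (z : Fin n → Bool × Bool) : Fin n → Bool := fun k => decP (z k)

theorem decW_Zw (i : ℤ) (n : ℕ) : decW n ∘ Zw i n = win i n ∘ D := rfl

theorem shift_iterate (x : Seq) (n : ℕ) (i : ℤ) : (shift^[n] x) i = x (i + n) := by
  induction n generalizing x with
  | zero => simp
  | succ n ih =>
    rw [Function.iterate_succ_apply, ih]
    unfold shift
    congr 1
    push_cast; ring

theorem win_iterate (i : ℤ) (n m : ℕ) : win i n ∘ shift^[m] = win (i + m) n := by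
  ext x k
  simp only [win, Function.comp_apply, shift_iterate]
  congr 1
  ring

theorem T_iterate (x : Seq) (n : ℕ) (i : ℤ) : ((shift ∘ shift)^[n] x) i = x (i + 2 * n) := by
  induction n generalizing x with
  | zero => simp
  | succ n ih =>
    rw [Function.iterate_succ_apply, ih]
    simp only [Function.comp_apply, shift]
    congr 1
    push_cast; ring

theorem Zw_iterate (i : ℤ) (n m : ℕ) : Zw i n ∘ (shift ∘ shift)^[m] = Zw (i + m) n := by
  ext x k
  · simp only [Zw, Function.comp_apply, T_iterate]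
    congr 1
    ring
  · simp only [Zw, Function.comp_apply, T_iterate]
    congr 1
    ring

/-- block entropy -/
noncomputable def H (ν : Measure Seq) (n : ℕ) : ℝ := ent ν (win 0 n)

theorem IsInv.ent_win {ν : Measure Seq} (h : IsInv ν) (m n : ℕ) : ent ν (win m n) = H ν n := by
  have h1 := ent_mp (h.inv.iterate m) (measurable_win 0 n)
  rw [win_iterate, zero_add] at h1
  exact h1

theorem IsInv.pr_win {ν : Measure Seq} (h : IsInv ν) (m n : ℕ) (w : Fin n → Bool) :
    pr ν (win m n) w = pr ν (win 0 n) w := by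
  have h1 := pr_mp (h.inv.iterate m) (measurable_win 0 n) w
  rw [win_iterate, zero_add] at h1
  exact h1

theorem H_subadd {ν : Measure Seq} (h : IsInv ν) (n m : ℕ) : H ν (n + m) ≤ H ν n + H ν m := by
  have := h.prob
  let f : (Fin n → Bool) × (Fin m → Bool) → (Fin (n + m) → Bool) := fun p => Fin.append p.1 p.2
  have e : f ∘ (fun x => (win 0 n x, win n m x)) = win 0 (n + m) := by
    ext x k
    simp only [Function.comp_apply, f]
    refine Fin.addCases (fun i => ?_) (fun i => ?_) k
    · rw [Fin.append_left]; rfl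
    · rw [Fin.append_right]
      simp only [win, Fin.natAdd, zero_add]
      congr 1
  calc H ν (n + m) = ent ν (f ∘ (fun x => (win 0 n x, win n m x))) := by rw [e]; rfl
    _ ≤ ent ν (fun x => (win 0 n x, win n m x)) :=
        ent_comp_le ν ((measurable_win 0 n).prodMk (measurable_win n m)) f
    _ ≤ ent ν (win 0 n) + ent ν (win n m) := ent_pair_le ν (measurable_win 0 n) (measurable_win n m)
    _ = H ν n + H ν m := by rw [h.ent_win]; rfl

theorem Pm_mp {ν : Measure Seq} (h : IsInv ν) : MeasurePreserving (shift ∘ shift) (Pm ν) (Pm ν) := by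
  refine ⟨measurable_shift.comp measurable_shift, ?_⟩
  ext E hE
  rw [Measure.map_apply (measurable_shift.comp measurable_shift) hE, preimage_comp,
    Pm_shift2_apply h hE]

/-- block entropy of the desubstituted measure -/
noncomputable def G (ν : Measure Seq) (n : ℕ) : ℝ := ent (Pm ν) (Zw 0 n)

theorem H1_eq (ν : Measure Seq) (i : ℤ) (n : ℕ) : ent (N1 ν) (win i n) = ent (Pm ν) (win i n ∘ D) :=
  ent_map measurable_D (measurable_win i n)

theorem G_superadd {ν : Measure Seq} (h : IsInv ν) (n m : ℕ) :
    G ν (n + m) - H (N1 ν) (n + m) ≤ (G ν n - H (N1 ν) n) + (G ν m - H (N1 ν) m) := by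
  have hP := Pm_prob h
  have hd := data_processing (Pm ν) (measurable_Zw 0 n) (measurable_Zw n m) (decW n) (decW m)
  have h1 : G ν (n + m) ≤ ent (Pm ν) (fun x => (Zw 0 n x, Zw n m x)) := by
    let f : (Fin n → Bool × Bool) × (Fin m → Bool × Bool) → (Fin (n + m) → Bool × Bool) :=
      fun p => Fin.append p.1 p.2
    have e : f ∘ (fun x => (Zw 0 n x, Zw n m x)) = Zw 0 (n + m) := by
      funext x
      funext k
      simp only [Function.comp_apply, f]
      refine Fin.addCases (fun i => ?_) (fun i => ?_) k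
      · rw [Fin.append_left]; rfl
      · rw [Fin.append_right]
        simp only [Zw, Fin.natAdd, zero_add]
        push_cast
        rfl
    calc G ν (n + m) = ent (Pm ν) (f ∘ (fun x => (Zw 0 n x, Zw n m x))) := by rw [e]; rfl
      _ ≤ _ := ent_comp_le (Pm ν) ((measurable_Zw 0 n).prodMk (measurable_Zw n m)) f
  have h2 : ent (Pm ν) (fun x => (decW n (Zw 0 n x), decW m (Zw n m x))) ≤ H (N1 ν) (n + m) := by
    let f : (Fin (n + m) → Bool) → (Fin n → Bool) × (Fin m → Bool) :=
      fun p => (fun i => p (Fin.castAdd m i), fun i => p (Fin.natAdd n i))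
    have e : f ∘ (win 0 (n + m) ∘ D) = (fun x => (decW n (Zw 0 n x), decW m (Zw n m x))) := by
      funext x
      simp only [Function.comp_apply, f, Prod.mk.injEq]
      constructor
      · rfl
      · funext k
        simp only [win, Fin.natAdd, zero_add, decW, Zw, D, decP]
        push_cast
        rfl
    unfold H
    rw [H1_eq, ← e]
    exact ent_comp_le (Pm ν) ((measurable_win 0 (n + m)).comp measurable_D) f
  have h3 : ent (Pm ν) (Zw n m) = G ν m := by
    have h1 := ent_mp ((Pm_mp h).iterate n) (measurable_Zw 0 m)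
    rw [Zw_iterate, zero_add] at h1
    exact h1
  have h4 : ent (Pm ν) (decW m ∘ Zw n m) = H (N1 ν) m := by
    rw [decW_Zw, ← H1_eq]
    exact (N1_inv h).ent_win n m
  have h5 : ent (Pm ν) (decW n ∘ Zw 0 n) = H (N1 ν) n := by
    rw [decW_Zw, ← H1_eq]
    rfl
  rw [h3, h4, h5] at hd
  have h6 : ent (Pm ν) (Zw 0 n) = G ν n := rfl
  rw [h6] at hd
  linarith

/-- reading a window from block windows -/
def rd (j m n : ℕ) (h : j + m ≤ 2 * n) (z : Fin n → Bool × Bool) : Fin m → Bool :=
  fun k => if (j + k) % 2 = 0 then (z ⟨(j + k) / 2, by omega⟩).1 else (z ⟨(j + k) / 2, by omega⟩).2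

theorem rd_Zw (j m n : ℕ) (h : j + m ≤ 2 * n) : rd j m n h ∘ Zw 0 n = win j m := by
  funext x
  funext k
  simp only [Function.comp_apply, rd, Zw, win, zero_add]
  split_ifs with h1
  · congr 1
    have : (j + k : ℕ) = 2 * ((j + k) / 2) := by omega
    have h2 : ((j + k : ℕ) : ℤ) = 2 * (((j + k) / 2 : ℕ) : ℤ) := by exact_mod_cast this
    rw [← h2]; push_cast; ring
  · congr 1
    have : (j + k : ℕ) = 2 * ((j + k) / 2) + 1 := by omega
    have h2 : ((j + k : ℕ) : ℤ) = 2 * (((j + k) / 2 : ℕ) : ℤ) + 1 := by exact_mod_cast this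
    rw [← h2]; push_cast; ring

theorem two_mul_pr {ν : Measure Seq} (h : IsInv ν) (n : ℕ) (w : Fin n → Bool) :
    2 * pr ν (win 0 n) w = pr (Pm ν) (win 0 n) w + pr (Pm ν) (win 1 n) w := by
  have hP := Pm_prob h
  have hν := h.prob
  have hm := two_mul_measure h ((measurable_win 0 n) (measurableSet_singleton w))
  have e : shift ⁻¹' (win 0 n ⁻¹' {w}) = win 1 n ⁻¹' {w} := by
    rw [← preimage_comp]
    have := win_iterate 0 n 1
    simp only [Function.iterate_one, zero_add, Nat.cast_one] at this
    rw [this]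
  rw [e] at hm
  unfold pr
  rw [measureReal_def, measureReal_def, measureReal_def,
    ← ENNReal.toReal_add (measure_ne_top _ _) (measure_ne_top _ _), hm, ENNReal.toReal_mul]
  simp

theorem H_le_G {ν : Measure Seq} (h : IsInv ν) (n : ℕ) :
    H ν (2 * n) ≤ (G ν n + G ν (n + 1)) / 2 + Real.log 2 := by
  have hP := Pm_prob h
  have hν := h.prob
  have hP1 : IsProbabilityMeasure ((Pm ν).map shift) :=
    Measure.isProbabilityMeasure_map measurable_shift.aemeasurable
  have e : win 0 (2 * n) ∘ shift = win 1 (2 * n) := by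
    have := win_iterate 0 (2 * n) 1
    simpa only [Function.iterate_one, zero_add, Nat.cast_one] using this
  have hmix := ent_mix_le (P := ν) (P₀ := Pm ν) (P₁ := (Pm ν).map shift) (measurable_win 0 (2 * n))
    (fun s => by
      rw [two_mul_pr h, pr_map measurable_shift (measurable_win 0 (2 * n)), e])
  rw [ent_map measurable_shift (measurable_win 0 (2 * n)), e] at hmix
  have h1 : ent (Pm ν) (win 0 (2 * n)) ≤ G ν n := by
    have := ent_comp_le (Pm ν) (measurable_Zw 0 n) (rd 0 (2 * n) n (by omega))
    rw [rd_Zw] at this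
    exact this
  have h2 : ent (Pm ν) (win 1 (2 * n)) ≤ G ν (n + 1) := by
    have := ent_comp_le (Pm ν) (measurable_Zw 0 (n + 1)) (rd 1 (2 * n) (n + 1) (by omega))
    rw [rd_Zw] at this
    exact this
  unfold H
  linarith

theorem G_subadd {ν : Measure Seq} (h : IsInv ν) (n : ℕ) : G ν (n + 1) ≤ G ν n + G ν 1 := by
  have hP := Pm_prob h
  let f : (Fin n → Bool × Bool) × (Fin 1 → Bool × Bool) → (Fin (n + 1) → Bool × Bool) :=
    fun p => Fin.append p.1 p.2
  have e : f ∘ (fun x => (Zw 0 n x, Zw n 1 x)) = Zw 0 (n + 1) := by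
    funext x
    funext k
    simp only [Function.comp_apply, f]
    refine Fin.addCases (fun i => ?_) (fun i => ?_) k
    · rw [Fin.append_left]; rfl
    · rw [Fin.append_right]
      simp only [Zw, Fin.natAdd, zero_add]
      push_cast
      rfl
  have h3 : ent (Pm ν) (Zw n 1) = G ν 1 := by
    have h1 := ent_mp ((Pm_mp h).iterate n) (measurable_Zw 0 1)
    rw [Zw_iterate, zero_add] at h1
    exact h1
  calc G ν (n + 1) = ent (Pm ν) (f ∘ (fun x => (Zw 0 n x, Zw n 1 x))) := by rw [e]; rfl
    _ ≤ ent (Pm ν) (fun x => (Zw 0 n x, Zw n 1 x)) :=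
        ent_comp_le (Pm ν) ((measurable_Zw 0 n).prodMk (measurable_Zw n 1)) f
    _ ≤ ent (Pm ν) (Zw 0 n) + ent (Pm ν) (Zw n 1) :=
        ent_pair_le (Pm ν) (measurable_Zw 0 n) (measurable_Zw n 1)
    _ = G ν n + G ν 1 := by rw [h3]; rfl

end Pool.Agent.Helper42.RPD
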