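import Pool.Agent.Helper42.RPD3

open MeasureTheory Set Filter Topology
open scoped ENNReal

namespace Pool.Agent.Helper42.RPD

open Pool.Agent.Helper42.Ent

/-- frequency of the letter `a` -/
noncomputable def pa (ν : Measure Seq) : ℝ := pr ν (fun x : Seq => x 0) false

theorem measurable_coord (k : ℤ) : Measurable (fun x : Seq => x k) := measurable_pi_apply k

/-- the block at position `k` -/
def blk (k : ℤ) (x : Seq) : Bool × Bool := (x (2 * k), x (2 * k + 1))

theorem measurable_blk (k : ℤ) : Measurable (blk k) :=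
  (measurable_pi_apply (2 * k)).prodMk (measurable_pi_apply (2 * k + 1))

theorem pr_blk_tt {ν : Measure Seq} (k : ℤ) : pr (Pm ν) (blk k) (true, true) = 0 := by
  unfold pr
  rw [measureReal_def]
  have : Pm ν (blk k ⁻¹' {(true, true)}) = 0 := by
    refine measure_mono_null ?_ (Pm_Y (ν := ν))
    intro x hx hxY
    have h1 : blk k x = (true, true) := hx
    unfold blk at h1
    rw [Prod.mk.injEq] at h1
    exact hxY.1 k h1
  rw [this]
  rfl

theorem pa_coord {ν : Measure Seq} (h : IsInv ν) (k : ℕ) : pr ν (fun x : Seq => x k) false = pa ν := by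
  have h1 := pr_mp (h.inv.iterate k) (measurable_coord 0) false
  have e : (fun x : Seq => x 0) ∘ shift^[k] = fun x : Seq => x k := by
    ext x
    simp [shift_iterate]
  rw [e] at h1
  exact h1

theorem pr_D {ν : Measure Seq} (h : IsInv ν) (k : ℕ) : pr (Pm ν) (decP ∘ blk k) false = pa (N1 ν) := by
  have h1 := pa_coord (N1_inv h) k
  unfold N1 at h1
  rw [pr_map measurable_D (measurable_coord k)] at h1
  exact h1

/-- weight of a block given its decoded letter -/
noncomputable def gw (z : Bool × Bool) : ℝ :=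
  if z.1 = true ∧ z.2 = true then 0 else if decP z = true then 1 else 1 / 2

theorem gw_nonneg (z : Bool × Bool) : 0 ≤ gw z := by
  unfold gw; split_ifs <;> norm_num

theorem gw_sum (c : Bool) : ∑ z : Bool × Bool, (if decP z = c then gw z else 0) = 1 := by
  rw [Fintype.sum_prod_type]
  simp only [Fintype.sum_bool]
  cases c <;> simp [gw, decP, dec] <;> norm_num

theorem sum_log_gw {ν : Measure Seq} (h : IsInv ν) (k : ℕ) :
    ∑ c : Bool × Bool, pr (Pm ν) (blk k) c * Real.log (gw c) = - (pa (N1 ν) * Real.log 2) := by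
  have hP := Pm_prob h
  have h1 := pr_D h k
  rw [pr_comp (Pm ν) (measurable_blk k) decP false] at h1
  rw [Fintype.sum_prod_type] at h1 ⊢
  simp only [Fintype.sum_bool] at h1 ⊢
  have h2 := pr_blk_tt (ν := ν) k
  have e1 : gw (true, true) = 0 := by simp [gw]
  have e2 : gw (false, false) = 1 := by simp [gw, decP, dec]
  have e3 : gw (true, false) = 1 / 2 := by simp [gw, decP, dec]
  have e4 : gw (false, true) = 1 / 2 := by simp [gw, decP, dec]
  have d1 : decP (true, true) = false := rfl
  have d2 : decP (false, false) = true := rfl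
  have d3 : decP (true, false) = false := rfl
  have d4 : decP (false, true) = false := rfl
  rw [e1, e2, e3, e4, h2]
  rw [d1, d2, d3, d4, h2] at h1
  simp only [if_true] at h1
  rw [one_div, Real.log_inv, Real.log_one, ← h1]
  norm_num
  ring

/-- reference weights -/
noncomputable def rr (ν : Measure Seq) (n : ℕ) (z : Fin n → Bool × Bool) : ℝ :=
  pr (N1 ν) (win 0 n) (decW n z) * ∏ k, gw (z k)

theorem rr_sum {ν : Measure Seq} (h : IsInv ν) (n : ℕ) : ∑ z, rr ν n z = 1 := by
  classical
  have h1 := (N1_inv h).prob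
  have e : ∀ z : Fin n → Bool × Bool, rr ν n z =
      ∑ u : Fin n → Bool, pr (N1 ν) (win 0 n) u * ∏ k, (if decP (z k) = u k then gw (z k) else 0) := by
    intro z
    rw [Finset.sum_eq_single (decW n z)]
    · unfold rr
      congr 1
      apply Finset.prod_congr rfl
      intro k _
      simp [decW]
    · intro u _ hu
      have : ∃ k, decP (z k) ≠ u k := by
        by_contra hcon
        push Not at hcon
        exact hu (funext (fun k => (hcon k).symm))
      obtain ⟨k, hk⟩ := this
      rw [Finset.prod_eq_zero (Finset.mem_univ k) (by simp [hk]), mul_zero]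
    · intro hc
      exact absurd (Finset.mem_univ _) hc
  simp_rw [e]
  rw [Finset.sum_comm]
  simp_rw [← Finset.mul_sum]
  have e2 : ∀ u : Fin n → Bool, ∑ z : Fin n → Bool × Bool, ∏ k, (if decP (z k) = u k then gw (z k) else 0) = 1 := by
    intro u
    have := Finset.prod_univ_sum (fun _ : Fin n => (Finset.univ : Finset (Bool × Bool)))
      (fun k c => if decP c = u k then gw c else 0)
    rw [Fintype.piFinset_univ] at this
    rw [← this]
    apply Finset.prod_eq_one
    intro k _
    exact gw_sum (u k)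
  simp_rw [e2, mul_one]
  exact sum_pr (N1 ν) (measurable_win 0 n)

theorem pr_dec {ν : Measure Seq} (n : ℕ) (u : Fin n → Bool) :
    pr (Pm ν) (decW n ∘ Zw 0 n) u = pr (N1 ν) (win 0 n) u := by
  rw [decW_Zw]
  unfold N1
  rw [pr_map measurable_D (measurable_win 0 n)]

theorem gw_pos_of {ν : Measure Seq} (h : IsInv ν) (n : ℕ) (z : Fin n → Bool × Bool)
    (hz : 0 < pr (Pm ν) (Zw 0 n) z) (k : Fin n) : 0 < gw (z k) := by
  have hP := Pm_prob h
  have h1 := pr_le_pr_comp (Pm ν) (Zw 0 n) (fun z : Fin n → Bool × Bool => z k) z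
  have e : (fun z : Fin n → Bool × Bool => z k) ∘ Zw 0 n = blk k := by
    funext x
    simp [Zw, blk]
  rw [e] at h1
  have h2 : z k ≠ (true, true) := by
    intro hc
    rw [hc, pr_blk_tt] at h1
    linarith
  unfold gw
  have h3 : ¬ ((z k).1 = true ∧ (z k).2 = true) := fun h4 => h2 (Prod.ext h4.1 h4.2)
  rw [if_neg h3]
  split_ifs <;> norm_num

theorem rr_pos_of {ν : Measure Seq} (h : IsInv ν) (n : ℕ) (z : Fin n → Bool × Bool)
    (hz : 0 < pr (Pm ν) (Zw 0 n) z) :
    0 < pr (N1 ν) (win 0 n) (decW n z) ∧ 0 < ∏ k, gw (z k) := by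
  have hP := Pm_prob h
  constructor
  · have h1 := pr_le_pr_comp (Pm ν) (Zw 0 n) (decW n) z
    rw [pr_dec] at h1
    linarith
  · exact Finset.prod_pos (fun k _ => gw_pos_of h n z hz k)

theorem rr_nonneg (ν : Measure Seq) (n : ℕ) (z : Fin n → Bool × Bool) : 0 ≤ rr ν n z :=
  mul_nonneg (pr_nonneg _ _ _) (Finset.prod_nonneg (fun k _ => gw_nonneg _))

theorem sum_log_rr {ν : Measure Seq} (h : IsInv ν) (n : ℕ) :
    - ∑ z, pr (Pm ν) (Zw 0 n) z * Real.log (rr ν n z) = H (N1 ν) n + n * (pa (N1 ν) * Real.log 2) := by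
  have hP := Pm_prob h
  have e : ∀ z, pr (Pm ν) (Zw 0 n) z * Real.log (rr ν n z) =
      pr (Pm ν) (Zw 0 n) z * Real.log (pr (Pm ν) (decW n ∘ Zw 0 n) (decW n z)) +
      ∑ k, pr (Pm ν) (Zw 0 n) z * Real.log (gw (z k)) := by
    intro z
    rcases (pr_nonneg (Pm ν) (Zw 0 n) z).eq_or_lt with h0 | h0
    · rw [← h0]; simp
    · obtain ⟨h1, h2⟩ := rr_pos_of h n z h0
      unfold rr
      rw [Real.log_mul h1.ne' h2.ne', Real.log_prod (fun k _ => (gw_pos_of h n z h0 k).ne'),
        pr_dec, ← Finset.mul_sum]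
      ring
  simp_rw [e]
  rw [Finset.sum_add_distrib, Finset.sum_comm]
  have e2 : ∀ k : Fin n, ∑ z, pr (Pm ν) (Zw 0 n) z * Real.log (gw (z k)) = - (pa (N1 ν) * Real.log 2) := by
    intro k
    have h3 := sum_pr_comp (Pm ν) (measurable_Zw 0 n) (fun z : Fin n → Bool × Bool => z k)
      (fun c => Real.log (gw c))
    have e3 : (fun z : Fin n → Bool × Bool => z k) ∘ Zw 0 n = blk k := by
      funext x
      simp [Zw, blk]
    rw [e3] at h3
    rw [h3, sum_log_gw h]
  simp_rw [e2]
  rw [Finset.sum_const, Finset.card_univ, Fintype.card_fin, nsmul_eq_mul]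
  have h4 := ent_comp_eq (Pm ν) (measurable_Zw 0 n) (decW n)
  have h5 : ent (Pm ν) (decW n ∘ Zw 0 n) = H (N1 ν) n := by
    rw [decW_Zw, ← H1_eq]
    rfl
  rw [h5] at h4
  rw [h4]
  ring

theorem G_le {ν : Measure Seq} (h : IsInv ν) (n : ℕ) :
    G ν n ≤ H (N1 ν) n + n * (pa (N1 ν) * Real.log 2) := by
  have hP := Pm_prob h
  rw [← sum_log_rr h n]
  apply gibbs (pr_nonneg _ _) (rr_nonneg ν n)
  · intro z hz
    by_contra hne
    have := rr_pos_of h n z (lt_of_le_of_ne (pr_nonneg _ _ _) (Ne.symm hne))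
    have h2 : 0 < rr ν n z := mul_pos this.1 this.2
    linarith
  · rw [rr_sum h, sum_pr (Pm ν) (measurable_Zw 0 n)]

theorem G_eq {ν : Measure Seq} (h : IsInv ν) (n : ℕ)
    (he : H (N1 ν) n + n * (pa (N1 ν) * Real.log 2) ≤ G ν n) (z : Fin n → Bool × Bool) :
    pr (Pm ν) (Zw 0 n) z = rr ν n z := by
  have hP := Pm_prob h
  rw [← sum_log_rr h n] at he
  apply gibbs_eq (pr_nonneg _ _) (rr_nonneg ν n) _ _ he
  · intro z hz
    by_contra hne
    have := rr_pos_of h n z (lt_of_le_of_ne (pr_nonneg _ _ _) (Ne.symm hne))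
    have h2 : 0 < rr ν n z := mul_pos this.1 this.2
    linarith
  · rw [rr_sum h, sum_pr (Pm ν) (measurable_Zw 0 n)]

/-- recursion for the letter frequency -/
theorem pa_rec {ν : Measure Seq} (h : IsInv ν) : pa ν = 1 - pa (N1 ν) / 2 := by
  have hP := Pm_prob h
  have hν := h.prob
  have h1 := pr_D h 0
  have h2 := pr_blk_tt (ν := ν) 0
  have hsum := sum_pr (Pm ν) (measurable_blk 0)
  have h3 : pr (Pm ν) (Prod.fst ∘ blk 0) false = pr (Pm ν) (fun x : Seq => x 0) false := rfl
  have h4 : pr (Pm ν) (Prod.snd ∘ blk 0) false = pr (Pm ν) (fun x : Seq => x 1) false := rfl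
  have h5 : 2 * pa ν = pr (Pm ν) (fun x : Seq => x 0) false + pr (Pm ν) (fun x : Seq => x 1) false := by
    have hm := two_mul_measure h ((measurable_coord 0) (measurableSet_singleton false))
    have e : shift ⁻¹' ((fun x : Seq => x 0) ⁻¹' {false}) = (fun x : Seq => x 1) ⁻¹' {false} := by
      rw [← preimage_comp]
      rfl
    rw [e] at hm
    unfold pa pr
    rw [measureReal_def, measureReal_def, measureReal_def,
      ← ENNReal.toReal_add (measure_ne_top _ _) (measure_ne_top _ _), hm, ENNReal.toReal_mul]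
    simp
  rw [← h3, ← h4, pr_comp (Pm ν) (measurable_blk 0), pr_comp (Pm ν) (measurable_blk 0)] at h5
  rw [Nat.cast_zero] at h1
  rw [pr_comp (Pm ν) (measurable_blk 0)] at h1
  rw [Fintype.sum_prod_type] at h1 hsum
  rw [Fintype.sum_prod_type, Fintype.sum_prod_type] at h5
  simp only [Fintype.sum_bool] at h1 h5 hsum
  have d1 : decP (true, true) = false := rfl
  have d2 : decP (false, false) = true := rfl
  have d3 : decP (true, false) = false := rfl
  have d4 : decP (false, true) = false := rfl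
  rw [d1, d2, d3, d4, h2] at h1
  rw [h2] at h5 hsum
  norm_num at h1 h5 hsum
  linarith

theorem pa_eq {ν : Measure Seq} (h : IsInv ν) : pa ν = 2 / 3 := by
  have key : ∀ k : ℕ, ∀ ν : Measure Seq, IsInv ν → |pa ν - 2 / 3| ≤ (1 / 2 : ℝ) ^ k := by
    intro k
    induction k with
    | zero =>
      intro ν h
      have := h.prob
      have h1 : 0 ≤ pa ν := pr_nonneg _ _ _
      have h2 : pa ν ≤ 1 := pr_le_one _ _ _
      rw [pow_zero, abs_le]
      constructor <;> linarith
    | succ k ih =>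
      intro ν h
      have h1 := ih (N1 ν) (N1_inv h)
      have h2 := pa_rec h
      have e : pa ν - 2 / 3 = -(1 / 2) * (pa (N1 ν) - 2 / 3) := by rw [h2]; ring
      rw [e, abs_mul, pow_succ]
      have : |(-(1 / 2) : ℝ)| = 1 / 2 := by norm_num
      rw [this]
      linarith
  have hlim : Tendsto (fun k : ℕ => (1 / 2 : ℝ) ^ k) atTop (𝓝 0) :=
    tendsto_pow_atTop_nhds_zero_of_lt_one (by norm_num) (by norm_num)
  have h1 : |pa ν - 2 / 3| ≤ 0 := ge_of_tendsto' hlim (fun k => key k ν h)
  have h2 := abs_nonpos_iff.mp h1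
  linarith

end Pool.Agent.Helper42.RPD
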