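import Pool.Agent.Helper42.RPD4

open MeasureTheory Set Filter Topology
open scoped ENNReal

namespace Pool.Agent.Helper42.RPD

open Pool.Agent.Helper42.Ent

/-- entropy as an infimum -/
noncomputable def hh (ν : Measure Seq) : ℝ := sInf ((fun n : ℕ => H ν n / n) '' Ici 1)

theorem H_nonneg {ν : Measure Seq} (h : IsInv ν) (n : ℕ) : 0 ≤ H ν n := by
  have := h.prob
  exact ent_nonneg ν _

theorem bdd_H {ν : Measure Seq} (h : IsInv ν) : BddBelow (range fun n : ℕ => H ν n / n) := by
  refine ⟨0, ?_⟩
  rintro _ ⟨n, rfl⟩
  exact div_nonneg (H_nonneg h n) (Nat.cast_nonneg n)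

theorem hh_eq {ν : Measure Seq} (h : IsInv ν) :
    hh ν = (show Subadditive (H ν) from fun m n => H_subadd h m n).lim := by
  rw [Subadditive.lim]
  rfl

theorem tendsto_hh {ν : Measure Seq} (h : IsInv ν) :
    Tendsto (fun n : ℕ => H ν n / n) atTop (𝓝 (hh ν)) := by
  rw [hh_eq h]
  exact Subadditive.tendsto_lim _ (bdd_H h)

theorem hh_le {ν : Measure Seq} (h : IsInv ν) {n : ℕ} (hn : n ≠ 0) : hh ν ≤ H ν n / n := by
  rw [hh_eq h]
  exact Subadditive.lim_le_div _ (bdd_H h) hn

/-- the key inequality -/
theorem hh_main {ν : Measure Seq} (h : IsInv ν) {n : ℕ} (hn : n ≠ 0) :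
    hh ν ≤ hh (N1 ν) / 2 + (G ν n - H (N1 ν) n) / (2 * n) := by
  have hP := Pm_prob h
  have hn0 : (0 : ℝ) < n := by exact_mod_cast Nat.pos_of_ne_zero hn
  set d : ℝ := G ν n - H (N1 ν) n with hd
  have hk : ∀ k : ℕ, G ν ((k + 1) * n) - H (N1 ν) ((k + 1) * n) ≤ (k + 1) * d := by
    intro k
    induction k with
    | zero => simp [hd]
    | succ k ih =>
      have h1 := G_superadd h ((k + 1) * n) n
      have e : (k + 1) * n + n = (k + 1 + 1) * n := by ring
      rw [e] at h1
      push_cast at ih ⊢
      linarith
  set C : ℝ := G ν 1 / 2 + Real.log 2 with hC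
  have hb : ∀ k : ℕ, hh ν ≤ (H (N1 ν) ((k + 1) * n) / ((k + 1) * n : ℕ)) / 2 + d / (2 * n) +
      C / (2 * n) * (1 / ((k : ℝ) + 1)) := by
    intro k
    have h1 := hh_le h (n := 2 * ((k + 1) * n)) (by positivity)
    have h2 := H_le_G h ((k + 1) * n)
    have h3 := G_subadd h ((k + 1) * n)
    have h4 := hk k
    have hk0 : (0 : ℝ) < (k : ℝ) + 1 := by positivity
    refine h1.trans ?_
    have h5 : H ν (2 * ((k + 1) * n)) ≤ H (N1 ν) ((k + 1) * n) + (k + 1) * d + C := by
      rw [hC]; linarith
    push_cast
    calc H ν (2 * ((k + 1) * n)) / (2 * (((k : ℝ) + 1) * n))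
        ≤ (H (N1 ν) ((k + 1) * n) + (k + 1) * d + C) / (2 * (((k : ℝ) + 1) * n)) := by gcongr
      _ = _ := by field_simp
  have t1 : Tendsto (fun k : ℕ => H (N1 ν) ((k + 1) * n) / ((k + 1) * n : ℕ)) atTop (𝓝 (hh (N1 ν))) := by
    apply (tendsto_hh (N1_inv h)).comp
    apply tendsto_atTop_mono (f := fun k : ℕ => k) _ tendsto_id
    intro k
    have : 1 ≤ n := Nat.pos_of_ne_zero hn
    nlinarith
  have t2 : Tendsto (fun k : ℕ => 1 / ((k : ℝ) + 1)) atTop (𝓝 0) := tendsto_one_div_add_atTop_nhds_zero_nat
  have t3 := ((t1.div_const 2).add_const (d / (2 * n))).add (t2.const_mul (C / (2 * n)))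
  rw [mul_zero, add_zero] at t3
  exact ge_of_tendsto' t3 hb

theorem hh_step {ν : Measure Seq} (h : IsInv ν) : hh ν ≤ hh (N1 ν) / 2 + Real.log 2 / 3 := by
  have h1 := hh_main h (n := 1) one_ne_zero
  have h2 := G_le h 1
  rw [pa_eq (N1_inv h)] at h2
  push_cast at h1 h2
  linarith

theorem hh_le_one {ν : Measure Seq} (h : IsInv ν) : hh ν ≤ Real.log 2 := by
  have := h.prob
  have h1 := hh_le h (n := 1) one_ne_zero
  have h2 : H ν 1 ≤ Real.log (Fintype.card (Fin 1 → Bool)) := ent_le_log_card ν (measurable_win 0 1)
  simp at h2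
  simp at h1
  linarith

/-- upper bound for the entropy of every invariant measure -/
theorem hh_bound {ν : Measure Seq} (h : IsInv ν) : hh ν ≤ 2 / 3 * Real.log 2 := by
  have key : ∀ k : ℕ, ∀ ν : Measure Seq, IsInv ν →
      hh ν - 2 / 3 * Real.log 2 ≤ (1 / 2 : ℝ) ^ k * Real.log 2 := by
    intro k
    induction k with
    | zero =>
      intro ν h
      have := hh_le_one h
      have h2 : 0 < Real.log 2 := Real.log_pos (by norm_num)
      rw [pow_zero]
      linarith
    | succ k ih =>
      intro ν h
      have h1 := ih (N1 ν) (N1_inv h)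
      have h2 := hh_step h
      rw [pow_succ]
      linarith
  have hlim : Tendsto (fun k : ℕ => (1 / 2 : ℝ) ^ k * Real.log 2) atTop (𝓝 (0 * Real.log 2)) :=
    (tendsto_pow_atTop_nhds_zero_of_lt_one (by norm_num) (by norm_num)).mul_const _
  have h1 := ge_of_tendsto' hlim (fun k => key k ν h)
  linarith

/-- maximal measures -/
def Max (ν : Measure Seq) : Prop := IsInv ν ∧ hh ν = 2 / 3 * Real.log 2

theorem Max.N1_max {ν : Measure Seq} (h : Max ν) : Max (N1 ν) := by
  refine ⟨N1_inv h.1, ?_⟩
  have h1 := hh_step h.1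
  have h2 := hh_bound (N1_inv h.1)
  have h3 := h.2
  linarith

theorem Max.rr_eq {ν : Measure Seq} (h : Max ν) {n : ℕ} (hn : n ≠ 0) (z : Fin n → Bool × Bool) :
    pr (Pm ν) (Zw 0 n) z = rr ν n z := by
  have h1 := hh_main h.1 hn
  have h2 := hh_bound (N1_inv h.1)
  have h3 := h.2
  have hn0 : (0 : ℝ) < n := by exact_mod_cast Nat.pos_of_ne_zero hn
  apply G_eq h.1
  rw [pa_eq (N1_inv h.1)]
  have h4 : Real.log 2 / 3 ≤ (G ν n - H (N1 ν) n) / (2 * n) := by linarith
  rw [le_div_iff₀ (by positivity)] at h4
  linarith

/-- The distribution of words of length `L` in terms of the block distribution. -/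
theorem Max.formula {ν : Measure Seq} (h : Max ν) {L n : ℕ} (hn : n ≠ 0) (hL : L + 1 ≤ 2 * n)
    (w : Fin L → Bool) : 2 * pr ν (win 0 L) w =
      ∑ z, rr ν n z * (if rd 0 L n (by omega) z = w then 1 else 0) +
      ∑ z, rr ν n z * (if rd 1 L n (by omega) z = w then 1 else 0) := by
  have hP := Pm_prob h.1
  rw [two_mul_pr h.1]
  have h0 := rd_Zw 0 L n (by omega)
  have h1 := rd_Zw 1 L n (by omega)
  push_cast at h0 h1
  rw [← h0, ← h1, pr_comp (Pm ν) (measurable_Zw 0 n), pr_comp (Pm ν) (measurable_Zw 0 n)]
  congr 1 <;>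
  · apply Finset.sum_congr rfl
    intro z _
    rw [h.rr_eq hn]

/-- frequency of `bb` -/
noncomputable def pbb (ν : Measure Seq) : ℝ := pr ν (blk 0) (true, true)

theorem pr_blk_marg {ν : Measure Seq} (h : IsInv ν) :
    pr ν (blk 0) (false, false) = 1 / 3 + pbb ν ∧ pr ν (blk 0) (false, true) = 1 / 3 - pbb ν ∧
      pr ν (blk 0) (true, false) = 1 / 3 - pbb ν := by
  have hν := h.prob
  have h1 := pa_eq h
  have h2 : pr ν (Prod.fst ∘ blk 0) false = 2 / 3 := h1
  have h3 : pr ν (Prod.snd ∘ blk 0) false = 2 / 3 := by
    have := pa_coord h 1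
    rw [h1] at this
    exact this
  have hsum := sum_pr ν (measurable_blk 0)
  rw [pr_comp ν (measurable_blk 0)] at h2 h3
  rw [Fintype.sum_prod_type] at h2 h3 hsum
  simp only [Fintype.sum_bool] at h2 h3 hsum
  norm_num at h2 h3 hsum
  unfold pbb
  refine ⟨?_, ?_, ?_⟩ <;> linarith

theorem win_apply (i : ℤ) (n : ℕ) (x : Seq) (k : Fin n) : win i n x k = x (i + k) := rfl

theorem pr_win_two (ν : Measure Seq) (w : Fin 2 → Bool) : pr ν (win 0 2) w = pr ν (blk 0) (w 0, w 1) := by
  unfold pr
  congr 1
  ext x
  simp only [mem_preimage, mem_singleton_iff, blk, Prod.mk.injEq]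
  constructor
  · intro h
    have h0 := congrFun h 0
    have h1 := congrFun h 1
    rw [win_apply] at h0 h1
    exact ⟨h0, h1⟩
  · rintro ⟨h0, h1⟩
    funext k
    rw [win_apply]
    fin_cases k
    · exact h0
    · exact h1

theorem pbb_rec {ν : Measure Seq} (h : Max ν) : pbb ν = (1 / 3 + pbb (N1 ν)) / 8 := by
  have hP := Pm_prob h.1
  have h1 := two_mul_pr h.1 2 (fun _ => true)
  have e0 : pr (Pm ν) (win 0 2) (fun _ => true) = 0 := by
    rw [pr_win_two]
    exact pr_blk_tt 0
  have e1 : pr ν (win 0 2) (fun _ => true) = pbb ν := by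
    rw [pr_win_two]
    rfl
  rw [e0, e1, zero_add] at h1
  have h2 := rd_Zw 1 2 2 (by norm_num)
  push_cast at h2
  rw [← h2, pr_comp (Pm ν) (measurable_Zw 0 2)] at h1
  simp_rw [h.rr_eq two_ne_zero] at h1
  rw [Finset.sum_eq_single (![(false, true), (true, false)] : Fin 2 → Bool × Bool)] at h1
  · have e2 : rd 1 2 2 (by norm_num) (![(false, true), (true, false)] : Fin 2 → Bool × Bool) = fun _ => true := by
      funext k
      fin_cases k <;> rfl
    rw [if_pos e2, mul_one] at h1
    have e3 : rr ν 2 (![(false, true), (true, false)] : Fin 2 → Bool × Bool) =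
        pr (N1 ν) (blk 0) (false, false) * (1 / 4) := by
      unfold rr
      rw [pr_win_two, Fin.prod_univ_two]
      have g1 : gw (true, false) = 1 / 2 := by simp [gw, decP, dec]
      have g2 : gw (false, true) = 1 / 2 := by simp [gw, decP, dec]
      simp only [Matrix.cons_val_zero, Matrix.cons_val_one, g1, g2]
      have g3 : decW 2 ![(false, true), (true, false)] 0 = false := rfl
      have g4 : decW 2 ![(false, true), (true, false)] 1 = false := rfl
      rw [g3, g4]
      norm_num
    rw [e3, (pr_blk_marg (N1_inv h.1)).1] at h1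
    linarith
  · intro z _ hz
    by_cases hc : rd 1 2 2 (by norm_num) z = fun _ => true
    · have c0 := congrFun hc 0
      have c1 := congrFun hc 1
      have c0' : (z 0).2 = true := c0
      have c1' : (z 1).1 = true := c1
      -- one of the two blocks is `bb`
      have : gw (z 0) = 0 ∨ gw (z 1) = 0 := by
        by_contra hcon
        push Not at hcon
        obtain ⟨k0, k1⟩ := hcon
        apply hz
        have d0 : (z 0).1 = false := by
          by_contra hne
          rw [Bool.not_eq_false] at hne
          exact k0 (by simp [gw, hne, c0'])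
        have d1 : (z 1).2 = false := by
          by_contra hne
          rw [Bool.not_eq_false] at hne
          exact k1 (by simp [gw, hne, c1'])
        funext k
        fin_cases k
        · exact Prod.ext d0 c0'
        · exact Prod.ext c1' d1
      have : rr ν 2 z = 0 := by
        unfold rr
        rw [Fin.prod_univ_two]
        rcases this with h | h <;> rw [h] <;> ring
      rw [this, zero_mul]
    · rw [if_neg hc, mul_zero]
  · intro hc
    exact absurd (Finset.mem_univ _) hc

theorem pbb_eq {ν : Measure Seq} (h : Max ν) : pbb ν = 1 / 21 := by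
  have key : ∀ k : ℕ, ∀ ν : Measure Seq, Max ν → |pbb ν - 1 / 21| ≤ (1 / 8 : ℝ) ^ k := by
    intro k
    induction k with
    | zero =>
      intro ν h
      have := h.1.prob
      have h1 : 0 ≤ pbb ν := pr_nonneg _ _ _
      have h2 : pbb ν ≤ 1 := pr_le_one _ _ _
      rw [pow_zero, abs_le]
      constructor <;> linarith
    | succ k ih =>
      intro ν h
      have h1 := ih (N1 ν) h.N1_max
      have h2 := pbb_rec h
      have e : pbb ν - 1 / 21 = (1 / 8) * (pbb (N1 ν) - 1 / 21) := by rw [h2]; ring
      rw [e, abs_mul, pow_succ]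
      have : |(1 / 8 : ℝ)| = 1 / 8 := by norm_num
      rw [this]
      linarith
  have hlim : Tendsto (fun k : ℕ => (1 / 8 : ℝ) ^ k) atTop (𝓝 0) :=
    tendsto_pow_atTop_nhds_zero_of_lt_one (by norm_num) (by norm_num)
  have h1 : |pbb ν - 1 / 21| ≤ 0 := ge_of_tendsto' hlim (fun k => key k ν h)
  have h2 := abs_nonpos_iff.mp h1
  linarith

theorem words_unique (L : ℕ) : ∀ ν ν' : Measure Seq, Max ν → Max ν' → ∀ w : Fin L → Bool,
    pr ν (win 0 L) w = pr ν' (win 0 L) w := by
  induction L using Nat.strong_induction_on with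
  | _ L ih =>
    intro ν ν' h h' w
    rcases Nat.lt_or_ge L 3 with hL | hL
    · interval_cases L
      · have h1 := h.1.prob
        have h2 := h'.1.prob
        have s1 := sum_pr ν (measurable_win 0 0)
        have s2 := sum_pr ν' (measurable_win 0 0)
        rw [Fintype.sum_subsingleton _ w] at s1 s2
        rw [s1, s2]
      · -- L = 1
        have h1 := h.1.prob
        have h2 := h'.1.prob
        have key : ∀ ν : Measure Seq, IsInv ν → pr ν (win 0 1) w = if w 0 = false then 2 / 3 else 1 / 3 := by
          intro ν hν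
          have := hν.prob
          have e1 : ∀ c, pr ν (win 0 1) (fun _ => c) = pr ν (fun x : Seq => x 0) c := by
            intro c
            unfold pr
            congr 1
            ext x
            simp only [mem_preimage, mem_singleton_iff]
            constructor
            · intro h
              have := congrFun h 0
              exact this
            · intro h
              funext k
              fin_cases k
              exact h
          have e2 : w = fun _ => w 0 := by
            funext k
            fin_cases k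
            rfl
          have s := sum_pr ν (measurable_coord 0)
          rw [Fintype.sum_bool] at s
          have hp : pr ν (fun x : Seq => x 0) false = 2 / 3 := pa_eq hν
          rw [e2, e1]
          cases hc : w 0
          · simpa using hp
          · simp only [Bool.true_eq_false, if_false]
            linarith
        rw [key ν h.1, key ν' h'.1]
      · -- L = 2
        rw [pr_win_two, pr_win_two]
        have m := pr_blk_marg h.1
        have m' := pr_blk_marg h'.1
        rw [pbb_eq h] at m
        rw [pbb_eq h'] at m'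
        have b := pbb_eq h
        have b' := pbb_eq h'
        unfold pbb at b b'
        cases hc : w 0 <;> cases hd : w 1
        · rw [m.1, m'.1]
        · rw [m.2.1, m'.2.1]
        · rw [m.2.2, m'.2.2]
        · rw [b, b']
    · -- recursion
      set n := (L + 2) / 2 with hn
      have hn0 : n ≠ 0 := by omega
      have hL2 : L + 1 ≤ 2 * n := by omega
      have hnL : n < L := by omega
      have f := h.formula hn0 hL2 w
      have f' := h'.formula hn0 hL2 w
      have hrr : ∀ z, rr ν n z = rr ν' n z := by
        intro z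
        unfold rr
        rw [ih n hnL _ _ h.N1_max h'.N1_max]
      simp_rw [hrr] at f
      linarith

/-- invariant measures with the same word frequencies coincide -/
theorem ext_of_words {ν ν' : Measure Seq} (h : IsProbabilityMeasure ν) (h' : IsProbabilityMeasure ν')
    (hw : ∀ (i : ℤ) (n : ℕ) (w : Fin n → Bool), pr ν (win i n) w = pr ν' (win i n) w) : ν = ν' := by
  have hmap : ∀ (i : ℤ) (n : ℕ), ν.map (win i n) = ν'.map (win i n) := by
    intro i n
    apply Measure.ext_of_singleton
    intro w
    rw [Measure.map_apply (measurable_win i n) (measurableSet_singleton w),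
      Measure.map_apply (measurable_win i n) (measurableSet_singleton w)]
    have := hw i n w
    unfold pr at this
    rw [measureReal_def, measureReal_def,
      ENNReal.toReal_eq_toReal_iff' (measure_ne_top _ _) (measure_ne_top _ _)] at this
    exact this
  have hproj : ∀ J : Finset ℤ, ν.map J.restrict = ν'.map J.restrict := by
    intro J
    -- choose a window containing J
    obtain ⟨N, hN⟩ : ∃ N : ℕ, ∀ j ∈ J, -(N : ℤ) ≤ j ∧ j < N := by
      refine ⟨(J.sup Int.natAbs) + 1, fun j hj => ?_⟩
      have := Finset.le_sup (f := Int.natAbs) hj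
      push_cast
      omega
    let f : (Fin (2 * N) → Bool) → (∀ j : J, Bool) := fun u j =>
      u ⟨((j : ℤ) + N).toNat, by
        have := hN j j.2
        omega⟩
    have e : J.restrict = f ∘ win (-(N : ℤ)) (2 * N) := by
      ext x j
      simp only [Finset.restrict, Function.comp_apply, f, win]
      congr 1
      have := hN j j.2
      rw [Int.toNat_of_nonneg (by omega)]
      ring
    have hf : Measurable f := measurable_of_countable f
    rw [e, ← Measure.map_map hf (measurable_win _ _), ← Measure.map_map hf (measurable_win _ _), hmap]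
  have hl : IsProjectiveLimit ν (fun J => ν.map J.restrict) := fun J => rfl
  have hl' : IsProjectiveLimit ν' (fun J => ν.map J.restrict) := fun J => (hproj J).symm
  exact hl.unique hl'

/-- **Uniqueness of the measure of maximal entropy.** -/
theorem Max.unique {ν ν' : Measure Seq} (h : Max ν) (h' : Max ν') : ν = ν' := by
  have hinv : ∀ {ν : Measure Seq}, IsInv ν → ∀ (i : ℤ) (n : ℕ) (w : Fin n → Bool),
      pr ν (win i n) w = pr ν (win 0 n) w := by
    intro ν hν i n w
    rcases Int.eq_nat_or_neg i with ⟨m, rfl | rfl⟩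
    · exact hν.pr_win m n w
    · have h1 := pr_mp (hν.inv.iterate m) (measurable_win (-(m : ℤ)) n) w
      rw [win_iterate, neg_add_cancel] at h1
      exact h1.symm
  apply ext_of_words h.1.prob h'.1.prob
  intro i n w
  rw [hinv h.1, hinv h'.1]
  exact words_unique n ν ν' h h' w

end Pool.Agent.Helper42.RPD
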