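import Pool.Agent.Helper42.RPD5

open MeasureTheory Set Filter Topology
open scoped ENNReal

namespace Pool.Agent.Helper42.RPD

open Pool.Agent.Helper42.Ent

/-- Random image of a letter: `a` goes to `ab` or `ba` with probability `1/2` each, `b` to `aa`. -/
noncomputable def randLetter : Bool → PMF (List Bool)
  | false => (PMF.uniformOfFintype Bool).map fun c => if c then [false, true] else [true, false]
  | true => PMF.pure [false, false]

/-- Random image of a word, with independent choices at each letter. -/
noncomputable def randWord : List Bool → PMF (List Bool)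
  | [] => PMF.pure []
  | c :: w => (randLetter c).bind fun x => (randWord w).map fun y => x ++ y

/-- The law of the random word `ϑ_{1/2}^n(a)`. -/
noncomputable def randIter : ℕ → PMF (List Bool)
  | 0 => PMF.pure [false]
  | n + 1 => (randIter n).bind randWord

theorem randLetter_false (x : List Bool) : randLetter false x =
    (if x = [false, true] then 2⁻¹ else 0) + (if x = [true, false] then 2⁻¹ else 0) := by
  unfold randLetter
  rw [PMF.map_apply, tsum_fintype, Fintype.sum_bool]
  simp only [PMF.uniformOfFintype_apply, Fintype.card_bool]
  norm_num

theorem randLetter_true (x : List Bool) : randLetter true x = if x = [false, false] then 1 else 0 := by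
  unfold randLetter
  rw [PMF.pure_apply]
  split_ifs <;> rfl

theorem randWord_cons (c : Bool) (w v : List Bool) (p q : Bool) :
    randWord (c :: w) (p :: q :: v) = randLetter c [p, q] * randWord w v := by
  rw [randWord, PMF.bind_apply, tsum_eq_single [p, q]]
  · congr 1
    rw [PMF.map_apply, tsum_eq_single v]
    · simp
    · intro v' hv'
      rw [if_neg]
      intro h
      simp only [List.cons_append, List.nil_append, List.cons.injEq, true_and] at h
      exact hv' h.symm
  · intro x hx
    by_cases h0 : randLetter c x = 0
    · rw [h0, zero_mul]
    · -- x has length two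
      have hx2 : ∃ p' q', x = [p', q'] := by
        cases c
        · rw [randLetter_false] at h0
          by_cases h1 : x = [false, true]
          · exact ⟨_, _, h1⟩
          · by_cases h2 : x = [true, false]
            · exact ⟨_, _, h2⟩
            · rw [if_neg h1, if_neg h2] at h0
              simp at h0
        · rw [randLetter_true] at h0
          by_cases h1 : x = [false, false]
          · exact ⟨_, _, h1⟩
          · rw [if_neg h1] at h0
            simp at h0
      obtain ⟨p', q', rfl⟩ := hx2
      have : (PMF.map (fun y => [p', q'] ++ y) (randWord w)) (p :: q :: v) = 0 := by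
        rw [PMF.map_apply]
        refine ENNReal.tsum_eq_zero.mpr (fun y => ?_)
        rw [if_neg]
        intro h
        simp only [List.cons_append, List.nil_append, List.cons.injEq] at h
        exact hx (by rw [h.1, h.2.1])
      rw [this, mul_zero]

theorem randWord_cons_short (c : Bool) (w v : List Bool) (hv : v.length < 2) :
    randWord (c :: w) v = 0 := by
  rw [randWord, PMF.bind_apply]
  refine ENNReal.tsum_eq_zero.mpr (fun x => ?_)
  by_cases h0 : randLetter c x = 0
  · rw [h0, zero_mul]
  · have hx2 : x.length = 2 := by
      cases c
      · rw [randLetter_false] at h0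
        by_cases h1 : x = [false, true]
        · rw [h1]; rfl
        · by_cases h2 : x = [true, false]
          · rw [h2]; rfl
          · rw [if_neg h1, if_neg h2] at h0
            simp at h0
      · rw [randLetter_true] at h0
        by_cases h1 : x = [false, false]
        · rw [h1]; rfl
        · rw [if_neg h1] at h0
          simp at h0
    have : (PMF.map (fun y => x ++ y) (randWord w)) v = 0 := by
      rw [PMF.map_apply]
      refine ENNReal.tsum_eq_zero.mpr (fun y => ?_)
      rw [if_neg]
      intro h
      rw [h, List.length_append] at hv
      omega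
    rw [this, mul_zero]

/-- support and upper bound for the random image of a word -/
theorem randWord_le (u : List Bool) : ∀ v : List Bool,
    (randWord u v ≠ 0 → v ∈ thetaWord u) ∧ randWord u v ≤ 2⁻¹ ^ (u.count false) := by
  induction u with
  | nil =>
    intro v
    constructor
    · intro h
      rw [randWord, PMF.pure_apply] at h
      by_cases hv : v = []
      · subst hv; exact rfl
      · rw [if_neg hv] at h
        simp at h
    · simp only [List.count_nil, pow_zero]
      exact PMF.coe_le_one _ _
  | cons c w ih =>
    intro v
    match v with
    | [] => rw [randWord_cons_short c w [] (by simp)]; simp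
    | [d] => rw [randWord_cons_short c w [d] (by simp)]; simp
    | p :: q :: v' =>
      rw [randWord_cons]
      obtain ⟨h1, h2⟩ := ih v'
      have hl : (randLetter c [p, q] ≠ 0 → [p, q] ∈ theta c) ∧
          randLetter c [p, q] ≤ 2⁻¹ ^ (List.count false [c]) := by
        cases c
        · rw [randLetter_false]
          cases p <;> cases q <;> simp [theta]
        · rw [randLetter_true]
          cases p <;> cases q <;> simp [theta]
      constructor
      · intro h
        have ha : randLetter c [p, q] ≠ 0 := left_ne_zero_of_mul h
        have hb : randWord w v' ≠ 0 := right_ne_zero_of_mul h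
        exact ⟨[p, q], hl.1 ha, v', h1 hb, rfl⟩
      · have e : List.count false (c :: w) = List.count false [c] + List.count false w := by
          rw [show c :: w = [c] ++ w from rfl, List.count_append]
        rw [e, pow_add]
        exact mul_le_mul' hl.2 h2

/-- numbers of letters `a`, `b` in `ϑ^n(a)` -/
def cab : ℕ → ℕ × ℕ
  | 0 => (1, 0)
  | n + 1 => ((cab n).1 + 2 * (cab n).2, (cab n).1)

/-- exponent of the probability -/
def AA : ℕ → ℕ
  | 0 => 0
  | n + 1 => AA n + (cab n).1

theorem cab_eq (n : ℕ) : (3 * (cab n).1 : ℤ) = 2 ^ (n + 1) + (-1) ^ n ∧
    (3 * (cab n).2 : ℤ) = 2 ^ n - (-1) ^ n := by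
  induction n with
  | zero => simp [cab]
  | succ n ih =>
    obtain ⟨h1, h2⟩ := ih
    simp only [cab]
    push_cast
    constructor
    · rw [pow_succ 2 (n + 1), pow_succ (-1 : ℤ) n]
      rw [pow_succ] at h1 ⊢
      linarith
    · rw [h1, pow_succ (-1 : ℤ) n]
      ring

theorem AA_eq (n : ℕ) : (6 * AA n : ℤ) = 2 ^ (n + 2) - 3 - (-1) ^ n := by
  induction n with
  | zero => simp [AA]
  | succ n ih =>
    have h1 := (cab_eq n).1
    simp only [AA]
    push_cast
    rw [pow_succ (-1 : ℤ) n, show (2 : ℤ) ^ (n + 1 + 2) = 2 * 2 ^ (n + 2) by ring]
    have e : (2 : ℤ) ^ (n + 2) = 2 * 2 ^ (n + 1) := by ring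
    rw [e] at ih ⊢
    linarith

theorem count_thetaWord (u v : List Bool) (h : v ∈ thetaWord u) :
    v.count false = u.count false + 2 * u.count true ∧ v.count true = u.count false := by
  induction u generalizing v with
  | nil =>
    have h' : v = [] := h
    subst h'
    simp
  | cons c u ih =>
    obtain ⟨x, hx, y, hy, rfl⟩ := h
    obtain ⟨h1, h2⟩ := ih y hy
    rw [List.count_append, List.count_append, h1, h2]
    cases c
    · rcases hx with hx | hx
      · rw [hx]; simp; omega
      · have hx' : x = [true, false] := hx
        rw [hx']; simp; omega
    · have hx' : x = [false, false] := hx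
      rw [hx']; simp; omega

theorem randIter_support (n : ℕ) (v : List Bool) (h : randIter n v ≠ 0) :
    v ∈ thetaIter n [false] ∧ v.count false = (cab n).1 ∧ v.count true = (cab n).2 := by
  induction n generalizing v with
  | zero =>
    rw [randIter, PMF.pure_apply] at h
    by_cases hv : v = [false]
    · subst hv
      exact ⟨rfl, rfl, rfl⟩
    · rw [if_neg hv] at h
      simp at h
  | succ n ih =>
    rw [randIter, PMF.bind_apply] at h
    have : ∃ u, randIter n u * randWord u v ≠ 0 := by
      by_contra hcon
      push Not at hcon
      exact h (ENNReal.tsum_eq_zero.mpr hcon)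
    obtain ⟨u, hu⟩ := this
    obtain ⟨h1, h2, h3⟩ := ih u (left_ne_zero_of_mul hu)
    have h4 := (randWord_le u v).1 (right_ne_zero_of_mul hu)
    obtain ⟨h5, h6⟩ := count_thetaWord u v h4
    refine ⟨⟨u, h1, h4⟩, ?_, ?_⟩
    · rw [h5, h2, h3]; rfl
    · rw [h6, h2]; rfl

theorem randIter_length (n : ℕ) (v : List Bool) (h : randIter n v ≠ 0) : v.length = 2 ^ n := by
  have := thetaIter_length n [false] v (randIter_support n v h).1
  simpa using this

theorem randIter_le (n : ℕ) (v : List Bool) : randIter n v ≤ 2⁻¹ ^ (AA n) := by
  induction n generalizing v with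
  | zero =>
    simp only [AA, pow_zero]
    exact PMF.coe_le_one _ _
  | succ n ih =>
    rw [randIter, PMF.bind_apply, tsum_eq_single (decL v)]
    · by_cases h : randIter n (decL v) = 0
      · rw [h, zero_mul]; exact bot_le
      · have h1 := (randWord_le (decL v) v).2
        rw [(randIter_support n _ h).2.1] at h1
        rw [AA, pow_add]
        exact mul_le_mul' (ih _) h1
    · intro u hu
      by_cases h : randWord u v = 0
      · rw [h, mul_zero]
      · exfalso
        have h1 := (mem_thetaWord_iff u v).mp ((randWord_le u v).1 h)
        exact hu h1.2.2.symm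

end Pool.Agent.Helper42.RPD
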