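import Pool.Agent.Helper42.RPD6

open MeasureTheory Set Filter Topology
open scoped ENNReal

namespace Pool.Agent.Helper42.RPD

open Pool.Agent.Helper42.Ent

/-- padding of a word to a bi-infinite sequence -/
def pad (w : List Bool) : Seq := fun i => if 0 ≤ i then w.getD i.toNat false else false

/-- Hypotheses on a sequence of laws of random words: absolutely continuous with respect to the
law of the random substitution words, with a density that grows slowly. -/
structure Good (q : ℕ → PMF (List Bool)) : Prop where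
  supp : ∀ n v, q n v ≠ 0 → randIter n v ≠ 0
  bound : ∀ n v, q n v ≤ ((n : ℝ≥0∞) + 1) ^ 2 * 2⁻¹ ^ (AA n)

theorem good_randIter : Good randIter := by
  refine ⟨fun n v h => h, fun n v => (randIter_le n v).trans ?_⟩
  have h1 : (1 : ℝ≥0∞) ≤ ((n : ℝ≥0∞) + 1) ^ 2 := one_le_pow₀ (by simp)
  calc (2⁻¹ : ℝ≥0∞) ^ AA n = 1 * 2⁻¹ ^ AA n := (one_mul _).symm
    _ ≤ _ := by gcongr

section general_law

variable (q : ℕ → PMF (List Bool))

/-- law of the padded random word -/
noncomputable def Pb (n : ℕ) : Measure Seq := ((q n).map pad).toMeasure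

instance (n : ℕ) : IsProbabilityMeasure (Pb q n) := by unfold Pb; infer_instance

theorem Pb_apply (n : ℕ) {E : Set Seq} (hE : MeasurableSet E) :
    Pb q n E = ∑' v, (pad ⁻¹' E).indicator (q n) v := by
  unfold Pb
  rw [PMF.toMeasure_apply_eq_toOuterMeasure_apply _ hE, PMF.toOuterMeasure_map_apply,
    PMF.toOuterMeasure_apply]

theorem Pb_zero (n : ℕ) {E : Set Seq} (hE : MeasurableSet E)
    (h : ∀ v, q n v ≠ 0 → pad v ∉ E) : Pb q n E = 0 := by
  rw [Pb_apply q n hE]
  refine ENNReal.tsum_eq_zero.mpr (fun v => ?_)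
  by_cases hv : q n v = 0
  · unfold Set.indicator
    split_ifs
    · exact hv
    · rfl
  · rw [Set.indicator_of_notMem]
    exact h v hv

theorem pad_nat (w : List Bool) (k : ℕ) : pad w k = w.getD k false := by
  simp [pad]

theorem word_pad (v : List Bool) : List.ofFn (win 0 v.length (pad v)) = v := by
  apply List.ext_getElem
  · simp
  · intro i h1 h2
    rw [List.getElem_ofFn, win_apply, zero_add, pad_nat]
    rw [List.getD_eq_getElem _ _ h2]

variable {q} in
theorem pr_Pb_le (hq : Good q) (n : ℕ) (w : Fin (2 ^ n) → Bool) :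
    pr (Pb q n) (win 0 (2 ^ n)) w ≤ ((n : ℝ) + 1) ^ 2 * (1 / 2 : ℝ) ^ (AA n) := by
  have h : Pb q n (win 0 (2 ^ n) ⁻¹' {w}) ≤ ((n : ℝ≥0∞) + 1) ^ 2 * 2⁻¹ ^ (AA n) := by
    rw [Pb_apply q n ((measurable_win 0 (2 ^ n)) (measurableSet_singleton w)),
      tsum_eq_single (List.ofFn w)]
    · exact (Set.indicator_le_self _ _ _).trans (hq.bound n _)
    · intro v hv
      by_cases h0 : q n v = 0
      · unfold Set.indicator
        split_ifs
        · exact h0
        · rfl
      · apply Set.indicator_of_notMem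
        intro hmem
        apply hv
        have hl := randIter_length n v (hq.supp n v h0)
        have h1 : win 0 (2 ^ n) (pad v) = w := hmem
        rw [← h1]
        have h2 := word_pad v
        rw [hl] at h2
        exact h2.symm
  unfold pr
  rw [measureReal_def]
  have h2 : (((n : ℝ≥0∞) + 1) ^ 2 * (2⁻¹ : ℝ≥0∞) ^ (AA n)).toReal =
      ((n : ℝ) + 1) ^ 2 * (1 / 2 : ℝ) ^ (AA n) := by
    rw [ENNReal.toReal_mul, ENNReal.toReal_pow, ENNReal.toReal_pow, ENNReal.toReal_inv,
      ENNReal.toReal_add (by simp) (by simp)]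
    norm_num
  rw [← h2]
  refine ENNReal.toReal_mono (ENNReal.mul_ne_top ?_ ?_) h
  · exact ENNReal.pow_ne_top (by simp)
  · exact ENNReal.pow_ne_top (by norm_num)

theorem ent_ge {E : Type*} [MeasurableSpace E] {α : Type*} [Fintype α] [MeasurableSpace α]
    [MeasurableSingletonClass α] (P : Measure E) [IsProbabilityMeasure P] {X : E → α}
    (hX : Measurable X) {c : ℝ} (hc : 0 < c) (h : ∀ s, pr P X s ≤ c) : - Real.log c ≤ ent P X := by
  rw [ent_eq]
  apply neg_le_neg
  calc ∑ s, pr P X s * Real.log (pr P X s) ≤ ∑ s, pr P X s * Real.log c := by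
        apply Finset.sum_le_sum
        intro s _
        rcases (pr_nonneg P X s).eq_or_lt with h0 | h0
        · rw [← h0]; simp
        · gcongr
          exact h s
    _ = Real.log c := by rw [← Finset.sum_mul, sum_pr P hX, one_mul]

variable {q} in
theorem ent_Pb_ge (hq : Good q) (n : ℕ) :
    AA n * Real.log 2 - 2 * n ≤ ent (Pb q n) (win 0 (2 ^ n)) := by
  have h := ent_ge (Pb q n) (measurable_win 0 (2 ^ n))
    (c := ((n : ℝ) + 1) ^ 2 * (1 / 2 : ℝ) ^ (AA n)) (by positivity) (pr_Pb_le hq n)
  rw [Real.log_mul (by positivity) (by positivity), Real.log_pow, Real.log_pow, one_div,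
    Real.log_inv] at h
  have h2 : Real.log ((n : ℝ) + 1) ≤ n := by
    have := Real.log_le_sub_one_of_pos (show (0 : ℝ) < (n : ℝ) + 1 by positivity)
    linarith
  push_cast at h
  linarith

theorem ent_win_add (P : Measure Seq) [IsProbabilityMeasure P] (i : ℤ) (n m : ℕ) :
    ent P (win i (n + m)) ≤ ent P (win i n) + ent P (win (i + n) m) := by
  let f : (Fin n → Bool) × (Fin m → Bool) → (Fin (n + m) → Bool) := fun p => Fin.append p.1 p.2
  have e : f ∘ (fun x => (win i n x, win (i + n) m x)) = win i (n + m) := by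
    funext x
    funext k
    simp only [Function.comp_apply, f]
    refine Fin.addCases (fun j => ?_) (fun j => ?_) k
    · rw [Fin.append_left]; rfl
    · rw [Fin.append_right, win_apply, win_apply]
      congr 1
      simp only [Fin.natAdd]
      push_cast; ring
  calc ent P (win i (n + m)) = ent P (f ∘ (fun x => (win i n x, win (i + n) m x))) := by rw [e]
    _ ≤ ent P (fun x => (win i n x, win (i + n) m x)) :=
        ent_comp_le P ((measurable_win i n).prodMk (measurable_win (i + n) m)) f
    _ ≤ _ := ent_pair_le P (measurable_win i n) (measurable_win (i + n) m)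

theorem ent_win_mono (P : Measure Seq) [IsProbabilityMeasure P] (i : ℤ) (n m : ℕ) :
    ent P (win i n) ≤ ent P (win i (n + m)) := by
  let f : (Fin (n + m) → Bool) → (Fin n → Bool) := fun p k => p (Fin.castAdd m k)
  have e : f ∘ win i (n + m) = win i n := rfl
  rw [← e]
  exact ent_comp_le P (measurable_win i (n + m)) f

theorem ent_win_le (P : Measure Seq) [IsProbabilityMeasure P] (i : ℤ) (n : ℕ) :
    ent P (win i n) ≤ n * Real.log 2 := by
  have := ent_le_log_card P (measurable_win i n)
  simpa using this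

theorem telescope_sum (g : ℕ → ℝ) (N m : ℕ) :
    ∑ i ∈ Finset.range N, (g (i + m) - g i) = ∑ k ∈ Finset.range m, (g (N + k) - g k) := by
  induction m with
  | zero => simp
  | succ m ih =>
    rw [Finset.sum_range_succ, ← ih]
    have h : ∑ i ∈ Finset.range N, (g (i + (m + 1)) - g (i + m)) = g (N + m) - g m := by
      have := Finset.sum_range_sub (fun i => g (i + m)) N
      simp only [zero_add] at this
      rw [← this]
      apply Finset.sum_congr rfl
      intro i _
      congr 2
      ring
    rw [← h, ← Finset.sum_add_distrib]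
    apply Finset.sum_congr rfl
    intro i _
    ring

theorem sum_ent_ge (P : Measure Seq) [IsProbabilityMeasure P] (N m : ℕ) :
    m * ent P (win 0 N) - m * (m * Real.log 2) ≤ ∑ i ∈ Finset.range N, ent P (win i m) := by
  have hlog : 0 < Real.log 2 := Real.log_pos (by norm_num)
  let g : ℕ → ℝ := fun i => ent P (win 0 i)
  have h1 : ∀ i : ℕ, g (i + m) - g i ≤ ent P (win i m) := by
    intro i
    have := ent_win_add P 0 i m
    rw [zero_add] at this
    simp only [g]
    linarith
  have h2 : ∑ k ∈ Finset.range m, (g (N + k) - g k) ≥ ∑ k ∈ Finset.range m, (g N - m * Real.log 2) := by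
    apply Finset.sum_le_sum
    intro k hk
    rw [Finset.mem_range] at hk
    have e1 : g N ≤ g (N + k) := ent_win_mono P 0 N k
    have e2 : g k ≤ k * Real.log 2 := ent_win_le P 0 k
    have e3 : (k : ℝ) * Real.log 2 ≤ m * Real.log 2 := by
      have : (k : ℝ) ≤ m := by exact_mod_cast hk.le
      gcongr
    linarith
  rw [Finset.sum_const, Finset.card_range, nsmul_eq_mul] at h2
  calc m * ent P (win 0 N) - m * (m * Real.log 2) = m * (g N - m * Real.log 2) := by ring
    _ ≤ ∑ k ∈ Finset.range m, (g (N + k) - g k) := h2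
    _ = ∑ i ∈ Finset.range N, (g (i + m) - g i) := (telescope_sum g N m).symm
    _ ≤ _ := Finset.sum_le_sum (fun i _ => h1 i)

/-- empirical measures -/
noncomputable def emp (n : ℕ) : Measure Seq :=
  ((2 : ℝ≥0∞) ^ n)⁻¹ • ∑ j ∈ Finset.range (2 ^ n), (Pb q n).map (shift^[j])

theorem measurable_iter (j : ℕ) : Measurable (shift^[j]) := measurable_shift.iterate j

instance (n : ℕ) : IsProbabilityMeasure (emp q n) := by
  constructor
  unfold emp
  rw [Measure.smul_apply, Measure.finsetSum_apply]
  have : ∀ j ∈ Finset.range (2 ^ n), ((Pb q n).map (shift^[j])) univ = 1 := by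
    intro j _
    rw [Measure.map_apply (measurable_iter j) MeasurableSet.univ]
    simp
  rw [Finset.sum_congr rfl this, Finset.sum_const, Finset.card_range, smul_eq_mul, nsmul_eq_mul,
    mul_one]
  push_cast
  exact ENNReal.inv_mul_cancel (by positivity) (ENNReal.pow_ne_top (by norm_num))

theorem pr_emp (n : ℕ) (i : ℤ) (m : ℕ) (w : Fin m → Bool) :
    pr (emp q n) (win i m) w = (1 / 2 ^ n) * ∑ j ∈ Finset.range (2 ^ n), pr (Pb q n) (win (i + j) m) w := by
  have hm := (measurable_win i m) (measurableSet_singleton w)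
  unfold pr emp
  rw [measureReal_def, Measure.smul_apply, Measure.finsetSum_apply, smul_eq_mul, ENNReal.toReal_mul,
    ENNReal.toReal_sum]
  · congr 1
    · rw [ENNReal.toReal_inv, ENNReal.toReal_pow]
      norm_num
    · apply Finset.sum_congr rfl
      intro j _
      rw [Measure.map_apply (measurable_iter j) hm, ← preimage_comp, win_iterate]
      rfl
  · intro j _
    exact measure_ne_top _ _

variable {q} in
theorem ent_emp_ge (hq : Good q) (n m : ℕ) :
    m * (AA n / 2 ^ n) * Real.log 2 - 2 * m * (n * (1 / 2) ^ n) - m * (m * Real.log 2) * (1 / 2) ^ n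
      ≤ H (emp q n) m := by
  have h1 : (1 / 2 ^ n : ℝ) * ∑ j ∈ Finset.range (2 ^ n), ent (Pb q n) (win j m) ≤ H (emp q n) m := by
    unfold H
    have hterm : ∀ w : Fin m → Bool, (1 / 2 ^ n : ℝ) * ∑ j ∈ Finset.range (2 ^ n),
        Real.negMulLog (pr (Pb q n) (win j m) w) ≤ Real.negMulLog (pr (emp q n) (win 0 m) w) := by
      intro w
      have hc := Real.concaveOn_negMulLog.le_map_sum (t := Finset.range (2 ^ n))
        (w := fun _ => (1 / 2 ^ n : ℝ)) (p := fun j : ℕ => pr (Pb q n) (win j m) w)
        (fun _ _ => by positivity) (by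
          rw [Finset.sum_const, Finset.card_range, nsmul_eq_mul]
          push_cast
          field_simp) (fun j _ => pr_nonneg _ _ _)
      rw [pr_emp]
      simp only [smul_eq_mul, ← Finset.mul_sum, zero_add] at hc ⊢
      exact hc
    calc (1 / 2 ^ n : ℝ) * ∑ j ∈ Finset.range (2 ^ n), ent (Pb q n) (win j m)
        = ∑ w : Fin m → Bool, (1 / 2 ^ n : ℝ) * ∑ j ∈ Finset.range (2 ^ n),
            Real.negMulLog (pr (Pb q n) (win j m) w) := by
          rw [← Finset.mul_sum, Finset.sum_comm]
          rfl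
      _ ≤ _ := Finset.sum_le_sum (fun w _ => hterm w)
  refine le_trans ?_ h1
  have h2 := sum_ent_ge (Pb q n) (2 ^ n) m
  have h3 := ent_Pb_ge hq n
  have h4 : (m : ℝ) * (AA n * Real.log 2 - 2 * n) ≤ m * ent (Pb q n) (win 0 (2 ^ n)) := by gcongr
  calc (m : ℝ) * (AA n / 2 ^ n) * Real.log 2 - 2 * m * (n * (1 / 2) ^ n) -
        m * (m * Real.log 2) * (1 / 2) ^ n
      = (1 / 2 ^ n) * (m * (AA n * Real.log 2 - 2 * n) - m * (m * Real.log 2)) := by
        rw [one_div_pow]; ring
    _ ≤ (1 / 2 ^ n) * ∑ j ∈ Finset.range (2 ^ n), ent (Pb q n) (win j m) := by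
      gcongr
      linarith

end general_law

theorem AA_tendsto : Tendsto (fun n : ℕ => (AA n : ℝ) / 2 ^ n) atTop (𝓝 (2 / 3)) := by
  have e : ∀ n : ℕ, (AA n : ℝ) / 2 ^ n = 2 / 3 - (3 + (-1) ^ n) / 6 * (1 / 2) ^ n := by
    intro n
    have h := AA_eq n
    have h2 : (6 * (AA n : ℝ)) = 2 ^ (n + 2) - 3 - (-1) ^ n := by exact_mod_cast h
    have h3 : (AA n : ℝ) = (2 ^ (n + 2) - 3 - (-1) ^ n) / 6 := by linarith
    rw [h3, one_div, inv_pow]
    field_simp
    ring
  simp_rw [e]
  have h0 : Tendsto (fun n : ℕ => (1 / 2 : ℝ) ^ n) atTop (𝓝 0) :=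
    tendsto_pow_atTop_nhds_zero_of_lt_one (by norm_num) (by norm_num)
  have h1 : Tendsto (fun n : ℕ => (3 + (-1 : ℝ) ^ n) / 6 * (1 / 2 : ℝ) ^ n) atTop (𝓝 0) := by
    apply squeeze_zero_norm' _ h0
    refine Eventually.of_forall (fun n => ?_)
    rw [norm_mul, Real.norm_of_nonneg (show (0 : ℝ) ≤ (1 / 2) ^ n by positivity)]
    apply mul_le_of_le_one_left (by positivity)
    rw [Real.norm_eq_abs, abs_le]
    rcases neg_one_pow_eq_or ℝ n with h | h <;> rw [h] <;> constructor <;> norm_num
  have := h1.const_sub (2 / 3 : ℝ)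
  simpa using this

theorem isClopen_win (i : ℤ) (m : ℕ) (w : Fin m → Bool) : IsClopen (win i m ⁻¹' {w}) := by
  have hc : Continuous (win i m) := continuous_pi (fun k => continuous_apply (i + (k : ℤ)))
  exact (isClopen_discrete {w}).preimage hc

/-- the empirical measures as bundled probability measures -/
noncomputable def empP (q : ℕ → PMF (List Bool)) (n : ℕ) : ProbabilityMeasure Seq :=
  ⟨emp q n, inferInstance⟩

section limit

variable {q : ℕ → PMF (List Bool)} (hq : Good q) {U : Filter ℕ} [U.NeBot] (hU : U ≤ atTop)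
  {μ : ProbabilityMeasure Seq} (hμ : Tendsto (empP q) U (𝓝 μ))

include hμ in
theorem conv_win (i : ℤ) (m : ℕ) (w : Fin m → Bool) :
    Tendsto (fun n => pr (emp q n) (win i m) w) U (𝓝 (pr (μ : Measure Seq) (win i m) w)) := by
  have h := ProbabilityMeasure.tendsto_measure_of_isClopen_of_tendsto hμ (isClopen_win i m w)
  have h2 := (NNReal.continuous_coe.tendsto _).comp h
  exact h2

include hU hμ in
theorem lim_shift (i : ℤ) (m : ℕ) (w : Fin m → Bool) :
    pr (μ : Measure Seq) (win (i + 1) m) w = pr (μ : Measure Seq) (win i m) w := by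
  have h1 := (conv_win hμ (i + 1) m w).sub (conv_win hμ i m w)
  have h0 : Tendsto (fun n : ℕ => (1 / 2 : ℝ) ^ n) U (𝓝 0) :=
    (tendsto_pow_atTop_nhds_zero_of_lt_one (by norm_num) (by norm_num)).mono_left hU
  have h2 : Tendsto (fun n => pr (emp q n) (win (i + 1) m) w - pr (emp q n) (win i m) w) U (𝓝 0) := by
    apply squeeze_zero_norm' _ h0
    refine Eventually.of_forall (fun n => ?_)
    rw [pr_emp, pr_emp, ← mul_sub, ← Finset.sum_sub_distrib]
    have e : ∑ j ∈ Finset.range (2 ^ n), (pr (Pb q n) (win (i + 1 + j) m) w - pr (Pb q n) (win (i + j) m) w) =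
        pr (Pb q n) (win (i + (2 ^ n : ℕ)) m) w - pr (Pb q n) (win i m) w := by
      have := Finset.sum_range_sub (fun j : ℕ => pr (Pb q n) (win (i + j) m) w) (2 ^ n)
      simp only [Nat.cast_zero, add_zero] at this
      rw [← this]
      apply Finset.sum_congr rfl
      intro j _
      congr 3
      push_cast; ring
    rw [e, norm_mul, Real.norm_of_nonneg (show (0 : ℝ) ≤ 1 / 2 ^ n by positivity), one_div_pow]
    apply mul_le_of_le_one_right (by positivity)
    rw [Real.norm_eq_abs, abs_le]
    have a1 := pr_nonneg (Pb q n) (win (i + (2 ^ n : ℕ)) m) w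
    have a2 := pr_le_one (Pb q n) (win (i + (2 ^ n : ℕ)) m) w
    have a3 := pr_nonneg (Pb q n) (win i m) w
    have a4 := pr_le_one (Pb q n) (win i m) w
    constructor <;> linarith
  have := tendsto_nhds_unique h1 h2
  linarith

include hq in
theorem Pb_illegal (n : ℕ) (hn : 1 ≤ n) (j m : ℕ) (hj : j + m ≤ 2 ^ n) (w : Fin m → Bool)
    (hw : ¬ Legal (List.ofFn w)) : pr (Pb q n) (win j m) w = 0 := by
  unfold pr
  rw [measureReal_def, Pb_zero q n ((measurable_win j m) (measurableSet_singleton w))]
  · rfl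
  · intro v hv hmem
    apply hw
    have h1 := (randIter_support n v (hq.supp n v hv)).1
    have h2 := randIter_length n v (hq.supp n v hv)
    refine ⟨n, hn, false, v, h1, ?_⟩
    have h3 : win j m (pad v) = w := hmem
    have e : List.ofFn w = (v.drop j).take m := by
      rw [← h3]
      apply List.ext_getElem
      · simp; omega
      · intro k k1 k2
        rw [List.getElem_ofFn, win_apply]
        simp only [List.getElem_take, List.getElem_drop]
        have : ((j : ℤ) + (k : ℤ)) = ((j + k : ℕ) : ℤ) := by push_cast; ring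
        rw [this, pad_nat, List.getD_eq_getElem]
    rw [e]
    exact (List.take_prefix m (v.drop j)).isInfix.trans (List.drop_suffix j v).isInfix

include hq hU hμ in
theorem lim_illegal (m : ℕ) (w : Fin m → Bool) (hw : ¬ Legal (List.ofFn w)) :
    pr (μ : Measure Seq) (win 0 m) w = 0 := by
  have h0 : Tendsto (fun n : ℕ => (m : ℝ) * (1 / 2 : ℝ) ^ n) U (𝓝 0) := by
    have := ((tendsto_pow_atTop_nhds_zero_of_lt_one (r := (1 / 2 : ℝ)) (by norm_num)
      (by norm_num)).mono_left hU).const_mul (m : ℝ)
    simpa using this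
  have h2 : Tendsto (fun n => pr (emp q n) (win 0 m) w) U (𝓝 0) := by
    apply squeeze_zero_norm' _ h0
    have hev : ∀ᶠ n in U, 1 ≤ n := hU (eventually_ge_atTop 1)
    filter_upwards [hev] with n hn
    rw [Real.norm_of_nonneg (pr_nonneg _ _ _), pr_emp, one_div_pow, mul_comm (m : ℝ)]
    apply mul_le_mul_of_nonneg_left _ (by positivity)
    simp only [zero_add]
    -- only the last `m` positions contribute
    calc ∑ j ∈ Finset.range (2 ^ n), pr (Pb q n) (win j m) w
        ≤ ∑ j ∈ Finset.range (2 ^ n), (if 2 ^ n < j + m then (1 : ℝ) else 0) := by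
          apply Finset.sum_le_sum
          intro j _
          split_ifs with h
          · exact pr_le_one _ _ _
          · rw [Pb_illegal hq n hn j m (by omega) w hw]
      _ = ((Finset.range (2 ^ n)).filter (fun j => 2 ^ n < j + m)).card := by
          rw [Finset.sum_ite, Finset.sum_const_zero, add_zero, Finset.sum_const, nsmul_eq_mul, mul_one]
      _ ≤ m := by
          have : ((Finset.range (2 ^ n)).filter (fun j => 2 ^ n < j + m)) ⊆
              Finset.Ico (2 ^ n - m) (2 ^ n) := by
            intro j hj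
            rw [Finset.mem_filter, Finset.mem_range] at hj
            rw [Finset.mem_Ico]
            omega
          have h1 := Finset.card_le_card this
          rw [Nat.card_Ico] at h1
          exact_mod_cast h1.trans (by omega)
  exact tendsto_nhds_unique (conv_win hμ 0 m w) h2

include hq hU hμ in
theorem lim_inv : IsInv (μ : Measure Seq) := by
  have hprob : IsProbabilityMeasure (μ : Measure Seq) := inferInstance
  have hmp : MeasurePreserving shift (μ : Measure Seq) (μ : Measure Seq) := by
    refine ⟨measurable_shift, ?_⟩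
    apply ext_of_words (Measure.isProbabilityMeasure_map measurable_shift.aemeasurable) hprob
    intro i n w
    rw [pr_map measurable_shift (measurable_win i n)]
    have e : win i n ∘ shift = win (i + 1) n := by
      have := win_iterate i n 1
      simpa only [Function.iterate_one, Nat.cast_one] using this
    rw [e]
    exact lim_shift hU hμ i n w
  refine ⟨hprob, hmp, ?_⟩
  -- support
  have hinv : ∀ (i : ℤ) (n : ℕ) (w : Fin n → Bool),
      pr (μ : Measure Seq) (win i n) w = pr (μ : Measure Seq) (win 0 n) w := by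
    intro i n w
    rcases Int.eq_nat_or_neg i with ⟨m, rfl | rfl⟩
    · have h1 := pr_mp (hmp.iterate m) (measurable_win 0 n) w
      rw [win_iterate, zero_add] at h1
      exact h1
    · have h1 := pr_mp (hmp.iterate m) (measurable_win (-(m : ℤ)) n) w
      rw [win_iterate, neg_add_cancel] at h1
      exact h1.symm
  have hsub : Xᶜ ⊆ ⋃ (i : ℤ), ⋃ (n : ℕ), ⋃ (w : Fin n → Bool),
      ⋃ (_ : ¬ Legal (List.ofFn w)), win i n ⁻¹' {w} := by
    intro x hx
    have hx' : ¬ ∀ (i : ℤ) (n : ℕ), Legal (word x i n) := hx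
    push Not at hx'
    obtain ⟨i, n, h⟩ := hx'
    simp only [mem_iUnion]
    exact ⟨i, n, win i n x, h, rfl⟩
  refine measure_mono_null hsub ?_
  simp only [measure_iUnion_null_iff]
  intro i n w hw
  have h1 := lim_illegal hq hU hμ n w hw
  rw [← hinv i] at h1
  unfold pr at h1
  rw [measureReal_def, ENNReal.toReal_eq_zero_iff] at h1
  rcases h1 with h1 | h1
  · exact h1
  · exact absurd h1 (measure_ne_top _ _)

include hq hU hμ in
theorem lim_max : Max (μ : Measure Seq) := by
  have hinv := lim_inv hq hU hμ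
  refine ⟨hinv, ?_⟩
  have hlog : 0 < Real.log 2 := Real.log_pos (by norm_num)
  have hHm : ∀ m : ℕ, m * (2 / 3) * Real.log 2 ≤ H (μ : Measure Seq) m := by
    intro m
    have h1 : Tendsto (fun n => H (emp q n) m) U (𝓝 (H (μ : Measure Seq) m)) := by
      unfold H ent
      apply tendsto_finsetSum
      intro w _
      exact (Real.continuous_negMulLog.tendsto _).comp (conv_win hμ 0 m w)
    have h0 : Tendsto (fun n : ℕ => (1 / 2 : ℝ) ^ n) atTop (𝓝 0) :=
      tendsto_pow_atTop_nhds_zero_of_lt_one (by norm_num) (by norm_num)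
    have h00 : Tendsto (fun n : ℕ => (n : ℝ) * (1 / 2 : ℝ) ^ n) atTop (𝓝 0) :=
      tendsto_self_mul_const_pow_of_lt_one (by norm_num) (by norm_num)
    have h2 : Tendsto (fun n : ℕ => (m : ℝ) * (AA n / 2 ^ n) * Real.log 2 -
        2 * m * (n * (1 / 2) ^ n) - m * (m * Real.log 2) * (1 / 2) ^ n) atTop
        (𝓝 ((m : ℝ) * (2 / 3) * Real.log 2 - 2 * m * 0 - m * (m * Real.log 2) * 0)) :=
      (((AA_tendsto.const_mul _).mul_const _).sub (h00.const_mul _)).sub (h0.const_mul _)
    rw [mul_zero, mul_zero, sub_zero, sub_zero] at h2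
    exact le_of_tendsto_of_tendsto' (h2.mono_left hU) h1 (fun n => ent_emp_ge hq n m)
  have h3 : 2 / 3 * Real.log 2 ≤ hh (μ : Measure Seq) := by
    apply ge_of_tendsto (tendsto_hh hinv)
    filter_upwards [eventually_gt_atTop 0] with m hm
    have hm0 : (0 : ℝ) < m := by exact_mod_cast hm
    rw [le_div_iff₀ hm0]
    have := hHm m
    linarith
  exact le_antisymm (hh_bound hinv) h3

end limit

theorem exists_lim (q : ℕ → PMF (List Bool)) (U : Ultrafilter ℕ) :
    ∃ μ : ProbabilityMeasure Seq, Tendsto (empP q) U (𝓝 μ) := by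
  obtain ⟨μ, _, hμ⟩ := isCompact_univ.ultrafilter_le_nhds (U.map (empP q)) (by simp)
  exact ⟨μ, hμ⟩

/-- existence of a maximal measure -/
theorem exists_max : ∃ μ : Measure Seq, Max μ := by
  obtain ⟨μ, hμ⟩ := exists_lim randIter (hyperfilter ℕ)
  have hU : ((hyperfilter ℕ : Ultrafilter ℕ) : Filter ℕ) ≤ atTop := by
    rw [← Nat.cofinite_eq_atTop]; exact hyperfilter_le_cofinite
  exact ⟨μ, lim_max good_randIter hU hμ⟩

/-- convergence of the empirical measures, for all good sequences of laws -/
theorem conv_max {μ : Measure Seq} (hmax : Max μ) {q : ℕ → PMF (List Bool)} (hq : Good q)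
    (m : ℕ) (w : Fin m → Bool) :
    Tendsto (fun n => pr (emp q n) (win 0 m) w) atTop (𝓝 (pr μ (win 0 m) w)) := by
  rw [tendsto_iff_ultrafilter]
  intro V hV
  obtain ⟨μ', hμ'⟩ := exists_lim q V
  have hmax' := lim_max hq hV hμ'
  have e := hmax.unique hmax'
  rw [e]
  exact conv_win hμ' 0 m w

end Pool.Agent.Helper42.RPD
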