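import Pool.Agent.Helper42.RPD7

open MeasureTheory Set Filter Topology
open scoped ENNReal

namespace Pool.Agent.Helper42.RPD

open Pool.Agent.Helper42.Ent

/-- number of positions of `w` at which the padded word shows `u` -/
def cnt {L : ℕ} (u : Fin L → Bool) (w : List Bool) : ℕ :=
  ((Finset.range w.length).filter (fun i : ℕ => win (i : ℤ) L (pad w) = u)).card

/-- number of occurrences of the word `v` in the word `w` -/
def occ (v w : List Bool) : ℕ := ((Finset.range w.length).filter (fun i => v <+: w.drop i)).card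

theorem prefix_imp {L : ℕ} (u : Fin L → Bool) (w : List Bool) (i : ℕ)
    (h : List.ofFn u <+: w.drop i) : win (i : ℤ) L (pad w) = u := by
  funext k
  rw [win_apply]
  have e : ((i : ℤ) + (k : ℤ)) = ((i + k : ℕ) : ℤ) := by push_cast; ring
  rw [e, pad_nat]
  obtain ⟨t, ht⟩ := h
  have h1 : (w.drop i)[(k : ℕ)]? = some (u k) := by
    rw [← ht, List.getElem?_append_left (by simp)]
    rw [List.getElem?_ofFn]
    simp
  rw [List.getElem?_drop] at h1
  rw [List.getD_eq_getElem?_getD, h1]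
  rfl

theorem imp_prefix {L : ℕ} (u : Fin L → Bool) (w : List Bool) (i : ℕ) (hi : i + L ≤ w.length)
    (h : win (i : ℤ) L (pad w) = u) : List.ofFn u <+: w.drop i := by
  have e : List.ofFn u = (w.drop i).take L := by
    rw [← h]
    apply List.ext_getElem
    · simp; omega
    · intro k k1 k2
      rw [List.getElem_ofFn, win_apply]
      simp only [List.getElem_take, List.getElem_drop]
      have : ((i : ℤ) + (k : ℤ)) = ((i + k : ℕ) : ℤ) := by push_cast; ring
      rw [this, pad_nat, List.getD_eq_getElem]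
  rw [e]
  exact List.take_prefix _ _

theorem occ_le_cnt {L : ℕ} (u : Fin L → Bool) (w : List Bool) : occ (List.ofFn u) w ≤ cnt u w := by
  unfold occ cnt
  apply Finset.card_le_card
  intro i hi
  rw [Finset.mem_filter] at hi ⊢
  exact ⟨hi.1, prefix_imp u w i hi.2⟩

theorem cnt_le_occ {L : ℕ} (u : Fin L → Bool) (w : List Bool) :
    cnt u w ≤ occ (List.ofFn u) w + L := by
  unfold occ cnt
  have hsub : (Finset.range w.length).filter (fun i : ℕ => win (i : ℤ) L (pad w) = u) ⊆
      (Finset.range w.length).filter (fun i => List.ofFn u <+: w.drop i) ∪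
        Finset.Ico (w.length - L) w.length := by
    intro i hi
    rw [Finset.mem_filter, Finset.mem_range] at hi
    rw [Finset.mem_union, Finset.mem_filter, Finset.mem_range, Finset.mem_Ico]
    by_cases h : i + L ≤ w.length
    · exact Or.inl ⟨hi.1, imp_prefix u w i h hi.2⟩
    · right; omega
  have h1 := Finset.card_le_card hsub
  have h2 := h1.trans (Finset.card_union_le _ _)
  rw [Nat.card_Ico] at h2
  omega

/-- the counting function on sequences -/
noncomputable def FF {L : ℕ} (u : Fin L → Bool) (n : ℕ) (x : Seq) : ℝ :=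
  ∑ j ∈ Finset.range (2 ^ n), (win (j : ℤ) L ⁻¹' {u}).indicator (fun _ => (1 : ℝ)) x

theorem measurable_FF {L : ℕ} (u : Fin L → Bool) (n : ℕ) : Measurable (FF u n) := by
  unfold FF
  apply Finset.measurable_fun_sum
  intro j _
  exact measurable_const.indicator ((measurable_win j L) (measurableSet_singleton u))

theorem FF_pad {L : ℕ} (u : Fin L → Bool) (n : ℕ) (w : List Bool) (hw : w.length = 2 ^ n) :
    FF u n (pad w) = cnt u w := by
  unfold FF cnt
  rw [hw, Finset.card_filter]
  push_cast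
  apply Finset.sum_congr rfl
  intro j _
  unfold Set.indicator
  simp only [mem_preimage, mem_singleton_iff]

theorem integrable_ind {L : ℕ} (P : Measure Seq) [IsProbabilityMeasure P] (u : Fin L → Bool) (j : ℕ) :
    Integrable ((win (j : ℤ) L ⁻¹' {u}).indicator (fun _ => (1 : ℝ))) P :=
  (integrable_const 1).indicator ((measurable_win j L) (measurableSet_singleton u))

theorem integral_FF {L : ℕ} (P : Measure Seq) [IsProbabilityMeasure P] (u : Fin L → Bool) (n : ℕ) :
    ∫ x, FF u n x ∂P = ∑ j ∈ Finset.range (2 ^ n), pr P (win (j : ℤ) L) u := by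
  unfold FF
  rw [integral_finsetSum _ (fun j _ => integrable_ind P u j)]
  apply Finset.sum_congr rfl
  intro j _
  exact integral_indicator_one ((measurable_win j L) (measurableSet_singleton u))

theorem emp_eq {L : ℕ} (q : ℕ → PMF (List Bool)) (u : Fin L → Bool) (n : ℕ) :
    pr (emp q n) (win 0 L) u = (1 / 2 ^ n) * ∫ x, FF u n x ∂(Pb q n) := by
  rw [pr_emp, integral_FF]
  simp only [zero_add]

theorem emp_ge {L : ℕ} {q : ℕ → PMF (List Bool)} (hq : Good q) (u : Fin L → Bool) (n : ℕ)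
    (s a ε : ℝ) (h : ∀ w, q n w ≠ 0 → ε ≤ s * ((cnt u w : ℝ) / 2 ^ n - a)) :
    ε ≤ s * (pr (emp q n) (win 0 L) u - a) := by
  have hint : Integrable (FF u n) (Pb q n) := by
    unfold FF
    exact integrable_finsetSum _ (fun j _ => integrable_ind (Pb q n) u j)
  have hmeas : Measurable (fun x => s * ((1 / 2 ^ n) * FF u n x - a)) :=
    (((measurable_FF u n).const_mul _).sub_const _).const_mul _
  have hE : MeasurableSet {x | ¬ (ε ≤ s * ((1 / 2 ^ n) * FF u n x - a))} :=
    (measurableSet_le measurable_const hmeas).compl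
  have h0 : Pb q n {x | ¬ (ε ≤ s * ((1 / 2 ^ n) * FF u n x - a))} = 0 := by
    apply Pb_zero q n hE
    intro w hw hmem
    apply hmem
    have hl := randIter_length n w (hq.supp n w hw)
    rw [FF_pad u n w hl]
    have := h w hw
    calc ε ≤ s * ((cnt u w : ℝ) / 2 ^ n - a) := this
      _ = _ := by rw [div_eq_mul_one_div, mul_comm ((cnt u w : ℝ))]
  have hae : ∀ᵐ x ∂(Pb q n), ε ≤ s * ((1 / 2 ^ n) * FF u n x - a) := h0
  have h1 : ∫ _, ε ∂(Pb q n) ≤ ∫ x, s * ((1 / 2 ^ n) * FF u n x - a) ∂(Pb q n) := by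
    apply integral_mono_ae (integrable_const _) _ hae
    exact ((hint.const_mul _).sub (integrable_const _)).const_mul _
  rw [integral_const, integral_const_mul, integral_sub (hint.const_mul _) (integrable_const _),
    integral_const_mul, integral_const] at h1
  rw [emp_eq]
  simpa using h1

/-- The measure of large deviations is eventually small. -/
theorem soft {μ : Measure Seq} (hmax : Max μ) {L : ℕ} (u : Fin L → Bool) (s ε : ℝ) (hε : 0 < ε) :
    ∀ᶠ n : ℕ in atTop, (randIter n).toOuterMeasure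
      {w | ε ≤ s * ((cnt u w : ℝ) / 2 ^ n - pr μ (win 0 L) u)} < (((n : ℝ≥0∞) + 1) ^ 2)⁻¹ := by
  classical
  set B : ℕ → Set (List Bool) := fun n => {w | ε ≤ s * ((cnt u w : ℝ) / 2 ^ n - pr μ (win 0 L) u)}
    with hB
  by_contra hcon
  rw [not_eventually] at hcon
  have hne : ∀ n : ℕ, (((n : ℝ≥0∞) + 1) ^ 2)⁻¹ ≤ (randIter n).toOuterMeasure (B n) →
      ∃ a ∈ B n, a ∈ (randIter n).support := by
    intro n hn
    by_contra h
    push Not at h
    have : (randIter n).toOuterMeasure (B n) = 0 := by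
      rw [PMF.toOuterMeasure_apply_eq_zero_iff, Set.disjoint_right]
      exact h
    rw [this, nonpos_iff_eq_zero, ENNReal.inv_eq_zero] at hn
    exact absurd hn (ENNReal.pow_ne_top (by simp))
  let q : ℕ → PMF (List Bool) := fun n =>
    if h : (((n : ℝ≥0∞) + 1) ^ 2)⁻¹ ≤ (randIter n).toOuterMeasure (B n) then
      (randIter n).filter (B n) (hne n h) else randIter n
  have hq : Good q := by
    constructor
    · intro n v hv
      by_cases h : (((n : ℝ≥0∞) + 1) ^ 2)⁻¹ ≤ (randIter n).toOuterMeasure (B n)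
      · simp only [q, dif_pos h] at hv
        rw [← PMF.mem_support_iff, PMF.mem_support_filter_iff] at hv
        exact (PMF.mem_support_iff _ _).mp hv.2
      · simp only [q, dif_neg h] at hv
        exact hv
    · intro n v
      by_cases h : (((n : ℝ≥0∞) + 1) ^ 2)⁻¹ ≤ (randIter n).toOuterMeasure (B n)
      · simp only [q, dif_pos h]
        rw [PMF.filter_apply, ← PMF.toOuterMeasure_apply, mul_comm]
        apply mul_le_mul'
        · have := ENNReal.inv_le_inv.mpr h
          rwa [inv_inv] at this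
        · exact (Set.indicator_le_self _ _ _).trans (randIter_le n v)
      · simp only [q, dif_neg h]
        exact good_randIter.bound n v
  have hconv := conv_max hmax hq L u
  have hconv2 : Tendsto (fun n => s * (pr (emp q n) (win 0 L) u - pr μ (win 0 L) u)) atTop (𝓝 0) := by
    have := (hconv.sub_const (pr μ (win 0 L) u)).const_mul s
    simpa using this
  have hev := hconv2.eventually_lt_const hε
  obtain ⟨n, h1, h2⟩ := (hcon.and_eventually hev).exists
  rw [not_lt] at h1
  have h1' : (((n : ℝ≥0∞) + 1) ^ 2)⁻¹ ≤ (randIter n).toOuterMeasure (B n) := h1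
  apply absurd h2
  rw [not_lt]
  apply emp_ge hq u n s
  intro w hw
  simp only [q, dif_pos h1'] at hw
  rw [← PMF.mem_support_iff, PMF.mem_support_filter_iff] at hw
  exact hw.1

section as

variable {Ω : Type*} [MeasurableSpace Ω] {P : Measure Ω} {W : ℕ → Ω → List Bool}
  (hW : ∀ n w, P {ω | W n ω = w} = randIter n w)

include hW in
theorem law_le (n : ℕ) (B : Set (List Bool)) :
    P {ω | W n ω ∈ B} ≤ (randIter n).toOuterMeasure B := by
  have h1 : {ω | W n ω ∈ B} ⊆ ⋃ w : List Bool, ⋃ (_ : w ∈ B), {ω | W n ω = w} := by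
    intro ω hω
    simp only [mem_iUnion]
    exact ⟨W n ω, hω, rfl⟩
  rw [PMF.toOuterMeasure_apply]
  calc P {ω | W n ω ∈ B} ≤ P (⋃ w : List Bool, ⋃ (_ : w ∈ B), {ω | W n ω = w}) := measure_mono h1
    _ ≤ ∑' w, P (⋃ (_ : w ∈ B), {ω | W n ω = w}) := measure_iUnion_le _
    _ ≤ _ := by
      apply ENNReal.tsum_le_tsum
      intro w
      by_cases h : w ∈ B
      · rw [Set.indicator_of_mem h, ← hW n w]
        apply measure_mono
        intro ω hω
        simp only [mem_iUnion] at hω
        exact hω.2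
      · rw [Set.indicator_of_notMem h]
        have : (⋃ (_ : w ∈ B), {ω | W n ω = w}) = ∅ := by
          simp [h]
        rw [this, measure_empty]

theorem tsum_sq_ne_top : (∑' n : ℕ, (((n : ℝ≥0∞) + 1) ^ 2)⁻¹) ≠ ∞ := by
  have h : Summable (fun n : ℕ => (((n : NNReal) + 1) ^ 2)⁻¹) := by
    rw [← NNReal.summable_coe]
    push_cast
    have := (summable_nat_add_iff 1).mpr (Real.summable_nat_pow_inv.mpr (show 1 < 2 by norm_num))
    push_cast at this
    exact this
  have e : ∀ n : ℕ, (((n : ℝ≥0∞) + 1) ^ 2)⁻¹ = (((((n : NNReal) + 1) ^ 2)⁻¹ : NNReal) : ℝ≥0∞) := by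
    intro n
    rw [ENNReal.coe_inv (by positivity)]
    push_cast
    rfl
  simp_rw [e]
  exact ENNReal.tsum_coe_ne_top_iff_summable.mpr h

include hW in
theorem ae_small {μ : Measure Seq} (hmax : Max μ) {L : ℕ} (u : Fin L → Bool) (s ε : ℝ) (hε : 0 < ε) :
    ∀ᵐ ω ∂P, ∀ᶠ n : ℕ in atTop, s * ((cnt u (W n ω) : ℝ) / 2 ^ n - pr μ (win 0 L) u) < ε := by
  obtain ⟨N, hN⟩ := eventually_atTop.mp (soft hmax u s ε hε)
  let S : ℕ → Set Ω := fun n => {ω | W (n + N) ω ∈
    {w | ε ≤ s * ((cnt u w : ℝ) / 2 ^ (n + N) - pr μ (win 0 L) u)}}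
  have hS : ∀ n, P (S n) ≤ (((n : ℝ≥0∞) + 1) ^ 2)⁻¹ := by
    intro n
    refine (law_le hW (n + N) _).trans ((hN (n + N) (by omega)).le.trans ?_)
    rw [ENNReal.inv_le_inv]
    gcongr
    omega
  have hsum : (∑' n, P (S n)) ≠ ∞ :=
    ne_top_of_le_ne_top tsum_sq_ne_top (ENNReal.tsum_le_tsum hS)
  have h := ae_eventually_notMem hsum
  filter_upwards [h] with ω hω
  obtain ⟨M, hM⟩ := eventually_atTop.mp hω
  rw [eventually_atTop]
  refine ⟨M + N, fun n hn => ?_⟩
  have h1 := hM (n - N) (by omega)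
  have e : n - N + N = n := by omega
  simp only [S, mem_ofPred_eq, e, not_le] at h1
  exact h1

include hW in
theorem ae_tendsto_cnt {μ : Measure Seq} (hmax : Max μ) {L : ℕ} (u : Fin L → Bool) :
    ∀ᵐ ω ∂P, Tendsto (fun n : ℕ => (cnt u (W n ω) : ℝ) / 2 ^ n) atTop (𝓝 (pr μ (win 0 L) u)) := by
  have h1 : ∀ᵐ ω ∂P, ∀ k : ℕ, ∀ᶠ n : ℕ in atTop,
      (1 : ℝ) * ((cnt u (W n ω) : ℝ) / 2 ^ n - pr μ (win 0 L) u) < 1 / ((k : ℝ) + 1) :=
    ae_all_iff.mpr (fun k => ae_small hW hmax u 1 _ (by positivity))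
  have h2 : ∀ᵐ ω ∂P, ∀ k : ℕ, ∀ᶠ n : ℕ in atTop,
      (-1 : ℝ) * ((cnt u (W n ω) : ℝ) / 2 ^ n - pr μ (win 0 L) u) < 1 / ((k : ℝ) + 1) :=
    ae_all_iff.mpr (fun k => ae_small hW hmax u (-1) _ (by positivity))
  filter_upwards [h1, h2] with ω a1 a2
  rw [Metric.tendsto_nhds]
  intro ε hε
  obtain ⟨k, hk⟩ := exists_nat_one_div_lt hε
  filter_upwards [a1 k, a2 k] with n b1 b2
  rw [Real.dist_eq, abs_lt]
  constructor <;> linarith

include hW in
theorem ae_tendsto_occ {μ : Measure Seq} (hmax : Max μ) {L : ℕ} (u : Fin L → Bool) :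
    ∀ᵐ ω ∂P, Tendsto (fun n : ℕ => (occ (List.ofFn u) (W n ω) : ℝ) / 2 ^ n) atTop
      (𝓝 (pr μ (win 0 L) u)) := by
  filter_upwards [ae_tendsto_cnt hW hmax u] with ω hω
  have h0 : Tendsto (fun n : ℕ => (L : ℝ) * (1 / 2 : ℝ) ^ n) atTop (𝓝 0) := by
    have := (tendsto_pow_atTop_nhds_zero_of_lt_one (r := (1 / 2 : ℝ)) (by norm_num)
      (by norm_num)).const_mul (L : ℝ)
    simpa using this
  have h1 : Tendsto (fun n : ℕ => (cnt u (W n ω) : ℝ) / 2 ^ n - (L : ℝ) * (1 / 2 : ℝ) ^ n) atTop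
      (𝓝 (pr μ (win 0 L) u)) := by
    simpa using hω.sub h0
  refine tendsto_of_tendsto_of_tendsto_of_le_of_le h1 hω (fun n => ?_) (fun n => ?_)
  · have := cnt_le_occ u (W n ω)
    have h2 : (cnt u (W n ω) : ℝ) ≤ occ (List.ofFn u) (W n ω) + L := by exact_mod_cast this
    simp only
    rw [one_div_pow, mul_one_div, ← sub_div]
    gcongr
    linarith
  · have h2 : (occ (List.ofFn u) (W n ω) : ℝ) ≤ cnt u (W n ω) := by exact_mod_cast occ_le_cnt u (W n ω)
    simp only
    gcongr

end as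

end Pool.Agent.Helper42.RPD
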