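import Mathlib

/-!
Spectral multiplicities, part 1: the approximating actions `S n` of the group `∀ m, D m` on itself,
for cocycles `κ n : D n → ∀ m, D m` whose values are supported on the coordinates `< n`.
-/

namespace Pool.Agent.Helper42.SM

variable {D : ℕ → Type*} [∀ n, AddCommGroup (D n)]

/-- The approximating actions. -/
def S (κ : ∀ n, D n → (∀ m, D m)) : ℕ → (∀ m, D m) → (∀ m, D m) → (∀ m, D m)
  | 0, g, x => x + g
  | n + 1, g, x => S κ n (g + κ n (x n) - κ n (x n + g n)) x

/-- elements supported on the coordinates `< n` -/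
def A (D : ℕ → Type*) [∀ n, AddCommGroup (D n)] (n : ℕ) : AddSubgroup (∀ m, D m) where
  carrier := {g | ∀ m, n ≤ m → g m = 0}
  zero_mem' := fun _ _ => rfl
  add_mem' := by
    intro a b ha hb m hm
    rw [Pi.add_apply, ha m hm, hb m hm, add_zero]
  neg_mem' := by
    intro a ha m hm
    rw [Pi.neg_apply, ha m hm, neg_zero]

theorem mem_A {n : ℕ} {g : ∀ m, D m} : g ∈ A D n ↔ ∀ m, n ≤ m → g m = 0 := Iff.rfl

theorem A_mono {n m : ℕ} (h : n ≤ m) : A D n ≤ A D m := fun _ hg i hi => hg i (h.trans hi)

/-- agreement on the coordinates `< n` -/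
def Agr (n : ℕ) (x y : ∀ m, D m) : Prop := ∀ m, m < n → x m = y m

theorem Agr.symm {n : ℕ} {x y : ∀ m, D m} (h : Agr n x y) : Agr n y x := fun m hm => (h m hm).symm

theorem Agr.trans {n : ℕ} {x y z : ∀ m, D m} (h : Agr n x y) (h' : Agr n y z) : Agr n x z :=
  fun m hm => (h m hm).trans (h' m hm)

theorem Agr.refl (n : ℕ) (x : ∀ m, D m) : Agr n x x := fun _ _ => rfl

theorem Agr.mono {n m : ℕ} (h : n ≤ m) {x y : ∀ m, D m} (h' : Agr m x y) : Agr n x y :=
  fun i hi => h' i (hi.trans_le h)

variable {κ : ∀ n, D n → (∀ m, D m)} (hκ : ∀ n d, κ n d ∈ A D n)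

include hκ

theorem S_coord (n : ℕ) : ∀ (g x : ∀ m, D m) (m : ℕ), n ≤ m → S κ n g x m = x m + g m := by
  induction n with
  | zero => intro g x m _; rfl
  | succ n ih =>
    intro g x m hm
    rw [S, ih _ _ m (by omega), Pi.sub_apply, Pi.add_apply, hκ n _ m (by omega),
      hκ n _ m (by omega), add_zero, sub_zero]

theorem S_zero (n : ℕ) (x : ∀ m, D m) : S κ n 0 x = x := by
  induction n with
  | zero => simp [S]
  | succ n ih =>
    rw [S, Pi.zero_apply, add_zero, zero_add, sub_self, ih]

theorem S_add (n : ℕ) : ∀ (g h x : ∀ m, D m), S κ n (g + h) x = S κ n g (S κ n h x) := by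
  induction n with
  | zero => intro g h x; simp only [S]; abel
  | succ n ih =>
    intro g h x
    set y := S κ n (h + κ n (x n) - κ n (x n + h n)) x with hy
    have e1 : S κ (n + 1) h x = y := rfl
    have hyn : y n = x n + h n := by
      rw [hy, S_coord hκ n _ _ n le_rfl, Pi.sub_apply, Pi.add_apply, hκ n _ n le_rfl,
        hκ n _ n le_rfl, add_zero, sub_zero]
    rw [e1, S, S, hyn, hy, ← ih]
    congr 1
    rw [Pi.add_apply]
    have e2 : x n + (g n + h n) = x n + h n + g n := by abel
    rw [e2]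
    abel

theorem S_neg_left (n : ℕ) (g x : ∀ m, D m) : S κ n (-g) (S κ n g x) = x := by
  rw [← S_add hκ, neg_add_cancel, S_zero hκ]

theorem S_neg_right (n : ℕ) (g x : ∀ m, D m) : S κ n g (S κ n (-g) x) = x := by
  rw [← S_add hκ, add_neg_cancel, S_zero hκ]

theorem S_comm (n : ℕ) (g h x : ∀ m, D m) : S κ n g (S κ n h x) = S κ n h (S κ n g x) := by
  rw [← S_add hκ, ← S_add hκ, add_comm]

omit hκ in
theorem S_succ_of_eq (n : ℕ) (g x : ∀ m, D m) (h : κ n (x n) = κ n (x n + g n)) :
    S κ (n + 1) g x = S κ n g x := by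
  rw [S, ← h, add_sub_cancel_right]

omit hκ in
theorem S_of_mem {n : ℕ} {g : ∀ m, D m} (hg : g ∈ A D n) (x : ∀ m, D m) {m : ℕ} (h : n ≤ m) :
    S κ m g x = S κ n g x := by
  induction m, h using Nat.le_induction with
  | base => rfl
  | succ m hm ih =>
    rw [S_succ_of_eq, ih]
    rw [hg m hm, add_zero]

omit hκ in
theorem S_agr (n : ℕ) : ∀ (m : ℕ), n ≤ m → ∀ (g h x y : ∀ m, D m), Agr m x y → Agr m g h →
    Agr m (S κ n g x) (S κ n h y) := by
  induction n with
  | zero =>
    intro m _ g h x y hx hg i hi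
    rw [S, S, Pi.add_apply, Pi.add_apply, hx i hi, hg i hi]
  | succ n ih =>
    intro m hm g h x y hx hg
    rw [S, S]
    apply ih m (by omega) _ _ _ _ hx
    intro i hi
    rw [hx n (by omega), hg n (by omega)]
    simp only [Pi.sub_apply, Pi.add_apply]
    rw [hg i hi]

/-- changing the group element on coordinates `≥ n` does not affect the first `n` coordinates -/
theorem S_agr_add (n : ℕ) (g h x : ∀ m, D m) (hh : ∀ m, m < n → h m = 0) :
    Agr n (S κ n (g + h) x) (S κ n g x) := by
  apply S_agr n n le_rfl _ _ _ _ (Agr.refl n x)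
  intro i hi
  rw [Pi.add_apply, hh i hi, add_zero]

/-- transitivity on the first `n` coordinates -/
theorem S_trans (n : ℕ) : ∀ (x y : ∀ m, D m), ∃ g ∈ A D n, Agr n (S κ n g x) y := by
  induction n with
  | zero => intro x y; exact ⟨0, (A D 0).zero_mem, fun m hm => absurd hm (by omega)⟩
  | succ n ih =>
    intro x y
    obtain ⟨h, hh, hx⟩ := ih x y
    classical
    set c : ∀ m, D m := Pi.single n (y n - x n) with hc
    set g : ∀ m, D m := h - κ n (x n) + κ n (y n) + c with hg
    have hgn : g n = y n - x n := by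
      rw [hg, Pi.add_apply, Pi.add_apply, Pi.sub_apply, hh n le_rfl, hκ n _ n le_rfl,
        hκ n _ n le_rfl, hc, Pi.single_eq_same]
      abel
    have e1 : S κ (n + 1) g x = S κ n (h + c) x := by
      rw [S, hgn, add_sub_cancel, hg]
      congr 1
      abel
    refine ⟨g, ?_, ?_⟩
    · intro m hm
      rw [hg, Pi.add_apply, Pi.add_apply, Pi.sub_apply, hh m (by omega), hκ n _ m (by omega),
        hκ n _ m (by omega), hc, Pi.single_eq_of_ne (by omega)]
      abel
    · intro m hm
      rw [e1]
      rcases Nat.lt_succ_iff_lt_or_eq.mp hm with h1 | h1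
      · rw [S_agr_add hκ n h c x (fun i hi => by rw [hc, Pi.single_eq_of_ne (by omega)]) m h1]
        exact hx m h1
      · subst h1
        rw [S_coord hκ m _ _ m le_rfl, Pi.add_apply, hh m le_rfl, hc, Pi.single_eq_same]
        abel

/-- free action on the first `n` coordinates -/
theorem S_free (n : ℕ) : ∀ (x g : ∀ m, D m), g ∈ A D n → Agr n (S κ n g x) x → g = 0 := by
  induction n with
  | zero => intro x g hg _; funext m; exact hg m (by omega)
  | succ n ih =>
    intro x g hg h
    have h1 : g n = 0 := by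
      have := h n (by omega)
      rw [S, S_coord hκ n _ _ n le_rfl, Pi.sub_apply, Pi.add_apply, hκ n _ n le_rfl,
        hκ n _ n le_rfl] at this
      simpa using this
    have h2 : g ∈ A D n := by
      intro m hm
      rcases hm.eq_or_lt with h3 | h3
      · rw [← h3]; exact h1
      · exact hg m (by omega)
    apply ih x g h2
    rw [← S_of_mem h2 x (Nat.le_succ n)]
    exact h.mono (by omega)

end Pool.Agent.Helper42.SM
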