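import Pool.Agent.Helper42.SM9

/-!
Spectral multiplicities, part 10: invariant vectors, cylinder functions and orbits.
-/

open MeasureTheory Set Filter
open scoped ENNReal Topology

namespace Pool.Agent.Helper42.SM

section gen

variable {D : ℕ → Type*} [∀ n, AddCommGroup (D n)] [∀ n, Fintype (D n)]
  [∀ n, MeasurableSpace (D n)] [∀ n, MeasurableSingletonClass (D n)]
variable {κ : ∀ n, D n → (∀ m, D m)} (hκ : ∀ n d, κ n d ∈ A D n)

theorem Loc.toLp_coe {m : ℕ} {φ : (∀ n, D n) → ℂ} (hφ : Loc m φ) :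
    (hφ.memLp.toLp φ : (∀ n, D n) → ℂ) =ᵐ[mu D] φ := hφ.memLp.coeFn_toLp

omit [∀ n, Fintype (D n)] [∀ n, MeasurableSpace (D n)] [∀ n, MeasurableSingletonClass (D n)] in
theorem Loc.S {m : ℕ} {φ : (∀ n, D n) → ℂ} (hφ : Loc m φ) (g : ∀ m, D m) :
    Loc m (fun x => φ (S κ m g x)) :=
  fun x y hxy => hφ _ _ (S_agr m m le_rfl g g x y hxy (Agr.refl m g))

theorem V_toLp {m : ℕ} {φ : (∀ n, D n) → ℂ} (hφ : Loc m φ) (g : ∀ m, D m) :
    V hκ m g (hφ.memLp.toLp φ) = (hφ.S (κ := κ) g).memLp.toLp _ := by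
  rw [V_eq]
  apply Lp.ext
  filter_upwards [koop_coe (S κ m g) (mp_S hκ m g) (hφ.memLp.toLp φ), (hφ.S (κ := κ) g).toLp_coe,
    (mp_S hκ m g).quasiMeasurePreserving.ae hφ.toLp_coe] with x h1 h2 h3
  rw [h1, h2, h3]

theorem sum_toLp {ι : Type*} (s : Finset ι) {m : ℕ} (c : ι → ℂ) (φ : ι → (∀ n, D n) → ℂ)
    (hφ : ∀ i, Loc m (φ i)) (ψ : (∀ n, D n) → ℂ) (hψ : Loc m ψ) (h : ∀ x, ψ x = ∑ i ∈ s, c i * φ i x) :
    hψ.memLp.toLp ψ = ∑ i ∈ s, c i • (hφ i).memLp.toLp (φ i) := by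
  classical
  induction s using Finset.induction_on generalizing ψ with
  | empty =>
    rw [Finset.sum_empty]
    apply Lp.ext
    filter_upwards [hψ.toLp_coe, Lp.coeFn_zero ℂ 2 (mu D)] with x h1 h2
    rw [h1, h2, h x]; rfl
  | insert i s hi ih =>
    rw [Finset.sum_insert hi]
    have hl : Loc m (fun x => ∑ i ∈ s, c i * φ i x) := by
      intro x y hxy
      apply Finset.sum_congr rfl
      intro i _
      rw [hφ i x y hxy]
    rw [← ih _ hl (fun _ => rfl)]
    apply Lp.ext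
    filter_upwards [hψ.toLp_coe, Lp.coeFn_add (c i • (hφ i).memLp.toLp (φ i)) (hl.memLp.toLp _),
      Lp.coeFn_smul (c i) ((hφ i).memLp.toLp (φ i)), (hφ i).toLp_coe, hl.toLp_coe] with x h1 h2 h3 h4 h5
    rw [h1, h2, Pi.add_apply, h3, Pi.smul_apply, h4, h5, h x, Finset.sum_insert hi, smul_eq_mul]

/-- vectors invariant under all operators of the group -/
theorem const_of_inv (f : Lp ℂ 2 (mu D)) (hf : ∀ g, VG hκ g f = f) (h0 : inner ℂ oneL f = 0) : f = 0 := by
  classical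
  have h1 : ∀ h ∈ CylSet D, inner ℂ h f = 0 := by
    rintro _ ⟨m, φ, hφ, rfl⟩
    have := Fintype.ofFinite (A D m)
    -- the average is constant
    have hconst : ∃ c : ℂ, ∀ x, ∑ g : A D m, φ (S κ m g.1 x) = c := by
      refine ⟨∑ g : A D m, φ (S κ m g.1 0), fun x => ?_⟩
      obtain ⟨h, hh, hag⟩ := S_trans hκ m x 0
      have e1 : ∑ g : A D m, φ (S κ m g.1 x) = ∑ g : A D m, φ (S κ m g.1 (S κ m h x)) := by
        rw [← Equiv.sum_comp (Equiv.addRight (⟨h, hh⟩ : A D m))]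
        apply Finset.sum_congr rfl
        intro g _
        rw [Equiv.coe_addRight, AddSubgroup.coe_add, S_add hκ]
      rw [e1]
      apply Finset.sum_congr rfl
      intro g _
      exact hφ.S g.1 _ _ hag
    obtain ⟨c, hc⟩ := hconst
    have h2 : ∀ g : A D m, inner ℂ ((hφ.S (κ := κ) g.1).memLp.toLp _) f = inner ℂ (hφ.memLp.toLp φ) f := by
      intro g
      have e1 : V hκ m g.1 f = f := by
        rw [← VG_eq hκ ⟨g.1, m, g.2⟩ g.2]; exact hf _
      rw [← V_toLp hκ hφ g.1]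
      conv_lhs => rw [← e1]
      exact (V hκ m g.1).inner_map_map _ _
    have h3 : ∑ g : A D m, (hφ.S (κ := κ) g.1).memLp.toLp _ = c • (oneL : Lp ℂ 2 (mu D)) := by
      have hl : Loc m (fun _ : (∀ n, D n) => c) := fun _ _ _ => rfl
      have e1 := sum_toLp Finset.univ (fun _ : A D m => (1 : ℂ)) (fun g x => φ (S κ m g.1 x))
        (fun g => hφ.S g.1) (fun _ => c) hl (fun x => by simp only [one_mul]; rw [hc x])
      simp only [one_smul] at e1
      rw [← e1]
      apply Lp.ext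
      filter_upwards [hl.toLp_coe, Lp.coeFn_smul c (oneL : Lp ℂ 2 (mu D)), oneL_coe (D := D)] with x a1 a2 a3
      rw [a1, a2, Pi.smul_apply, a3, smul_eq_mul, mul_one]
    have h4 : inner ℂ (∑ g : A D m, (hφ.S (κ := κ) g.1).memLp.toLp _) f =
        (Fintype.card (A D m) : ℂ) * inner ℂ (hφ.memLp.toLp φ) f := by
      rw [sum_inner, Finset.sum_congr rfl (fun g _ => h2 g), Finset.sum_const, Finset.card_univ, nsmul_eq_mul]
    rw [h3, inner_smul_left, h0, mul_zero] at h4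
    rcases mul_eq_zero.mp h4.symm with h5 | h5
    · exact absurd h5 (by exact_mod_cast Fintype.card_ne_zero)
    · exact h5
  by_contra hne
  have hpos : 0 < ‖f‖ := norm_pos_iff.mpr hne
  obtain ⟨g, hg, hlt⟩ := cylSet_dense f ‖f‖ hpos
  have h2 : inner ℂ (f - g) f = (‖f‖ : ℂ) ^ 2 := by
    rw [inner_sub_left, h1 g hg, sub_zero, inner_self_eq_norm_sq_to_K]; rfl
  have h3 := norm_inner_le_norm (𝕜 := ℂ) (f - g) f
  rw [h2, norm_pow, Complex.norm_real, norm_norm, sq] at h3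
  have h4 := le_of_mul_le_mul_right h3 hpos
  linarith

open Classical in
/-- indicator of the cylinder of `0` -/
noncomputable def bf (D : ℕ → Type*) [∀ n, AddCommGroup (D n)] (m : ℕ) (x : ∀ n, D n) : ℂ :=
  if Agr m x 0 then 1 else 0

omit [∀ n, Fintype (D n)] [∀ n, MeasurableSpace (D n)] [∀ n, MeasurableSingletonClass (D n)] in
theorem bf_loc (m : ℕ) : Loc m (bf D m) := by
  intro x y hxy
  unfold bf
  have this : Agr m x 0 ↔ Agr m y 0 := ⟨fun h => Agr.trans (Agr.symm hxy) h, fun h => Agr.trans hxy h⟩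
  by_cases h : Agr m x 0
  · rw [if_pos h, if_pos (this.mp h)]
  · rw [if_neg h, if_neg (fun h' => h (this.mpr h'))]

/-- the base vectors -/
noncomputable def bv (D : ℕ → Type*) [∀ n, AddCommGroup (D n)] [∀ n, Fintype (D n)]
    [∀ n, MeasurableSpace (D n)] [∀ n, MeasurableSingletonClass (D n)] (m : ℕ) : Lp ℂ 2 (mu D) :=
  (bf_loc (D := D) m).memLp.toLp _

theorem cyl_mem_span {m : ℕ} {φ : (∀ n, D n) → ℂ} (hφ : Loc m φ) :
    hφ.memLp.toLp φ ∈ Submodule.span ℂ {z | ∃ g ∈ A D m, z = V hκ m g (bv D m)} := by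
  classical
  have := Fintype.ofFinite (A D m)
  have key : ∀ x, φ x = ∑ g : A D m, φ (S κ m (-g.1) 0) * bf D m (S κ m g.1 x) := by
    intro x
    obtain ⟨h, hh, hag⟩ := S_trans hκ m x 0
    rw [Finset.sum_eq_single ⟨h, hh⟩]
    · unfold bf
      rw [if_pos hag, mul_one]
      apply hφ
      have e1 : x = S κ m (-h) (S κ m h x) := (S_neg_left hκ m h x).symm
      intro i hi
      conv_lhs => rw [e1]
      exact S_agr m m le_rfl _ _ _ _ hag (Agr.refl m _) i hi
    · rintro ⟨g, hg⟩ _ hne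
      unfold bf
      rw [if_neg, mul_zero]
      intro hag'
      apply hne
      apply Subtype.ext
      show g = h
      have e1 : Agr m (S κ m (g - h) (S κ m h x)) (S κ m h x) := by
        rw [← S_add hκ, sub_add_cancel]
        exact hag'.trans hag.symm
      exact sub_eq_zero.mp (S_free hκ m _ _ ((A D m).sub_mem hg hh) e1)
    · intro h; exact absurd (Finset.mem_univ _) h
  rw [sum_toLp Finset.univ (fun g : A D m => φ (S κ m (-g.1) 0)) (fun g x => bf D m (S κ m g.1 x))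
    (fun g => (bf_loc m).S g.1) φ hφ key]
  apply Submodule.sum_mem
  intro g _
  apply Submodule.smul_mem
  apply Submodule.subset_span
  exact ⟨g.1, g.2, (V_toLp hκ (bf_loc m) g.1).symm⟩

end gen

end Pool.Agent.Helper42.SM
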