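import Pool.Agent.Helper42.SM10
import Pool.Agent.Helper42.AB3
import Pool.Agent.Helper65.Cyclic

/-!
Spectral multiplicities, part 11: the concrete system.
-/

open MeasureTheory Set Filter
open scoped ENNReal Topology

namespace Pool.Agent.Helper42.SM

namespace Par2

variable {P : Par} (Q : Par2 P)

/-- increments of the second kind -/
def hh (n : ℕ) (d : P.D n) : P.X := (if d.2.1 = 0 then Q.g' n else 0) - (if d.2.1 + 1 = 0 then Q.g' n else 0)

theorem kap_iE (n : ℕ) (d : P.D n) : Q.kap n d - Q.kap n (d + P.iE n 1 n) = Q.hh n d := by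
  have e1 : (d + P.iE n 1 n).1 = d.1 := by rw [P.iE_same, Prod.fst_add]; exact add_zero _
  have e2 : (d + P.iE n 1 n).2.1 = d.2.1 + 1 := by rw [P.iE_same, Prod.snd_add, Prod.fst_add]
  have e3 : (d + P.iE n 1 n).2.2 = d.2.2 := by
    rw [P.iE_same, Prod.snd_add, Prod.snd_add]
    exact add_zero _
  unfold kap hh
  rw [e1, e2, e3]
  abel

theorem hh_mem (n : ℕ) (d : P.D n) : Q.hh n d ∈ A P.D n := by
  rw [← Q.kap_iE]
  exact (A P.D n).sub_mem (Q.kap_mem n _) (Q.kap_mem n _)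

theorem e_limit (f' f : Lp ℂ 2 (mu P.D)) :
    Tendsto (fun n => inner ℂ f' (V Q.kap_mem (n + 1) (P.iE n 1) f) -
      (Fintype.card (P.D n) : ℂ)⁻¹ * ∑ d, inner ℂ f' (V Q.kap_mem n (Q.hh n d) f)) atTop (𝓝 0) := by
  refine approx_form (fun n f' f => inner ℂ f' (V Q.kap_mem (n + 1) (P.iE n 1) f) -
      (Fintype.card (P.D n) : ℂ)⁻¹ * ∑ d, inner ℂ f' (V Q.kap_mem n (Q.hh n d) f)) ?_ ?_ ?_ (CylSet P.D)
      cylSet_dense ?_ f' f
  · intro n f f' g
    simp only [inner_add_left, Finset.sum_add_distrib]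
    ring
  · intro n f g g'
    simp only [map_add, inner_add_right, Finset.sum_add_distrib]
    ring
  · intro n f g
    have b1 : ‖inner ℂ f (V Q.kap_mem (n + 1) (P.iE n 1) g)‖ ≤ ‖f‖ * ‖g‖ := by
      refine (norm_inner_le_norm _ _).trans ?_
      rw [LinearIsometry.norm_map]
    have b2 : ‖(Fintype.card (P.D n) : ℂ)⁻¹ * ∑ d, inner ℂ f (V Q.kap_mem n (Q.hh n d) g)‖ ≤ ‖f‖ * ‖g‖ := by
      rw [norm_mul, norm_inv, Complex.norm_natCast]
      have : ‖∑ d : P.D n, inner ℂ f (V Q.kap_mem n (Q.hh n d) g)‖ ≤ Fintype.card (P.D n) * (‖f‖ * ‖g‖) := by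
        refine (norm_sum_le _ _).trans ?_
        calc ∑ d : P.D n, ‖inner ℂ f (V Q.kap_mem n (Q.hh n d) g)‖ ≤ ∑ d : P.D n, ‖f‖ * ‖g‖ := by
              apply Finset.sum_le_sum
              intro d _
              refine (norm_inner_le_norm _ _).trans ?_
              rw [LinearIsometry.norm_map]
          _ = _ := by rw [Finset.sum_const, Finset.card_univ, nsmul_eq_mul]
      have hc : (0 : ℝ) < Fintype.card (P.D n) := by exact_mod_cast Fintype.card_pos
      calc (Fintype.card (P.D n) : ℝ)⁻¹ * ‖∑ d : P.D n, inner ℂ f (V Q.kap_mem n (Q.hh n d) g)‖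
          ≤ (Fintype.card (P.D n) : ℝ)⁻¹ * (Fintype.card (P.D n) * (‖f‖ * ‖g‖)) := by gcongr
        _ = ‖f‖ * ‖g‖ := by field_simp
    calc _ ≤ ‖inner ℂ f (V Q.kap_mem (n + 1) (P.iE n 1) g)‖ +
          ‖(Fintype.card (P.D n) : ℂ)⁻¹ * ∑ d, inner ℂ f (V Q.kap_mem n (Q.hh n d) g)‖ := norm_sub_le _ _
      _ ≤ ‖f‖ * ‖g‖ + ‖f‖ * ‖g‖ := add_le_add b1 b2
      _ = _ := by ring
  · rintro _ ⟨m', ψ, hψ, rfl⟩ _ ⟨m, φ, hφ, rfl⟩
    refine (tendsto_congr' ?_).mpr (tendsto_const_nhds (x := (0 : ℂ)))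
    filter_upwards [eventually_ge_atTop (max m m')] with n hn
    have hm : m ≤ n := le_of_max_le_left hn
    have hm' : m' ≤ n := le_of_max_le_right hn
    have e1 : ∀ d, inner ℂ (hψ.memLp.toLp ψ) (V Q.kap_mem n (Q.hh n d) (hφ.memLp.toLp φ)) =
        ∫ x, (starRingEnd ℂ) (ψ x) * φ (S Q.kap n (Q.hh n d) x) ∂(mu P.D) := fun d =>
      inner_koop_toLp hφ hψ (mp_S Q.kap_mem n (Q.hh n d))
    simp_rw [e1]
    rw [V_eq, inner_koop_toLp hφ hψ, cyl_formula Q.kap_mem (N := 0) hm hm' hφ hψ (g := P.iE n 1)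
      (fun i hi => P.iE_ne (by omega) _) (h := Q.hh n) (Q.kap_iE n), sub_self]

theorem avg_hh (n : ℕ) (F : P.X → ℂ) :
    (Fintype.card (P.D n) : ℂ)⁻¹ * ∑ d : P.D n, F (Q.hh n d) =
      F 0 + (P.q n : ℂ)⁻¹ * (F (Q.g' n) + F (-Q.g' n) - 2 * F 0) := by
  have hne : (0 : ZMod (P.q n)) ≠ -1 := by
    intro h
    have := neg_eq_zero.mp h.symm
    exact one_ne_zero this
  have key : ∀ d : P.D n, F (Q.hh n d) = F 0 + (if d.2.1 = 0 then F (Q.g' n) - F 0 else 0) +
      (if d.2.1 = -1 then F (-Q.g' n) - F 0 else 0) := by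
    intro d
    unfold hh
    by_cases h1 : d.2.1 = 0
    · have h2 : ¬ d.2.1 + 1 = 0 := by rw [h1, zero_add]; exact one_ne_zero
      have h3 : ¬ d.2.1 = -1 := by rw [h1]; exact hne
      rw [if_pos h1, if_neg h2, if_pos h1, if_neg h3, sub_zero]
      ring
    · by_cases h2 : d.2.1 = -1
      · have h3 : d.2.1 + 1 = 0 := by rw [h2]; exact neg_add_cancel 1
        rw [if_neg h1, if_pos h3, if_neg h1, if_pos h2, zero_sub]
        ring
      · have h3 : ¬ d.2.1 + 1 = 0 := fun h => h2 (eq_neg_of_add_eq_zero_left h)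
        rw [if_neg h1, if_neg h3, if_neg h1, if_neg h2, sub_zero]
        ring
  have h1 : ∑ d : P.D n, F (Q.hh n d) =
      (P.M n : ℂ) * ((P.k (P.i n) * P.k (P.j n) : ℕ) : ℂ) * ((P.q n : ℂ) * F 0 + (F (Q.g' n) - F 0) + (F (-Q.g' n) - F 0)) := by
    rw [Finset.sum_congr rfl (fun d _ => key d), Fintype.sum_prod_type]
    show ∑ _x : ZMod (P.M n), ∑ y : ZMod (P.q n) × ZMod (P.k (P.i n)) × ZMod (P.k (P.j n)),
      (F 0 + (if y.1 = 0 then F (Q.g' n) - F 0 else 0) + (if y.1 = -1 then F (-Q.g' n) - F 0 else 0)) = _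
    rw [Finset.sum_const, Finset.card_univ, ZMod.card, nsmul_eq_mul, Fintype.sum_prod_type_right]
    show (P.M n : ℂ) * ∑ _y : ZMod (P.k (P.i n)) × ZMod (P.k (P.j n)), ∑ x : ZMod (P.q n),
      (F 0 + (if x = 0 then F (Q.g' n) - F 0 else 0) + (if x = -1 then F (-Q.g' n) - F 0 else 0)) = _
    rw [Finset.sum_const, Finset.card_univ, Fintype.card_prod, ZMod.card, ZMod.card, nsmul_eq_mul,
      Finset.sum_add_distrib, Finset.sum_add_distrib, Finset.sum_const, Finset.card_univ, ZMod.card,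
      Finset.sum_ite_eq' Finset.univ 0, if_pos (Finset.mem_univ _), Finset.sum_ite_eq' Finset.univ (-1),
      if_pos (Finset.mem_univ _), nsmul_eq_mul, mul_assoc]
  have h2 : (Fintype.card (P.D n) : ℂ) = (P.M n : ℂ) * ((P.q n : ℂ) * ((P.k (P.i n) : ℂ) * (P.k (P.j n) : ℂ))) := by
    rw [Fintype.card_prod, Fintype.card_prod, Fintype.card_prod, ZMod.card, ZMod.card, ZMod.card, ZMod.card]
    push_cast
    ring
  have hM : (P.M n : ℂ) ≠ 0 := by exact_mod_cast (P.M_pos n).ne'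
  have hq : (P.q n : ℂ) ≠ 0 := by exact_mod_cast (P.hq n).ne_zero
  have hi : (P.k (P.i n) : ℂ) ≠ 0 := by exact_mod_cast (P.hk _).ne'
  have hj : (P.k (P.j n) : ℂ) ≠ 0 := by exact_mod_cast (P.hk _).ne'
  rw [h1, h2]
  push_cast
  field_simp
  ring

variable {Q} (hr : Rec Q)

include hr in
/-- vectors invariant under all `E a` are invariant under `C` -/
theorem C_inv {f : Lp ℂ 2 (mu P.D)} (hf : ∀ a x, VG Q.kap_mem (P.iG a x) f = f) (g : Gf P.D)
    (hg : ∀ m, (g.1 m).2.1 = 0) : VG Q.kap_mem g f = f := by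
  have h1 := Q.e_limit f f
  have h2 : ∀ n, inner ℂ f (V Q.kap_mem (n + 1) (P.iE n 1) f) -
      (Fintype.card (P.D n) : ℂ)⁻¹ * ∑ d, inner ℂ f (V Q.kap_mem n (Q.hh n d) f) =
      -((P.q n : ℂ)⁻¹ * (inner ℂ f (V Q.kap_mem n (Q.g' n) f) + inner ℂ f (V Q.kap_mem n (-Q.g' n) f) -
        2 * inner ℂ f f)) := by
    intro n
    rw [Q.avg_hh n (fun g => inner ℂ f (V Q.kap_mem n g f)), V_zero]
    have e1 : V Q.kap_mem (n + 1) (P.iE n 1) f = f := by
      have := VG_eq Q.kap_mem (P.iG n 1) (P.iE_mem (n := n + 1) (by omega) 1) f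
      rw [hf n 1] at this
      exact this.symm
    rw [e1]
    ring
  have h3 : (0 : ℂ) = -((P.q 0 : ℂ)⁻¹ * (inner ℂ f (VG Q.kap_mem g f) + inner ℂ f (VG Q.kap_mem (-g) f) -
        2 * inner ℂ f f)) := by
    refine tendsto_nhds_unique_of_frequently_eq h1 tendsto_const_nhds ?_
    refine ((hr.r2 g.1 g.2 hg).and_eventually (eventually_ge_atTop (lev g))).mono ?_
    rintro n ⟨⟨h3, h4⟩, h5⟩
    have h6 : g.1 ∈ A P.D n := A_mono h5 (lev_mem g)
    rw [h2, h3, h4, VG_eq Q.kap_mem g h6, VG_eq Q.kap_mem (-g) ((A P.D n).neg_mem h6)]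
    rfl
  have hq : (P.q 0 : ℂ) ≠ 0 := by exact_mod_cast (P.hq 0).ne_zero
  have h4 : inner ℂ f (VG Q.kap_mem g f) + inner ℂ f (VG Q.kap_mem (-g) f) - 2 * inner ℂ f f = 0 := by
    have h5 := neg_eq_zero.mp h3.symm
    rcases mul_eq_zero.mp h5 with h6 | h6
    · exact absurd h6 (inv_ne_zero hq)
    · exact h6
  have h5 : inner ℂ f (VG Q.kap_mem (-g) f) = inner ℂ (VG Q.kap_mem g f) f := by
    have e : VG Q.kap_mem (-g) (VG Q.kap_mem g f) = f := by
      rw [← VG_add, neg_add_cancel, VG_zero]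
    calc inner ℂ f (VG Q.kap_mem (-g) f) =
        inner ℂ (VG Q.kap_mem (-g) (VG Q.kap_mem g f)) (VG Q.kap_mem (-g) f) := by rw [e]
      _ = _ := LinearIsometryEquiv.inner_map_map _ _ _
  rw [h5] at h4
  rw [← sub_eq_zero, ← norm_eq_zero, ← sq_eq_zero_iff, norm_sub_sq (𝕜 := ℂ), LinearIsometryEquiv.norm_map]
  have h6 := congrArg Complex.re h4
  have h7 : (inner ℂ f (VG Q.kap_mem g f)).re = (inner ℂ (VG Q.kap_mem g f) f).re := by
    rw [← inner_conj_symm]; exact Complex.conj_re _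
  have h8 : (inner ℂ f f).re = ‖f‖ ^ 2 := by
    rw [← inner_self_eq_norm_sq (𝕜 := ℂ)]; rfl
  rw [Complex.sub_re, Complex.add_re, h7, Complex.zero_re] at h6
  have h9 : (2 * inner ℂ f f : ℂ).re = 2 * ‖f‖ ^ 2 := by
    rw [← h8]; simp
  rw [h9] at h6
  show ‖f‖ ^ 2 - 2 * (inner ℂ (VG Q.kap_mem g f) f).re + ‖f‖ ^ 2 = 0
  linarith

/-- `C` -/
def CC (P : Par) : Set (Gf P.D) := {g | ∀ m, (g.1 m).2.1 = 0}

omit hr in
theorem gen_top (P : Par) : AddSubmonoid.closure (CC P ∪ ⋃ a, Set.range (P.iG a)) = ⊤ := by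
  rw [eq_top_iff]
  have key : ∀ n, ∀ g : Gf P.D, (∀ m, n ≤ m → (g.1 m).2.1 = 0) →
      g ∈ AddSubmonoid.closure (CC P ∪ ⋃ a, Set.range (P.iG a)) := by
    intro n
    induction n with
    | zero =>
      intro g hg
      exact AddSubmonoid.subset_closure (Or.inl (fun m => hg m (Nat.zero_le m)))
    | succ n ih =>
      intro g hg
      have h1 : g = (g - P.iG n (g.1 n).2.1) + P.iG n (g.1 n).2.1 := by abel
      rw [h1]
      refine AddSubmonoid.add_mem _ (ih _ ?_) (AddSubmonoid.subset_closure (Or.inr ?_))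
      · intro m hm
        show (g.1 m - P.iE n (g.1 n).2.1 m).2.1 = 0
        rcases hm.eq_or_lt with h2 | h2
        · subst h2
          rw [P.iE_same]
          exact sub_self _
        · rw [P.iE_ne (by omega), sub_zero]
          exact hg m h2
      · rw [Set.mem_iUnion]
        exact ⟨n, _, rfl⟩
  intro g _
  obtain ⟨n, hn⟩ := g.2
  exact key n g (fun m hm => by rw [hn m hm]; rfl)

include hr in
theorem all_inv {f : Lp ℂ 2 (mu P.D)} (hf : ∀ a x, VG Q.kap_mem (P.iG a x) f = f) (g : Gf P.D) :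
    VG Q.kap_mem g f = f := by
  have hg : g ∈ AddSubmonoid.closure (CC P ∪ ⋃ a, Set.range (P.iG a)) := by rw [gen_top]; trivial
  induction hg using AddSubmonoid.closure_induction with
  | zero => exact VG_zero Q.kap_mem f
  | add g g' _ _ ih ih' => rw [VG_add, ih', ih]
  | mem g hg =>
    rcases hg with hg | hg
    · exact C_inv hr hf g hg
    · rw [Set.mem_iUnion] at hg
      obtain ⟨a, x, rfl⟩ := hg
      exact hf a x

end Par2

end Pool.Agent.Helper42.SM
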