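import Pool.Agent.Helper42.SM11

/-!
Spectral multiplicities, part 12: the concrete system satisfies the axioms of the abstract part.
-/

open MeasureTheory Set Filter
open scoped ENNReal Topology

namespace Pool.Agent.Helper42.SM

namespace Par2

variable {P : Par} (Q : Par2 P)

/-- the eigenfunctions -/
noncomputable def ef (a : ℕ) (r : ZMod (P.q a)) (x : P.X) : ℂ := AB.chi r (x a).2.1

theorem ef_loc (a : ℕ) (r : ZMod (P.q a)) : Loc (a + 1) (ef (P := P) a r) := by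
  intro x y h
  unfold ef
  rw [h a (by omega)]

theorem ef_ne (a : ℕ) (r : ZMod (P.q a)) : (ef_loc (P := P) a r).memLp.toLp _ ≠ 0 := by
  intro h
  have h1 := (ef_loc (P := P) a r).toLp_coe
  rw [h] at h1
  have h2 : ∀ᵐ x ∂(mu P.D), False := by
    filter_upwards [h1, Lp.coeFn_zero ℂ 2 (mu P.D)] with x h3 h4
    rw [h4] at h3
    have h5 : ‖ef (P := P) a r x‖ = 1 := AB.chi_norm _ _
    rw [← h3] at h5
    simp at h5
  rw [ae_iff] at h2
  simp at h2

theorem S_coord_succ (n : ℕ) (g x : P.X) : S Q.kap (n + 1) g x n = x n + g n := by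
  rw [S, S_coord Q.kap_mem n _ _ n le_rfl, Pi.sub_apply, Pi.add_apply, Q.kap_mem n _ n le_rfl,
    Q.kap_mem n _ n le_rfl, add_zero, sub_zero]

theorem ef_lt {a b : ℕ} (h : b < a) (r : ZMod (P.q a)) (x : ZMod (P.q b)) :
    VG Q.kap_mem (P.iG b x) ((ef_loc (P := P) a r).memLp.toLp _) = (ef_loc (P := P) a r).memLp.toLp _ := by
  rw [VG_eq Q.kap_mem _ (P.iE_mem (n := a + 1) (by omega) x), V_toLp Q.kap_mem (ef_loc (P := P) a r)]
  congr 1
  funext y
  unfold ef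
  rw [Q.S_coord_succ, P.iG_coe, P.iE_ne (by omega), add_zero]

theorem ef_same (a : ℕ) (r : ZMod (P.q a)) (x : ZMod (P.q a)) :
    VG Q.kap_mem (P.iG a x) ((ef_loc (P := P) a r).memLp.toLp _) =
      AB.chi r x • (ef_loc (P := P) a r).memLp.toLp _ := by
  rw [VG_eq Q.kap_mem _ (P.iE_mem (n := a + 1) (by omega) x), V_toLp Q.kap_mem (ef_loc (P := P) a r)]
  apply Lp.ext
  filter_upwards [((ef_loc (P := P) a r).S (κ := Q.kap) (P.iG a x).1).toLp_coe,
    Lp.coeFn_smul (AB.chi r x) ((ef_loc (P := P) a r).memLp.toLp _), (ef_loc (P := P) a r).toLp_coe]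
    with y h1 h2 h3
  rw [h1, h2, Pi.smul_apply, h3, smul_eq_mul]
  unfold ef
  rw [Q.S_coord_succ, P.iG_coe, P.iE_same, Prod.snd_add, Prod.fst_add, AB.chi_add, mul_comm]

/-- subgroups of the group of finitely supported elements -/
def Gm (P : Par) (m : ℕ) : AddSubgroup (Gf P.D) := (A P.D m).comap (Gf P.D).subtype

theorem mem_Gm {m : ℕ} {g : Gf P.D} : g ∈ Gm P m ↔ g.1 ∈ A P.D m := Iff.rfl

/-- operators as continuous linear maps -/
noncomputable def VC (g : Gf P.D) : Lp ℂ 2 (mu P.D) →L[ℂ] Lp ℂ 2 (mu P.D) :=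
  (VG Q.kap_mem g).toContinuousLinearEquiv.toContinuousLinearMap

theorem VC_apply (g : Gf P.D) (f : Lp ℂ 2 (mu P.D)) : Q.VC g f = VG Q.kap_mem g f := rfl

theorem span_eq (m : ℕ) : {z | ∃ g ∈ Gm P m, z = Q.VC g (bv P.D m)} =
    {z | ∃ g ∈ A P.D m, z = V Q.kap_mem m g (bv P.D m)} := by
  ext z
  constructor
  · rintro ⟨g, hg, rfl⟩
    exact ⟨g.1, hg, by rw [Q.VC_apply, VG_eq Q.kap_mem g hg]⟩
  · rintro ⟨g, hg, rfl⟩
    exact ⟨⟨g, m, hg⟩, hg, by rw [Q.VC_apply, VG_eq Q.kap_mem _ (n := m) hg]⟩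

theorem cyclic : ∃ h, (Submodule.span ℂ (Set.range fun g => VG Q.kap_mem g h)).topologicalClosure = ⊤ := by
  refine Pool.Agent.Helper65.Cyclic.exists_cyclic Q.VC ?_ ?_ (Gm P) ?_ ?_ (fun m => bv P.D m) ?_ ?_
  · ext1 f
    exact VG_zero Q.kap_mem f
  · intro a b
    ext1 f
    exact VG_add Q.kap_mem a b f
  · intro n m h g hg
    exact A_mono h hg
  · intro m
    apply Finite.of_injective (fun g : Gm P m => (⟨g.1.1, g.2⟩ : A P.D m))
    intro g h hgh
    exact Subtype.ext (Subtype.ext (Subtype.mk.inj hgh))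
  · intro m
    rw [Q.span_eq]
    have h1 := cyl_mem_span Q.kap_mem ((bf_loc (D := P.D) m).mono (Nat.le_succ m))
    exact h1
  · rw [Set.eq_univ_iff_forall]
    intro f
    rw [Metric.mem_closure_iff]
    intro ε hε
    obtain ⟨_, ⟨m, φ, hφ, rfl⟩, h⟩ := cylSet_dense f ε hε
    refine ⟨_, ?_, by rw [dist_eq_norm]; exact h⟩
    rw [Set.mem_iUnion]
    refine ⟨m, ?_⟩
    rw [Q.span_eq]
    exact cyl_mem_span Q.kap_mem hφ

variable {Q} (hr : Rec Q)

/-- the concrete system -/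
noncomputable def sys : AB.Sys (Lp ℂ 2 (mu P.D)) (Gf P.D) where
  V := VG Q.kap_mem
  V_zero := VG_zero Q.kap_mem
  V_add := VG_add Q.kap_mem
  U := Q.U
  U_V := UU_VG Q.kap_mem (tt P) Q.sum_bad
  k := P.k
  q := P.q
  hk := P.hk
  hq := P.hq
  u := P.u
  hu := P.hu
  E := P.iG
  C := CC P
  gen := gen_top P
  w1 := fun _ hZ g hg _ hz => w1 hr hZ.1 hZ.2 g hg hz
  w2 := fun _ hZ a x _ hz => w2 hr hZ.1 hZ.2 a x hz
  w3 := fun _ hZ a b hba x _ hz => w3 hr hZ.1 hZ.2 a b hba x hz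
  R := P.RR
  ν := P.nuG
  r1 := fun a g _ hf => Q.RR_VG a g hf
  r2 := fun a _ hf => Q.RR_UU a hf
  r3 := P.RR_iter
  r4 := fun a x => Subtype.ext (P.nu_iE_same a x)
  r5 := fun a b x hb => Subtype.ext (P.nu_iE_ne (by omega) x)
  r6 := P.nuG_surj
  one := oneL
  one_ne := oneL_ne
  V_one := fun g => koop_one _
  U_one := koop_one (mp_Tf (tt P) Q.kap_mem Q.sum_bad)
  erg := fun f hf h0 => const_of_inv Q.kap_mem f (all_inv hr hf) h0
  cyc := Q.cyclic
  nz := by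
    intro a r _
    exact ⟨(ef_loc (P := P) a r).memLp.toLp _, ef_ne a r, fun b hb x => Q.ef_lt hb r x,
      fun x => Q.ef_same a r x⟩

end Par2

end Pool.Agent.Helper42.SM
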