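import Pool.Agent.Helper42.SM12

/-!
Spectral multiplicities, part 13: existence of the parameters.
-/

open MeasureTheory Set Filter
open scoped ENNReal Topology

namespace Pool.Agent.Helper42.SM

theorem exists_prime_order (K : ℕ) (hK : 0 < K) : ∃ p : ℕ, p.Prime ∧ ∃ u : ZMod p, orderOf u = K := by
  obtain ⟨p, hp, _, h⟩ := Nat.exists_prime_gt_modEq_one (k := K) 0 hK.ne'
  refine ⟨p, hp, ?_⟩
  have : Fact p.Prime := ⟨hp⟩
  obtain ⟨g, hg⟩ := IsCyclic.exists_ofOrder_eq_natCard (α := (ZMod p)ˣ)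
  rw [Nat.card_eq_fintype_card, ZMod.card_units] at hg
  have hd : K ∣ p - 1 := (Nat.modEq_iff_dvd' hp.one_le).mp h.symm
  obtain ⟨c, hc⟩ := hd
  have hp1 : 0 < p - 1 := Nat.sub_pos_of_lt hp.one_lt
  have hc0 : c ≠ 0 := by
    rintro rfl
    rw [mul_zero] at hc
    omega
  refine ⟨((g ^ c : (ZMod p)ˣ) : ZMod p), ?_⟩
  rw [orderOf_units, orderOf_pow_of_dvd hc0 (by rw [hg, hc]; exact Dvd.intro_left _ rfl), hg, hc,
    Nat.mul_div_cancel _ (Nat.pos_of_ne_zero hc0)]

/-- a sequence attaining every value infinitely often -/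
theorem exists_recurrent (T : Type) [Denumerable T] : ∃ F : ℕ → T, ∀ t, ∃ᶠ n in atTop, F n = t := by
  refine ⟨fun n => ((Denumerable.eqv (T × ℕ)).symm n).1, fun t => ?_⟩
  rw [Nat.frequently_atTop_iff_infinite]
  apply Set.infinite_of_injective_forall_mem (f := fun s : ℕ => Denumerable.eqv (T × ℕ) (t, s))
  · intro s s' h
    have := (Denumerable.eqv (T × ℕ)).injective h
    exact (Prod.mk.inj this).2
  · intro s
    show ((Denumerable.eqv (T × ℕ)).symm (Denumerable.eqv (T × ℕ) (t, s))).1 = t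
    rw [Equiv.symm_apply_apply]

/-- the countable set of group parameters -/
def CF (P : Par) : Set P.X := {g | g ∈ Gf P.D ∧ ∀ m, (g m).2.1 = 0}

theorem CF_countable (P : Par) : (CF P).Countable := by
  have h1 : CF P ⊆ ⋃ n, (A P.D n : Set P.X) := by
    rintro g ⟨⟨n, hn⟩, _⟩
    exact Set.mem_iUnion.mpr ⟨n, hn⟩
  refine Set.Countable.mono h1 (Set.countable_iUnion (fun n => ?_))
  exact (@Set.toFinite _ (A P.D n : Set P.X) (finite_A n)).countable

/-- the tuples of parameters -/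
abbrev TT : Type := ℕ × ℕ × ℕ × ℕ × ℕ × ℕ × ℕ

theorem exists_params (M : Set ℕ) (hM : M.Nonempty) (h0 : 0 ∉ M) :
    ∃ (P : Par) (Q : Par2 P), Rec Q ∧ range P.k = M := by
  classical
  have hpos : ∀ K ∈ M, 0 < K := fun K hK => Nat.pos_of_ne_zero (fun h => h0 (h ▸ hK))
  have : Nonempty M := hM.to_subtype
  obtain ⟨k', hk'⟩ := exists_surjective_nat M
  have hex : ∀ K : M, ∃ p : ℕ, p.Prime ∧ ∃ u : ZMod p, orderOf u = K.1 := fun K =>
    exists_prime_order K.1 (hpos K.1 K.2)
  choose p hp u hu using hex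
  obtain ⟨F, hF⟩ := exists_recurrent TT
  let P : Par :=
    { k := fun n => (k' (F n).1).1
      q := fun n => p (k' (F n).1)
      u := fun n => u (k' (F n).1)
      i := fun n => (F n).2.1
      j := fun n => (F n).2.2.1
      b := fun n => (F n).2.2.2.1
      e := fun n => (F n).2.2.2.2.1
      hk := fun n => hpos _ (k' (F n).1).2
      hq := fun n => hp _
      hu := fun n => hu _ }
  have hne : (CF P).Nonempty := ⟨0, (Gf P.D).zero_mem, fun _ => rfl⟩
  obtain ⟨en, hen⟩ := (CF_countable P).exists_eq_range hne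
  have hen' : ∀ s, en s ∈ CF P := fun s => by rw [hen]; exact mem_range_self s
  let Q : Par2 P :=
    { g := fun n => if en (F n).2.2.2.2.2.1 ∈ A P.D n then en (F n).2.2.2.2.2.1 else 0
      g' := fun n => if en (F n).2.2.2.2.2.2 ∈ A P.D n then en (F n).2.2.2.2.2.2 else 0
      hg := fun n => by
        split_ifs with h
        · exact h
        · exact (A P.D n).zero_mem
      hg' := fun n => by
        split_ifs with h
        · exact h
        · exact (A P.D n).zero_mem
      hgC := fun n m => by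
        split_ifs with h
        · exact (hen' _).2 m
        · rfl
      hgC' := fun n m => by
        split_ifs with h
        · exact (hen' _).2 m
        · rfl }
  refine ⟨P, Q, ⟨?_, ?_⟩, ?_⟩
  · intro a b c d g hg hg'
    have h1 : g ∈ CF P := ⟨hg, hg'⟩
    rw [hen] at h1
    obtain ⟨s, rfl⟩ := h1
    obtain ⟨m, hm⟩ := hg
    refine ((hF (0, a, b, c, d, s, 0)).and_eventually (eventually_ge_atTop m)).mono ?_
    rintro n ⟨h2, h3⟩
    refine ⟨?_, ?_, ?_, ?_, ?_⟩
    · show (F n).2.1 = a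
      rw [h2]
    · show (F n).2.2.1 = b
      rw [h2]
    · show (F n).2.2.2.1 = c
      rw [h2]
    · show (F n).2.2.2.2.1 = d
      rw [h2]
    · show (if en (F n).2.2.2.2.2.1 ∈ A P.D n then en (F n).2.2.2.2.2.1 else 0) = en s
      have h4 : (F n).2.2.2.2.2.1 = s := by rw [h2]
      rw [h4, if_pos (A_mono h3 hm)]
  · intro g hg hg'
    have h1 : g ∈ CF P := ⟨hg, hg'⟩
    rw [hen] at h1
    obtain ⟨s, rfl⟩ := h1
    obtain ⟨m, hm⟩ := hg
    refine ((hF ((F 0).1, 0, 0, 0, 0, 0, s)).and_eventually (eventually_ge_atTop m)).mono ?_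
    rintro n ⟨h2, h3⟩
    constructor
    · show p (k' (F n).1) = p (k' (F 0).1)
      have h4 : (F n).1 = (F 0).1 := by rw [h2]
      rw [h4]
    · show (if en (F n).2.2.2.2.2.2 ∈ A P.D n then en (F n).2.2.2.2.2.2 else 0) = en s
      have h4 : (F n).2.2.2.2.2.2 = s := by rw [h2]
      rw [h4, if_pos (A_mono h3 hm)]
  · ext K
    constructor
    · rintro ⟨n, rfl⟩
      exact (k' (F n).1).2
    · intro hK
      obtain ⟨w, hw⟩ := hk' ⟨K, hK⟩
      obtain ⟨n, hn⟩ := (hF (w, 0, 0, 0, 0, 0, 0)).exists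
      refine ⟨n, ?_⟩
      show (k' (F n).1).1 = K
      have h4 : (F n).1 = w := by rw [hn]
      rw [h4, hw]

end Pool.Agent.Helper42.SM
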