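import Pool.Agent.Helper42.SM13

/-!
Spectral multiplicities, part 14: ergodicity, and absence of atoms.
-/

open MeasureTheory Set Filter
open scoped ENNReal Topology

namespace Pool.Agent.Helper42.SM

namespace Par2

variable {P : Par} {Q : Par2 P} (hr : Rec Q)

include hr

/-- vectors fixed by `U` are fixed by `E a` -/
theorem fix_E {f : Lp ℂ 2 (mu P.D)} (hf : Q.U f = f) (a : ℕ) (x : ZMod (P.q a)) :
    VG Q.kap_mem (P.iG a x) f = f := by
  have hU : ∀ N : ℕ, (Q.U ^ N) f = f := by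
    intro N
    induction N with
    | zero => rfl
    | succ N ih => rw [pow_succ', LinearIsometryEquiv.coe_mul, Function.comp_apply, ih, hf]
  have h1 := Q.wl f f
  set B : ℕ → ℕ → P.X := P.bet a a 0 x.val 0 with hBdef
  have hB : ∀ l l', B l l' ∈ A P.D (a + 1) := fun l l' =>
    P.bet_mem (A P.D (a + 1)).zero_mem (Nat.lt_succ_self a) l l'
  have h2 : (0 : ℂ) = inner ℂ f f - ((P.k a : ℂ)⁻¹ * (P.k a : ℂ)⁻¹) * ∑ l ∈ Finset.range (P.k a),
      ∑ l' ∈ Finset.range (P.k a), inner ℂ f (V Q.kap_mem (a + 1) (B l l') f) := by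
    refine tendsto_nhds_unique_of_frequently_eq h1 tendsto_const_nhds ?_
    refine ((freq_beta hr a a 0 x.val (Gf P.D).zero_mem (fun _ => rfl)).and_eventually
      (eventually_ge_atTop (a + 1))).mono ?_
    rintro n ⟨⟨h3, h3', h4⟩, h5⟩
    rw [hU, h3, h3']
    congr 2
    apply Finset.sum_congr rfl
    intro l _
    apply Finset.sum_congr rfl
    intro l' _
    rw [h4, V_of_mem Q.kap_mem h5 (hB l l')]
  have hk : (P.k a : ℂ) ≠ 0 := by exact_mod_cast (P.hk _).ne'
  -- all the terms are extremal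
  have h3 : ∑ l ∈ Finset.range (P.k a), ∑ l' ∈ Finset.range (P.k a),
      (inner ℂ f f - inner ℂ f (V Q.kap_mem (a + 1) (B l l') f)) = 0 := by
    simp only [Finset.sum_sub_distrib, Finset.sum_const, Finset.card_range, nsmul_eq_mul]
    have h4 : inner ℂ f f = ((P.k a : ℂ)⁻¹ * (P.k a : ℂ)⁻¹) * ∑ l ∈ Finset.range (P.k a),
      ∑ l' ∈ Finset.range (P.k a), inner ℂ f (V Q.kap_mem (a + 1) (B l l') f) := by
      exact (sub_eq_zero.mp h2.symm)
    rw [h4]
    field_simp
    ring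
  have h4 : ∑ l ∈ Finset.range (P.k a), ∑ l' ∈ Finset.range (P.k a),
      (inner ℂ f f - inner ℂ f (V Q.kap_mem (a + 1) (B l l') f)).re = 0 := by
    have := congrArg Complex.re h3
    rw [Complex.re_sum, Complex.zero_re] at this
    rw [← this]
    apply Finset.sum_congr rfl
    intro l _
    rw [Complex.re_sum]
  have hff : (inner ℂ f f).re = ‖f‖ ^ 2 := by
    rw [← inner_self_eq_norm_sq (𝕜 := ℂ)]; rfl
  have hpos : ∀ l l', 0 ≤ (inner ℂ f f - inner ℂ f (V Q.kap_mem (a + 1) (B l l') f)).re := by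
    intro l l'
    rw [Complex.sub_re, hff]
    have h5 := Complex.re_le_norm (inner ℂ f (V Q.kap_mem (a + 1) (B l l') f))
    have h6 := norm_inner_le_norm (𝕜 := ℂ) f (V Q.kap_mem (a + 1) (B l l') f)
    rw [LinearIsometry.norm_map] at h6
    nlinarith
  have h5 := (Finset.sum_eq_zero_iff_of_nonneg (fun l _ => Finset.sum_nonneg (fun l' _ => hpos l l'))).mp h4 0
    (Finset.mem_range.mpr (P.hk a))
  have h6 := (Finset.sum_eq_zero_iff_of_nonneg (fun l' _ => hpos 0 l')).mp h5 0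
    (Finset.mem_range.mpr (P.hk a))
  have hB0 : B 0 0 = P.iE a x := by
    rw [hBdef]
    unfold Par.bet
    simp
  rw [hB0, Complex.sub_re, hff] at h6
  rw [VG_eq Q.kap_mem _ (P.iE_mem (Nat.lt_succ_self a) x)]
  show V Q.kap_mem (a + 1) (P.iE a x) f = f
  rw [← sub_eq_zero, ← norm_eq_zero, ← sq_eq_zero_iff, norm_sub_sq (𝕜 := ℂ), LinearIsometry.norm_map]
  have h7 : (inner ℂ (V Q.kap_mem (a + 1) (P.iE a x) f) f).re =
      (inner ℂ f (V Q.kap_mem (a + 1) (P.iE a x) f)).re := by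
    rw [← inner_conj_symm]; exact Complex.conj_re _
  show ‖f‖ ^ 2 - 2 * (inner ℂ (V Q.kap_mem (a + 1) (P.iE a x) f) f).re + ‖f‖ ^ 2 = 0
  rw [h7]
  linarith

theorem fix_zero {f : Lp ℂ 2 (mu P.D)} (hf : Q.U f = f) (h0 : inner ℂ oneL f = 0) : f = 0 :=
  const_of_inv Q.kap_mem f (all_inv hr (fun a x => fix_E hr hf a x)) h0

/-- ergodicity -/
theorem ergodic : Ergodic (Te (tt P) Q.kap_mem) (mu P.D) := by
  refine ⟨mp_Tf (tt P) Q.kap_mem Q.sum_bad, ⟨?_⟩⟩
  intro E hE hinv
  have hinv' : ∀ x, Tf Q.kap (tt P) x ∈ E ↔ x ∈ E := fun x => by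
    have : x ∈ (Te (tt P) Q.kap_mem) ⁻¹' E ↔ x ∈ E := by rw [hinv]
    exact this
  set c : ℂ := ((mu P.D).real E : ℂ) with hc
  set f : Lp ℂ 2 (mu P.D) := indicatorConstLp 2 hE (measure_ne_top _ _) (1 : ℂ) - c • oneL with hf
  have hcoe : f =ᵐ[mu P.D] fun x => E.indicator (fun _ => (1 : ℂ)) x - c := by
    filter_upwards [Lp.coeFn_sub (indicatorConstLp 2 hE (measure_ne_top (mu P.D) E) (1 : ℂ)) (c • oneL),
      Lp.coeFn_smul c (oneL : Lp ℂ 2 (mu P.D)), oneL_coe (D := P.D),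
      indicatorConstLp_coeFn (p := 2) (hs := hE) (hμs := measure_ne_top (mu P.D) E) (c := (1 : ℂ))]
      with x h1 h2 h3 h4
    rw [hf, h1, Pi.sub_apply, h2, Pi.smul_apply, h3, h4, smul_eq_mul, mul_one]
  have hmp := mp_Tf (tt P) Q.kap_mem Q.sum_bad
  have hU : Q.U f = f := by
    show UU Q.kap_mem (tt P) Q.sum_bad f = f
    rw [UU_eq]
    apply Lp.ext
    filter_upwards [koop_coe (Tf Q.kap (tt P)) hmp f, hcoe, hmp.quasiMeasurePreserving.ae hcoe]
      with x h1 h2 h3
    rw [h1, h2, h3]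
    congr 1
    by_cases hx : x ∈ E
    · rw [Set.indicator_of_mem hx, Set.indicator_of_mem ((hinv' x).mpr hx)]
    · rw [Set.indicator_of_notMem hx, Set.indicator_of_notMem (fun h => hx ((hinv' x).mp h))]
  have h0 : inner ℂ oneL f = 0 := by
    rw [inner_oneL, integral_congr_ae hcoe, integral_sub, integral_indicator hE, integral_const]
    · simp [hc]
    · exact (integrable_const (1 : ℂ)).indicator hE
    · exact integrable_const c
  have hz := fix_zero hr hU h0
  rw [hz] at hcoe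
  rw [Filter.eventuallyConst_set']
  by_cases hE0 : mu P.D E = 0
  · left
    exact ae_eq_empty.mpr hE0
  · right
    have hc0 : c ≠ 0 := by
      rw [hc]
      have : (mu P.D).real E ≠ 0 := by
        rw [measureReal_def, ENNReal.toReal_ne_zero]
        exact ⟨hE0, measure_ne_top _ _⟩
      exact_mod_cast this
    filter_upwards [hcoe, Lp.coeFn_zero ℂ 2 (mu P.D)] with x h1 h2
    rw [h2] at h1
    show (x ∈ E) = (x ∈ univ)
    rw [eq_iff_iff]
    refine ⟨fun _ => trivial, fun _ => ?_⟩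
    by_contra hx
    rw [Set.indicator_of_notMem hx] at h1
    apply hc0
    have : (0 : ℂ) = 0 - c := h1
    rw [zero_sub] at this
    exact neg_eq_zero.mp this.symm

end Par2

theorem noAtoms (P : Par) : NoAtoms (mu P.D) := by
  refine ⟨fun x => ?_⟩
  have h1 : ∀ n, mu P.D {x} ≤ (2⁻¹ : ℝ≥0∞) ^ n := by
    intro n
    have h2 : ({x} : Set P.X) ⊆ {y | y n ∈ ({x n} : Finset (P.D n))} := by
      rintro _ rfl
      simp
    refine (measure_mono h2).trans ?_
    rw [mu_coord, Finset.card_singleton, Nat.cast_one, one_div, ← ENNReal.inv_pow, ENNReal.inv_le_inv]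
    have h3 : 2 ^ n ≤ Fintype.card (P.D n) := by
      have h4 : P.M n ≤ Fintype.card (P.D n) := by
        rw [Fintype.card_prod, ZMod.card]
        exact Nat.le_mul_of_pos_right _ Fintype.card_pos
      exact (Par2.two_pow_le_N n).trans ((Nat.le_mul_of_pos_left _ (P.L_pos n)).trans h4)
    exact_mod_cast h3
  have h2 := ge_of_tendsto' (ENNReal.tendsto_pow_atTop_nhds_zero_of_lt_one
    (ENNReal.inv_lt_one.mpr ENNReal.one_lt_two)) h1
  exact le_antisymm h2 bot_le

end Pool.Agent.Helper42.SM
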