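import Pool.Agent.Helper42.SM1

/-!
Spectral multiplicities, part 2: the product measure and its invariance.
-/

open MeasureTheory Set Filter
open scoped ENNReal Topology

namespace Pool.Agent.Helper42.SM

/-- uniform measure on a finite type -/
noncomputable def unif (α : Type*) [Fintype α] [Nonempty α] [MeasurableSpace α] : Measure α :=
  (PMF.uniformOfFintype α).toMeasure

instance (α : Type*) [Fintype α] [Nonempty α] [MeasurableSpace α] : IsProbabilityMeasure (unif α) := by
  unfold unif; infer_instance

theorem unif_singleton (α : Type*) [Fintype α] [Nonempty α] [MeasurableSpace α]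
    [MeasurableSingletonClass α] (a : α) : unif α {a} = (Fintype.card α : ℝ≥0∞)⁻¹ := by
  unfold unif
  rw [PMF.toMeasure_apply_singleton _ _ (measurableSet_singleton a), PMF.uniformOfFintype_apply]

theorem unif_map (α : Type*) [Fintype α] [Nonempty α] [MeasurableSpace α]
    [MeasurableSingletonClass α] (e : α ≃ α) : (unif α).map e = unif α := by
  apply Measure.ext_of_singleton
  intro a
  rw [Measure.map_apply (measurable_of_countable _) (measurableSet_singleton a), unif_singleton]
  have : (e ⁻¹' {a}) = {e.symm a} := by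
    ext x
    simp [Equiv.eq_symm_apply]
  rw [this, unif_singleton]

section

variable (D : ℕ → Type*) [∀ n, AddCommGroup (D n)] [∀ n, Fintype (D n)]
  [∀ n, MeasurableSpace (D n)] [∀ n, MeasurableSingletonClass (D n)]

/-- the uniform measure on the product -/
noncomputable def mu : Measure (∀ n, D n) := Measure.infinitePi (fun n => unif (D n))

instance : IsProbabilityMeasure (mu D) := by unfold mu; infer_instance

variable {D}

theorem mp_coord (r : ∀ n, D n ≃ D n) :
    MeasurePreserving (fun (x : ∀ n, D n) n => r n (x n)) (mu D) (mu D) := by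
  refine ⟨measurable_pi_lambda _ (fun n => (measurable_of_countable _).comp (measurable_pi_apply n)), ?_⟩
  unfold mu
  rw [Measure.infinitePi_map_pi (f := fun n => r n) _ (fun n => measurable_of_countable _)]
  congr 1
  funext n
  exact unif_map (D n) (r n)

theorem mp_add (g : ∀ n, D n) : MeasurePreserving (fun x : ∀ n, D n => x + g) (mu D) (mu D) :=
  mp_coord (fun n => Equiv.addRight (g n))

theorem measure_fiber {X : Type*} [MeasurableSpace X] (μ : Measure X) {ι : Type*} [Fintype ι]
    [MeasurableSpace ι] [MeasurableSingletonClass ι] {p : X → ι} (hp : Measurable p) {E : Set X}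
    (hE : MeasurableSet E) : ∑ d, μ (p ⁻¹' {d} ∩ E) = μ E := by
  have h := sum_measure_preimage_singleton (μ := μ.restrict E) (Finset.univ : Finset ι) (f := p)
    (fun y _ => hp (measurableSet_singleton y))
  rw [Finset.coe_univ, preimage_univ, Measure.restrict_apply_univ] at h
  rw [← h]
  apply Finset.sum_congr rfl
  intro d _
  rw [Measure.restrict_apply (hp (measurableSet_singleton d))]

theorem mp_pieces {X : Type*} [MeasurableSpace X] {μ : Measure X} {ι : Type*} [Fintype ι]
    [MeasurableSpace ι] [MeasurableSingletonClass ι] {p : X → ι} (hp : Measurable p)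
    {G : ι → X → X} (hG : ∀ d, MeasurePreserving (G d) μ μ) (τ : ι ≃ ι)
    (hpG : ∀ d x, p (G d x) = τ d ↔ p x = d) {F : X → X} (hF : ∀ x, F x = G (p x) x) :
    MeasurePreserving F μ μ := by
  have hfib : ∀ E : Set X, F ⁻¹' E = ⋃ d, (p ⁻¹' {d} ∩ (G d) ⁻¹' E) := by
    intro E
    ext x
    simp only [mem_preimage, mem_iUnion, mem_inter_iff, mem_singleton_iff]
    constructor
    · intro h
      exact ⟨p x, rfl, by rw [← hF]; exact h⟩
    · rintro ⟨d, h1, h2⟩
      rw [hF, h1]; exact h2
  have hmeas : Measurable F := by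
    intro E hE
    rw [hfib]
    exact MeasurableSet.iUnion (fun d => (hp (measurableSet_singleton d)).inter ((hG d).measurable hE))
  refine ⟨hmeas, ?_⟩
  ext E hE
  rw [Measure.map_apply hmeas hE, ← measure_fiber μ hp (hmeas hE), ← measure_fiber μ hp hE,
    ← Equiv.sum_comp τ (fun d => μ (p ⁻¹' {d} ∩ E))]
  apply Finset.sum_congr rfl
  intro d _
  have h1 : p ⁻¹' {d} ∩ F ⁻¹' E = (G d) ⁻¹' (p ⁻¹' {τ d} ∩ E) := by
    ext x
    simp only [mem_inter_iff, mem_preimage, mem_singleton_iff, hpG]
    constructor
    · rintro ⟨h1, h2⟩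
      rw [hF, h1] at h2
      exact ⟨h1, h2⟩
    · rintro ⟨h1, h2⟩
      refine ⟨h1, ?_⟩
      rw [hF, h1]
      exact h2
  rw [h1, (hG d).measure_preimage ((hp (measurableSet_singleton _)).inter hE).nullMeasurableSet]

theorem measurable_coord (n : ℕ) : Measurable (fun x : ∀ n, D n => x n) := measurable_pi_apply n

variable {κ : ∀ n, D n → (∀ m, D m)} (hκ : ∀ n d, κ n d ∈ A D n)

include hκ in
theorem mp_S (n : ℕ) : ∀ g : ∀ m, D m, MeasurePreserving (S κ n g) (mu D) (mu D) := by
  induction n with
  | zero => intro g; exact mp_add g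
  | succ n ih =>
    intro g
    refine mp_pieces (measurable_coord n) (G := fun d => S κ n (g + κ n d - κ n (d + g n)))
      (fun d => ih _) (Equiv.addRight (g n)) ?_ (fun x => rfl)
    intro d x
    rw [S_coord hκ n _ _ n le_rfl, Pi.sub_apply, Pi.add_apply, hκ n _ n le_rfl,
      hκ n _ n le_rfl, add_zero, sub_zero, Equiv.coe_addRight, add_left_inj]

theorem mu_coord (n : ℕ) (B : Finset (D n)) :
    mu D {x | x n ∈ B} = (B.card : ℝ≥0∞) / Fintype.card (D n) := by
  have h1 : {x : ∀ n, D n | x n ∈ B} = (fun x : ∀ n, D n => x n) ⁻¹' (B : Set (D n)) := rfl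
  rw [h1, ← Measure.map_apply (measurable_coord n) (Finset.measurableSet B)]
  unfold mu
  rw [Measure.infinitePi_map_eval, ← sum_measure_singleton]
  simp_rw [unif_singleton]
  rw [Finset.sum_const, nsmul_eq_mul, div_eq_mul_inv]

/-- functions depending on the first `m` coordinates -/
def Loc {D : ℕ → Type*} {β : Type*} (m : ℕ) (φ : (∀ n, D n) → β) : Prop :=
  ∀ x y, (∀ i, i < m → x i = y i) → φ x = φ y

omit [∀ n, AddCommGroup (D n)] [∀ n, Fintype (D n)] [∀ n, MeasurableSpace (D n)]
  [∀ n, MeasurableSingletonClass (D n)] in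
theorem Loc.mono {β : Type*} {m n : ℕ} (h : m ≤ n) {φ : (∀ n, D n) → β} (hφ : Loc m φ) : Loc n φ :=
  fun x y hxy => hφ x y (fun i hi => hxy i (hi.trans_le h))

theorem Loc.factor {β : Type*} {m : ℕ} {φ : (∀ n, D n) → β} (hφ : Loc m φ) :
    ∃ ψ : (∀ i : Finset.range m, D i) → β, φ = ψ ∘ (Finset.range m).restrict := by
  classical
  refine ⟨fun z => φ (fun n => if h : n < m then z ⟨n, Finset.mem_range.mpr h⟩ else 0), ?_⟩
  funext x
  apply hφ
  intro i hi
  simp [hi]

theorem Loc.measurable {β : Type*} [MeasurableSpace β] {m : ℕ} {φ : (∀ n, D n) → β} (hφ : Loc m φ) :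
    Measurable φ := by
  obtain ⟨ψ, rfl⟩ := hφ.factor
  exact (measurable_of_countable ψ).comp (Finset.measurable_restrict _)

theorem Loc.bounded {m : ℕ} {φ : (∀ n, D n) → ℂ} (hφ : Loc m φ) : ∃ C : ℝ, ∀ x, ‖φ x‖ ≤ C := by
  obtain ⟨ψ, rfl⟩ := hφ.factor
  obtain ⟨C, hC⟩ := (Set.finite_range (fun z => ‖ψ z‖)).bddAbove
  exact ⟨C, fun x => hC ⟨_, rfl⟩⟩

theorem Loc.integrable {m : ℕ} {φ : (∀ n, D n) → ℂ} (hφ : Loc m φ) : Integrable φ (mu D) := by
  obtain ⟨C, hC⟩ := hφ.bounded
  exact Integrable.of_bound hφ.measurable.aestronglyMeasurable C (Eventually.of_forall hC)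

/-- independence of a coordinate -/
theorem integral_coord (n : ℕ) (F : D n → (∀ m, D m) → ℂ) (hF : ∀ d, Integrable (F d) (mu D))
    (hinv : ∀ d c x, F d (x + Pi.single n c) = F d x) :
    ∫ x, F (x n) x ∂(mu D) = (Fintype.card (D n) : ℂ)⁻¹ * ∑ d, ∫ x, F d x ∂(mu D) := by
  classical
  have key : ∀ d d', ∫ x : ∀ m, D m, (if x n = d' then F d x else 0) ∂(mu D) =
      ∫ x : ∀ m, D m, (if x n = d then F d x else 0) ∂(mu D) := by
    intro d d'
    have hmp := mp_add (D := D) (Pi.single n (d' - d))
    have hemb : MeasurableEmbedding (fun x : ∀ n, D n => x + Pi.single n (d' - d)) := by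
      let e : (∀ n, D n) ≃ᵐ (∀ n, D n) :=
        { toFun := fun x => x + Pi.single n (d' - d)
          invFun := fun x => x + -Pi.single n (d' - d)
          left_inv := fun x => by simp
          right_inv := fun x => by simp
          measurable_toFun := hmp.measurable
          measurable_invFun := (mp_add (D := D) (-Pi.single n (d' - d))).measurable }
      exact e.measurableEmbedding
    rw [← hmp.integral_comp hemb (fun x => if x n = d' then F d x else 0)]
    congr 1
    funext x
    simp only [hinv, Pi.add_apply, Pi.single_eq_same]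
    have : (x n + (d' - d) = d') ↔ (x n = d) := by
      constructor
      · intro h
        have h' : x n = d' - (d' - d) := eq_sub_of_add_eq h
        rw [h', sub_sub_cancel]
      · intro h; rw [h]; abel
    by_cases h : x n = d
    · rw [if_pos h, if_pos (this.mpr h)]
    · rw [if_neg h, if_neg (fun h' => h (this.mp h'))]
  have hint : ∀ d d', Integrable (fun x : ∀ m, D m => if x n = d' then F d x else 0) (mu D) := by
    intro d d'
    have : (fun x : ∀ m, D m => if x n = d' then F d x else 0) =
        ((fun x : ∀ n, D n => x n) ⁻¹' {d'}).indicator (F d) := by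
      funext x
      simp [Set.indicator]
    rw [this]
    exact (hF d).indicator (measurable_coord n (measurableSet_singleton d'))
  have key2 : ∀ d, ∫ x : ∀ m, D m, (if x n = d then F d x else 0) ∂(mu D) =
      (Fintype.card (D n) : ℂ)⁻¹ * ∫ x, F d x ∂(mu D) := by
    intro d
    have h1 : ∫ x, F d x ∂(mu D) = ∑ d' : D n, ∫ x : ∀ m, D m, (if x n = d' then F d x else 0) ∂(mu D) := by
      rw [← integral_finsetSum _ (fun d' _ => hint d d')]
      congr 1
      funext x
      simp
    rw [h1, Finset.sum_congr rfl (fun d' _ => key d d'), Finset.sum_const, Finset.card_univ,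
      nsmul_eq_mul, ← mul_assoc, inv_mul_cancel₀, one_mul]
    exact_mod_cast Fintype.card_ne_zero
  have h2 : ∫ x, F (x n) x ∂(mu D) = ∑ d : D n, ∫ x : ∀ m, D m, (if x n = d then F d x else 0) ∂(mu D) := by
    rw [← integral_finsetSum _ (fun d _ => hint d d)]
    congr 1
    funext x
    simp
  rw [h2, Finset.mul_sum]
  exact Finset.sum_congr rfl (fun d _ => key2 d)

end

end Pool.Agent.Helper42.SM
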