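import Pool.Agent.Helper42.SM2

/-!
Spectral multiplicities, part 3: the limit transformation `T = lim S n t`.
-/

open MeasureTheory Set Filter
open scoped ENNReal Topology

namespace Pool.Agent.Helper42.SM

variable {D : ℕ → Type*} [∀ n, AddCommGroup (D n)] [∀ n, Fintype (D n)]
  [∀ n, MeasurableSpace (D n)] [∀ n, MeasurableSingletonClass (D n)]
variable (κ : ∀ n, D n → (∀ m, D m)) (t : ∀ m, D m)

/-- points where `S (n+1) t` may differ from `S n t` -/
def Bad (n : ℕ) : Set (∀ m, D m) := {x | κ n (x n) ≠ κ n (x n + t n)}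

/-- the invariant set on which the limit exists -/
def GG : Set (∀ m, D m) :=
  {x | ∀ z : ℤ, ∃ m, ∀ n, m ≤ n → κ n (x n + z • t n) = κ n (x n + (z + 1) • t n)}

omit [∀ n, Fintype (D n)] [∀ n, MeasurableSpace (D n)] [∀ n, MeasurableSingletonClass (D n)] in
theorem GG_zero {x : ∀ m, D m} (h : x ∈ GG κ t) :
    ∃ m, ∀ n, m ≤ n → κ n (x n) = κ n (x n + t n) := by
  obtain ⟨m, hm⟩ := h 0
  refine ⟨m, fun n hn => ?_⟩
  have := hm n hn
  simpa using this

open Classical in
/-- the limit transformation -/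
noncomputable def Tf (x : ∀ m, D m) : ∀ m, D m :=
  if h : x ∈ GG κ t then S κ (Nat.find (GG_zero κ t h)) t x else x

omit [∀ n, Fintype (D n)] [∀ n, MeasurableSpace (D n)] [∀ n, MeasurableSingletonClass (D n)] in
theorem S_stable {x : ∀ m, D m} {m : ℕ} (h : ∀ n, m ≤ n → κ n (x n) = κ n (x n + t n)) {n : ℕ}
    (hn : m ≤ n) : S κ n t x = S κ m t x := by
  induction n, hn using Nat.le_induction with
  | base => rfl
  | succ n hn ih => rw [S_succ_of_eq n t x (h n hn), ih]

omit [∀ n, Fintype (D n)] [∀ n, MeasurableSpace (D n)] [∀ n, MeasurableSingletonClass (D n)] in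
theorem Tf_eq {x : ∀ m, D m} (hx : x ∈ GG κ t) {m : ℕ}
    (h : ∀ n, m ≤ n → κ n (x n) = κ n (x n + t n)) : Tf κ t x = S κ m t x := by
  classical
  unfold Tf
  rw [dif_pos hx]
  have h1 := Nat.find_spec (GG_zero κ t hx)
  have h2 : Nat.find (GG_zero κ t hx) ≤ m := Nat.find_min' _ h
  exact (S_stable κ t h1 h2).symm

omit [∀ n, Fintype (D n)] [∀ n, MeasurableSpace (D n)] [∀ n, MeasurableSingletonClass (D n)] in
theorem Tf_not {x : ∀ m, D m} (hx : x ∉ GG κ t) : Tf κ t x = x := by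
  unfold Tf
  rw [dif_neg hx]

omit [∀ n, Fintype (D n)] [∀ n, MeasurableSpace (D n)] [∀ n, MeasurableSingletonClass (D n)] in
theorem Tf_eventually {x : ∀ m, D m} (hx : x ∈ GG κ t) : ∃ m, ∀ n, m ≤ n → Tf κ t x = S κ n t x := by
  obtain ⟨m, hm⟩ := GG_zero κ t hx
  exact ⟨m, fun n hn => Tf_eq κ t hx (fun i hi => hm i (hn.trans hi))⟩

omit [∀ n, Fintype (D n)] [∀ n, MeasurableSpace (D n)] [∀ n, MeasurableSingletonClass (D n)] in
theorem GG_neg : GG κ (-t) = GG κ t := by
  ext x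
  constructor
  · intro h z
    obtain ⟨m, hm⟩ := h (-z - 1)
    refine ⟨m, fun n hn => ?_⟩
    have := hm n hn
    simp only [Pi.neg_apply, smul_neg, ← neg_smul] at this
    rw [show -(-z - 1) = z + 1 by ring, show -(-z - 1 + 1) = z by ring] at this
    exact this.symm
  · intro h z
    obtain ⟨m, hm⟩ := h (-z - 1)
    refine ⟨m, fun n hn => ?_⟩
    have := hm n hn
    simp only [Pi.neg_apply, smul_neg, ← neg_smul]
    rw [show -z - 1 + 1 = -z by ring, show -z - 1 = -(z + 1) by ring] at this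
    exact this.symm

variable {κ} (hκ : ∀ n d, κ n d ∈ A D n)

include hκ

omit [∀ n, Fintype (D n)] [∀ n, MeasurableSpace (D n)] [∀ n, MeasurableSingletonClass (D n)] in
theorem Tf_mem {x : ∀ m, D m} (hx : x ∈ GG κ t) : Tf κ t x ∈ GG κ t := by
  obtain ⟨m, hm⟩ := Tf_eventually κ t hx
  have h1 : ∀ n, m ≤ n → Tf κ t x n = x n + t n := by
    intro n hn
    rw [hm n hn, S_coord hκ n _ _ n le_rfl]
  intro z
  obtain ⟨m', hm'⟩ := hx (z + 1)
  refine ⟨max m m', fun n hn => ?_⟩
  rw [h1 n (le_of_max_le_left hn)]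
  have := hm' n (le_of_max_le_right hn)
  have e1 : x n + t n + z • t n = x n + (z + 1) • t n := by rw [add_smul, one_smul]; abel
  have e2 : x n + t n + (z + 1) • t n = x n + (z + 1 + 1) • t n := by
    rw [add_smul (z + 1), one_smul]; abel
  rw [e1, e2]
  exact this

omit [∀ n, Fintype (D n)] [∀ n, MeasurableSpace (D n)] [∀ n, MeasurableSingletonClass (D n)] in
theorem Tf_neg_left (x : ∀ m, D m) : Tf κ (-t) (Tf κ t x) = x := by
  by_cases hx : x ∈ GG κ t
  · obtain ⟨m, hm⟩ := Tf_eventually κ t hx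
    have hy : Tf κ t x ∈ GG κ (-t) := by rw [GG_neg]; exact Tf_mem t hκ hx
    obtain ⟨m', hm'⟩ := Tf_eventually κ (-t) hy
    rw [hm' (max m m') (le_max_right _ _), hm (max m m') (le_max_left _ _), S_neg_left hκ]
  · rw [Tf_not κ t hx, Tf_not κ (-t)]
    rw [GG_neg]; exact hx

omit [∀ n, Fintype (D n)] [∀ n, MeasurableSpace (D n)] [∀ n, MeasurableSingletonClass (D n)] in
theorem Tf_neg_right (x : ∀ m, D m) : Tf κ t (Tf κ (-t) x) = x := by
  have := Tf_neg_left (-t) hκ x
  rwa [neg_neg] at this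

omit hκ in
theorem measurableSet_coord (n : ℕ) (p : D n → Prop) : MeasurableSet {x : ∀ m, D m | p (x n)} :=
  (measurable_coord n) (Set.Finite.measurableSet (Set.toFinite {d | p d}))

omit hκ in
theorem measurableSet_Bad (n : ℕ) : MeasurableSet (Bad κ t n) :=
  measurableSet_coord n (fun d => κ n d ≠ κ n (d + t n))

omit hκ in
theorem measurableSet_GG : MeasurableSet (GG κ t) := by
  have : GG κ t = ⋂ z : ℤ, ⋃ m : ℕ, ⋂ n : ℕ, ⋂ (_ : m ≤ n),
      {x | κ n (x n + z • t n) = κ n (x n + (z + 1) • t n)} := by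
    ext x; simp [GG]
  rw [this]
  exact MeasurableSet.iInter (fun z => MeasurableSet.iUnion (fun m => MeasurableSet.iInter
    (fun n => MeasurableSet.iInter (fun _ => measurableSet_coord n
      (fun d => κ n (d + z • t n) = κ n (d + (z + 1) • t n))))))

theorem measurable_Tf : Measurable (Tf κ t) := by
  intro E hE
  have : Tf κ t ⁻¹' E = ((GG κ t)ᶜ ∩ E) ∪ (GG κ t ∩ ⋃ m : ℕ,
      ({x | ∀ n, m ≤ n → κ n (x n) = κ n (x n + t n)} ∩ S κ m t ⁻¹' E)) := by
    ext x
    simp only [mem_preimage, mem_union, mem_inter_iff, mem_compl_iff, mem_iUnion]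
    by_cases hx : x ∈ GG κ t
    · constructor
      · intro h
        right
        refine ⟨hx, ?_⟩
        obtain ⟨m, hm⟩ := GG_zero κ t hx
        exact ⟨m, hm, by rw [← Tf_eq κ t hx hm]; exact h⟩
      · rintro (h | ⟨_, m, hm, h⟩)
        · exact absurd hx h.1
        · rw [Tf_eq κ t hx hm]; exact h
    · rw [Tf_not κ t hx]
      constructor
      · intro h; exact Or.inl ⟨hx, h⟩
      · rintro (h | h)
        · exact h.2
        · exact absurd h.1 hx
  rw [this]
  refine ((measurableSet_GG t).compl.inter hE).union ((measurableSet_GG t).inter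
    (MeasurableSet.iUnion (fun m => ?_)))
  refine MeasurableSet.inter ?_ ((mp_S hκ m t).measurable hE)
  have : {x : ∀ m, D m | ∀ n, m ≤ n → κ n (x n) = κ n (x n + t n)} =
      ⋂ n : ℕ, ⋂ (_ : m ≤ n), {x | κ n (x n) = κ n (x n + t n)} := by
    ext x; simp
  rw [this]
  exact MeasurableSet.iInter (fun n => MeasurableSet.iInter (fun _ => measurableSet_coord n
    (fun d => κ n d = κ n (d + t n))))

variable (hs : ∑' n, mu D (Bad κ t n) ≠ ∞)

omit hκ in
include hs in
theorem mu_GG : mu D (GG κ t)ᶜ = 0 := by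
  have h1 : (GG κ t)ᶜ ⊆ ⋃ z : ℤ, {x | ∀ m, ∃ n, m ≤ n ∧
      κ n (x n + z • t n) ≠ κ n (x n + (z + 1) • t n)} := by
    intro x hx
    simp only [GG, mem_compl_iff, mem_ofPred_eq, not_forall, not_exists] at hx
    obtain ⟨z, hz⟩ := hx
    simp only [mem_iUnion]
    refine ⟨z, fun m => ?_⟩
    obtain ⟨n, hn, h⟩ := hz m
    exact ⟨n, hn, h⟩
  refine measure_mono_null h1 ?_
  rw [measure_iUnion_null_iff]
  intro z
  have h2 : ∀ n, mu D {x : ∀ m, D m | κ n (x n + z • t n) ≠ κ n (x n + (z + 1) • t n)} =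
      mu D (Bad κ t n) := by
    intro n
    have h3 : {x : ∀ m, D m | κ n (x n + z • t n) ≠ κ n (x n + (z + 1) • t n)} =
        (fun x : ∀ m, D m => x + z • t) ⁻¹' (Bad κ t n) := by
      ext x
      simp only [Bad, mem_ofPred_eq, mem_preimage, Pi.add_apply, Pi.smul_apply]
      have : x n + (z + 1) • t n = x n + z • t n + t n := by rw [add_smul, one_smul]; abel
      rw [this]
    rw [h3, (mp_add (z • t)).measure_preimage (measurableSet_Bad t n).nullMeasurableSet]
  have h4 : ∑' n, mu D {x : ∀ m, D m | κ n (x n + z • t n) ≠ κ n (x n + (z + 1) • t n)} ≠ ∞ := by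
    simp_rw [h2]; exact hs
  have h5 := ae_eventually_notMem h4
  rw [ae_iff] at h5
  refine measure_mono_null ?_ h5
  intro x hx
  simp only [mem_ofPred_eq, eventually_atTop, not_exists]
  intro m h
  obtain ⟨n, hn, h6⟩ := hx m
  exact h n hn h6

/-- the tails of the measures of the bad sets -/
noncomputable def tail (κ : ∀ n, D n → (∀ m, D m)) (t : ∀ m, D m) (m : ℕ) : ℝ≥0∞ :=
  ∑' n, mu D (Bad κ t (n + m))

omit hκ in
include hs in
theorem tail_tendsto : Tendsto (tail κ t) atTop (𝓝 0) := ENNReal.tendsto_sum_nat_add _ hs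

omit hκ in
include hs in
theorem mu_ne (m : ℕ) : mu D {x | Tf κ t x ≠ S κ m t x} ≤ tail κ t m := by
  have h1 : {x | Tf κ t x ≠ S κ m t x} ⊆ (GG κ t)ᶜ ∪ ⋃ n, Bad κ t (n + m) := by
    intro x hx
    by_contra h
    simp only [mem_union, mem_compl_iff, mem_iUnion, not_or, not_not, not_exists] at h
    apply hx
    apply Tf_eq κ t h.1
    intro n hn
    have := h.2 (n - m)
    rw [Nat.sub_add_cancel hn] at this
    by_contra h3
    exact this h3
  calc mu D {x | Tf κ t x ≠ S κ m t x} ≤ mu D ((GG κ t)ᶜ ∪ ⋃ n, Bad κ t (n + m)) := measure_mono h1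
    _ ≤ mu D (GG κ t)ᶜ + mu D (⋃ n, Bad κ t (n + m)) := measure_union_le _ _
    _ ≤ 0 + tail κ t m := by
      rw [mu_GG t hs]
      gcongr
      exact measure_iUnion_le _
    _ = _ := zero_add _

include hs in
theorem mp_Tf : MeasurePreserving (Tf κ t) (mu D) (mu D) := by
  have hm := measurable_Tf t hκ
  have hle : ∀ E, MeasurableSet E → mu D (Tf κ t ⁻¹' E) ≤ mu D E := by
    intro E hE
    have h1 : ∀ m, mu D (Tf κ t ⁻¹' E) ≤ mu D E + tail κ t m := by
      intro m
      have h2 : Tf κ t ⁻¹' E ⊆ (S κ m t ⁻¹' E) ∪ {x | Tf κ t x ≠ S κ m t x} := by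
        intro x hx
        by_cases h : Tf κ t x = S κ m t x
        · left; rw [mem_preimage, ← h]; exact hx
        · right; exact h
      calc mu D (Tf κ t ⁻¹' E) ≤ mu D ((S κ m t ⁻¹' E) ∪ {x | Tf κ t x ≠ S κ m t x}) := measure_mono h2
        _ ≤ mu D (S κ m t ⁻¹' E) + mu D {x | Tf κ t x ≠ S κ m t x} := measure_union_le _ _
        _ ≤ _ := by
          rw [(mp_S hκ m t).measure_preimage hE.nullMeasurableSet]
          gcongr
          exact mu_ne t hs m
    have h3 : Tendsto (fun m => mu D E + tail κ t m) atTop (𝓝 (mu D E + 0)) :=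
      tendsto_const_nhds.add (tail_tendsto t hs)
    rw [add_zero] at h3
    exact ge_of_tendsto' h3 h1
  refine ⟨hm, ?_⟩
  ext E hE
  rw [Measure.map_apply hm hE]
  apply le_antisymm (hle E hE)
  have h4 := hle Eᶜ hE.compl
  rw [preimage_compl, prob_compl_eq_one_sub (hm hE), prob_compl_eq_one_sub hE] at h4
  have h5 : mu D E = 1 - (1 - mu D E) := (ENNReal.sub_sub_cancel ENNReal.one_ne_top prob_le_one).symm
  have h6 : mu D (Tf κ t ⁻¹' E) = 1 - (1 - mu D (Tf κ t ⁻¹' E)) :=
    (ENNReal.sub_sub_cancel ENNReal.one_ne_top prob_le_one).symm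
  rw [h5, h6]
  exact tsub_le_tsub_left h4 1

/-- `T` as a measurable equivalence -/
noncomputable def Te : (∀ m, D m) ≃ᵐ (∀ m, D m) where
  toFun := Tf κ t
  invFun := Tf κ (-t)
  left_inv := Tf_neg_left t hκ
  right_inv := Tf_neg_right t hκ
  measurable_toFun := measurable_Tf t hκ
  measurable_invFun := measurable_Tf (-t) hκ

include hs in
theorem mu_iter_ne (m N : ℕ) :
    mu D {x | (Tf κ t)^[N] x ≠ S κ m (N • t) x} ≤ N * tail κ t m := by
  induction N with
  | zero =>
    have : {x : ∀ m, D m | (Tf κ t)^[0] x ≠ S κ m ((0 : ℕ) • t) x} = ∅ := by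
      ext x
      simp [S_zero hκ]
    rw [this]; simp
  | succ N ih =>
    have h1 : {x | (Tf κ t)^[N + 1] x ≠ S κ m ((N + 1) • t) x} ⊆
        {x | (Tf κ t)^[N] x ≠ S κ m (N • t) x} ∪
          (S κ m (N • t)) ⁻¹' {x | Tf κ t x ≠ S κ m t x} := by
      intro x hx
      by_contra h
      simp only [mem_union, mem_ofPred_eq, mem_preimage, not_or, not_not] at h
      apply hx
      rw [Function.iterate_succ_apply', h.1, h.2, ← S_add hκ, succ_nsmul, add_comm]
    calc mu D {x | (Tf κ t)^[N + 1] x ≠ S κ m ((N + 1) • t) x}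
        ≤ mu D ({x | (Tf κ t)^[N] x ≠ S κ m (N • t) x} ∪
          (S κ m (N • t)) ⁻¹' {x | Tf κ t x ≠ S κ m t x}) := measure_mono h1
      _ ≤ mu D {x | (Tf κ t)^[N] x ≠ S κ m (N • t) x} +
          mu D ((S κ m (N • t)) ⁻¹' {x | Tf κ t x ≠ S κ m t x}) := measure_union_le _ _
      _ ≤ N * tail κ t m + tail κ t m := by
        refine add_le_add ih (le_trans ?_ (mu_ne t hs m))
        refine ((mp_S hκ m (N • t)).measure_preimage_le _)
      _ = _ := by push_cast; ring

end Pool.Agent.Helper42.SM
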