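import Pool.Agent.Helper42.SM3

/-!
Spectral multiplicities, part 4: Koopman operators, cylinder functions, weak limits.
-/

open MeasureTheory Set Filter
open scoped ENNReal Topology

namespace Pool.Agent.Helper42.SM

section general

variable {X : Type*} [MeasurableSpace X] {μ : Measure X}

/-- the Koopman operator of a measure preserving map -/
noncomputable def koop (F : X → X) (hF : MeasurePreserving F μ μ) : Lp ℂ 2 μ →ₗᵢ[ℂ] Lp ℂ 2 μ :=
  Lp.compMeasurePreservingₗᵢ ℂ F hF

theorem koop_coe (F : X → X) (hF : MeasurePreserving F μ μ) (f : Lp ℂ 2 μ) :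
    koop F hF f =ᵐ[μ] fun x => f (F x) := Lp.coeFn_compMeasurePreserving f hF

theorem koop_comp {F G : X → X} (hF : MeasurePreserving F μ μ) (hG : MeasurePreserving G μ μ)
    (f : Lp ℂ 2 μ) : koop F hF (koop G hG f) = koop (G ∘ F) (hG.comp hF) f :=
  (Lp.compMeasurePreserving_comp_apply f hG hF).symm

theorem koop_congr {F G : X → X} (hF : MeasurePreserving F μ μ) (hG : MeasurePreserving G μ μ)
    (f : Lp ℂ 2 μ) (h : ∀ᵐ x ∂μ, f (F x) = f (G x)) : koop F hF f = koop G hG f := by
  apply Lp.ext
  filter_upwards [koop_coe F hF f, koop_coe G hG f, h] with x h1 h2 h3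
  rw [h1, h2, h3]

theorem koop_eq {F G : X → X} (hF : MeasurePreserving F μ μ) (hG : MeasurePreserving G μ μ)
    (h : ∀ x, F x = G x) : koop F hF = koop G hG := by
  have : F = G := funext h
  subst this
  rfl

theorem koop_id (hF : MeasurePreserving (fun x : X => x) μ μ) (f : Lp ℂ 2 μ) :
    koop (fun x => x) hF f = f := by
  apply Lp.ext
  exact koop_coe _ hF f

theorem koop_iter {F : X → X} (hF : MeasurePreserving F μ μ) (N : ℕ) (f : Lp ℂ 2 μ) :
    (koop F hF)^[N] f = koop (F^[N]) (hF.iterate N) f := by
  have := Lp.compMeasurePreserving_iterate (E := ℂ) (p := 2) hF N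
  exact congrFun this f

theorem inner_eq (f g : Lp ℂ 2 μ) :
    inner ℂ f g = ∫ x, (starRingEnd ℂ) (f x) * g x ∂μ := by
  rw [L2.inner_def]
  congr 1
  funext x
  rw [RCLike.inner_apply, mul_comm]

/-- the Koopman operator of an equivalence -/
noncomputable def koopE (e : X ≃ᵐ X) (he : MeasurePreserving e μ μ) : Lp ℂ 2 μ ≃ₗᵢ[ℂ] Lp ℂ 2 μ where
  toFun := koop e he
  map_add' := map_add _
  map_smul' := map_smul _
  invFun := koop e.symm (he.symm e)
  left_inv := by
    intro f
    rw [koop_comp]
    rw [koop_eq (F := e ∘ e.symm) (G := fun x => x) _ (MeasurePreserving.id μ) (fun x => by simp)]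
    exact koop_id _ f
  right_inv := by
    intro f
    rw [koop_comp]
    rw [koop_eq (F := e.symm ∘ e) (G := fun x => x) _ (MeasurePreserving.id μ) (fun x => by simp)]
    exact koop_id _ f
  norm_map' := (koop e he).norm_map

@[simp] theorem koopE_apply (e : X ≃ᵐ X) (he : MeasurePreserving e μ μ) (f : Lp ℂ 2 μ) :
    koopE e he f = koop e he f := rfl

theorem koopE_pow (e : X ≃ᵐ X) (he : MeasurePreserving e μ μ) (N : ℕ) (f : Lp ℂ 2 μ) :
    (koopE e he ^ N) f = koop (e^[N]) (he.iterate N) f := by
  rw [← koop_iter he N f]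
  induction N with
  | zero => rfl
  | succ N ih =>
    rw [pow_succ', Function.iterate_succ_apply']
    rw [LinearIsometryEquiv.coe_mul, Function.comp_apply, ih]
    rfl

end general

section cyl

variable {D : ℕ → Type*} [∀ n, AddCommGroup (D n)] [∀ n, Fintype (D n)]
  [∀ n, MeasurableSpace (D n)] [∀ n, MeasurableSingletonClass (D n)]

theorem Loc.memLp {m : ℕ} {φ : (∀ n, D n) → ℂ} (hφ : Loc m φ) : MemLp φ 2 (mu D) := by
  obtain ⟨C, hC⟩ := hφ.bounded
  exact MemLp.of_bound hφ.measurable.aestronglyMeasurable C (Eventually.of_forall hC)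

theorem Loc.comp {α β : Type*} {m : ℕ} {φ : (∀ n, D n) → α} (hφ : Loc m φ) (F : α → β) :
    Loc m (fun x => F (φ x)) := fun x y h => by simp only; rw [hφ x y h]

/-- cylinder functions are dense -/
theorem dense_cyl (f : Lp ℂ 2 (mu D)) {ε : ℝ} (hε : 0 < ε) :
    ∃ (m : ℕ) (φ : (∀ n, D n) → ℂ) (hφ : Loc m φ), ‖f - hφ.memLp.toLp φ‖ < ε := by
  -- the submodule of cylinder functions
  let K : Submodule ℂ (Lp ℂ 2 (mu D)) :=
    { carrier := {g | ∃ (m : ℕ) (φ : (∀ n, D n) → ℂ) (hφ : Loc m φ), g = hφ.memLp.toLp φ}
      zero_mem' := by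
        have hl : Loc (D := D) 0 (fun _ => (0 : ℂ)) := fun _ _ _ => rfl
        refine ⟨0, fun _ => 0, hl, ?_⟩
        apply Lp.ext
        filter_upwards [Lp.coeFn_zero (E := ℂ) (p := 2) (μ := mu D), hl.memLp.coeFn_toLp] with x h1 h2
        rw [h1, h2]
        rfl
      add_mem' := by
        rintro a b ⟨m, φ, hφ, rfl⟩ ⟨m', φ', hφ', rfl⟩
        refine ⟨max m m', fun x => φ x + φ' x, ?_, ?_⟩
        · intro x y h
          simp only
          rw [hφ.mono (le_max_left m m') x y h, hφ'.mono (le_max_right m m') x y h]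
        · apply Lp.ext
          filter_upwards [Lp.coeFn_add (hφ.memLp.toLp φ) (hφ'.memLp.toLp φ'), hφ.memLp.coeFn_toLp,
            hφ'.memLp.coeFn_toLp, MemLp.coeFn_toLp (f := fun x => φ x + φ' x) (p := 2) (μ := mu D)
              (hφ.memLp.add hφ'.memLp)] with x h1 h2 h3 h4
          rw [h1, Pi.add_apply, h2, h3]
          exact h4.symm
      smul_mem' := by
        rintro c a ⟨m, φ, hφ, rfl⟩
        refine ⟨m, fun x => c * φ x, ?_, ?_⟩
        · intro x y h
          simp only
          rw [hφ x y h]
        · apply Lp.ext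
          filter_upwards [Lp.coeFn_smul c (hφ.memLp.toLp φ), hφ.memLp.coeFn_toLp,
            MemLp.coeFn_toLp (f := fun x => c * φ x) (p := 2) (μ := mu D)
              (hφ.memLp.const_mul c)] with x h1 h2 h3
          rw [h1, Pi.smul_apply, h2, smul_eq_mul]
          exact h3.symm }
  have hK : K.topologicalClosure = ⊤ := by
    rw [Submodule.topologicalClosure_eq_top_iff, Submodule.eq_bot_iff]
    intro g hg
    have hg1 : ∀ (m : ℕ) (φ : (∀ n, D n) → ℂ) (hφ : Loc m φ),
        inner ℂ (hφ.memLp.toLp φ) g = 0 := by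
      intro m φ hφ
      exact (Submodule.mem_orthogonal K g).mp hg _ ⟨m, φ, hφ, rfl⟩
    have hgi : Integrable g (mu D) := (Lp.memLp g).integrable (by norm_num)
    -- integrals over measurable sets vanish
    have hset : ∀ E, MeasurableSet E → ∫ x in E, g x ∂(mu D) = 0 := by
      intro E hE
      induction E, hE using MeasurableSpace.induction_on_inter
        (generateFrom_measurableCylinders (α := D)).symm isPiSystem_measurableCylinders with
      | empty => simp
      | basic E hE =>
        obtain ⟨s, B, hB, rfl⟩ := (mem_measurableCylinders E).mp hE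
        obtain ⟨m, hm⟩ : ∃ m, ∀ i ∈ s, i < m := ⟨s.sup id + 1, fun i hi =>
          Nat.lt_succ_of_le (Finset.le_sup (f := id) hi)⟩
        have hloc : Loc m ((cylinder s B).indicator (fun _ => (1 : ℂ))) := by
          intro x y h
          have : x ∈ cylinder s B ↔ y ∈ cylinder s B := by
            rw [mem_cylinder, mem_cylinder]
            have : s.restrict x = s.restrict y := by
              funext i
              exact h i (hm i i.2)
            rw [this]
          by_cases hx : x ∈ cylinder s B
          · rw [Set.indicator_of_mem hx, Set.indicator_of_mem (this.mp hx)]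
          · rw [Set.indicator_of_notMem hx, Set.indicator_of_notMem (fun h' => hx (this.mpr h'))]
        have h1 := hg1 m _ hloc
        rw [inner_eq] at h1
        rw [← integral_indicator hB.cylinder]
        rw [← h1]
        apply integral_congr_ae
        filter_upwards [hloc.memLp.coeFn_toLp] with x hx
        rw [hx]
        by_cases hxE : x ∈ cylinder s B
        · simp [Set.indicator_of_mem hxE]
        · simp [Set.indicator_of_notMem hxE]
      | compl E hE ih =>
        have h1 := integral_add_compl hE hgi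
        rw [ih, zero_add] at h1
        rw [h1]
        have h2 := hg1 0 (fun _ => (1 : ℂ)) (fun _ _ _ => rfl)
        rw [inner_eq] at h2
        rw [← h2]
        apply integral_congr_ae
        have hloc : Loc (D := D) 0 (fun _ => (1 : ℂ)) := fun _ _ _ => rfl
        filter_upwards [hloc.memLp.coeFn_toLp] with x hx
        rw [hx]
        simp
      | iUnion F hd hF ih =>
        rw [integral_iUnion hF hd hgi.integrableOn]
        simp [ih]
    have h2 : g =ᵐ[mu D] 0 := by
      apply Integrable.ae_eq_zero_of_forall_setIntegral_eq_zero hgi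
      intro E hE _
      exact hset E hE
    exact (Lp.eq_zero_iff_ae_eq_zero).mpr h2
  have hf : f ∈ K.topologicalClosure := by rw [hK]; trivial
  rw [← SetLike.mem_coe, Submodule.topologicalClosure_coe, Metric.mem_closure_iff] at hf
  obtain ⟨g, ⟨m, φ, hφ, rfl⟩, hg⟩ := hf ε hε
  refine ⟨m, φ, hφ, ?_⟩
  rwa [dist_eq_norm] at hg

end cyl

end Pool.Agent.Helper42.SM
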