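import Pool.Agent.Helper42.SM4

/-!
Spectral multiplicities, part 5: the unitary operators `V n g`, `U`, and weak limits of powers of `U`.
-/

open MeasureTheory Set Filter
open scoped ENNReal Topology

namespace Pool.Agent.Helper42.SM

variable {D : ℕ → Type*} [∀ n, AddCommGroup (D n)] [∀ n, Fintype (D n)]
  [∀ n, MeasurableSpace (D n)] [∀ n, MeasurableSingletonClass (D n)]
variable {κ : ∀ n, D n → (∀ m, D m)} (hκ : ∀ n d, κ n d ∈ A D n)

/-- Koopman operators of the approximating actions -/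
noncomputable def V (n : ℕ) (g : ∀ m, D m) : Lp ℂ 2 (mu D) →ₗᵢ[ℂ] Lp ℂ 2 (mu D) :=
  koop (S κ n g) (mp_S hκ n g)

theorem V_zero (n : ℕ) (f : Lp ℂ 2 (mu D)) : V hκ n 0 f = f := by
  unfold V
  rw [koop_eq (F := S κ n 0) (G := fun x => x) _ (MeasurePreserving.id _) (S_zero hκ n)]
  exact koop_id _ f

theorem V_add (n : ℕ) (g h : ∀ m, D m) (f : Lp ℂ 2 (mu D)) :
    V hκ n (g + h) f = V hκ n g (V hκ n h f) := by
  unfold V
  rw [koop_comp]
  rw [koop_eq (F := S κ n (g + h)) (G := S κ n h ∘ S κ n g) _ _ (fun x => by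
    rw [add_comm, S_add hκ]; rfl)]

theorem V_comm (n : ℕ) (g h : ∀ m, D m) (f : Lp ℂ 2 (mu D)) :
    V hκ n g (V hκ n h f) = V hκ n h (V hκ n g f) := by
  rw [← V_add, ← V_add, add_comm]

theorem V_of_mem {n m : ℕ} (h : n ≤ m) {g : ∀ m, D m} (hg : g ∈ A D n) : V hκ m g = V hκ n g := by
  unfold V
  exact koop_eq _ _ (fun x => S_of_mem hg x h)

theorem V_neg_left (n : ℕ) (g : ∀ m, D m) (f : Lp ℂ 2 (mu D)) : V hκ n (-g) (V hκ n g f) = f := by
  rw [← V_add, neg_add_cancel, V_zero]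

theorem V_neg_right (n : ℕ) (g : ∀ m, D m) (f : Lp ℂ 2 (mu D)) : V hκ n g (V hκ n (-g) f) = f := by
  rw [← V_add, add_neg_cancel, V_zero]

theorem V_inner (n : ℕ) (g : ∀ m, D m) (f f' : Lp ℂ 2 (mu D)) :
    inner ℂ f' (V hκ n g f) = inner ℂ (V hκ n (-g) f') f := by
  conv_lhs => rw [← V_neg_right hκ n g f']
  exact (V hκ n g).inner_map_map _ _

omit [∀ n, AddCommGroup (D n)] [∀ n, Fintype (D n)] in
theorem measurableSet_ne [∀ n, Countable (D n)] {F G : (∀ m, D m) → (∀ m, D m)} (hF : Measurable F)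
    (hG : Measurable G) : MeasurableSet {x | F x ≠ G x} := by
  have : {x | F x ≠ G x} = ⋃ m, {x | F x m = G x m}ᶜ := by
    ext x
    simp only [mem_ofPred_eq, mem_iUnion, mem_compl_iff, ne_eq, funext_iff, not_forall]
  rw [this]
  exact MeasurableSet.iUnion (fun m => (measurableSet_eq_fun ((measurable_pi_apply m).comp hF)
    ((measurable_pi_apply m).comp hG)).compl)

theorem integral_diff_le {F G : (∀ m, D m) → (∀ m, D m)} (hF : Measurable F) (hG : Measurable G)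
    {m m' : ℕ} {φ ψ : (∀ n, D n) → ℂ} (hφ : Loc m φ) (hψ : Loc m' ψ) {C C' : ℝ}
    (hC : ∀ x, ‖φ x‖ ≤ C) (hC' : ∀ x, ‖ψ x‖ ≤ C') :
    ‖(∫ x, (starRingEnd ℂ) (ψ x) * φ (F x) ∂(mu D)) - ∫ x, (starRingEnd ℂ) (ψ x) * φ (G x) ∂(mu D)‖ ≤
      2 * C' * C * (mu D {x | F x ≠ G x}).toReal := by
  have h0 : 0 ≤ C := (norm_nonneg _).trans (hC 0)
  have h0' : 0 ≤ C' := (norm_nonneg _).trans (hC' 0)
  have hb : ∀ (y z : ∀ n, D n), ‖(starRingEnd ℂ) (ψ y) * φ z‖ ≤ C' * C := by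
    intro y z
    rw [norm_mul, RCLike.norm_conj]
    exact mul_le_mul (hC' y) (hC z) (norm_nonneg _) h0'
  have hint : ∀ {F : (∀ m, D m) → (∀ m, D m)}, Measurable F →
      Integrable (fun x => (starRingEnd ℂ) (ψ x) * φ (F x)) (mu D) := by
    intro F hF
    apply Integrable.of_bound (C := C' * C)
    · exact ((Complex.continuous_conj.measurable.comp hψ.measurable).mul
        (hφ.measurable.comp hF)).aestronglyMeasurable
    · exact Eventually.of_forall (fun x => hb _ _)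
  rw [← integral_sub (hint hF) (hint hG)]
  have hE := measurableSet_ne hF hG
  calc ‖∫ x, ((starRingEnd ℂ) (ψ x) * φ (F x) - (starRingEnd ℂ) (ψ x) * φ (G x)) ∂(mu D)‖
      ≤ ∫ x, ({x | F x ≠ G x}.indicator (fun _ => 2 * C' * C) x) ∂(mu D) := by
        apply norm_integral_le_of_norm_le ((integrable_const _).indicator hE)
        refine Eventually.of_forall (fun x => ?_)
        by_cases hx : F x = G x
        · have hx' : x ∉ {x | F x ≠ G x} := fun h => h hx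
          rw [Set.indicator_of_notMem hx', hx, sub_self, norm_zero]
        · have hx' : x ∈ {x | F x ≠ G x} := hx
          rw [Set.indicator_of_mem hx']
          calc _ ≤ ‖(starRingEnd ℂ) (ψ x) * φ (F x)‖ + ‖(starRingEnd ℂ) (ψ x) * φ (G x)‖ := norm_sub_le _ _
            _ ≤ C' * C + C' * C := add_le_add (hb _ _) (hb _ _)
            _ = _ := by ring
    _ = _ := by
      rw [integral_indicator hE, setIntegral_const, smul_eq_mul, mul_comm, measureReal_def]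

variable (t : ∀ m, D m) (hs : ∑' n, mu D (Bad κ t n) ≠ ∞)

/-- the unitary operator of `T` -/
noncomputable def UU : Lp ℂ 2 (mu D) ≃ₗᵢ[ℂ] Lp ℂ 2 (mu D) := koopE (Te t hκ) (mp_Tf t hκ hs)

theorem UU_pow (N : ℕ) (f : Lp ℂ 2 (mu D)) :
    (UU hκ t hs ^ N) f = koop ((Tf κ t)^[N]) ((mp_Tf t hκ hs).iterate N) f :=
  koopE_pow (Te t hκ) (mp_Tf t hκ hs) N f

theorem inner_koop_toLp {m m' : ℕ} {φ ψ : (∀ n, D n) → ℂ} (hφ : Loc m φ) (hψ : Loc m' ψ)
    {F : (∀ m, D m) → (∀ m, D m)} (hF : MeasurePreserving F (mu D) (mu D)) :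
    inner ℂ (hψ.memLp.toLp ψ) (koop F hF (hφ.memLp.toLp φ)) =
      ∫ x, (starRingEnd ℂ) (ψ x) * φ (F x) ∂(mu D) := by
  rw [inner_eq]
  apply integral_congr_ae
  have h1 := hφ.memLp.coeFn_toLp
  have h2 := hF.quasiMeasurePreserving.ae h1
  filter_upwards [koop_coe F hF (hφ.memLp.toLp φ), hψ.memLp.coeFn_toLp, h2] with x a1 a2 a3
  rw [a1, a2, a3]

include hκ in
/-- exact formula for cylinder functions -/
theorem cyl_formula {n m m' N : ℕ} (hm : m ≤ n) (hm' : m' ≤ n) {φ ψ : (∀ n, D n) → ℂ}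
    (hφ : Loc m φ) (hψ : Loc m' ψ) {g : ∀ m, D m} (hg : ∀ i, i < n → g i = 0)
    {h : D n → (∀ m, D m)} (hh : ∀ d, κ n d - κ n (d + g n) = h d) :
    ∫ x, (starRingEnd ℂ) (ψ x) * φ (S κ (n + 1) g x) ∂(mu D) =
      (Fintype.card (D n) : ℂ)⁻¹ * ∑ d, ∫ x, (starRingEnd ℂ) (ψ x) * φ (S κ n (h d) x) ∂(mu D) := by
  have e1 : ∀ x, φ (S κ (n + 1) g x) = φ (S κ n (h (x n)) x) := by
    intro x
    have e2 : S κ (n + 1) g x = S κ n (h (x n) + g) x := by
      rw [S, ← hh]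
      congr 1
      abel
    rw [e2]
    exact (hφ.mono hm) _ _ (S_agr_add hκ n _ _ _ hg)
  simp_rw [e1]
  have hloc : ∀ d, Loc n (fun x => (starRingEnd ℂ) (ψ x) * φ (S κ n (h d) x)) := by
    intro d x y hxy
    simp only
    rw [(hψ.mono hm') x y hxy, (hφ.mono hm) _ _ (S_agr n n le_rfl _ _ x y hxy (Agr.refl n _))]
  refine integral_coord n (fun d x => (starRingEnd ℂ) (ψ x) * φ (S κ n (h d) x))
    (fun d => (hloc d).integrable) ?_
  intro d c x
  apply hloc d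
  intro i hi
  rw [Pi.add_apply, Pi.single_eq_of_ne (by omega), add_zero]

/-- a general approximation principle -/
theorem approx_form {H : Type*} [NormedAddCommGroup H] [InnerProductSpace ℂ H]
    (B : ℕ → H → H → ℂ) (hadd : ∀ n f f' g, B n (f + f') g = B n f g + B n f' g)
    (hadd' : ∀ n f g g', B n f (g + g') = B n f g + B n f g')
    (hb : ∀ n f g, ‖B n f g‖ ≤ 2 * ‖f‖ * ‖g‖) (K : Set H)
    (hK : ∀ (f : H) (ε : ℝ), 0 < ε → ∃ g ∈ K, ‖f - g‖ < ε)
    (hlim : ∀ f ∈ K, ∀ g ∈ K, Tendsto (fun n => B n f g) atTop (𝓝 0)) (f g : H) :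
    Tendsto (fun n => B n f g) atTop (𝓝 0) := by
  rw [Metric.tendsto_atTop]
  intro ε hε
  obtain ⟨f', hf', hf⟩ := hK f (ε / (8 * (‖g‖ + 1))) (by positivity)
  obtain ⟨g', hg', hg⟩ := hK g (ε / (8 * (‖f'‖ + 1))) (by positivity)
  obtain ⟨n₀, hn⟩ := Metric.tendsto_atTop.mp (hlim f' hf' g' hg') (ε / 4) (by positivity)
  refine ⟨n₀, fun n hn' => ?_⟩
  have h1 := hn n hn'
  rw [dist_zero_right] at h1 ⊢
  have e : B n f g = B n (f - f') g + B n f' (g - g') + B n f' g' := by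
    rw [add_assoc, ← hadd', sub_add_cancel, ← hadd, sub_add_cancel]
  rw [e]
  have b1 : ‖B n (f - f') g‖ ≤ ε / 4 := by
    calc ‖B n (f - f') g‖ ≤ 2 * ‖f - f'‖ * ‖g‖ := hb _ _ _
      _ ≤ 2 * (ε / (8 * (‖g‖ + 1))) * ‖g‖ := by gcongr
      _ = ε / 4 * (‖g‖ / (‖g‖ + 1)) := by field_simp; ring
      _ ≤ ε / 4 * 1 := by
        gcongr
        rw [div_le_one (by positivity)]
        linarith
      _ = _ := mul_one _
  have b2 : ‖B n f' (g - g')‖ ≤ ε / 4 := by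
    calc ‖B n f' (g - g')‖ ≤ 2 * ‖f'‖ * ‖g - g'‖ := hb _ _ _
      _ ≤ 2 * ‖f'‖ * (ε / (8 * (‖f'‖ + 1))) := by gcongr
      _ = ε / 4 * (‖f'‖ / (‖f'‖ + 1)) := by field_simp; ring
      _ ≤ ε / 4 * 1 := by
        gcongr
        rw [div_le_one (by positivity)]
        linarith
      _ = _ := mul_one _
  calc ‖B n (f - f') g + B n f' (g - g') + B n f' g'‖ ≤
      ‖B n (f - f') g‖ + ‖B n f' (g - g')‖ + ‖B n f' g'‖ := norm_add₃_le
    _ < ε := by linarith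

/-- the set of cylinder elements of `L²` -/
def CylSet (D : ℕ → Type*) [∀ n, AddCommGroup (D n)] [∀ n, Fintype (D n)]
    [∀ n, MeasurableSpace (D n)] [∀ n, MeasurableSingletonClass (D n)] : Set (Lp ℂ 2 (mu D)) :=
  {f | ∃ (m : ℕ) (φ : (∀ n, D n) → ℂ) (hφ : Loc m φ), f = hφ.memLp.toLp φ}

theorem cylSet_dense (f : Lp ℂ 2 (mu D)) (ε : ℝ) (hε : 0 < ε) : ∃ g ∈ CylSet D, ‖f - g‖ < ε := by
  obtain ⟨m, φ, hφ, h⟩ := dense_cyl f hε
  exact ⟨_, ⟨m, φ, hφ, rfl⟩, h⟩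

/-- weak limits of powers of `U` -/
theorem weak_limit (N : ℕ → ℕ) (h : ∀ n, D n → (∀ m, D m))
    (h1 : ∀ n m, m < n → (N n • t) m = 0)
    (h2 : ∀ n d, κ n d - κ n (d + N n • t n) = h n d)
    (h3 : Tendsto (fun n => (N n : ℝ≥0∞) * tail κ t (n + 1)) atTop (𝓝 0)) (f' f : Lp ℂ 2 (mu D)) :
    Tendsto (fun n => inner ℂ f' ((UU hκ t hs ^ N n) f) -
      (Fintype.card (D n) : ℂ)⁻¹ * ∑ d, inner ℂ f' (V hκ n (h n d) f)) atTop (𝓝 0) := by
  refine approx_form (fun n f' f => inner ℂ f' ((UU hκ t hs ^ N n) f) -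
      (Fintype.card (D n) : ℂ)⁻¹ * ∑ d, inner ℂ f' (V hκ n (h n d) f)) ?_ ?_ ?_ (CylSet D)
      cylSet_dense ?_ f' f
  · intro n f f' g
    simp only [inner_add_left, Finset.sum_add_distrib]
    ring
  · intro n f g g'
    simp only [map_add, inner_add_right, Finset.sum_add_distrib]
    ring
  · intro n f g
    have b1 : ‖inner ℂ f ((UU hκ t hs ^ N n) g)‖ ≤ ‖f‖ * ‖g‖ := by
      refine (norm_inner_le_norm _ _).trans ?_
      rw [LinearIsometryEquiv.norm_map]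
    have b2 : ‖(Fintype.card (D n) : ℂ)⁻¹ * ∑ d, inner ℂ f (V hκ n (h n d) g)‖ ≤ ‖f‖ * ‖g‖ := by
      rw [norm_mul, norm_inv, Complex.norm_natCast]
      have : ‖∑ d : D n, inner ℂ f (V hκ n (h n d) g)‖ ≤ Fintype.card (D n) * (‖f‖ * ‖g‖) := by
        refine (norm_sum_le _ _).trans ?_
        calc ∑ d : D n, ‖inner ℂ f (V hκ n (h n d) g)‖ ≤ ∑ d : D n, ‖f‖ * ‖g‖ := by
              apply Finset.sum_le_sum
              intro d _
              refine (norm_inner_le_norm _ _).trans ?_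
              rw [LinearIsometry.norm_map]
          _ = _ := by rw [Finset.sum_const, Finset.card_univ, nsmul_eq_mul]
      have hc : (0 : ℝ) < Fintype.card (D n) := by exact_mod_cast Fintype.card_pos
      calc (Fintype.card (D n) : ℝ)⁻¹ * ‖∑ d : D n, inner ℂ f (V hκ n (h n d) g)‖
          ≤ (Fintype.card (D n) : ℝ)⁻¹ * (Fintype.card (D n) * (‖f‖ * ‖g‖)) := by gcongr
        _ = ‖f‖ * ‖g‖ := by field_simp
    calc _ ≤ ‖inner ℂ f ((UU hκ t hs ^ N n) g)‖ +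
          ‖(Fintype.card (D n) : ℂ)⁻¹ * ∑ d, inner ℂ f (V hκ n (h n d) g)‖ := norm_sub_le _ _
      _ ≤ ‖f‖ * ‖g‖ + ‖f‖ * ‖g‖ := add_le_add b1 b2
      _ = _ := by ring
  · rintro _ ⟨m', ψ, hψ, rfl⟩ _ ⟨m, φ, hφ, rfl⟩
    obtain ⟨C, hC⟩ := hφ.bounded
    obtain ⟨C', hC'⟩ := hψ.bounded
    have h4 : Tendsto (fun n => 2 * C' * C * ((N n : ℝ≥0∞) * tail κ t (n + 1)).toReal) atTop (𝓝 0) := by
      have := ((ENNReal.tendsto_toReal ENNReal.zero_ne_top).comp h3).const_mul (2 * C' * C)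
      simpa using this
    refine squeeze_zero_norm' ?_ h4
    have hfin : ∀ᶠ n in atTop, (N n : ℝ≥0∞) * tail κ t (n + 1) < ∞ :=
      h3.eventually_lt_const ENNReal.zero_lt_top
    filter_upwards [eventually_ge_atTop (max m m'), hfin] with n hn hfin
    have hm : m ≤ n := le_of_max_le_left hn
    have hm' : m' ≤ n := le_of_max_le_right hn
    rw [UU_pow, inner_koop_toLp hφ hψ]
    have e1 : ∀ d, inner ℂ (hψ.memLp.toLp ψ) (V hκ n (h n d) (hφ.memLp.toLp φ)) =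
        ∫ x, (starRingEnd ℂ) (ψ x) * φ (S κ n (h n d) x) ∂(mu D) := fun d =>
      inner_koop_toLp hφ hψ (mp_S hκ n (h n d))
    simp_rw [e1]
    rw [← cyl_formula hκ (N := N n) hm hm' hφ hψ (g := N n • t) (h1 n) (h := h n)
      (fun d => by rw [Pi.smul_apply]; exact h2 n d)]
    refine (integral_diff_le ((mp_Tf t hκ hs).iterate (N n)).measurable
      (mp_S hκ (n + 1) (N n • t)).measurable hφ hψ hC hC').trans ?_
    have h0 : 0 ≤ C := (norm_nonneg _).trans (hC 0)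
    have h0' : 0 ≤ C' := (norm_nonneg _).trans (hC' 0)
    gcongr
    · exact hfin.ne
    · exact mu_iter_ne t hκ hs (n + 1) (N n)

end Pool.Agent.Helper42.SM
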