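import Pool.Agent.Helper42.SM5

/-!
Spectral multiplicities, part 6: the concrete cocycles.
-/

open MeasureTheory Set Filter
open scoped ENNReal Topology

namespace Pool.Agent.Helper42.SM

/-- numerical parameters -/
structure Par where
  k : ℕ → ℕ
  q : ℕ → ℕ
  u : ∀ n, ZMod (q n)
  i : ℕ → ℕ
  j : ℕ → ℕ
  b : ℕ → ℕ
  e : ℕ → ℕ
  hk : ∀ n, 0 < k n
  hq : ∀ n, (q n).Prime
  hu : ∀ n, orderOf (u n) = k n

namespace Par

variable (P : Par)

/-- exponents -/
def L : ℕ → ℕ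
  | 0 => 1
  | n + 1 => (L n * (2 ^ n * L n)) * P.q n * P.k (P.i n) * P.k (P.j n)

/-- the times of the weak limits -/
def N (n : ℕ) : ℕ := 2 ^ n * P.L n

/-- the orders of the cyclic factors -/
def M (n : ℕ) : ℕ := P.L n * P.N n

theorem L_pos (n : ℕ) : 0 < P.L n := by
  induction n with
  | zero => exact Nat.one_pos
  | succ n ih =>
    have h1 := (P.hq n).pos
    have h2 := P.hk (P.i n)
    have h3 := P.hk (P.j n)
    unfold L
    positivity

theorem N_pos (n : ℕ) : 0 < P.N n := by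
  have := P.L_pos n
  unfold N; positivity

theorem M_pos (n : ℕ) : 0 < P.M n := Nat.mul_pos (P.L_pos n) (P.N_pos n)

instance (n : ℕ) : NeZero (P.M n) := ⟨(P.M_pos n).ne'⟩
instance (n : ℕ) : NeZero (P.q n) := ⟨(P.hq n).ne_zero⟩
instance (n : ℕ) : NeZero (P.k n) := ⟨(P.hk n).ne'⟩
instance (n : ℕ) : Fact (P.q n).Prime := ⟨P.hq n⟩

theorem L_succ (n : ℕ) : P.L (n + 1) = P.M n * P.q n * P.k (P.i n) * P.k (P.j n) := rfl

theorem M_dvd (n : ℕ) : P.M n ∣ P.L (n + 1) := by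
  rw [L_succ, mul_assoc, mul_assoc]; exact Dvd.intro _ rfl

theorem q_dvd (n : ℕ) : P.q n ∣ P.L (n + 1) := by
  rw [L_succ, mul_comm (P.M n), mul_assoc, mul_assoc]; exact Dvd.intro _ rfl

theorem ki_dvd (n : ℕ) : P.k (P.i n) ∣ P.L (n + 1) := by
  rw [L_succ, mul_comm (P.M n * P.q n), mul_assoc]; exact Dvd.intro _ rfl

theorem kj_dvd (n : ℕ) : P.k (P.j n) ∣ P.L (n + 1) := by
  rw [L_succ]; exact Dvd.intro_left _ rfl

theorem L_dvd_succ (n : ℕ) : P.L n ∣ P.L (n + 1) :=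
  (Dvd.intro _ rfl : P.L n ∣ P.M n).trans (P.M_dvd n)

theorem L_dvd {n m : ℕ} (h : n ≤ m) : P.L n ∣ P.L m := by
  induction m, h using Nat.le_induction with
  | base => exact dvd_rfl
  | succ m _ ih => exact ih.trans (P.L_dvd_succ m)

/-- coordinate groups -/
abbrev D (n : ℕ) : Type := ZMod (P.M n) × ZMod (P.q n) × ZMod (P.k (P.i n)) × ZMod (P.k (P.j n))

/-- the space -/
abbrev X : Type := ∀ n, P.D n

theorem smul_zmod {n m : ℕ} (h : m ∣ n) (x : ZMod m) : n • x = 0 := by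
  obtain ⟨c, rfl⟩ := h
  rw [mul_comm, mul_nsmul', nsmul_eq_mul, ← nsmul_eq_mul, nsmul_eq_mul]
  simp

theorem L_smul {n : ℕ} {x : P.X} (hx : x ∈ A P.D n) : P.L n • x = 0 := by
  funext m
  rw [Pi.smul_apply, Pi.zero_apply]
  rcases lt_or_ge m n with h | h
  · have hd : P.L (m + 1) ∣ P.L n := P.L_dvd h
    refine Prod.ext ?_ (Prod.ext ?_ (Prod.ext ?_ ?_))
    · exact smul_zmod ((P.M_dvd m).trans hd) _
    · exact smul_zmod ((P.q_dvd m).trans hd) _
    · exact smul_zmod ((P.ki_dvd m).trans hd) _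
    · exact smul_zmod ((P.kj_dvd m).trans hd) _
  · rw [hx m h, smul_zero]

/-- the element of `E a` -/
def iE (a : ℕ) : ZMod (P.q a) →+ P.X where
  toFun x := Pi.single a ((0 : ZMod (P.M a)), x, (0 : ZMod (P.k (P.i a))), (0 : ZMod (P.k (P.j a))))
  map_zero' := by
    funext n
    by_cases h : n = a
    · subst h; rw [Pi.single_eq_same]; rfl
    · rw [Pi.single_eq_of_ne h]; rfl
  map_add' := by
    intro x y
    rw [← Pi.single_add]
    congr 1
    refine Prod.ext ?_ (Prod.ext ?_ (Prod.ext ?_ ?_)) <;> simp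

theorem iE_same (a : ℕ) (x : ZMod (P.q a)) : P.iE a x a = (0, x, 0, 0) := Pi.single_eq_same _ _

theorem iE_ne {a n : ℕ} (h : n ≠ a) (x : ZMod (P.q a)) : P.iE a x n = 0 := Pi.single_eq_of_ne h _

theorem iE_mem {a n : ℕ} (h : a < n) (x : ZMod (P.q a)) : P.iE a x ∈ A P.D n := by
  intro m hm
  exact P.iE_ne (by omega) x

/-- increments -/
def bet (a a' bb ee : ℕ) (g : P.X) (l l' : ℕ) : P.X :=
  g + (if l = 0 ∧ a' < a then P.iE a' (P.u a' ^ l' * bb) else 0) + P.iE a (P.u a ^ l * ee)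

theorem bet_mem {a a' bb ee : ℕ} {g : P.X} {n : ℕ} (hg : g ∈ A P.D n) (ha : a < n) (l l' : ℕ) :
    P.bet a a' bb ee g l l' ∈ A P.D n := by
  unfold bet
  refine (A P.D n).add_mem ((A P.D n).add_mem hg ?_) (P.iE_mem ha _)
  split_ifs with h
  · exact P.iE_mem (by omega) _
  · exact (A P.D n).zero_mem

end Par

/-- the group parameters -/
structure Par2 (P : Par) where
  g : ℕ → P.X
  g' : ℕ → P.X
  hg : ∀ n, g n ∈ A P.D n
  hg' : ∀ n, g' n ∈ A P.D n
  hgC : ∀ n m, (g n m).2.1 = 0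
  hgC' : ∀ n m, (g' n m).2.1 = 0

namespace Par2

variable {P : Par} (Q : Par2 P)

/-- the increments at step `n` -/
def beta (n l l' : ℕ) : P.X :=
  if P.i n < n then P.bet (P.i n) (P.j n) (P.b n) (P.e n) (Q.g n) l l' else 0

theorem beta_mem (n l l' : ℕ) : Q.beta n l l' ∈ A P.D n := by
  unfold beta
  split_ifs with h
  · exact P.bet_mem (Q.hg n) h l l'
  · exact (A P.D n).zero_mem

/-- the cocycles -/
def kap (n : ℕ) (d : P.D n) : P.X :=
  -((d.1.val / P.N n) • Q.beta n d.2.2.1.val d.2.2.2.val) + (if d.2.1 = 0 then Q.g' n else 0)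

theorem kap_mem (n : ℕ) (d : P.D n) : Q.kap n d ∈ A P.D n := by
  unfold kap
  refine (A P.D n).add_mem ((A P.D n).neg_mem ((A P.D n).nsmul_mem (Q.beta_mem n _ _) _)) ?_
  split_ifs with h
  · exact Q.hg' n
  · exact (A P.D n).zero_mem

/-- the translation vector of `T` -/
def tt (P : Par) : P.X := fun _ => (1, 0, 0, 0)

theorem val_add_div (n v : ℕ) (c : ZMod (P.M n)) :
    (c + (v : ZMod (P.M n))).val / P.N n = ((c.val + v) / P.N n) % P.L n := by
  rw [ZMod.val_add, ZMod.val_natCast, Nat.add_mod_mod]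
  generalize c.val + v = s
  unfold Par.M
  rw [mul_comm, Nat.mod_mul_right_div_self]

theorem smul_mod {n : ℕ} {x : P.X} (hx : x ∈ A P.D n) (s : ℕ) : (s % P.L n) • x = s • x := by
  conv_rhs => rw [← Nat.mod_add_div s (P.L n)]
  rw [add_smul, mul_comm (P.L n), mul_smul, P.L_smul hx, smul_zero, add_zero]

theorem kap_shift (n : ℕ) (d : P.D n) :
    Q.kap n d - Q.kap n (d + P.N n • tt P n) = Q.beta n d.2.2.1.val d.2.2.2.val := by
  have e1 : (d + P.N n • tt P n).1 = d.1 + (P.N n : ZMod (P.M n)) := by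
    simp [tt]
  have e2 : (d + P.N n • tt P n).2 = d.2 := by
    simp [tt]
  unfold kap
  rw [e1, e2, val_add_div, smul_mod (Q.beta_mem n _ _), Nat.add_div_right _ (P.N_pos n), add_smul, one_smul]
  abel

theorem N_tt {n m : ℕ} (h : m < n) : (P.N n • tt P) m = 0 := by
  have hd : P.M m ∣ P.N n := ((P.M_dvd m).trans (P.L_dvd h)).trans (Dvd.intro_left _ rfl)
  rw [Pi.smul_apply]
  have h1 : P.N n • (1 : ZMod (P.M m)) = 0 := Par.smul_zmod hd _
  refine Prod.ext ?_ (Prod.ext ?_ (Prod.ext ?_ ?_))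
  · exact h1
  · exact smul_zero (P.N n)
  · exact smul_zero (P.N n)
  · exact smul_zero (P.N n)

theorem bad_subset (n : ℕ) : Bad Q.kap (tt P) n ⊆ {x | x n ∈
    (Finset.univ.filter (fun d : P.D n => P.N n ∣ d.1.val + 1))} := by
  intro x hx
  simp only [Finset.mem_filter, Finset.mem_univ, true_and, mem_ofPred_eq]
  by_contra hd
  apply hx
  have e1 : (x n + tt P n).1 = (x n).1 + ((1 : ℕ) : ZMod (P.M n)) := by
    simp [tt]
  have e2 : (x n + tt P n).2 = (x n).2 := by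
    simp [tt]
  unfold kap
  rw [e1, e2, val_add_div, smul_mod (Q.beta_mem n _ _)]
  have : ((x n).1.val + 1) / P.N n = (x n).1.val / P.N n := Nat.succ_div_of_not_dvd hd
  rw [this]

theorem mu_bad (n : ℕ) : mu P.D (Bad Q.kap (tt P) n) ≤ (P.N n : ℝ≥0∞)⁻¹ := by
  classical
  refine (measure_mono (Q.bad_subset n)).trans ?_
  rw [mu_coord]
  set B := Finset.univ.filter (fun d : P.D n => P.N n ∣ d.1.val + 1) with hB
  -- counting
  have h1 : B.card * P.N n ≤ Fintype.card (P.D n) := by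
    have h2 : B ⊆ ((Finset.range (P.L n)).image (fun r => (((r + 1) * P.N n - 1 : ℕ) : ZMod (P.M n)))) ×ˢ
        (Finset.univ : Finset (ZMod (P.q n) × ZMod (P.k (P.i n)) × ZMod (P.k (P.j n)))) := by
      intro d hd
      rw [hB, Finset.mem_filter] at hd
      obtain ⟨_, c, hc⟩ := hd
      rw [Finset.mem_product]
      refine ⟨?_, Finset.mem_univ _⟩
      rw [Finset.mem_image]
      have hc0 : 0 < c := by
        rcases Nat.eq_zero_or_pos c with h | h
        · rw [h, mul_zero] at hc; omega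
        · exact h
      refine ⟨c - 1, ?_, ?_⟩
      · rw [Finset.mem_range]
        have h3 : d.1.val < P.M n := ZMod.val_lt _
        have h4 : P.N n * c ≤ P.L n * P.N n := by
          have : d.1.val + 1 ≤ P.M n := h3
          rw [hc] at this
          exact this
        rw [mul_comm] at h4
        have := Nat.le_of_mul_le_mul_right h4 (P.N_pos n)
        omega
      · have h5 : (c - 1 + 1) * P.N n - 1 = d.1.val := by
          rw [Nat.sub_add_cancel hc0, mul_comm, ← hc, Nat.add_sub_cancel]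
        rw [h5, ZMod.natCast_zmod_val]
    have h3 := Finset.card_le_card h2
    rw [Finset.card_product] at h3
    have h4 : ((Finset.range (P.L n)).image (fun r => (((r + 1) * P.N n - 1 : ℕ) : ZMod (P.M n)))).card ≤ P.L n := by
      refine Finset.card_image_le.trans ?_
      rw [Finset.card_range]
    calc B.card * P.N n ≤ (P.L n * (Finset.univ : Finset (ZMod (P.q n) × ZMod (P.k (P.i n)) × ZMod (P.k (P.j n)))).card) * P.N n := by
          gcongr
          exact h3.trans (Nat.mul_le_mul_right _ h4)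
      _ = Fintype.card (P.D n) := by
        rw [Fintype.card_prod, ZMod.card, Finset.card_univ]
        unfold Par.M
        ring
  have hc : (Fintype.card (P.D n) : ℝ≥0∞) ≠ 0 := by exact_mod_cast Fintype.card_ne_zero
  have hN : (P.N n : ℝ≥0∞) ≠ 0 := by exact_mod_cast (P.N_pos n).ne'
  rw [ENNReal.div_le_iff hc (ENNReal.natCast_ne_top _), mul_comm, ← div_eq_mul_inv,
    ENNReal.le_div_iff_mul_le (Or.inl hN) (Or.inl (ENNReal.natCast_ne_top _))]
  exact_mod_cast h1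

theorem two_pow_le_N (n : ℕ) : 2 ^ n ≤ P.N n := Nat.le_mul_of_pos_right _ (P.L_pos n)

theorem N_le_N_succ (n : ℕ) : 2 ^ (n + 1) * P.N n ≤ P.N (n + 1) := by
  unfold Par.N
  apply Nat.mul_le_mul_left
  have h := Nat.le_of_dvd (P.L_pos (n + 1)) (P.M_dvd n)
  calc 2 ^ n * P.L n = P.N n := rfl
    _ ≤ P.M n := Nat.le_mul_of_pos_left _ (P.L_pos n)
    _ ≤ _ := h

theorem N_growth (n m : ℕ) : 2 ^ (m + n + 1) * P.N n ≤ P.N (m + n + 1) := by
  induction m with
  | zero => rw [zero_add]; exact N_le_N_succ n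
  | succ m ih =>
    have h1 := N_le_N_succ (P := P) (m + n + 1)
    have h2 : P.N n ≤ P.N (m + n + 1) := (Nat.le_mul_of_pos_left _ (by positivity)).trans ih
    calc 2 ^ (m + 1 + n + 1) * P.N n ≤ 2 ^ (m + n + 1 + 1) * P.N (m + n + 1) := by
          rw [show m + 1 + n + 1 = m + n + 1 + 1 by ring]
          exact Nat.mul_le_mul_left _ h2
      _ ≤ P.N (m + n + 1 + 1) := h1
      _ = _ := by rw [show m + 1 + n + 1 = m + n + 1 + 1 by ring]

theorem sum_bad : ∑' n, mu P.D (Bad Q.kap (tt P) n) ≠ ∞ := by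
  have h1 : ∀ n, mu P.D (Bad Q.kap (tt P) n) ≤ (2⁻¹ : ℝ≥0∞) ^ n := by
    intro n
    refine (Q.mu_bad n).trans ?_
    rw [← ENNReal.inv_pow, ENNReal.inv_le_inv]
    exact_mod_cast two_pow_le_N n
  refine ne_top_of_le_ne_top ?_ (ENNReal.tsum_le_tsum h1)
  rw [ENNReal.tsum_geometric, ENNReal.one_sub_inv_two, inv_inv]
  exact ENNReal.ofNat_ne_top

theorem N_tail_le (n : ℕ) : (P.N n : ℝ≥0∞) * tail Q.kap (tt P) (n + 1) ≤ (2⁻¹ : ℝ≥0∞) ^ n := by
  unfold tail
  rw [← ENNReal.tsum_mul_left]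
  have h1 : ∀ m, (P.N n : ℝ≥0∞) * mu P.D (Bad Q.kap (tt P) (m + (n + 1))) ≤ (2⁻¹ : ℝ≥0∞) ^ (n + 1) * 2⁻¹ ^ m := by
    intro m
    calc (P.N n : ℝ≥0∞) * mu P.D (Bad Q.kap (tt P) (m + (n + 1)))
        ≤ (P.N n : ℝ≥0∞) * (P.N (m + n + 1) : ℝ≥0∞)⁻¹ := by
          gcongr
          exact Q.mu_bad _
      _ ≤ (2⁻¹ : ℝ≥0∞) ^ (m + n + 1) := by
        rw [← div_eq_mul_inv]
        apply ENNReal.div_le_of_le_mul
        rw [← ENNReal.inv_pow, mul_comm, ← div_eq_mul_inv, ENNReal.le_div_iff_mul_le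
          (Or.inl (by positivity)) (Or.inl (ENNReal.pow_ne_top ENNReal.ofNat_ne_top)), mul_comm]
        exact_mod_cast N_growth n m
      _ = _ := by rw [← pow_add]; congr 1; ring
  refine (ENNReal.tsum_le_tsum h1).trans ?_
  rw [ENNReal.tsum_mul_left, ENNReal.tsum_geometric, ENNReal.one_sub_inv_two, inv_inv, pow_succ,
    mul_assoc, ENNReal.inv_mul_cancel (by norm_num) ENNReal.ofNat_ne_top, mul_one]

theorem N_tail_tendsto : Tendsto (fun n => (P.N n : ℝ≥0∞) * tail Q.kap (tt P) (n + 1)) atTop (𝓝 0) := by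
  refine tendsto_of_tendsto_of_tendsto_of_le_of_le tendsto_const_nhds
    (ENNReal.tendsto_pow_atTop_nhds_zero_of_lt_one ?_) (fun n => bot_le) (fun n => Q.N_tail_le n)
  exact ENNReal.inv_lt_one.mpr ENNReal.one_lt_two

end Par2

end Pool.Agent.Helper42.SM
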