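import Pool.Agent.Helper42.SM6

/-!
Spectral multiplicities, part 7: the symmetries `R a` (pointwise part).
-/

open MeasureTheory Set Filter
open scoped ENNReal Topology

namespace Pool.Agent.Helper42.SM

namespace Par

variable (P : Par)

theorem u_pow (a : ℕ) : P.u a ^ P.k a = 1 := by rw [← P.hu a]; exact pow_orderOf_eq_one _

theorem u_ne_zero (a : ℕ) : P.u a ≠ 0 := by
  intro h
  have h1 := P.u_pow a
  rw [h, zero_pow (P.hk a).ne'] at h1
  exact zero_ne_one h1

theorem u_pow_mod (a m : ℕ) : P.u a ^ (m % P.k a) = P.u a ^ m := by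
  rw [← P.hu a]; exact pow_mod_orderOf _ _

/-- multiplier -/
def uf (a n : ℕ) : ZMod (P.q n) := if n = a then P.u n else 1

theorem uf_ne (a n : ℕ) : P.uf a n ≠ 0 := by
  unfold uf; split_ifs
  · exact P.u_ne_zero n
  · exact one_ne_zero

theorem uf_same (a : ℕ) : P.uf a a = P.u a := if_pos rfl

theorem uf_of_ne {a n : ℕ} (h : n ≠ a) : P.uf a n = 1 := if_neg h

/-- linear part -/
def nuD (a n : ℕ) : P.D n →+ P.D n where
  toFun d := (d.1, P.uf a n * d.2.1, d.2.2)
  map_zero' := by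
    refine Prod.ext rfl (Prod.ext ?_ rfl)
    exact mul_zero _
  map_add' := by
    intro x y
    refine Prod.ext rfl (Prod.ext ?_ rfl)
    exact mul_add _ _ _

theorem nuD_apply (a n : ℕ) (d : P.D n) : P.nuD a n d = (d.1, P.uf a n * d.2.1, d.2.2) := rfl

theorem nuD_of_ne {a n : ℕ} (h : n ≠ a) (d : P.D n) : P.nuD a n d = d := by
  rw [nuD_apply, P.uf_of_ne h, one_mul]

/-- linear part -/
def nu (a : ℕ) : P.X →+ P.X where
  toFun g n := P.nuD a n (g n)
  map_zero' := by funext n; exact map_zero _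
  map_add' := by intro x y; funext n; exact map_add _ _ _

theorem nu_apply (a : ℕ) (g : P.X) (n : ℕ) : P.nu a g n = P.nuD a n (g n) := rfl

/-- translation part -/
def rho (a : ℕ) : P.X := fun n =>
  if a < n then (0, 0, if P.i n = a then 1 else 0, if P.j n = a then 1 else 0) else 0

theorem rho_le {a n : ℕ} (h : n ≤ a) : P.rho a n = 0 := if_neg (by omega)

theorem rho_gt {a n : ℕ} (h : a < n) : P.rho a n =
    (0, 0, if P.i n = a then 1 else 0, if P.j n = a then 1 else 0) := if_pos h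

/-- the symmetry -/
def Rm (a : ℕ) (x : P.X) : P.X := P.nu a x + P.rho a

theorem Rm_le {a n : ℕ} (h : n ≤ a) (x : P.X) : P.Rm a x n = P.nuD a n (x n) := by
  unfold Rm
  rw [Pi.add_apply, P.rho_le h, add_zero, nu_apply]

theorem Rm_gt {a n : ℕ} (h : a < n) (x : P.X) : P.Rm a x n = x n + P.rho a n := by
  unfold Rm
  rw [Pi.add_apply, nu_apply, P.nuD_of_ne (by omega)]

/-- the sum of `E b`, `b < a` -/
def EL (a : ℕ) : AddSubgroup P.X where
  carrier := {g | (∀ n, a ≤ n → g n = 0) ∧ ∀ n, (g n).1 = 0 ∧ (g n).2.2 = 0}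
  zero_mem' := ⟨fun _ _ => rfl, fun _ => ⟨rfl, rfl⟩⟩
  add_mem' := by
    rintro x y ⟨h1, h2⟩ ⟨h3, h4⟩
    refine ⟨fun n hn => by rw [Pi.add_apply, h1 n hn, h3 n hn, add_zero], fun n => ⟨?_, ?_⟩⟩
    · rw [Pi.add_apply, Prod.fst_add, (h2 n).1, (h4 n).1, add_zero]
    · rw [Pi.add_apply, Prod.snd_add, Prod.snd_add, (h2 n).2, (h4 n).2, add_zero]
  neg_mem' := by
    rintro x ⟨h1, h2⟩
    refine ⟨fun n hn => by rw [Pi.neg_apply, h1 n hn, neg_zero], fun n => ⟨?_, ?_⟩⟩
    · rw [Pi.neg_apply, Prod.fst_neg, (h2 n).1, neg_zero]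
    · rw [Pi.neg_apply, Prod.snd_neg, Prod.snd_neg, (h2 n).2, neg_zero]

theorem EL_le (a : ℕ) {g : P.X} (h : g ∈ P.EL a) : g ∈ A P.D a := h.1

theorem iE_mem_EL {a b : ℕ} (h : b < a) (x : ZMod (P.q b)) : P.iE b x ∈ P.EL a := by
  refine ⟨fun n hn => P.iE_ne (by omega) x, fun n => ?_⟩
  by_cases hn : n = b
  · subst hn
    rw [P.iE_same]; exact ⟨rfl, rfl⟩
  · rw [P.iE_ne hn]; exact ⟨rfl, rfl⟩

theorem EL_mono {a b : ℕ} (h : a ≤ b) : P.EL a ≤ P.EL b :=
  fun _ hg => ⟨fun n hn => hg.1 n (h.trans hn), hg.2⟩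

/-- decomposition -/
theorem EL_induction {p : P.X → Prop} (h0 : p 0) (hadd : ∀ x y, p x → p y → p (x + y)) (a : ℕ)
    (hE : ∀ b < a, ∀ x, p (P.iE b x)) : ∀ g ∈ P.EL a, p g := by
  induction a with
  | zero =>
    intro g hg
    have : g = 0 := by funext n; exact hg.1 n (Nat.zero_le n)
    rw [this]; exact h0
  | succ a ih =>
    intro g hg
    have h1 : g = (g - P.iE a (g a).2.1) + P.iE a (g a).2.1 := by abel
    have h2 : g - P.iE a (g a).2.1 ∈ P.EL a := by
      have h3 : g - P.iE a (g a).2.1 ∈ P.EL (a + 1) := (P.EL (a + 1)).sub_mem hg (P.iE_mem_EL (by omega) _)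
      refine ⟨fun n hn => ?_, h3.2⟩
      rcases hn.eq_or_lt with h4 | h4
      · subst h4
        rw [Pi.sub_apply, P.iE_same]
        refine Prod.ext ?_ (Prod.ext ?_ ?_)
        · rw [Prod.fst_sub, (hg.2 a).1, Prod.fst_zero]; exact sub_zero _
        · exact sub_self _
        · rw [Prod.snd_sub, Prod.snd_sub, (hg.2 a).2]
          exact sub_zero _
      · exact h3.1 n h4
    rw [h1]
    exact hadd _ _ (ih (fun b hb => hE b (by omega)) _ h2) (hE a (by omega) _)

theorem nu_of_A {a n : ℕ} (h : n ≤ a) {g : P.X} (hg : g ∈ A P.D n) : P.nu a g = g := by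
  funext m
  rw [nu_apply]
  by_cases hm : m = a
  · subst hm
    rw [hg m h, map_zero]
  · exact P.nuD_of_ne hm _

theorem nu_C (a : ℕ) {g : P.X} (hg : ∀ m, (g m).2.1 = 0) : P.nu a g = g := by
  funext m
  rw [nu_apply, nuD_apply]
  refine Prod.ext rfl (Prod.ext ?_ rfl)
  show P.uf a m * (g m).2.1 = (g m).2.1
  rw [hg m, mul_zero]

theorem nu_iE_same (a : ℕ) (x : ZMod (P.q a)) : P.nu a (P.iE a x) = P.iE a (P.u a * x) := by
  funext m
  rw [nu_apply]
  by_cases hm : m = a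
  · subst hm
    rw [P.iE_same, P.iE_same, nuD_apply, P.uf_same]
  · rw [P.iE_ne hm, P.iE_ne hm, map_zero]

theorem nu_iE_ne {a b : ℕ} (h : b ≠ a) (x : ZMod (P.q b)) : P.nu a (P.iE b x) = P.iE b x := by
  funext m
  rw [nu_apply]
  by_cases hm : m = b
  · subst hm
    exact P.nuD_of_ne h _
  · rw [P.iE_ne hm, map_zero]

theorem nu_mem (a : ℕ) {n : ℕ} {g : P.X} (hg : g ∈ A P.D n) : P.nu a g ∈ A P.D n := by
  intro m hm
  rw [nu_apply, hg m hm, map_zero]

/-- the increments and the symmetries -/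
theorem bet_R (a i j b e : ℕ) {g : P.X} (hg : P.nu a g = g) {l l' L L' : ℕ}
    (h1 : i = a → P.u i ^ L = P.u i ^ (l + 1)) (h1' : i ≠ a → L = l)
    (h2 : j = a → P.u j ^ L' = P.u j ^ (l' + 1)) (h2' : j ≠ a → L' = l') :
    P.bet i j b e g L L' - P.nu a (P.bet i j b e g l l') ∈ P.EL a := by
  unfold bet
  rw [map_add, map_add, hg]
  by_cases hi : i = a
  · have e1 : P.nu a (P.iE i (P.u i ^ l * e)) = P.iE i (P.u i ^ L * e) := by
      rw [h1 hi, hi, P.nu_iE_same, pow_succ']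
      congr 1
      ring
    rw [e1]
    have e2 : ∀ (x y : P.X), g + x + P.iE i (P.u i ^ L * ↑e) - (g + y + P.iE i (P.u i ^ L * ↑e)) = x - y := by
      intro x y; abel
    rw [e2]
    by_cases hj : j < i
    · refine (P.EL a).sub_mem ?_ ?_
      · split_ifs
        · exact P.iE_mem_EL (by omega) _
        · exact (P.EL a).zero_mem
      · split_ifs
        · rw [P.nu_iE_ne (by omega)]
          exact P.iE_mem_EL (by omega) _
        · rw [map_zero]
          exact (P.EL a).zero_mem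
    · rw [if_neg (fun h => hj h.2), if_neg (fun h => hj h.2), map_zero, sub_zero]
      exact (P.EL a).zero_mem
  · have hL := h1' hi
    subst hL
    rw [P.nu_iE_ne hi]
    have e2 : ∀ (x y : P.X), g + x + P.iE i (P.u i ^ L * ↑e) - (g + y + P.iE i (P.u i ^ L * ↑e)) = x - y := by
      intro x y; abel
    rw [e2]
    have e3 : (if L = 0 ∧ j < i then P.iE j (P.u j ^ L' * (b : ZMod (P.q j))) else 0) -
        P.nu a (if L = 0 ∧ j < i then P.iE j (P.u j ^ l' * (b : ZMod (P.q j))) else 0) = 0 := by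
      split_ifs with hc
      · by_cases hj : j = a
        · rw [h2 hj, hj, P.nu_iE_same, sub_eq_zero, pow_succ']
          congr 1
          ring
        · rw [P.nu_iE_ne hj, h2' hj, sub_self]
      · rw [map_zero, sub_zero]
    rw [e3]
    exact (P.EL a).zero_mem

theorem val_shift (m a : ℕ) (l : ZMod (P.k m)) (h : m = a) :
    P.u m ^ (l + (if m = a then 1 else 0)).val = P.u m ^ (l.val + 1) := by
  rw [if_pos h, ZMod.val_add, P.u_pow_mod, ZMod.val_one_eq_one_mod, pow_add, P.u_pow_mod, ← pow_add]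

end Par

namespace Par2

variable {P : Par} (Q : Par2 P)

theorem beta_R (a n : ℕ) (l : ZMod (P.k (P.i n))) (l' : ZMod (P.k (P.j n))) :
    Q.beta n (l + (if P.i n = a then 1 else 0)).val (l' + (if P.j n = a then 1 else 0)).val -
      P.nu a (Q.beta n l.val l'.val) ∈ P.EL a := by
  unfold beta
  by_cases h : P.i n < n
  · rw [if_pos h, if_pos h]
    apply P.bet_R a _ _ _ _ (P.nu_C a (Q.hgC n))
    · exact P.val_shift _ _ _
    · intro h1; rw [if_neg h1, add_zero]
    · exact P.val_shift _ _ _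
    · intro h1; rw [if_neg h1, add_zero]
  · rw [if_neg h, if_neg h, map_zero, sub_zero]
    exact (P.EL a).zero_mem

theorem kap_nuD (a n : ℕ) (d : P.D n) : Q.kap n (P.nuD a n d) = Q.kap n d := by
  unfold kap
  rw [Par.nuD_apply]
  have : (P.uf a n * d.2.1 = 0) ↔ d.2.1 = 0 := by
    rw [mul_eq_zero]
    exact ⟨fun h => h.resolve_left (P.uf_ne a n), Or.inr⟩
  simp only [this]

theorem kap_R {a n : ℕ} (h : a < n) (d : P.D n) :
    Q.kap n (d + P.rho a n) - P.nu a (Q.kap n d) ∈ P.EL a := by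
  have e1 : (d + P.rho a n).1 = d.1 := by rw [P.rho_gt h, Prod.fst_add]; exact add_zero _
  have e2 : (d + P.rho a n).2.1 = d.2.1 := by
    rw [P.rho_gt h, Prod.snd_add, Prod.fst_add]; exact add_zero _
  have e3 : (d + P.rho a n).2.2.1 = d.2.2.1 + (if P.i n = a then 1 else 0) := by
    rw [P.rho_gt h, Prod.snd_add, Prod.snd_add, Prod.fst_add]
  have e4 : (d + P.rho a n).2.2.2 = d.2.2.2 + (if P.j n = a then 1 else 0) := by
    rw [P.rho_gt h, Prod.snd_add, Prod.snd_add, Prod.snd_add]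
  unfold kap
  rw [e1, e2, e3, e4, map_add, map_neg, map_nsmul]
  have e5 : P.nu a (if d.2.1 = 0 then Q.g' n else 0) = if d.2.1 = 0 then Q.g' n else 0 := by
    split_ifs
    · exact P.nu_C a (Q.hgC' n)
    · exact map_zero _
  rw [e5, add_sub_add_right_eq_sub, sub_neg_eq_add, neg_add_eq_sub, ← smul_sub, ← neg_mem_iff,
    ← smul_neg, neg_sub]
  exact (P.EL a).nsmul_mem (Q.beta_R a n _ _) _

theorem R_S_le (a : ℕ) (n : ℕ) : n ≤ a + 1 → ∀ g x : P.X,
    P.Rm a (S Q.kap n g x) = S Q.kap n (P.nu a g) (P.Rm a x) := by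
  induction n with
  | zero =>
    intro _ g x
    show P.nu a (x + g) + P.rho a = P.nu a x + P.rho a + P.nu a g
    rw [map_add]; abel
  | succ n ih =>
    intro hn g x
    have hn' : n ≤ a := by omega
    rw [S, S, ih (by omega), P.Rm_le hn', P.nu_apply a g n, ← map_add, Q.kap_nuD, Q.kap_nuD,
      map_sub, map_add, P.nu_of_A hn' (Q.kap_mem n _), P.nu_of_A hn' (Q.kap_mem n _)]

theorem R_S (a : ℕ) (n : ℕ) (hn : a + 1 ≤ n) : ∀ g x : P.X, ∃ ε ∈ P.EL a,
    P.Rm a (S Q.kap n g x) = S Q.kap n (P.nu a g + ε) (P.Rm a x) := by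
  induction n, hn using Nat.le_induction with
  | base =>
    intro g x
    exact ⟨0, (P.EL a).zero_mem, by rw [add_zero, Q.R_S_le a (a + 1) le_rfl]⟩
  | succ n hn ih =>
    intro g x
    obtain ⟨ε, hε, h⟩ := ih (g + Q.kap n (x n) - Q.kap n (x n + g n)) x
    have hna : a < n := by omega
    set ε' : P.X := ε - (Q.kap n (x n + P.rho a n) - P.nu a (Q.kap n (x n))) +
      (Q.kap n (x n + g n + P.rho a n) - P.nu a (Q.kap n (x n + g n))) with hε'
    have hmem : ε' ∈ P.EL a := (P.EL a).add_mem ((P.EL a).sub_mem hε (Q.kap_R hna _)) (Q.kap_R hna _)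
    refine ⟨ε', hmem, ?_⟩
    rw [S, S, h, P.Rm_gt hna, Pi.add_apply, P.nu_apply, P.nuD_of_ne (by omega), hmem.1 n (by omega),
      add_zero, map_sub, map_add]
    have e1 : x n + P.rho a n + g n = x n + g n + P.rho a n := by abel
    rw [e1, hε']
    congr 1
    abel

end Par2

end Pool.Agent.Helper42.SM
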