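import Pool.Agent.Helper42.SM7

/-!
Spectral multiplicities, part 8: operators of the group of finitely supported elements and of the
symmetries `R a`.
-/

open MeasureTheory Set Filter
open scoped ENNReal Topology

namespace Pool.Agent.Helper42.SM

section gen

variable {D : ℕ → Type*} [∀ n, AddCommGroup (D n)] [∀ n, Fintype (D n)]
  [∀ n, MeasurableSpace (D n)] [∀ n, MeasurableSingletonClass (D n)]
variable {κ : ∀ n, D n → (∀ m, D m)} (hκ : ∀ n d, κ n d ∈ A D n)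
variable (t : ∀ m, D m) (hs : ∑' n, mu D (Bad κ t n) ≠ ∞)

instance finite_A (n : ℕ) : Finite (A D n) := by
  apply Finite.of_injective (fun g : A D n => fun i : Fin n => g.1 i)
  intro g h hgh
  apply Subtype.ext
  funext m
  by_cases hm : m < n
  · exact congrFun hgh ⟨m, hm⟩
  · rw [g.2 m (by omega), h.2 m (by omega)]

/-- finitely supported elements -/
def Gf (D : ℕ → Type*) [∀ n, AddCommGroup (D n)] : AddSubgroup (∀ m, D m) where
  carrier := {g | ∃ n, g ∈ A D n}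
  zero_mem' := ⟨0, (A D 0).zero_mem⟩
  add_mem' := by
    rintro a b ⟨n, hn⟩ ⟨m, hm⟩
    exact ⟨max n m, (A D _).add_mem (A_mono (le_max_left _ _) hn) (A_mono (le_max_right _ _) hm)⟩
  neg_mem' := by
    rintro a ⟨n, hn⟩
    exact ⟨n, (A D n).neg_mem hn⟩

/-- a level of an element -/
noncomputable def lev (g : Gf D) : ℕ := Classical.choose g.2

omit [∀ n, Fintype (D n)] [∀ n, MeasurableSpace (D n)] [∀ n, MeasurableSingletonClass (D n)] in
theorem lev_mem (g : Gf D) : g.1 ∈ A D (lev g) := Classical.choose_spec g.2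

/-- the operators `V n g` as isometric equivalences -/
noncomputable def VE (n : ℕ) (g : ∀ m, D m) : Lp ℂ 2 (mu D) ≃ₗᵢ[ℂ] Lp ℂ 2 (mu D) where
  toFun := V hκ n g
  invFun := V hκ n (-g)
  left_inv := V_neg_left hκ n g
  right_inv := V_neg_right hκ n g
  map_add' := map_add _
  map_smul' := map_smul _
  norm_map' := (V hκ n g).norm_map

/-- the operators of the group -/
noncomputable def VG (g : Gf D) : Lp ℂ 2 (mu D) ≃ₗᵢ[ℂ] Lp ℂ 2 (mu D) := VE hκ (lev g) g.1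

theorem VG_eq (g : Gf D) {n : ℕ} (hg : g.1 ∈ A D n) (f : Lp ℂ 2 (mu D)) :
    VG hκ g f = V hκ n g.1 f := by
  show V hκ (lev g) g.1 f = V hκ n g.1 f
  rw [← V_of_mem hκ (le_max_left (lev g) n) (lev_mem g), V_of_mem hκ (le_max_right (lev g) n) hg]

theorem VG_zero (f : Lp ℂ 2 (mu D)) : VG hκ 0 f = f := by
  rw [VG_eq hκ 0 (A D 0).zero_mem]
  exact V_zero hκ 0 f

theorem VG_add (g h : Gf D) (f : Lp ℂ 2 (mu D)) : VG hκ (g + h) f = VG hκ g (VG hκ h f) := by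
  have h1 : g.1 ∈ A D (max (lev g) (lev h)) := A_mono (le_max_left _ _) (lev_mem g)
  have h2 : h.1 ∈ A D (max (lev g) (lev h)) := A_mono (le_max_right _ _) (lev_mem h)
  rw [VG_eq hκ g h1, VG_eq hκ h h2, VG_eq hκ (g + h) ((A D _).add_mem h1 h2)]
  exact V_add hκ _ _ _ f

include hs in
theorem ae_Tf : ∀ᵐ x ∂(mu D), ∃ m, ∀ n, m ≤ n → Tf κ t x = S κ n t x := by
  have h : ∀ᵐ x ∂(mu D), x ∈ GG κ t := by
    rw [ae_iff]
    exact mu_GG t hs
  filter_upwards [h] with x hx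
  exact Tf_eventually κ t hx

theorem UU_eq (f : Lp ℂ 2 (mu D)) : UU hκ t hs f = koop (Tf κ t) (mp_Tf t hκ hs) f := rfl

theorem V_eq (n : ℕ) (g : ∀ m, D m) (f : Lp ℂ 2 (mu D)) :
    V hκ n g f = koop (S κ n g) (mp_S hκ n g) f := rfl

theorem UU_V {n : ℕ} {g : ∀ m, D m} (hg : g ∈ A D n) (f : Lp ℂ 2 (mu D)) :
    UU hκ t hs (V hκ n g f) = V hκ n g (UU hκ t hs f) := by
  rw [UU_eq, UU_eq, V_eq, V_eq, koop_comp, koop_comp]
  apply koop_congr
  filter_upwards [ae_Tf t hs, (mp_S hκ n g).quasiMeasurePreserving.ae (ae_Tf t hs)] with x h1 h2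
  obtain ⟨m1, h1⟩ := h1
  obtain ⟨m2, h2⟩ := h2
  congr 1
  show S κ n g (Tf κ t x) = Tf κ t (S κ n g x)
  have a1 : m1 ≤ max (max m1 m2) n := (le_max_left _ _).trans (le_max_left _ _)
  have a2 : m2 ≤ max (max m1 m2) n := (le_max_right _ _).trans (le_max_left _ _)
  have a3 : n ≤ max (max m1 m2) n := le_max_right _ _
  rw [h1 _ a1, h2 _ a2, ← S_of_mem hg _ a3, ← S_of_mem hg x a3, S_comm hκ]

theorem UU_VG (g : Gf D) (f : Lp ℂ 2 (mu D)) :
    UU hκ t hs (VG hκ g f) = VG hκ g (UU hκ t hs f) := UU_V hκ t hs (lev_mem g) f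

/-- the constant function -/
noncomputable def oneL : Lp ℂ 2 (mu D) :=
  (Loc.memLp (m := 0) (φ := fun _ : (∀ n, D n) => (1 : ℂ)) (fun _ _ _ => rfl)).toLp _

theorem oneL_coe : (oneL : Lp ℂ 2 (mu D)) =ᵐ[mu D] fun _ => (1 : ℂ) := MemLp.coeFn_toLp _

theorem koop_one {F : (∀ n, D n) → (∀ n, D n)} (hF : MeasurePreserving F (mu D) (mu D)) :
    koop F hF oneL = oneL := by
  apply Lp.ext
  filter_upwards [koop_coe F hF oneL, oneL_coe (D := D), hF.quasiMeasurePreserving.ae (oneL_coe (D := D))]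
    with x h1 h2 h3
  rw [h1, h2, h3]

theorem oneL_ne : (oneL : Lp ℂ 2 (mu D)) ≠ 0 := by
  intro h
  have h1 := oneL_coe (D := D)
  rw [h] at h1
  have h2 : ∀ᵐ x ∂(mu D), False := by
    filter_upwards [h1, Lp.coeFn_zero ℂ 2 (mu D)] with x h3 h4
    rw [h4] at h3
    exact zero_ne_one h3
  rw [ae_iff] at h2
  simp at h2

theorem inner_oneL (f : Lp ℂ 2 (mu D)) : inner ℂ oneL f = ∫ x, f x ∂(mu D) := by
  rw [inner_eq]
  apply integral_congr_ae
  filter_upwards [oneL_coe (D := D)] with x hx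
  rw [hx, map_one, one_mul]

end gen

namespace Par

variable (P : Par)

theorem RD_inj (a n : ℕ) : Function.Injective (fun d => P.nuD a n d + P.rho a n) := by
  intro d d' h
  have h1 : P.nuD a n d = P.nuD a n d' := add_right_cancel h
  rw [P.nuD_apply, P.nuD_apply, Prod.mk.injEq, Prod.mk.injEq] at h1
  exact Prod.ext h1.1 (Prod.ext (mul_left_cancel₀ (P.uf_ne a n) h1.2.1) h1.2.2)

/-- coordinates of the symmetries -/
noncomputable def RD (a n : ℕ) : P.D n ≃ P.D n :=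
  Equiv.ofBijective (fun d => P.nuD a n d + P.rho a n)
    (Finite.injective_iff_bijective.mp (P.RD_inj a n))

theorem Rm_eq (a : ℕ) : P.Rm a = fun x n => P.RD a n (x n) := rfl

theorem mp_Rm (a : ℕ) : MeasurePreserving (P.Rm a) (mu P.D) (mu P.D) := by
  rw [P.Rm_eq]; exact mp_coord (P.RD a)

/-- the symmetries as measurable equivalences -/
noncomputable def Re (a : ℕ) : P.X ≃ᵐ P.X where
  toFun := P.Rm a
  invFun := fun x n => (P.RD a n).symm (x n)
  left_inv := fun x => by funext n; exact (P.RD a n).symm_apply_apply (x n)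
  right_inv := fun x => by funext n; exact (P.RD a n).apply_symm_apply (x n)
  measurable_toFun := (P.mp_Rm a).measurable
  measurable_invFun := (mp_coord (fun n => (P.RD a n).symm)).measurable

/-- the operators of the symmetries -/
noncomputable def RR (a : ℕ) : Lp ℂ 2 (mu P.D) ≃ₗᵢ[ℂ] Lp ℂ 2 (mu P.D) := koopE (P.Re a) (P.mp_Rm a)

theorem Rm_iter (a m : ℕ) (x : P.X) (n : ℕ) : (P.Rm a)^[m] x n =
    ((x n).1, P.uf a n ^ m * (x n).2.1, (x n).2.2 + m • (P.rho a n).2.2) := by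
  induction m with
  | zero => simp
  | succ m ih =>
    rw [Function.iterate_succ_apply']
    show P.nuD a n ((P.Rm a)^[m] x n) + P.rho a n = _
    rw [ih, P.nuD_apply]
    have h1 : (P.rho a n).1 = 0 := by unfold rho; split_ifs <;> rfl
    have h2 : (P.rho a n).2.1 = 0 := by unfold rho; split_ifs <;> rfl
    refine Prod.ext ?_ (Prod.ext ?_ ?_)
    · rw [Prod.fst_add, h1]; exact add_zero _
    · rw [Prod.snd_add, Prod.fst_add, h2, pow_succ', mul_assoc]; exact add_zero _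
    · rw [Prod.snd_add, Prod.snd_add, succ_nsmul, ← add_assoc]

theorem smul_ite (a m : ℕ) : P.k a • (if m = a then (1 : ZMod (P.k m)) else 0) = 0 := by
  split_ifs with h
  · subst h
    exact Par.smul_zmod dvd_rfl _
  · exact smul_zero _

theorem Rm_iter_k (a : ℕ) (x : P.X) : (P.Rm a)^[P.k a] x = x := by
  funext n
  rw [P.Rm_iter]
  have h1 : P.uf a n ^ P.k a = 1 := by
    unfold uf
    split_ifs with h
    · rw [h]; exact P.u_pow a
    · exact one_pow _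
  have h2 : P.k a • (P.rho a n).2.2 = 0 := by
    by_cases h : a < n
    · rw [P.rho_gt h]
      exact Prod.ext (P.smul_ite a _) (P.smul_ite a _)
    · rw [P.rho_le (by omega)]
      exact smul_zero (P.k a)
  rw [h1, h2, one_mul, add_zero]

theorem RR_eq (a : ℕ) (f : Lp ℂ 2 (mu P.D)) : P.RR a f = koop (P.Rm a) (P.mp_Rm a) f := rfl

theorem RR_iter (a : ℕ) (f : Lp ℂ 2 (mu P.D)) : (P.RR a)^[P.k a] f = f := by
  have h0 : (P.RR a : Lp ℂ 2 (mu P.D) → Lp ℂ 2 (mu P.D)) = koop (P.Rm a) (P.mp_Rm a) := rfl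
  rw [h0, koop_iter]
  rw [koop_eq (F := (P.Rm a)^[P.k a]) (G := fun x => x) _ (MeasurePreserving.id _) (P.Rm_iter_k a)]
  exact koop_id _ f

/-- `E a` in the group of finitely supported elements -/
def iG (a : ℕ) : ZMod (P.q a) →+ Gf P.D where
  toFun x := ⟨P.iE a x, a + 1, P.iE_mem (Nat.lt_succ_self a) x⟩
  map_zero' := Subtype.ext (map_zero _)
  map_add' := fun _ _ => Subtype.ext (map_add _ _ _)

@[simp] theorem iG_coe (a : ℕ) (x : ZMod (P.q a)) : (P.iG a x : P.X) = P.iE a x := rfl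

/-- the maps `nu` on the group -/
def nuG (a : ℕ) (g : Gf P.D) : Gf P.D := ⟨P.nu a g.1, by
  obtain ⟨n, hn⟩ := g.2
  exact ⟨n, P.nu_mem a hn⟩⟩

@[simp] theorem nuG_coe (a : ℕ) (g : Gf P.D) : (P.nuG a g : P.X) = P.nu a g.1 := rfl

theorem nuG_surj (a : ℕ) : Function.Surjective (P.nuG a) := by
  intro g
  refine ⟨⟨fun n => ((g.1 n).1, (P.uf a n)⁻¹ * (g.1 n).2.1, (g.1 n).2.2), ?_⟩, ?_⟩
  · obtain ⟨n, hn⟩ := g.2
    refine ⟨n, fun m hm => ?_⟩
    show ((g.1 m).1, (P.uf a m)⁻¹ * (g.1 m).2.1, (g.1 m).2.2) = (0 : P.D m)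
    rw [hn m hm]
    exact Prod.ext rfl (Prod.ext (mul_zero _) rfl)
  · apply Subtype.ext
    funext n
    rw [nuG_coe, P.nu_apply, P.nuD_apply]
    refine Prod.ext rfl (Prod.ext ?_ rfl)
    exact mul_inv_cancel_left₀ (P.uf_ne a n) _

instance finite_EL (a : ℕ) : Finite (P.EL a) := by
  apply Finite.of_injective (fun g : P.EL a => (⟨g.1, P.EL_le a g.2⟩ : A P.D a))
  intro g h hgh
  exact Subtype.ext (Subtype.mk.inj hgh)

end Par

namespace Par2

variable {P : Par} (Q : Par2 P)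

/-- invariance under `E b`, `b < a` -/
theorem V_EL {a : ℕ} {f : Lp ℂ 2 (mu P.D)} (hf : ∀ b < a, ∀ x, VG Q.kap_mem (P.iG b x) f = f)
    {n : ℕ} (hn : a ≤ n) : ∀ ε ∈ P.EL a, V Q.kap_mem n ε f = f := by
  apply P.EL_induction (p := fun ε => V Q.kap_mem n ε f = f)
  · exact V_zero Q.kap_mem n f
  · intro x y hx hy
    rw [V_add, hy, hx]
  · intro b hb x
    have h1 := VG_eq Q.kap_mem (P.iG b x) (P.iE_mem (n := n) (by omega) x) f
    rw [hf b hb x] at h1
    exact h1.symm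

theorem ae_EL {a : ℕ} {f : Lp ℂ 2 (mu P.D)} (hf : ∀ b < a, ∀ x, VG Q.kap_mem (P.iG b x) f = f) :
    ∀ᵐ y ∂(mu P.D), ∀ ε : P.EL a, f (S Q.kap a ε.1 y) = f y := by
  rw [ae_all_iff]
  intro ε
  have h1 := Q.V_EL hf le_rfl ε.1 ε.2
  have h2 := koop_coe (S Q.kap a ε.1) (mp_S Q.kap_mem a ε.1) f
  filter_upwards [h2] with y hy
  rw [← hy]
  have h3 : koop (S Q.kap a ε.1) (mp_S Q.kap_mem a ε.1) f = f := h1
  rw [h3]

theorem RR_VG (a : ℕ) (g : Gf P.D) {f : Lp ℂ 2 (mu P.D)}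
    (hf : ∀ b < a, ∀ x, VG Q.kap_mem (P.iG b x) f = f) :
    P.RR a (VG Q.kap_mem (P.nuG a g) f) = VG Q.kap_mem g (P.RR a f) := by
  set n := max (lev g) (a + 1) with hn
  have h1 : g.1 ∈ A P.D n := A_mono (le_max_left _ _) (lev_mem g)
  have h2 : (P.nuG a g).1 ∈ A P.D n := P.nu_mem a h1
  rw [VG_eq Q.kap_mem g h1, VG_eq Q.kap_mem _ h2, P.RR_eq, P.RR_eq, V_eq, V_eq, koop_comp, koop_comp]
  apply koop_congr
  have h3 := ((mp_S Q.kap_mem n (P.nu a g.1)).comp (P.mp_Rm a)).quasiMeasurePreserving.ae (Q.ae_EL hf)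
  filter_upwards [h3] with x hx
  obtain ⟨ε, hε, h4⟩ := Q.R_S a n (le_max_right _ _) g.1 x
  show f (S Q.kap n (P.nu a g.1) (P.Rm a x)) = f (P.Rm a (S Q.kap n g.1 x))
  rw [h4, add_comm, S_add Q.kap_mem]
  have h5 := hx ⟨ε, hε⟩
  rw [S_of_mem (P.EL_le a hε) _ ((Nat.le_succ a).trans (le_max_right _ _))]
  exact h5.symm

theorem nu_tt (a : ℕ) : P.nu a (tt P) = tt P := P.nu_C a (fun _ => rfl)

theorem RR_UU (a : ℕ) {f : Lp ℂ 2 (mu P.D)}
    (hf : ∀ b < a, ∀ x, VG Q.kap_mem (P.iG b x) f = f) :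
    P.RR a (UU Q.kap_mem (tt P) Q.sum_bad f) = UU Q.kap_mem (tt P) Q.sum_bad (P.RR a f) := by
  rw [UU_eq, UU_eq, P.RR_eq, P.RR_eq, koop_comp, koop_comp]
  apply koop_congr
  have h3 := ((mp_Tf (tt P) Q.kap_mem Q.sum_bad).comp (P.mp_Rm a)).quasiMeasurePreserving.ae (Q.ae_EL hf)
  have h4 := ae_Tf (tt P) Q.sum_bad
  have h5 := (P.mp_Rm a).quasiMeasurePreserving.ae h4
  filter_upwards [h3, h4, h5] with x a1 a2 a3
  obtain ⟨m2, a2⟩ := a2
  obtain ⟨m3, a3⟩ := a3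
  show f (Tf Q.kap (tt P) (P.Rm a x)) = f (P.Rm a (Tf Q.kap (tt P) x))
  set n := max (max m2 m3) (a + 1) with hn
  have b1 : m2 ≤ n := (le_max_left _ _).trans (le_max_left _ _)
  have b2 : m3 ≤ n := (le_max_right _ _).trans (le_max_left _ _)
  have b3 : a + 1 ≤ n := le_max_right _ _
  obtain ⟨ε, hε, h6⟩ := Q.R_S a n b3 (tt P) x
  rw [a2 n b1, h6, nu_tt, add_comm, S_add Q.kap_mem, ← a3 n b2,
    S_of_mem (P.EL_le a hε) _ ((Nat.le_succ a).trans b3)]
  exact (a1 ⟨ε, hε⟩).symm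

end Par2

end Pool.Agent.Helper42.SM
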