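import Pool.Agent.Helper42.SM8

/-!
Spectral multiplicities, part 9: closed subspaces stable under `U` and the weak limits.
-/

open MeasureTheory Set Filter
open scoped ENNReal Topology

namespace Pool.Agent.Helper42.SM

theorem sum_zmod {k : ℕ} [NeZero k] {β : Type*} [AddCommMonoid β] (G : ℕ → β) :
    ∑ l : ZMod k, G l.val = ∑ l ∈ Finset.range k, G l := by
  rcases k with _ | k
  · exact absurd rfl (NeZero.ne 0)
  · rw [Finset.sum_range]; rfl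

/-- recurrence of the parameters -/
structure Rec {P : Par} (Q : Par2 P) : Prop where
  r1 : ∀ (a b c d : ℕ) (g : P.X), g ∈ Gf P.D → (∀ m, (g m).2.1 = 0) →
    ∃ᶠ n in atTop, P.i n = a ∧ P.j n = b ∧ P.b n = c ∧ P.e n = d ∧ Q.g n = g
  r2 : ∀ g : P.X, g ∈ Gf P.D → (∀ m, (g m).2.1 = 0) → ∃ᶠ n in atTop, P.q n = P.q 0 ∧ Q.g' n = g

namespace Par2

variable {P : Par} (Q : Par2 P)

/-- the unitary operator of `T` -/
noncomputable def U : Lp ℂ 2 (mu P.D) ≃ₗᵢ[ℂ] Lp ℂ 2 (mu P.D) := UU Q.kap_mem (tt P) Q.sum_bad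

theorem avg_beta (n : ℕ) (F : P.X → ℂ) :
    (Fintype.card (P.D n) : ℂ)⁻¹ * ∑ d : P.D n, F (Q.beta n d.2.2.1.val d.2.2.2.val) =
      ((P.k (P.i n) : ℂ)⁻¹ * (P.k (P.j n) : ℂ)⁻¹) * ∑ l ∈ Finset.range (P.k (P.i n)),
        ∑ l' ∈ Finset.range (P.k (P.j n)), F (Q.beta n l l') := by
  have h1 : ∑ d : P.D n, F (Q.beta n d.2.2.1.val d.2.2.2.val) =
      (P.M n : ℂ) * ((P.q n : ℂ) * ∑ l ∈ Finset.range (P.k (P.i n)),
        ∑ l' ∈ Finset.range (P.k (P.j n)), F (Q.beta n l l')) := by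
    rw [Fintype.sum_prod_type]
    show ∑ _x : ZMod (P.M n), ∑ y : ZMod (P.q n) × ZMod (P.k (P.i n)) × ZMod (P.k (P.j n)),
      F (Q.beta n y.2.1.val y.2.2.val) = _
    rw [Finset.sum_const, Finset.card_univ, ZMod.card, nsmul_eq_mul]
    congr 1
    rw [Fintype.sum_prod_type]
    show ∑ _x : ZMod (P.q n), ∑ y : ZMod (P.k (P.i n)) × ZMod (P.k (P.j n)),
      F (Q.beta n y.1.val y.2.val) = _
    rw [Finset.sum_const, Finset.card_univ, ZMod.card, nsmul_eq_mul]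
    congr 1
    rw [Fintype.sum_prod_type, ← sum_zmod]
    apply Finset.sum_congr rfl
    intro l _
    exact sum_zmod (fun l' => F (Q.beta n l.val l'))
  have h2 : (Fintype.card (P.D n) : ℂ) = (P.M n : ℂ) * ((P.q n : ℂ) * ((P.k (P.i n) : ℂ) * (P.k (P.j n) : ℂ))) := by
    rw [Fintype.card_prod, Fintype.card_prod, Fintype.card_prod, ZMod.card, ZMod.card, ZMod.card, ZMod.card]
    push_cast
    ring
  have hM : (P.M n : ℂ) ≠ 0 := by exact_mod_cast (P.M_pos n).ne'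
  have hq : (P.q n : ℂ) ≠ 0 := by exact_mod_cast (P.hq n).ne_zero
  have hi : (P.k (P.i n) : ℂ) ≠ 0 := by exact_mod_cast (P.hk _).ne'
  have hj : (P.k (P.j n) : ℂ) ≠ 0 := by exact_mod_cast (P.hk _).ne'
  rw [h1, h2]
  field_simp

theorem wl (f' f : Lp ℂ 2 (mu P.D)) :
    Tendsto (fun n => inner ℂ f' ((Q.U ^ P.N n) f) -
      ((P.k (P.i n) : ℂ)⁻¹ * (P.k (P.j n) : ℂ)⁻¹) * ∑ l ∈ Finset.range (P.k (P.i n)),
        ∑ l' ∈ Finset.range (P.k (P.j n)), inner ℂ f' (V Q.kap_mem n (Q.beta n l l') f)) atTop (𝓝 0) := by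
  have h := weak_limit Q.kap_mem (tt P) Q.sum_bad P.N (fun n d => Q.beta n d.2.2.1.val d.2.2.2.val)
    (fun n m hm => N_tt hm) (fun n d => Q.kap_shift n d) Q.N_tail_tendsto f' f
  refine h.congr (fun n => ?_)
  rw [← Q.avg_beta n (fun g => inner ℂ f' (V Q.kap_mem n g f))]
  rfl

theorem mem_of_frequently {Z : Submodule ℂ (Lp ℂ 2 (mu P.D))} (hZc : IsClosed (Z : Set (Lp ℂ 2 (mu P.D))))
    (hZU : ∀ z ∈ Z, Q.U z ∈ Z) {a b m : ℕ} {B : ℕ → ℕ → P.X} (hB : ∀ l l', B l l' ∈ A P.D m)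
    (hf : ∃ᶠ n in atTop, P.i n = a ∧ P.j n = b ∧ ∀ l l', Q.beta n l l' = B l l')
    {z : Lp ℂ 2 (mu P.D)} (hz : z ∈ Z) :
    ∑ l ∈ Finset.range (P.k a), ∑ l' ∈ Finset.range (P.k b), V Q.kap_mem m (B l l') z ∈ Z := by
  have : CompleteSpace Z := hZc.completeSpace_coe
  rw [← Submodule.orthogonal_orthogonal Z, Submodule.mem_orthogonal]
  intro f' hf'
  have hU : ∀ N : ℕ, (Q.U ^ N) z ∈ Z := by
    intro N
    induction N with
    | zero => exact hz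
    | succ N ih =>
      rw [pow_succ', LinearIsometryEquiv.coe_mul, Function.comp_apply]
      exact hZU _ ih
  have hU0 : ∀ N : ℕ, inner ℂ f' ((Q.U ^ N) z) = 0 := by
    intro N
    exact Submodule.inner_left_of_mem_orthogonal (hU N) hf'
  have h1 := Q.wl f' z
  set w := ∑ l ∈ Finset.range (P.k a), ∑ l' ∈ Finset.range (P.k b), V Q.kap_mem m (B l l') z with hw
  have h2 : (0 : ℂ) = -(((P.k a : ℂ)⁻¹ * (P.k b : ℂ)⁻¹) * inner ℂ f' w) := by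
    refine tendsto_nhds_unique_of_frequently_eq h1 tendsto_const_nhds ?_
    refine (hf.and_eventually (eventually_ge_atTop m)).mono ?_
    rintro n ⟨⟨rfl, rfl, h3⟩, h4⟩
    rw [hU0, zero_sub, hw, inner_sum]
    congr 2
    apply Finset.sum_congr rfl
    intro l _
    rw [inner_sum]
    apply Finset.sum_congr rfl
    intro l' _
    rw [h3, V_of_mem Q.kap_mem h4 (hB l l')]
  have hi : (P.k a : ℂ) ≠ 0 := by exact_mod_cast (P.hk _).ne'
  have hj : (P.k b : ℂ) ≠ 0 := by exact_mod_cast (P.hk _).ne'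
  have h3 := neg_eq_zero.mp h2.symm
  rcases mul_eq_zero.mp h3 with h4 | h4
  · exact absurd h4 (mul_ne_zero (inv_ne_zero hi) (inv_ne_zero hj))
  · exact h4

variable {Q} (hr : Rec Q)

theorem beta_eq {n a b c d : ℕ} {g : P.X} (h : P.i n = a ∧ P.j n = b ∧ P.b n = c ∧ P.e n = d ∧ Q.g n = g)
    (hn : a < n) (l l' : ℕ) : Q.beta n l l' = P.bet a b c d g l l' := by
  obtain ⟨rfl, rfl, rfl, rfl, rfl⟩ := h
  unfold beta
  rw [if_pos hn]

include hr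

theorem freq_beta (a b c d : ℕ) {g : P.X} (hg : g ∈ Gf P.D) (hg' : ∀ m, (g m).2.1 = 0) :
    ∃ᶠ n in atTop, P.i n = a ∧ P.j n = b ∧ ∀ l l', Q.beta n l l' = P.bet a b c d g l l' := by
  refine ((hr.r1 a b c d g hg hg').and_eventually (eventually_gt_atTop a)).mono ?_
  rintro n ⟨h1, h2⟩
  exact ⟨h1.1, h1.2.1, fun l l' => beta_eq h1 h2 l l'⟩

theorem w_gen {Z : Submodule ℂ (Lp ℂ 2 (mu P.D))} (hZc : IsClosed (Z : Set (Lp ℂ 2 (mu P.D))))
    (hZU : ∀ z ∈ Z, Q.U z ∈ Z) (a b c d : ℕ) (g : Gf P.D) (hg' : ∀ m, (g.1 m).2.1 = 0)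
    {z : Lp ℂ 2 (mu P.D)} (hz : z ∈ Z) :
    ∑ l ∈ Finset.range (P.k a), ∑ l' ∈ Finset.range (P.k b),
      VG Q.kap_mem (g + (if l = 0 ∧ b < a then P.iG b (P.u b ^ l' * c) else 0) + P.iG a (P.u a ^ l * d)) z ∈ Z := by
  have hB : ∀ l l', P.bet a b c d g.1 l l' ∈ A P.D (max (lev g) (a + 1)) := fun l l' =>
    P.bet_mem (A_mono (le_max_left _ _) (lev_mem g)) (lt_of_lt_of_le (Nat.lt_succ_self a) (le_max_right _ _)) l l'
  have h1 := Q.mem_of_frequently hZc hZU hB (freq_beta hr a b c d g.2 hg') hz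
  convert h1 using 4 with l _ l' _
  have e1 : ((g + (if l = 0 ∧ b < a then P.iG b (P.u b ^ l' * c) else 0) + P.iG a (P.u a ^ l * d) : Gf P.D) : P.X) =
      P.bet a b c d g.1 l l' := by
    unfold Par.bet
    rw [AddSubgroup.coe_add, AddSubgroup.coe_add]
    split_ifs <;> rfl
  rw [VG_eq Q.kap_mem _ (n := max (lev g) (a + 1)) (by rw [e1]; exact hB l l'), e1]

theorem w1 {Z : Submodule ℂ (Lp ℂ 2 (mu P.D))} (hZc : IsClosed (Z : Set (Lp ℂ 2 (mu P.D))))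
    (hZU : ∀ z ∈ Z, Q.U z ∈ Z) (g : Gf P.D) (hg' : ∀ m, (g.1 m).2.1 = 0)
    {z : Lp ℂ 2 (mu P.D)} (hz : z ∈ Z) : VG Q.kap_mem g z ∈ Z := by
  have h := w_gen hr hZc hZU 0 0 0 0 g hg' hz
  simp only [lt_irrefl, and_false, if_false, Nat.cast_zero, mul_zero, map_zero, add_zero,
    Finset.sum_const, Finset.card_range] at h
  rw [← Nat.cast_smul_eq_nsmul ℂ, ← Nat.cast_smul_eq_nsmul ℂ, smul_smul] at h
  have hk : (P.k 0 : ℂ) ≠ 0 := by exact_mod_cast (P.hk _).ne'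
  have h2 := Z.smul_mem ((P.k 0 : ℂ) * (P.k 0 : ℂ))⁻¹ h
  rwa [smul_smul, inv_mul_cancel₀ (mul_ne_zero hk hk), one_smul] at h2

theorem w2 {Z : Submodule ℂ (Lp ℂ 2 (mu P.D))} (hZc : IsClosed (Z : Set (Lp ℂ 2 (mu P.D))))
    (hZU : ∀ z ∈ Z, Q.U z ∈ Z) (a : ℕ) (x : ZMod (P.q a))
    {z : Lp ℂ 2 (mu P.D)} (hz : z ∈ Z) :
    ∑ l ∈ Finset.range (P.k a), VG Q.kap_mem (P.iG a (P.u a ^ l * x)) z ∈ Z := by
  have h := w_gen hr hZc hZU a a 0 x.val 0 (fun _ => rfl) hz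
  simp only [lt_irrefl, and_false, if_false, zero_add,
    Finset.sum_const, Finset.card_range, ZMod.natCast_val, ZMod.cast_id', id_eq] at h
  rw [← Finset.smul_sum, ← Nat.cast_smul_eq_nsmul ℂ] at h
  have hk : (P.k a : ℂ) ≠ 0 := by exact_mod_cast (P.hk _).ne'
  have h2 := Z.smul_mem (P.k a : ℂ)⁻¹ h
  rwa [smul_smul, inv_mul_cancel₀ hk, one_smul] at h2

theorem w3 {Z : Submodule ℂ (Lp ℂ 2 (mu P.D))} (hZc : IsClosed (Z : Set (Lp ℂ 2 (mu P.D))))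
    (hZU : ∀ z ∈ Z, Q.U z ∈ Z) (a b : ℕ) (hba : b < a) (x : ZMod (P.q a))
    {z : Lp ℂ 2 (mu P.D)} (hz : z ∈ Z) :
    ∑ l ∈ Finset.range (P.k a), ∑ l' ∈ Finset.range (P.k b),
      VG Q.kap_mem ((if l = 0 then P.iG b (P.u b ^ l') else 0) + P.iG a (P.u a ^ l * x)) z ∈ Z := by
  have h := w_gen hr hZc hZU a b 1 x.val 0 (fun _ => rfl) hz
  simp only [hba, and_true, zero_add, Nat.cast_one, mul_one,
    ZMod.natCast_val, ZMod.cast_id', id_eq] at h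
  exact h

end Par2

end Pool.Agent.Helper42.SM
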