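import Mathlib

open Finset Filter Topology

namespace Pool.Agent.Helper42.Theta

/-- triangular numbers -/
def tri : ℕ → ℕ
  | 0 => 0
  | i + 1 => tri i + (i + 1)

theorem two_mul_tri (i : ℕ) : 2 * tri i = i ^ 2 + i := by
  induction i with
  | zero => simp [tri]
  | succ i ih => rw [tri, mul_add, ih]; ring

/-- `(q;q)_N` -/
noncomputable def qp (q : ℝ) (N : ℕ) : ℝ := ∏ k ∈ range N, (1 - q ^ (k + 1))

/-- normalised `q`-binomial coefficients -/
noncomputable def c (q : ℝ) (N : ℕ) : ℕ → ℝ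
  | 0 => 1
  | i + 1 => c q N i * ((1 - q ^ (N - i)) / (1 - q ^ (N + 2 + i)))

variable {q : ℝ}

theorem one_sub_pow_pos (h0 : 0 ≤ q) (h1 : q < 1) {k : ℕ} (hk : k ≠ 0) : 0 < 1 - q ^ k :=
  sub_pos.mpr (pow_lt_one₀ h0 h1 hk)

theorem c_zero_of_gt (N : ℕ) : ∀ i, N < i → c q N i = 0
  | 0, h => absurd h (Nat.not_lt_zero _)
  | i + 1, h => by
    rw [c]
    rcases Nat.lt_or_ge N i with h2 | h2
    · rw [c_zero_of_gt N i h2, zero_mul]
    · have : N - i = 0 := by omega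
      rw [this]
      simp

theorem c_bounds (h0 : 0 ≤ q) (h1 : q < 1) (N i : ℕ) : 0 ≤ c q N i ∧ c q N i ≤ 1 := by
  induction i with
  | zero => simp [c]
  | succ i ih =>
    rw [c]
    have h2 : 0 < 1 - q ^ (N + 2 + i) := one_sub_pow_pos h0 h1 (by omega)
    have h3 : 0 ≤ 1 - q ^ (N - i) := sub_nonneg.mpr (pow_le_one₀ h0 h1.le)
    have h4 : 1 - q ^ (N - i) ≤ 1 - q ^ (N + 2 + i) := by
      have : q ^ (N + 2 + i) ≤ q ^ (N - i) := pow_le_pow_of_le_one h0 h1.le (by omega)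
      linarith
    have h5 : (1 - q ^ (N - i)) / (1 - q ^ (N + 2 + i)) ≤ 1 := (div_le_one h2).mpr h4
    have h6 : 0 ≤ (1 - q ^ (N - i)) / (1 - q ^ (N + 2 + i)) := div_nonneg h3 h2.le
    exact ⟨mul_nonneg ih.1 h6, mul_le_one₀ ih.2 h6 h5⟩

theorem c_tendsto (h0 : 0 ≤ q) (h1 : q < 1) (i : ℕ) :
    Tendsto (fun N => c q N i) atTop (𝓝 1) := by
  induction i with
  | zero => simp [c]
  | succ i ih =>
    simp only [c]
    have hq := tendsto_pow_atTop_nhds_zero_of_lt_one h0 h1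
    have h2 : Tendsto (fun N : ℕ => q ^ (N - i)) atTop (𝓝 0) := hq.comp (tendsto_sub_atTop_nat i)
    have h3 : Tendsto (fun N : ℕ => q ^ (N + 2 + i)) atTop (𝓝 0) := by
      have : Tendsto (fun N : ℕ => N + 2 + i) atTop atTop := by
        simpa only [add_assoc] using tendsto_add_atTop_nat (2 + i)
      exact hq.comp this
    have h4 : Tendsto (fun N : ℕ => c q N i * ((1 - q ^ (N - i)) / (1 - q ^ (N + 2 + i)))) atTop
        (𝓝 (1 * ((1 - 0) / (1 - 0)))) :=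
      ih.mul ((h2.const_sub 1).div (h3.const_sub 1) (by norm_num))
    simpa using h4

theorem rel (h0 : 0 ≤ q) (h1 : q < 1) (N i : ℕ) :
    c q N i * ((1 - q ^ (N + 1)) * (1 - q ^ (N + 2))) =
      c q (N + 1) i * ((1 - q ^ (N + 1 - i)) * (1 - q ^ (N + 2 + i))) := by
  induction i with
  | zero => simp [c]
  | succ i ih =>
    simp only [c]
    have h2 : 1 - q ^ (N + 2 + i) ≠ 0 := (one_sub_pow_pos h0 h1 (by omega)).ne'
    have h3 : 1 - q ^ (N + 1 + 2 + i) ≠ 0 := (one_sub_pow_pos h0 h1 (by omega)).ne'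
    have e1 : N + 1 - (i + 1) = N - i := by omega
    have e2 : N + 2 + (i + 1) = N + 1 + 2 + i := by omega
    rw [e1, e2]
    calc c q N i * ((1 - q ^ (N - i)) / (1 - q ^ (N + 2 + i))) * ((1 - q ^ (N + 1)) * (1 - q ^ (N + 2)))
        = (c q N i * ((1 - q ^ (N + 1)) * (1 - q ^ (N + 2)))) * ((1 - q ^ (N - i)) / (1 - q ^ (N + 2 + i))) := by ring
      _ = _ := by
        rw [ih]
        field_simp

theorem rel2 (h0 : 0 ≤ q) (h1 : q < 1) (N i : ℕ) :
    c q N i * ((1 - q ^ (N + 1)) * (1 - q ^ (N + 2))) =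
      c q (N + 1) (i + 1) * ((1 - q ^ (N + 3 + i)) * (1 - q ^ (N + 2 + i))) := by
  rw [rel h0 h1]
  simp only [c]
  have h3 : 1 - q ^ (N + 1 + 2 + i) ≠ 0 := (one_sub_pow_pos h0 h1 (by omega)).ne'
  have e2 : N + 3 + i = N + 1 + 2 + i := by omega
  rw [e2]
  field_simp

theorem rel3 (h0 : 0 ≤ q) (h1 : q < 1) (N i : ℕ) :
    c q N (i + 2) * ((1 - q ^ (N + 1)) * (1 - q ^ (N + 2))) =
      c q (N + 1) (i + 1) * ((1 - q ^ (N - i)) * (1 - q ^ (N - (i + 1)))) := by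
  have h := rel h0 h1 N (i + 1)
  have e1 : N + 1 - (i + 1) = N - i := by omega
  have e2 : N + 2 + (i + 1) = N + 3 + i := by omega
  rw [e1, e2] at h
  have h2 : c q N (i + 2) = c q N (i + 1) * ((1 - q ^ (N - (i + 1))) / (1 - q ^ (N + 2 + (i + 1)))) := rfl
  rw [e2] at h2
  have h3 : 1 - q ^ (N + 3 + i) ≠ 0 := (one_sub_pow_pos h0 h1 (by omega)).ne'
  rw [h2]
  calc c q N (i + 1) * ((1 - q ^ (N - (i + 1))) / (1 - q ^ (N + 3 + i))) *
        ((1 - q ^ (N + 1)) * (1 - q ^ (N + 2)))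
      = (c q N (i + 1) * ((1 - q ^ (N + 1)) * (1 - q ^ (N + 2)))) *
        ((1 - q ^ (N - (i + 1))) / (1 - q ^ (N + 3 + i))) := by ring
    _ = _ := by
      rw [h]
      field_simp

/-- three term recurrence -/
theorem recur (h0 : 0 ≤ q) (h1 : q < 1) (N k : ℕ) :
    q ^ tri (k + 1) * ((1 - q ^ (2 * N + 2)) * (1 - q ^ (2 * N + 3)) * c q (N + 1) (k + 1)
      - (1 - q ^ (N + 1)) ^ 2 * (c q N (k + 1) * ((1 - q ^ (N + 1)) * (1 - q ^ (N + 2))))) =
    q ^ (N + 1) * (2 * (q ^ tri (k + 1) * c q N (k + 1)) + q ^ tri k * c q N k +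
      q ^ tri (k + 2) * c q N (k + 2)) * ((1 - q ^ (N + 1)) * (1 - q ^ (N + 2))) := by
  have e : q ^ (N + 1) * (2 * (q ^ tri (k + 1) * c q N (k + 1)) + q ^ tri k * c q N k +
      q ^ tri (k + 2) * c q N (k + 2)) * ((1 - q ^ (N + 1)) * (1 - q ^ (N + 2)))
      = q ^ (N + 1) * (2 * q ^ tri (k + 1) * (c q N (k + 1) * ((1 - q ^ (N + 1)) * (1 - q ^ (N + 2))))
        + q ^ tri k * (c q N k * ((1 - q ^ (N + 1)) * (1 - q ^ (N + 2)))) +
        q ^ tri (k + 2) * (c q N (k + 2) * ((1 - q ^ (N + 1)) * (1 - q ^ (N + 2))))) := by ring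
  rw [e, rel2 h0 h1 N k, rel3 h0 h1 N k, rel h0 h1 N (k + 1)]
  have t1 : tri (k + 1) = tri k + (k + 1) := rfl
  have t2 : tri (k + 2) = tri k + (k + 1) + (k + 2) := rfl
  rw [t1, t2]
  have e1 : N + 1 - (k + 1) = N - k := by omega
  rw [e1]
  rcases Nat.lt_trichotomy k N with h | h | h
  · obtain ⟨d, rfl⟩ : ∃ d, N = k + 1 + d := ⟨N - (k + 1), by omega⟩
    have e3 : k + 1 + d - k = d + 1 := by omega
    have e4 : k + 1 + d - (k + 1) = d := by omega
    rw [e3, e4]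
    ring
  · subst h
    simp only [Nat.sub_self, pow_zero, sub_self]
    have e4 : k - (k + 1) = 0 := by omega
    rw [e4]
    ring
  · have hz : c q (N + 1) (k + 1) = 0 := c_zero_of_gt _ _ (by omega)
    rw [hz]
    ring

/-- The signed terms. -/
noncomputable def tm (q : ℝ) (N i : ℕ) : ℝ := (-1) ^ i * (2 * i + 1) * (q ^ tri i * c q N i)

theorem telescope (h0 : 0 ≤ q) (h1 : q < 1) (N m : ℕ) :
    ∑ i ∈ range (m + 1), ((1 - q ^ (2 * N + 2)) * (1 - q ^ (2 * N + 3)) * tm q (N + 1) i -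
      (1 - q ^ (N + 1)) ^ 2 * ((1 - q ^ (N + 1)) * (1 - q ^ (N + 2))) * tm q N i) =
    q ^ (N + 1) * ((1 - q ^ (N + 1)) * (1 - q ^ (N + 2))) *
      ((-1) ^ m * ((2 * m + 1) * (q ^ tri (m + 1) * c q N (m + 1)) +
        (2 * m + 3) * (q ^ tri m * c q N m))) := by
  induction m with
  | zero =>
    have h2 : 1 - q ^ (N + 2) ≠ 0 := (one_sub_pow_pos h0 h1 (by omega)).ne'
    simp only [zero_add, range_one, sum_singleton, tm, tri, c, pow_zero, Nat.cast_zero, mul_zero,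
      mul_one, one_mul, Nat.sub_zero, add_zero, pow_one]
    field_simp
    ring
  | succ m ih =>
    rw [sum_range_succ, ih]
    have h := recur h0 h1 N m
    simp only [tm]
    have h2 : (-1 : ℝ) ^ (m + 1) = -(-1) ^ m := by rw [pow_succ]; ring
    rw [h2]
    push_cast
    linear_combination (-(-1 : ℝ) ^ m * (2 * m + 3)) * h

noncomputable def S (q : ℝ) (N : ℕ) : ℝ := ∑ i ∈ range (N + 1), tm q N i

theorem S_rec (h0 : 0 ≤ q) (h1 : q < 1) (N : ℕ) :
    (1 - q ^ (2 * N + 2)) * (1 - q ^ (2 * N + 3)) * S q (N + 1) =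
      (1 - q ^ (N + 1)) ^ 3 * (1 - q ^ (N + 2)) * S q N := by
  have h := telescope h0 h1 N (N + 1)
  rw [c_zero_of_gt N (N + 1) (by omega), c_zero_of_gt N (N + 1 + 1) (by omega)] at h
  simp only [mul_zero, add_zero] at h
  rw [sum_sub_distrib, ← mul_sum, ← mul_sum] at h
  have h2 : ∑ i ∈ range (N + 1 + 1), tm q N i = S q N := by
    rw [sum_range_succ, S]
    have : tm q N (N + 1) = 0 := by
      rw [tm, c_zero_of_gt N (N + 1) (by omega)]; ring
    rw [this, add_zero]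
  rw [h2] at h
  have h3 : ∑ i ∈ range (N + 1 + 1), tm q (N + 1) i = S q (N + 1) := rfl
  rw [h3] at h
  linear_combination h

theorem S_closed (h0 : 0 ≤ q) (h1 : q < 1) (N : ℕ) :
    S q N * qp q (2 * N + 1) = qp q N ^ 3 * qp q (N + 1) := by
  induction N with
  | zero => simp [S, tm, qp, tri, c]
  | succ N ih =>
    have e : qp q (2 * (N + 1) + 1) = qp q (2 * N + 1) * (1 - q ^ (2 * N + 2)) * (1 - q ^ (2 * N + 3)) := by
      rw [qp, qp, show 2 * (N + 1) + 1 = 2 * N + 1 + 1 + 1 by ring, prod_range_succ, prod_range_succ]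
    have e2 : qp q (N + 1) = qp q N * (1 - q ^ (N + 1)) := by
      rw [qp, prod_range_succ]; rfl
    have e3 : qp q (N + 1 + 1) = qp q (N + 1) * (1 - q ^ (N + 2)) := by
      rw [qp, prod_range_succ]; rfl
    rw [e]
    have h := S_rec h0 h1 N
    calc S q (N + 1) * (qp q (2 * N + 1) * (1 - q ^ (2 * N + 2)) * (1 - q ^ (2 * N + 3)))
        = ((1 - q ^ (2 * N + 2)) * (1 - q ^ (2 * N + 3)) * S q (N + 1)) * qp q (2 * N + 1) := by ring
      _ = (1 - q ^ (N + 1)) ^ 3 * (1 - q ^ (N + 2)) * (S q N * qp q (2 * N + 1)) := by rw [h]; ring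
      _ = _ := by rw [ih, e3, e2]; ring

end Pool.Agent.Helper42.Theta
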