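import Pool.Agent.Helper42.Theta1

open Finset Filter Topology

namespace Pool.Agent.Helper42.Theta

variable {q : ℝ}

theorem qp_pos (h0 : 0 ≤ q) (h1 : q < 1) (N : ℕ) : 0 < qp q N :=
  prod_pos (fun k _ => one_sub_pow_pos h0 h1 (by omega))

theorem qp_antitone (h0 : 0 ≤ q) (h1 : q < 1) : Antitone (qp q) := by
  apply antitone_nat_of_succ_le
  intro N
  have e2 : qp q (N + 1) = qp q N * (1 - q ^ (N + 1)) := by
    rw [qp, prod_range_succ]; rfl
  rw [e2]
  have h2 : 0 < qp q N := qp_pos h0 h1 N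
  have h3 : 0 ≤ q ^ (N + 1) := by positivity
  nlinarith

theorem geom_partial (h0 : 0 ≤ q) (h1 : q < 1) (N : ℕ) :
    ∑ k ∈ range N, q ^ (k + 1) ≤ q / (1 - q) := by
  have h2 : HasSum (fun k : ℕ => q ^ (k + 1)) (q / (1 - q)) := by
    have := (hasSum_geometric_of_lt_one h0 h1).mul_left q
    simpa only [pow_succ', div_eq_mul_inv] using this
  exact sum_le_hasSum _ (fun k _ => by positivity) h2

theorem geom_tendsto (h0 : 0 ≤ q) (h1 : q < 1) :
    Tendsto (fun N => ∑ k ∈ range N, q ^ (k + 1)) atTop (𝓝 (q / (1 - q))) := by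
  have h2 : HasSum (fun k : ℕ => q ^ (k + 1)) (q / (1 - q)) := by
    have := (hasSum_geometric_of_lt_one h0 h1).mul_left q
    simpa only [pow_succ', div_eq_mul_inv] using this
  exact h2.tendsto_sum_nat

theorem qp_lower (h0 : 0 ≤ q) (h1 : q < 1) (N : ℕ) :
    Real.exp (-(q / (1 - q) / (1 - q))) ≤ qp q N := by
  have h1q : 0 < 1 - q := by linarith
  have hfac : ∀ k ∈ range N, Real.exp (-(q ^ (k + 1) / (1 - q))) ≤ 1 - q ^ (k + 1) := by
    intro k _
    have hx0 : 0 ≤ q ^ (k + 1) := by positivity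
    have hx1 : q ^ (k + 1) ≤ q := by
      calc q ^ (k + 1) ≤ q ^ 1 := pow_le_pow_of_le_one h0 h1.le (by omega)
        _ = q := pow_one q
    set x := q ^ (k + 1) with hx
    have hpos : 0 < 1 - x := by linarith
    have h2 : 1 - (1 - x)⁻¹ ≤ Real.log (1 - x) := Real.one_sub_inv_le_log_of_pos hpos
    have h3 : -(x / (1 - q)) ≤ 1 - (1 - x)⁻¹ := by
      have h4 : 1 - (1 - x)⁻¹ = -(x / (1 - x)) := by field_simp; ring
      rw [h4]
      apply neg_le_neg
      apply div_le_div_of_nonneg_left hx0 h1q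
      linarith
    calc Real.exp (-(x / (1 - q))) ≤ Real.exp (Real.log (1 - x)) := Real.exp_le_exp.mpr (h3.trans h2)
      _ = 1 - x := Real.exp_log hpos
  calc Real.exp (-(q / (1 - q) / (1 - q))) ≤ Real.exp (∑ k ∈ range N, -(q ^ (k + 1) / (1 - q))) := by
        apply Real.exp_le_exp.mpr
        rw [sum_neg_distrib, ← sum_div]
        apply neg_le_neg
        apply div_le_div_of_nonneg_right (geom_partial h0 h1 N) h1q.le
    _ = ∏ k ∈ range N, Real.exp (-(q ^ (k + 1) / (1 - q))) := Real.exp_sum _ _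
    _ ≤ qp q N := Finset.prod_le_prod (fun k _ => (Real.exp_pos _).le) hfac

/-- the infinite product `(q;q)_∞` -/
noncomputable def E (q : ℝ) : ℝ := ⨅ N, qp q N

theorem E_tendsto (h0 : 0 ≤ q) (h1 : q < 1) : Tendsto (qp q) atTop (𝓝 (E q)) :=
  tendsto_atTop_ciInf (qp_antitone h0 h1) ⟨0, by rintro _ ⟨N, rfl⟩; exact (qp_pos h0 h1 N).le⟩

theorem E_pos (h0 : 0 ≤ q) (h1 : q < 1) : 0 < E q := by
  have : Real.exp (-(q / (1 - q) / (1 - q))) ≤ E q := le_ciInf (fun N => qp_lower h0 h1 N)
  exact lt_of_lt_of_le (Real.exp_pos _) this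

theorem factor_antitone {x y : ℝ} (hx : 0 ≤ x) (hxy : x ≤ y) (hy : y ≤ 1) :
    (1 - y) * Real.exp y ≤ (1 - x) * Real.exp x := by
  have h1 : x - y + 1 ≤ Real.exp (x - y) := Real.add_one_le_exp _
  have h2 : Real.exp x = Real.exp (x - y) * Real.exp y := by rw [← Real.exp_add]; ring_nf
  rw [h2, ← mul_assoc]
  apply mul_le_mul_of_nonneg_right _ (Real.exp_pos _).le
  have h3 : (1 - x) * (x - y + 1) ≤ (1 - x) * Real.exp (x - y) :=
    mul_le_mul_of_nonneg_left h1 (by linarith)
  nlinarith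

theorem E_exp_antitone {q₁ q₂ : ℝ} (h0 : 0 ≤ q₁) (h12 : q₁ ≤ q₂) (h2 : q₂ < 1) :
    E q₂ * Real.exp (q₂ / (1 - q₂)) ≤ E q₁ * Real.exp (q₁ / (1 - q₁)) := by
  have h1 : q₁ < 1 := by linarith
  have h02 : 0 ≤ q₂ := h0.trans h12
  have t1 := (E_tendsto h0 h1).mul ((Real.continuous_exp.tendsto _).comp (geom_tendsto h0 h1))
  have t2 := (E_tendsto h02 h2).mul ((Real.continuous_exp.tendsto _).comp (geom_tendsto h02 h2))
  refine le_of_tendsto_of_tendsto' t2 t1 (fun N => ?_)
  simp only [Function.comp_apply, qp, Real.exp_sum, ← prod_mul_distrib]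
  apply Finset.prod_le_prod
  · intro k _
    exact mul_nonneg (one_sub_pow_pos h02 h2 (by omega)).le (Real.exp_pos _).le
  · intro k _
    exact factor_antitone (by positivity) (pow_le_pow_left₀ h0 h12 _) (pow_le_one₀ h02 h2.le)

/-- absolute values of the terms -/
def a (j : ℕ) (q : ℝ) : ℝ := (2 * j + 1) * q ^ tri j

/-- partial sums -/
def P (n : ℕ) (q : ℝ) : ℝ := ∑ j ∈ range (n + 1), (-1) ^ j * a j q

theorem le_tri (i : ℕ) : i ≤ tri i := by
  induction i with
  | zero => simp [tri]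
  | succ i ih => rw [tri]; omega

theorem a_nonneg (h0 : 0 ≤ q) (j : ℕ) : 0 ≤ a j q := by unfold a; positivity

theorem a_summable (h0 : 0 ≤ q) (h1 : q < 1) : Summable (fun j => a j q) := by
  have hs1 : Summable (fun j : ℕ => (j : ℝ) ^ 1 * q ^ j) :=
    summable_pow_mul_geometric_of_norm_lt_one 1 (by rwa [Real.norm_of_nonneg h0])
  have hs0 : Summable (fun j : ℕ => q ^ j) := summable_geometric_of_lt_one h0 h1
  have hs : Summable (fun j : ℕ => (2 * (j : ℝ) + 1) * q ^ j) := by
    have := (hs1.mul_left 2).add hs0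
    refine this.congr (fun j => ?_)
    ring
  refine Summable.of_nonneg_of_le (fun j => a_nonneg h0 j) (fun j => ?_) hs
  unfold a
  apply mul_le_mul_of_nonneg_left _ (by positivity)
  exact pow_le_pow_of_le_one h0 h1.le (le_tri j)

/-- Jacobi's identity, as convergence of the partial sums. -/
theorem jacobi (h0 : 0 ≤ q) (h1 : q < 1) : Tendsto (fun n => P n q) atTop (𝓝 (E q ^ 3)) := by
  -- limit of S N
  have hlim1 : Tendsto (fun N => S q N) atTop (𝓝 (∑' i : ℕ, (-1) ^ i * a i q)) := by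
    have h := tendsto_tsum_of_dominated_convergence (𝓕 := atTop)
      (f := fun N i => tm q N i) (g := fun i : ℕ => (-1) ^ i * a i q)
      (bound := fun i => a i q) (a_summable h0 h1) (by
        intro i
        have h2 : Tendsto (fun N => (-1) ^ i * (2 * (i:ℝ) + 1) * (q ^ tri i * c q N i)) atTop
            (𝓝 ((-1) ^ i * (2 * (i:ℝ) + 1) * (q ^ tri i * 1))) :=
          ((c_tendsto h0 h1 i).const_mul _).const_mul _
        have e : (-1) ^ i * (2 * (i:ℝ) + 1) * (q ^ tri i * 1) = (-1) ^ i * a i q := by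
          unfold a; ring
        rw [e] at h2
        exact h2) (by
        refine Eventually.of_forall (fun N i => ?_)
        obtain ⟨hc0, hc1⟩ := c_bounds h0 h1 N i
        unfold tm a
        rw [norm_mul, norm_mul, norm_pow, norm_neg, norm_one, one_pow, one_mul,
          Real.norm_of_nonneg (by positivity), Real.norm_of_nonneg (by positivity)]
        apply mul_le_mul_of_nonneg_left _ (by positivity)
        exact mul_le_of_le_one_right (by positivity) hc1)
    refine h.congr (fun N => ?_)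
    rw [tsum_eq_sum (s := range (N + 1)) (fun i hi => ?_)]
    · rfl
    · rw [tm, c_zero_of_gt N i (by simpa using hi)]
      ring
  -- from the closed form
  have hE := E_tendsto h0 h1
  have hEpos := E_pos h0 h1
  have e1 : Tendsto (fun N : ℕ => 2 * N + 1) atTop atTop := by
    apply tendsto_atTop_mono (fun N => ?_) tendsto_id
    simp only [id]; omega
  have hlim2 : Tendsto (fun N => S q N * qp q (2 * N + 1)) atTop
      (𝓝 ((∑' i : ℕ, (-1) ^ i * a i q) * E q)) := hlim1.mul (hE.comp e1)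
  have hlim3 : Tendsto (fun N => qp q N ^ 3 * qp q (N + 1)) atTop (𝓝 (E q ^ 3 * E q)) :=
    (hE.pow 3).mul (hE.comp (tendsto_add_atTop_nat 1))
  have heq : (∑' i : ℕ, (-1) ^ i * a i q) * E q = E q ^ 3 * E q := by
    refine tendsto_nhds_unique hlim2 (hlim3.congr (fun N => ?_))
    exact (S_closed h0 h1 N).symm
  have heq2 : (∑' i : ℕ, (-1) ^ i * a i q) = E q ^ 3 := mul_right_cancel₀ hEpos.ne' heq
  have hsum : Summable (fun i : ℕ => (-1) ^ i * a i q) := by
    apply Summable.of_norm_bounded (a_summable h0 h1)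
    intro i
    rw [norm_mul, norm_pow, norm_neg, norm_one, one_pow, one_mul, Real.norm_of_nonneg (a_nonneg h0 i)]
  rw [← heq2]
  exact (hsum.hasSum.tendsto_sum_nat).comp (tendsto_add_atTop_nat 1)

end Pool.Agent.Helper42.Theta
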