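import Pool.Agent.Helper42.Theta2

open Finset Filter Topology

namespace Pool.Agent.Helper42.Theta

variable {q : ℝ}

/-- The ratio inequality. -/
theorem ratio {m : ℕ} (hm : 3 ≤ m) (h0 : 0 < q) (h1 : q < 1)
    (h : (2 * (m : ℝ) + 1) * q ^ m ≤ 2 * m - 1) :
    (2 * (m : ℝ) + 5) * (3 * q / (1 - q) ^ 2 + (m + 2) * (m + 3) / 2) * q ^ (m + 2) <
      (2 * m + 3) * (3 * q / (1 - q) ^ 2 + (m + 1) * (m + 2) / 2) := by
  have hM : (3 : ℝ) ≤ m := by exact_mod_cast hm
  set M : ℝ := (m : ℝ) with hMdef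
  have h1q : 0 < 1 - q := by linarith
  set K : ℝ := 3 * q / (1 - q) ^ 2 with hK
  have hKpos : 0 < K := by positivity
  set y : ℝ := q ^ (m + 2) with hy
  have hypos : 0 < y := by positivity
  rcases le_or_gt ((2 * M + 5) * (M + 3) * y) ((2 * M + 3) * (M + 1)) with hA | hA
  · -- case A1
    have h2 : (2 * M + 5) * (K + (M + 2) * (M + 3) / 2) * y * (M + 3) =
        ((2 * M + 5) * (M + 3) * y) * (K + (M + 2) * (M + 3) / 2) := by ring
    have h3 : ((2 * M + 5) * (M + 3) * y) * (K + (M + 2) * (M + 3) / 2) ≤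
        ((2 * M + 3) * (M + 1)) * (K + (M + 2) * (M + 3) / 2) := by gcongr
    have h4 : ((2 * M + 3) * (M + 1)) * (K + (M + 2) * (M + 3) / 2) <
        (2 * M + 3) * (K + (M + 1) * (M + 2) / 2) * (M + 3) := by
      have : (2 * M + 3) * (K + (M + 1) * (M + 2) / 2) * (M + 3) -
        ((2 * M + 3) * (M + 1)) * (K + (M + 2) * (M + 3) / 2) = 2 * (2 * M + 3) * K := by ring
      have : 0 < 2 * (2 * M + 3) * K := by positivity
      linarith
    have h5 : (2 * M + 5) * (K + (M + 2) * (M + 3) / 2) * y * (M + 3) <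
        (2 * M + 3) * (K + (M + 1) * (M + 2) / 2) * (M + 3) := by
      rw [h2]; exact lt_of_le_of_lt h3 h4
    exact lt_of_mul_lt_mul_right h5 (by linarith)
  · -- case A2
    have hbern : (1 - q) * ((M + 2) * y) ≤ 1 - y := by
      have h2 := mul_neg_geom_sum q (m + 2)
      rw [← hy] at h2
      rw [← h2]
      apply mul_le_mul_of_nonneg_left _ h1q.le
      have h3 : ∑ i ∈ range (m + 2), y ≤ ∑ i ∈ range (m + 2), q ^ i := by
        apply sum_le_sum
        intro i hi
        rw [mem_range] at hi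
        exact pow_le_pow_of_le_one h0.le h1.le hi.le
      rw [sum_const, card_range, nsmul_eq_mul] at h3
      push_cast at h3
      exact h3
    have hy1 : y < 1 := pow_lt_one₀ h0.le h1 (by omega)
    -- (1 - q) * (2M+3) * (M+1) < 6
    have h6 : (1 - q) * ((2 * M + 3) * (M + 1)) < 6 := by
      have h7 : (1 - q) * (M + 2) * y ≤ 1 - y := by linarith
      -- multiply by (2M+3)(M+1)
      have h8 : (1 - q) * ((2 * M + 3) * (M + 1)) * ((M + 2) * y) ≤
          (1 - y) * ((2 * M + 3) * (M + 1)) := by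
        have h11 := mul_le_mul_of_nonneg_right h7 (show 0 ≤ (2 * M + 3) * (M + 1) by positivity)
        linarith
      have h9 : (1 - y) * ((2 * M + 3) * (M + 1)) < 6 * ((M + 2) * y) := by nlinarith
      have h10 : (1 - q) * ((2 * M + 3) * (M + 1)) * ((M + 2) * y) < 6 * ((M + 2) * y) :=
        lt_of_le_of_lt h8 h9
      exact lt_of_mul_lt_mul_right h10 (by positivity)
    have hqy : y ≤ q := by
      calc y = q ^ (m + 2) := hy
        _ ≤ q ^ 1 := pow_le_pow_of_le_one h0.le h1.le (by omega)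
        _ = q := pow_one q
    have hq12 : 1 / 2 ≤ q := by
      have h7 : (2 * M + 3) * (M + 1) < (2 * M + 5) * (M + 3) * q := by
        refine lt_of_lt_of_le hA ?_
        gcongr
      by_contra hcon
      push Not at hcon
      have h11 := mul_lt_mul_of_pos_left hcon (show 0 < (2 * M + 5) * (M + 3) by positivity)
      nlinarith
    -- lower bound for K
    have hKlow : (2 * M + 3) ^ 2 * (M + 1) ^ 2 / 24 ≤ K := by
      rw [hK, le_div_iff₀ (by positivity)]
      have h7 : ((1 - q) * ((2 * M + 3) * (M + 1))) ^ 2 ≤ 6 ^ 2 :=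
        pow_le_pow_left₀ (by positivity) h6.le 2
      nlinarith
    have hKlow2 : (M + 2) * (2 * M + 5) * (2 * M - 1) / 8 ≤ K := by
      refine le_trans ?_ hKlow
      have : 3 * ((M + 2) * (2 * M + 5) * (2 * M - 1)) ≤ (2 * M + 3) ^ 2 * (M + 1) ^ 2 := by
        have h7 : (2 * M + 3) ^ 2 * (M + 1) ^ 2 - 3 * ((M + 2) * (2 * M + 5) * (2 * M - 1)) =
          4 * M ^ 3 * (M - 3) + 20 * M ^ 2 * (M - 3) + 49 * M * (M - 3) + 144 * (M - 3) + 471 := by ring
        have h8 : 0 ≤ M - 3 := by linarith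
        have h9 : 0 ≤ 4 * M ^ 3 * (M - 3) + 20 * M ^ 2 * (M - 3) + 49 * M * (M - 3) +
          144 * (M - 3) + 471 := by positivity
        linarith
      linarith
    have hy2 : (2 * M + 1) * y ≤ 2 * M - 1 := by
      refine le_trans ?_ h
      have : y ≤ q ^ m := pow_le_pow_of_le_one h0.le h1.le (by omega)
      gcongr
    have hfin : (2 * M + 5) * (K + (M + 2) * (M + 3) / 2) * y * (2 * M + 1) <
        (2 * M + 3) * (K + (M + 1) * (M + 2) / 2) * (2 * M + 1) := by
      have h7 : (2 * M + 5) * (K + (M + 2) * (M + 3) / 2) * y * (2 * M + 1) =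
        (2 * M + 5) * (K + (M + 2) * (M + 3) / 2) * ((2 * M + 1) * y) := by ring
      have h8 : (2 * M + 5) * (K + (M + 2) * (M + 3) / 2) * ((2 * M + 1) * y) ≤
        (2 * M + 5) * (K + (M + 2) * (M + 3) / 2) * (2 * M - 1) := by gcongr
      have h9 : (2 * M + 3) * (K + (M + 1) * (M + 2) / 2) * (2 * M + 1) -
        (2 * M + 5) * (K + (M + 2) * (M + 3) / 2) * (2 * M - 1) =
        8 * (K - (M + 2) * (2 * M + 5) * (2 * M - 1) / 8) + 4 * (M + 1) * (M + 2) := by ring
      have h10 : 0 < 4 * (M + 1) * (M + 2) := by positivity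
      rw [h7]
      linarith
    exact lt_of_mul_lt_mul_right hfin (by linarith)

end Pool.Agent.Helper42.Theta
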