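import Pool.Agent.Helper42.Theta3

open Finset Filter Topology

namespace Pool.Agent.Helper42.Theta

variable {q : ℝ}

theorem tri_cast (i : ℕ) : (tri i : ℝ) = i * (i + 1) / 2 := by
  have h := two_mul_tri i
  have h2 : (2 : ℝ) * (tri i : ℝ) = (i : ℝ) ^ 2 + i := by exact_mod_cast h
  linarith

theorem P_succ (n : ℕ) (q : ℝ) : P (n + 1) q = P n q + (-1) ^ (n + 1) * a (n + 1) q := by
  unfold P
  rw [sum_range_succ]

/-- The weight `exp(3q/(1-q))`. -/
noncomputable def wt (q : ℝ) : ℝ := Real.exp (3 * (q / (1 - q)))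

/-- a pair of consecutive terms, weighted -/
noncomputable def g (m : ℕ) (q : ℝ) : ℝ := (a (m + 1) q - a (m + 2) q) * wt q

/-- weighted partial sums -/
noncomputable def H (n : ℕ) (q : ℝ) : ℝ := P n q * wt q

theorem wt_pos (q : ℝ) : 0 < wt q := Real.exp_pos _

theorem wt_hasDerivAt (h1 : q < 1) : HasDerivAt wt (wt q * (3 * (1 / (1 - q) ^ 2))) q := by
  have h1q : (1 - q) ≠ 0 := by linarith
  have h2 : HasDerivAt (fun x : ℝ => x / (1 - x)) ((1 * (1 - q) - q * (-1)) / (1 - q) ^ 2) q :=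
    (hasDerivAt_id' q).fun_div ((hasDerivAt_id' q).const_sub 1) h1q
  have h3 : (1 * (1 - q) - q * (-1)) / (1 - q) ^ 2 = 1 / (1 - q) ^ 2 := by ring
  rw [h3] at h2
  exact (h2.const_mul 3).exp

theorem a_hasDerivAt (j : ℕ) (q : ℝ) :
    HasDerivAt (a j) ((2 * j + 1) * (tri j * q ^ (tri j - 1))) q := by
  unfold a
  exact (hasDerivAt_pow (tri j) q).const_mul _

theorem a_mul (j : ℕ) (q : ℝ) : q * ((2 * j + 1) * (tri j * q ^ (tri j - 1))) = tri j * a j q := by
  unfold a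
  rcases Nat.eq_zero_or_pos (tri j) with h | h
  · rw [h]; simp
  · have : q ^ tri j = q * q ^ (tri j - 1) := by
      rw [← pow_succ']; congr 1; omega
    rw [this]; ring

/-- the weighted pair is strictly increasing -/
theorem g_deriv {m : ℕ} (hm : 3 ≤ m) (h0 : 0 < q) (h1 : q < 1)
    (h : (2 * (m : ℝ) + 1) * q ^ m ≤ 2 * m - 1) : ∃ D : ℝ, 0 < D ∧ HasDerivAt (g m) D q := by
  have hd := ((a_hasDerivAt (m + 1) q).fun_sub (a_hasDerivAt (m + 2) q)).fun_mul (wt_hasDerivAt h1)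
  refine ⟨_, ?_, hd⟩
  have hr := ratio hm h0 h1 h
  have h1q : 0 < 1 - q := by linarith
  -- multiply by q
  have hw := wt_pos q
  have e1 := a_mul (m + 1) q
  have e2 := a_mul (m + 2) q
  have ha2 : a (m + 2) q = (2 * (m : ℝ) + 5) * q ^ tri (m + 1) * q ^ (m + 2) := by
    unfold a
    have : tri (m + 2) = tri (m + 1) + (m + 2) := rfl
    rw [this, pow_add]
    push_cast
    ring
  have ha1 : a (m + 1) q = (2 * (m : ℝ) + 3) * q ^ tri (m + 1) := by
    unfold a
    push_cast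
    ring
  have ht1 := tri_cast (m + 1)
  have ht2 := tri_cast (m + 2)
  push_cast at ht1 ht2
  set X : ℝ := (2 * ((m + 1 : ℕ) : ℝ) + 1) * (tri (m + 1) * q ^ (tri (m + 1) - 1)) with hX
  set Y : ℝ := (2 * ((m + 2 : ℕ) : ℝ) + 1) * (tri (m + 2) * q ^ (tri (m + 2) - 1)) with hY
  have hpow : 0 < q ^ tri (m + 1) := by positivity
  have key : 0 < q * ((X - Y) * wt q + (a (m + 1) q - a (m + 2) q) * (wt q * (3 * (1 / (1 - q) ^ 2)))) := by
    have e3 : q * ((X - Y) * wt q + (a (m + 1) q - a (m + 2) q) * (wt q * (3 * (1 / (1 - q) ^ 2)))) =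
      wt q * ((q * X - q * Y) + (a (m + 1) q - a (m + 2) q) * (3 * q / (1 - q) ^ 2)) := by ring
    rw [e3, e1, e2, ha1, ha2, ht1, ht2]
    have e4 : (((m : ℝ) + 1) * (m + 1 + 1) / 2 * ((2 * (m : ℝ) + 3) * q ^ tri (m + 1)) -
        ((m : ℝ) + 2) * (m + 2 + 1) / 2 * ((2 * (m : ℝ) + 5) * q ^ tri (m + 1) * q ^ (m + 2))) +
        ((2 * (m : ℝ) + 3) * q ^ tri (m + 1) - (2 * (m : ℝ) + 5) * q ^ tri (m + 1) * q ^ (m + 2)) *
          (3 * q / (1 - q) ^ 2) =
        q ^ tri (m + 1) * ((2 * m + 3) * (3 * q / (1 - q) ^ 2 + (m + 1) * (m + 2) / 2) -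
          (2 * (m : ℝ) + 5) * (3 * q / (1 - q) ^ 2 + (m + 2) * (m + 3) / 2) * q ^ (m + 2)) := by ring
    rw [e4]
    have := sub_pos.mpr hr
    positivity
  exact (mul_pos_iff_of_pos_left h0).mp key

theorem P_continuous (n : ℕ) : Continuous (P n) := by
  unfold P a
  fun_prop

theorem P_differentiable (n : ℕ) : Differentiable ℝ (P n) := by
  unfold P a
  fun_prop

theorem g_continuousOn (m : ℕ) {b : ℝ} (hb : b < 1) : ContinuousOn (g m) (Set.Icc 0 b) := by
  intro x hx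
  have hx1 : x < 1 := lt_of_le_of_lt hx.2 hb
  have h1 : ContinuousAt (fun q => a (m + 1) q - a (m + 2) q) x := by
    unfold a; fun_prop
  exact (h1.mul (wt_hasDerivAt hx1).continuousAt).continuousWithinAt

theorem H_continuousOn (m : ℕ) {b : ℝ} (hb : b < 1) : ContinuousOn (H m) (Set.Icc 0 b) := by
  intro x hx
  have hx1 : x < 1 := lt_of_le_of_lt hx.2 hb
  exact ((P_continuous m).continuousAt.mul (wt_hasDerivAt hx1).continuousAt).continuousWithinAt

/-- The condition propagates. -/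
theorem cond {n m : ℕ} {b : ℝ} (hn : 3 ≤ n) (hnm : n ≤ m) (hb1 : b < 1)
    (hbn : (2 * (n : ℝ) + 1) * b ^ n = 2 * n - 1) {q : ℝ} (h0 : 0 ≤ q) (hqb : q ≤ b) :
    (2 * (m : ℝ) + 1) * q ^ m ≤ 2 * m - 1 := by
  have hN : (3 : ℝ) ≤ n := by exact_mod_cast hn
  have hNM : (n : ℝ) ≤ m := by exact_mod_cast hnm
  have h1 : q ^ m ≤ q ^ n := pow_le_pow_of_le_one h0 (hqb.trans hb1.le) hnm
  have h2 : q ^ n ≤ b ^ n := pow_le_pow_left₀ h0 hqb n
  have h3 : q ^ m ≤ b ^ n := h1.trans h2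
  have h4 : (2 * (m : ℝ) + 1) * q ^ m ≤ (2 * (m : ℝ) + 1) * b ^ n := by gcongr
  refine h4.trans ?_
  have h5 : b ^ n = (2 * n - 1) / (2 * n + 1) := by
    rw [eq_div_iff (by positivity)]; linarith
  rw [h5, ← mul_div_assoc, div_le_iff₀ (by positivity)]
  nlinarith

theorem g_monotoneOn {n m : ℕ} {b : ℝ} (hn : 3 ≤ n) (hnm : n ≤ m) (hb1 : b < 1)
    (hbn : (2 * (n : ℝ) + 1) * b ^ n = 2 * n - 1) : MonotoneOn (g m) (Set.Icc 0 b) := by
  have hD : ∀ x ∈ interior (Set.Icc 0 b), ∃ D : ℝ, 0 < D ∧ HasDerivAt (g m) D x := by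
    intro x hx
    rw [interior_Icc] at hx
    exact g_deriv (hn.trans hnm) hx.1 (lt_trans hx.2 hb1) (cond hn hnm hb1 hbn hx.1.le hx.2.le)
  apply monotoneOn_of_deriv_nonneg (convex_Icc 0 b) (g_continuousOn m hb1)
  · intro x hx
    obtain ⟨D, _, hD2⟩ := hD x hx
    exact hD2.differentiableAt.differentiableWithinAt
  · intro x hx
    obtain ⟨D, hD1, hD2⟩ := hD x hx
    rw [hD2.deriv]
    exact hD1.le

theorem H_step {m : ℕ} (hm : Odd m) (q : ℝ) : H (m + 2) q = H m q + g m q := by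
  unfold H g
  have h1 : P (m + 2) q = P m q + a (m + 1) q - a (m + 2) q := by
    rw [show m + 2 = (m + 1) + 1 by ring, P_succ, P_succ]
    have e1 : (-1 : ℝ) ^ (m + 1) = 1 := hm.add_one.neg_one_pow
    have e2 : (-1 : ℝ) ^ (m + 1 + 1) = -1 := by rw [pow_succ, e1]; ring
    rw [e1, e2]; ring
  rw [h1]; ring

theorem H_tendsto (h0 : 0 ≤ q) (h1 : q < 1) :
    Tendsto (fun n => H n q) atTop (𝓝 ((E q * Real.exp (q / (1 - q))) ^ 3)) := by
  have h := (jacobi h0 h1).mul_const (wt q)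
  have e : E q ^ 3 * wt q = (E q * Real.exp (q / (1 - q))) ^ 3 := by
    unfold wt
    rw [mul_pow, ← Real.exp_nat_mul]
    norm_num
  rw [e] at h
  exact h

theorem H_antitoneOn {n m : ℕ} {b : ℝ} (hn : 3 ≤ n) (hnm : n ≤ m) (hmo : Odd m) (hb1 : b < 1)
    (hbn : (2 * (n : ℝ) + 1) * b ^ n = 2 * n - 1) : AntitoneOn (H m) (Set.Icc 0 b) := by
  intro x hx y hy hxy
  have hx1 : x < 1 := lt_of_le_of_lt hx.2 hb1
  have hy1 : y < 1 := lt_of_le_of_lt hy.2 hb1
  have hstep : ∀ k : ℕ, H (m + 2 * k) x - H (m + 2 * k) y ≤ H m x - H m y := by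
    intro k
    induction k with
    | zero => simp
    | succ k ih =>
      have hodd : Odd (m + 2 * k) := hmo.add_even (even_two_mul k)
      have e : m + 2 * (k + 1) = m + 2 * k + 2 := by ring
      rw [e, H_step hodd, H_step hodd]
      have := g_monotoneOn (m := m + 2 * k) hn (by omega) hb1 hbn hx hy hxy
      linarith
  have t : Tendsto (fun k : ℕ => m + 2 * k) atTop atTop := by
    apply tendsto_atTop_mono (fun k => ?_) tendsto_id
    simp only [id]; omega
  have tx := (H_tendsto hx.1 hx1).comp t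
  have ty := (H_tendsto hy.1 hy1).comp t
  have hlim := le_of_tendsto' (tx.sub ty) hstep
  have hE := E_exp_antitone hx.1 hxy hy1
  have hE0 : 0 ≤ E y * Real.exp (y / (1 - y)) :=
    mul_nonneg (E_pos hy.1 hy1).le (Real.exp_pos _).le
  have hE3 := pow_le_pow_left₀ hE0 hE 3
  linarith

theorem H_deriv_neg {n : ℕ} {b : ℝ} (hn : 3 ≤ n) (hno : Odd n) (hb1 : b < 1)
    (hbn : (2 * (n : ℝ) + 1) * b ^ n = 2 * n - 1) {x : ℝ} (hx0 : 0 < x) (hxb : x < b) :
    deriv (H n) x < 0 := by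
  have hx1 : x < 1 := hxb.trans hb1
  obtain ⟨D, hD1, hD2⟩ := g_deriv hn hx0 hx1 (cond hn le_rfl hb1 hbn hx0.le hxb.le)
  have hanti := H_antitoneOn (m := n + 2) hn (by omega) (hno.add_even even_two) hb1 hbn
  have hd : ∀ k, DifferentiableAt ℝ (H k) x := fun k =>
    ((P_differentiable k).differentiableAt).mul (wt_hasDerivAt hx1).differentiableAt
  have h1 : deriv (H (n + 2)) x ≤ 0 := by
    have h2 := hanti.derivWithin_nonpos (x := x)
    rwa [derivWithin_of_mem_nhds (Icc_mem_nhds hx0 hxb)] at h2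
  have h3 : HasDerivAt (H (n + 2)) (deriv (H n) x + D) x := by
    have h4 : H (n + 2) = fun y => H n y + g n y := by
      ext y; exact H_step hno y
    rw [h4]
    exact (hd n).hasDerivAt.fun_add hD2
  rw [h3.deriv] at h1
  linarith

theorem H_strictAntiOn {n : ℕ} {b : ℝ} (hn : 3 ≤ n) (hno : Odd n) (hb1 : b < 1)
    (hbn : (2 * (n : ℝ) + 1) * b ^ n = 2 * n - 1) : StrictAntiOn (H n) (Set.Icc 0 b) := by
  apply strictAntiOn_of_deriv_neg (convex_Icc 0 b) (H_continuousOn n hb1)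
  intro x hx
  rw [interior_Icc] at hx
  exact H_deriv_neg hn hno hb1 hbn hx.1 hx.2

/-- existence of the threshold -/
theorem exists_b {n : ℕ} (hn : 1 ≤ n) : ∃ b : ℝ, 0 < b ∧ b < 1 ∧
    (2 * (n : ℝ) + 1) * b ^ n = 2 * n - 1 := by
  have hN : (1 : ℝ) ≤ n := by exact_mod_cast hn
  have hr0 : 0 < (2 * (n : ℝ) - 1) / (2 * n + 1) := div_pos (by linarith) (by positivity)
  have hr1 : (2 * (n : ℝ) - 1) / (2 * n + 1) < 1 := by
    rw [div_lt_one (by positivity)]; linarith
  refine ⟨((2 * (n : ℝ) - 1) / (2 * n + 1)) ^ ((n : ℝ)⁻¹), Real.rpow_pos_of_pos hr0 _, ?_, ?_⟩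
  · exact Real.rpow_lt_one hr0.le hr1 (by positivity)
  · rw [Real.rpow_inv_natCast_pow hr0.le (by omega)]
    field_simp

/-- beyond the threshold, consecutive terms increase -/
theorem a_step {n j : ℕ} {b : ℝ} (hn : 1 ≤ n) (hj : j + 1 ≤ n) (hb0 : 0 < b) (hb1 : b < 1)
    (hbn : (2 * (n : ℝ) + 1) * b ^ n = 2 * n - 1) {q : ℝ} (hq : b ≤ q) : a j q ≤ a (j + 1) q := by
  have hq0 : 0 < q := lt_of_lt_of_le hb0 hq
  have hJ : (j : ℝ) + 1 ≤ n := by exact_mod_cast hj
  have hJ0 : (0 : ℝ) ≤ j := Nat.cast_nonneg j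
  unfold a
  have e : q ^ tri (j + 1) = q ^ tri j * q ^ (j + 1) := by
    rw [← pow_add]; rfl
  rw [e]
  push_cast
  have h1 : b ^ n ≤ q ^ (j + 1) := by
    calc b ^ n ≤ b ^ (j + 1) := pow_le_pow_of_le_one hb0.le hb1.le hj
      _ ≤ q ^ (j + 1) := pow_le_pow_left₀ hb0.le hq _
  have h2 : 2 * (j : ℝ) + 1 ≤ (2 * (j + 1) + 1) * b ^ n := by
    have h5 : b ^ n = (2 * n - 1) / (2 * n + 1) := by
      rw [eq_div_iff (by positivity)]; linarith
    rw [h5, ← mul_div_assoc, le_div_iff₀ (by positivity)]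
    nlinarith
  have h3 : 2 * (j : ℝ) + 1 ≤ (2 * (j + 1) + 1) * q ^ (j + 1) :=
    h2.trans (by gcongr)
  have h4 : 0 < q ^ tri j := by positivity
  calc (2 * (j : ℝ) + 1) * q ^ tri j ≤ ((2 * (j + 1) + 1) * q ^ (j + 1)) * q ^ tri j := by gcongr
    _ = _ := by ring

/-- strict version at the bottom -/
theorem a_step_strict {n : ℕ} {b : ℝ} (hn : 2 ≤ n) (hb0 : 0 < b) (hb1 : b < 1)
    (hbn : (2 * (n : ℝ) + 1) * b ^ n = 2 * n - 1) {q : ℝ} (hq : b ≤ q) : a 0 q < a 1 q := by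
  have hN : (2 : ℝ) ≤ n := by exact_mod_cast hn
  have h1 : b ^ n ≤ q := by
    calc b ^ n ≤ b ^ 1 := pow_le_pow_of_le_one hb0.le hb1.le (by omega)
      _ = b := pow_one b
      _ ≤ q := hq
  have h5 : b ^ n = (2 * n - 1) / (2 * n + 1) := by
    rw [eq_div_iff (by positivity)]; linarith
  have h6 : 1 / 3 < b ^ n := by
    rw [h5, lt_div_iff₀ (by positivity)]
    linarith
  unfold a
  simp only [tri]
  norm_num
  linarith

theorem P_neg {n : ℕ} {b : ℝ} (hn : 3 ≤ n) (hno : Odd n) (hb0 : 0 < b) (hb1 : b < 1)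
    (hbn : (2 * (n : ℝ) + 1) * b ^ n = 2 * n - 1) {q : ℝ} (hq : b ≤ q) : P n q < 0 := by
  obtain ⟨k, rfl⟩ := hno
  have h : ∀ i : ℕ, i ≤ k → P (2 * i + 1) q < 0 := by
    intro i
    induction i with
    | zero =>
      intro _
      have := a_step_strict (n := 2 * k + 1) (by omega) hb0 hb1 hbn hq
      rw [P, sum_range_succ, sum_range_succ]
      simp only [mul_zero, range_zero, sum_empty, zero_add, pow_zero, one_mul, pow_one]
      linarith
    | succ i ih =>
      intro hi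
      have h1 := ih (by omega)
      have h2 := a_step (n := 2 * k + 1) (j := 2 * i + 2) (by omega) (by omega) hb0 hb1 hbn hq
      have e : 2 * (i + 1) + 1 = (2 * i + 1) + 1 + 1 := by ring
      rw [e, P_succ, P_succ]
      have e1 : (-1 : ℝ) ^ (2 * i + 1 + 1) = 1 := by
        rw [show 2 * i + 1 + 1 = 2 * (i + 1) by ring, pow_mul]; norm_num
      have e2 : (-1 : ℝ) ^ (2 * i + 1 + 1 + 1) = -1 := by rw [pow_succ, e1]; ring
      rw [e1, e2]
      have e3 : 2 * i + 1 + 1 = 2 * i + 2 := by ring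
      have e4 : 2 * i + 1 + 1 + 1 = 2 * i + 2 + 1 := by ring
      rw [e3, e4] at *
      linarith
  exact h k le_rfl

/-- even case -/
theorem P_pos {n : ℕ} (hn : 2 ≤ n) (hne : Even n) {q : ℝ} (h0 : 0 ≤ q) : 0 < P n q := by
  obtain ⟨b, hb0, hb1, hbn⟩ := exists_b (n := n) (by omega)
  rcases le_or_gt b q with hq | hq
  · obtain ⟨k, rfl⟩ := hne
    have h : ∀ i : ℕ, i ≤ k → 0 < P (2 * i) q := by
      intro i
      induction i with
      | zero =>
        intro _
        rw [P, sum_range_succ]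
        simp [a, tri]
      | succ i ih =>
        intro hi
        have h1 := ih (by omega)
        have h2 := a_step (n := k + k) (j := 2 * i + 1) (by omega) (by omega) hb0 hb1 hbn hq
        have e : 2 * (i + 1) = 2 * i + 1 + 1 := by ring
        rw [e, P_succ, P_succ]
        have e1 : (-1 : ℝ) ^ (2 * i + 1) = -1 := by
          rw [pow_succ, pow_mul]; norm_num
        have e2 : (-1 : ℝ) ^ (2 * i + 1 + 1) = 1 := by rw [pow_succ, e1]; ring
        rw [e1, e2]
        linarith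
    have := h k le_rfl
    rwa [two_mul] at this
  · have hq1 : q < 1 := hq.trans hb1
    have hstep : ∀ k : ℕ, P (n + 2 * k) q ≤ P n q := by
      intro k
      induction k with
      | zero => simp
      | succ k ih =>
        have e : n + 2 * (k + 1) = n + 2 * k + 1 + 1 := by ring
        rw [e, P_succ, P_succ]
        have hev : Even (n + 2 * k) := hne.add (even_two_mul k)
        have e1 : (-1 : ℝ) ^ (n + 2 * k + 1) = -1 := hev.add_one.neg_one_pow
        have e2 : (-1 : ℝ) ^ (n + 2 * k + 1 + 1) = 1 := by rw [pow_succ, e1]; ring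
        rw [e1, e2]
        -- a (j+1) ≤ a j
        have h1 : a (n + 2 * k + 1 + 1) q ≤ a (n + 2 * k + 1) q := by
          unfold a
          have e3 : q ^ tri (n + 2 * k + 1 + 1) = q ^ tri (n + 2 * k + 1) * q ^ (n + 2 * k + 1 + 1) := by
            rw [← pow_add]; rfl
          rw [e3]
          push_cast
          have hN : (2 : ℝ) ≤ n := by exact_mod_cast hn
          have hK : (0 : ℝ) ≤ k := Nat.cast_nonneg k
          have h3 : q ^ (n + 2 * k + 1 + 1) ≤ b ^ n := by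
            calc q ^ (n + 2 * k + 1 + 1) ≤ q ^ n := pow_le_pow_of_le_one h0 hq1.le (by omega)
              _ ≤ b ^ n := pow_le_pow_left₀ h0 hq.le n
          have h5 : b ^ n = (2 * n - 1) / (2 * n + 1) := by
            rw [eq_div_iff (by positivity)]; linarith
          have h6 : (2 * ((n : ℝ) + 2 * k + 1 + 1) + 1) * b ^ n ≤ 2 * ((n : ℝ) + 2 * k + 1) + 1 := by
            rw [h5, ← mul_div_assoc, div_le_iff₀ (by positivity)]
            nlinarith
          have h7 : (2 * ((n : ℝ) + 2 * k + 1 + 1) + 1) * q ^ (n + 2 * k + 1 + 1) ≤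
              2 * ((n : ℝ) + 2 * k + 1) + 1 := le_trans (by gcongr) h6
          have h8 : 0 ≤ q ^ tri (n + 2 * k + 1) := by positivity
          calc (2 * ((n : ℝ) + 2 * k + 1 + 1) + 1) * (q ^ tri (n + 2 * k + 1) * q ^ (n + 2 * k + 1 + 1))
              = ((2 * ((n : ℝ) + 2 * k + 1 + 1) + 1) * q ^ (n + 2 * k + 1 + 1)) * q ^ tri (n + 2 * k + 1) := by ring
            _ ≤ _ := by gcongr
        linarith
    have t : Tendsto (fun k : ℕ => n + 2 * k) atTop atTop := by
      apply tendsto_atTop_mono (fun k => ?_) tendsto_id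
      simp only [id]; omega
    have hlim := le_of_tendsto' ((jacobi h0 hq1).comp t) hstep
    have := E_pos h0 hq1
    have : 0 < E q ^ 3 := by positivity
    linarith

/-- odd case: a unique nonnegative zero, which is simple -/
theorem P_odd {n : ℕ} (hn : 3 ≤ n) (hno : Odd n) :
    ∃ q₀ : ℝ, 0 < q₀ ∧ P n q₀ = 0 ∧ (∀ q : ℝ, 0 ≤ q → P n q = 0 → q = q₀) ∧ deriv (P n) q₀ ≠ 0 := by
  obtain ⟨b, hb0, hb1, hbn⟩ := exists_b (n := n) (by omega)
  have hP0 : P n 0 = 1 := by
    unfold P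
    rw [sum_eq_single 0]
    · simp [a, tri]
    · intro j _ hj
      have : tri j ≠ 0 := by
        have := le_tri j
        omega
      simp [a, this]
    · simp
  have hPb : P n b < 0 := P_neg hn hno hb0 hb1 hbn le_rfl
  have hiv : (0 : ℝ) ∈ P n '' Set.Icc 0 b := by
    apply intermediate_value_Icc' hb0.le (P_continuous n).continuousOn
    constructor <;> linarith
  obtain ⟨x, hx, hx0⟩ := hiv
  have hxpos : 0 < x := by
    rcases lt_or_eq_of_le hx.1 with h | h
    · exact h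
    · rw [← h, hP0] at hx0; norm_num at hx0
  have hxb : x < b := by
    rcases lt_or_eq_of_le hx.2 with h | h
    · exact h
    · rw [h] at hx0; linarith
  have hx1 : x < 1 := hxb.trans hb1
  refine ⟨x, hxpos, hx0, ?_, ?_⟩
  · intro y hy hy0
    rcases le_or_gt b y with h | h
    · have := P_neg hn hno hb0 hb1 hbn h
      linarith
    · have hanti := H_strictAntiOn hn hno hb1 hbn
      apply hanti.injOn ⟨hy, h.le⟩ hx
      unfold H
      rw [hy0, hx0, zero_mul, zero_mul]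
  · have hneg := H_deriv_neg hn hno hb1 hbn hxpos hxb
    have h1 : HasDerivAt (H n) (deriv (P n) x * wt x + P n x * (wt x * (3 * (1 / (1 - x) ^ 2)))) x :=
      (P_differentiable n).differentiableAt.hasDerivAt.fun_mul (wt_hasDerivAt hx1)
    rw [h1.deriv, hx0] at hneg
    intro h0
    rw [h0] at hneg
    simp at hneg

end Pool.Agent.Helper42.Theta
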